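import Pool.Agent.H96.DR.Def
import Pool.Agent.H23.LP.Box

/-!
# [DR BXE] the norm in the box, precise form, 60-110 lines. File Pool/Agent/H96/DR/Bxe.lean

The same computation as in `H23/LP/Box.lean` (the private lemmas `nn_err`, `tri_low`, `cube_low`; copy them): with `P = M A`, `e = A = P/M`, `κ = |k|`, `L = κ + 2`: `|nn k a b c - NS k P³| ≤ K1 P² e = (K1/M) P³` with `K1 = K1(k)`, and `NS k ≥ 1` (`NS_pos`), so `≤ ε NS k P³` for `M ≥ K1/ε`.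
-/

set_option autoImplicit false

namespace H96.DR

open Finset H23.LP

private theorem LLc (k : ℤ) : ((LL k : ℤ) : ℝ) = |(k : ℝ)| + 2 := by
  simp [LL]

private theorem cube_low (u v e P B : ℝ) (hv : 0 ≤ v) (huv : v ≤ u) (hue : u ≤ v + e) (hu : u ≤ B * P)
    (hP : 0 < P) (he : 0 ≤ e) : 0 ≤ u ^ 3 - v ^ 3 ∧ u ^ 3 - v ^ 3 ≤ 3 * B ^ 2 * P ^ 2 * e := by
  have hu0 : 0 ≤ u := le_trans hv huv
  have h1 : u ^ 3 - v ^ 3 = (u - v) * (u ^ 2 + u * v + v ^ 2) := by ring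
  have h2 : u ^ 2 + u * v + v ^ 2 ≤ 3 * u ^ 2 := by nlinarith
  have h3 : u ^ 2 ≤ (B * P) ^ 2 := pow_le_pow_left₀ hu0 hu 2
  have h4 : 0 ≤ u ^ 2 + u * v + v ^ 2 := by positivity
  constructor
  · rw [h1]; exact mul_nonneg (by linarith) h4
  · rw [h1]
    calc (u - v) * (u ^ 2 + u * v + v ^ 2) ≤ e * (3 * (B * P) ^ 2) :=
          mul_le_mul (by linarith) (by linarith) h4 he
      _ = 3 * B ^ 2 * P ^ 2 * e := by ring

private theorem tri_low (a b c P e L : ℝ) (hL : 2 ≤ L) (hP : 0 < P) (he : 0 ≤ e) (heP : e ≤ P)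
    (ha1 : 2 * L ^ 2 * P ≤ a) (ha2 : a ≤ 2 * L ^ 2 * P + e) (hb1 : L * P ≤ b) (hb2 : b ≤ L * P + e)
    (hc1 : P ≤ c) (hc2 : c ≤ P + e) :
    0 ≤ a * b * c - 2 * L ^ 3 * P ^ 3 ∧
      a * b * c - 2 * L ^ 3 * P ^ 3 ≤ (2 * (L + 1) + 4 * L ^ 2 + 2 * L ^ 3) * P ^ 2 * e := by
  have hL0 : 0 < L := by linarith
  have hLP : 0 < L * P := by positivity
  have ha0 : 0 < 2 * L ^ 2 * P := by positivity
  have hb0 : 0 < b := lt_of_lt_of_le hLP hb1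
  have hc0 : 0 < c := lt_of_lt_of_le hP hc1
  have hbu : b ≤ (L + 1) * P := by nlinarith
  have hcu : c ≤ 2 * P := by linarith
  have key : a * b * c - 2 * L ^ 3 * P ^ 3 = (a - 2 * L ^ 2 * P) * (b * c) +
      2 * L ^ 2 * P * (b - L * P) * c + 2 * L ^ 2 * P * (L * P) * (c - P) := by ring
  have k1 : 0 ≤ (a - 2 * L ^ 2 * P) * (b * c) := mul_nonneg (by linarith) (by positivity)
  have k2 : 0 ≤ 2 * L ^ 2 * P * (b - L * P) * c :=
    mul_nonneg (mul_nonneg ha0.le (by linarith)) hc0.le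
  have k3 : 0 ≤ 2 * L ^ 2 * P * (L * P) * (c - P) :=
    mul_nonneg (mul_nonneg ha0.le hLP.le) (by linarith)
  have u1 : (a - 2 * L ^ 2 * P) * (b * c) ≤ e * (((L + 1) * P) * (2 * P)) :=
    mul_le_mul (by linarith) (mul_le_mul hbu hcu hc0.le (by positivity)) (by positivity) he
  have u2 : 2 * L ^ 2 * P * (b - L * P) * c ≤ 2 * L ^ 2 * P * e * (2 * P) :=
    mul_le_mul (mul_le_mul_of_nonneg_left (by linarith) ha0.le) hcu hc0.le (by positivity)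
  have u3 : 2 * L ^ 2 * P * (L * P) * (c - P) ≤ 2 * L ^ 2 * P * (L * P) * e :=
    mul_le_mul_of_nonneg_left (by linarith) (by positivity)
  rw [key]
  constructor
  · linarith
  · calc _ ≤ e * (((L + 1) * P) * (2 * P)) + 2 * L ^ 2 * P * e * (2 * P) +
          2 * L ^ 2 * P * (L * P) * e := by linarith
      _ = _ := by ring

private noncomputable def K1 (L : ℝ) : ℝ :=
  3 * (2 * L ^ 2 + 1) ^ 2 + L * (3 * (L + 1) ^ 2) + L ^ 2 * 12 +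
    3 * L * (2 * (L + 1) + 4 * L ^ 2 + 2 * L ^ 3)

private theorem absmul_le (k t s : ℝ) (L : ℝ) (hk : |k| ≤ L) (h0 : 0 ≤ t) (h1 : t ≤ s) :
    |k * t| ≤ L * s := by
  rw [abs_mul, abs_of_nonneg h0]
  exact mul_le_mul hk h1 h0 (le_trans (abs_nonneg _) hk)

private theorem nn_err (k a b c P e L : ℝ) (hL : 2 ≤ L) (hk : |k| ≤ L) (hP : 0 < P) (he : 0 ≤ e)
    (heP : e ≤ P)
    (ha1 : 2 * L ^ 2 * P ≤ a) (ha2 : a ≤ 2 * L ^ 2 * P + e) (hb1 : L * P ≤ b) (hb2 : b ≤ L * P + e)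
    (hc1 : P ≤ c) (hc2 : c ≤ P + e) :
    |a ^ 3 + k * b ^ 3 + k ^ 2 * c ^ 3 - 3 * k * a * b * c -
      (8 * L ^ 6 - 5 * k * L ^ 3 + k ^ 2) * P ^ 3| ≤ K1 L * P ^ 2 * e := by
  have hL0 : 0 < L := by linarith
  have A := cube_low a (2 * L ^ 2 * P) e P (2 * L ^ 2 + 1) (by positivity) ha1 ha2
    (by nlinarith) hP he
  have B := cube_low b (L * P) e P (L + 1) (by positivity) hb1 hb2 (by nlinarith) hP he
  have C := cube_low c P e P 2 hP.le hc1 hc2 (by linarith) hP he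
  have T := tri_low a b c P e L hL hP he heP ha1 ha2 hb1 hb2 hc1 hc2
  have e1 : a ^ 3 + k * b ^ 3 + k ^ 2 * c ^ 3 - 3 * k * a * b * c -
      (8 * L ^ 6 - 5 * k * L ^ 3 + k ^ 2) * P ^ 3 =
      (a ^ 3 - (2 * L ^ 2 * P) ^ 3) + k * (b ^ 3 - (L * P) ^ 3) + k ^ 2 * (c ^ 3 - P ^ 3) -
        3 * (k * (a * b * c - 2 * L ^ 3 * P ^ 3)) := by ring
  have b1 := absmul_le k _ _ L hk B.1 B.2
  have hk2 : |k ^ 2| ≤ L ^ 2 := by
    rw [abs_pow]; exact pow_le_pow_left₀ (abs_nonneg _) hk 2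
  have b2 := absmul_le (k ^ 2) _ _ (L ^ 2) hk2 C.1 C.2
  have b3 := absmul_le k _ _ L hk T.1 T.2
  have b0 : |a ^ 3 - (2 * L ^ 2 * P) ^ 3| ≤ 3 * (2 * L ^ 2 + 1) ^ 2 * P ^ 2 * e := by
    rw [abs_of_nonneg A.1]; exact A.2
  rw [e1]
  rw [abs_le] at b0 b1 b2 b3 ⊢
  unfold K1
  constructor
  · nlinarith
  · nlinarith

private theorem NS_cast (k : ℤ) : (NS k : ℝ) = 8 * ((LL k : ℤ) : ℝ) ^ 6 - 5 * k * ((LL k : ℤ) : ℝ) ^ 3 + (k : ℝ) ^ 2 := by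
  simp [NS]

theorem bxe (k : ℤ) (ε : ℝ) (hε : 0 < ε) : ∃ M0 : ℕ, 1 ≤ M0 ∧ ∀ M A : ℕ, M0 ≤ M → 1 ≤ A →
    ∀ x ∈ Bx k M A, |(nn k x.1 x.2.1 x.2.2 : ℝ) - NS k * ((M : ℝ) * A) ^ 3| ≤
      ε * (NS k * ((M : ℝ) * A) ^ 3) := by
  obtain ⟨L, hLdef⟩ : ∃ L : ℝ, L = ((LL k : ℤ) : ℝ) := ⟨_, rfl⟩
  have hLk : L = |(k : ℝ)| + 2 := by rw [hLdef, LLc]
  have hL : 2 ≤ L := by rw [hLk]; have := abs_nonneg (k : ℝ); linarith
  have hkL : |(k : ℝ)| ≤ L := by rw [hLk]; linarith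
  have hK1 : 0 ≤ K1 L := by unfold K1; positivity
  refine ⟨⌈K1 L / ε⌉₊ + 1, by omega, ?_⟩
  rintro M A hM hA ⟨a, b, c⟩ hx
  unfold Bx at hx
  rw [mem_product, mem_product] at hx
  have hMr : ((⌈K1 L / ε⌉₊ + 1 : ℕ) : ℝ) ≤ M := by exact_mod_cast hM
  have hMK : K1 L ≤ ε * M := by
    have h1 := Nat.le_ceil (K1 L / ε)
    push_cast at hMr
    have h2 : K1 L / ε ≤ M := by linarith
    rw [div_le_iff₀ hε] at h2
    linarith
  have hM1 : (1 : ℝ) ≤ M := by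
    have : (0 : ℝ) ≤ (⌈K1 L / ε⌉₊ : ℝ) := Nat.cast_nonneg _
    push_cast at hMr
    linarith
  have hAr : (1 : ℝ) ≤ A := by exact_mod_cast hA
  obtain ⟨P, hPdef⟩ : ∃ P : ℝ, P = (M : ℝ) * A := ⟨_, rfl⟩
  obtain ⟨e, hedef⟩ : ∃ e : ℝ, e = (A : ℝ) := ⟨_, rfl⟩
  have he : 0 ≤ e := by rw [hedef]; linarith
  have heP : e ≤ P := by
    rw [hPdef, hedef]; nlinarith
  have hP : 0 < P := by rw [hPdef]; positivity
  have ha' := Finset.mem_Ioc.mp hx.1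
  have hb' := Finset.mem_Ioc.mp hx.2.1
  have hc' := Finset.mem_Ioc.mp hx.2.2
  have ha1 : 2 * L ^ 2 * P ≤ a := by
    rw [hLdef, hPdef]
    have h := ha'.1.le
    exact_mod_cast h
  have ha2 : (a : ℝ) ≤ 2 * L ^ 2 * P + e := by
    rw [hLdef, hPdef, hedef]
    have h := ha'.2
    exact_mod_cast h
  have hb1 : L * P ≤ b := by
    rw [hLdef, hPdef]
    have h := hb'.1.le
    exact_mod_cast h
  have hb2 : (b : ℝ) ≤ L * P + e := by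
    rw [hLdef, hPdef, hedef]
    have h := hb'.2
    exact_mod_cast h
  have hc1 : P ≤ c := by
    rw [hPdef]
    have h := hc'.1.le
    exact_mod_cast h
  have hc2 : (c : ℝ) ≤ P + e := by
    rw [hPdef, hedef]
    have h := hc'.2
    exact_mod_cast h
  have hnn : (nn k a b c : ℝ) = (a : ℝ) ^ 3 + k * b ^ 3 + k ^ 2 * c ^ 3 - 3 * k * a * b * c := by
    simp [nn]
  have hNS : (NS k : ℝ) = 8 * L ^ 6 - 5 * k * L ^ 3 + (k : ℝ) ^ 2 := by rw [hLdef, NS_cast]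
  have E := nn_err (k : ℝ) a b c P e L hL hkL hP he heP ha1 ha2 hb1 hb2 hc1 hc2
  have hN1 : (1 : ℝ) ≤ (NS k : ℝ) := by exact_mod_cast NS_pos k
  have hP2 : 0 < P ^ 2 := by positivity
  change |(nn k a b c : ℝ) - NS k * ((M : ℝ) * A) ^ 3| ≤ ε * (NS k * ((M : ℝ) * A) ^ 3)
  rw [← hPdef, hnn]
  rw [← hNS] at E
  refine E.trans ?_
  have h1 : K1 L * e ≤ ε * P := by
    rw [hPdef, hedef]
    have := mul_le_mul_of_nonneg_right hMK (by linarith : (0 : ℝ) ≤ A)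
    linarith
  have h2 : K1 L * P ^ 2 * e ≤ ε * P ^ 3 := by
    have := mul_le_mul_of_nonneg_right h1 hP2.le
    nlinarith
  have h3 : ε * P ^ 3 ≤ ε * (NS k * P ^ 3) := by
    apply mul_le_mul_of_nonneg_left _ hε.le
    have : 0 < P ^ 3 := by positivity
    nlinarith
  exact h2.trans h3

end H96.DR
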