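import Pool.Agent.H96.DR.Erl

/-!
# [DR ERR] the total error term, 80-130 lines. File Pool/Agent/H96/DR/Err.lean

For each `g ∈ GG A` write the sum over `AJ k w M A j` (a filter of `Bx`) as a sum over the lines (`lines_sum`; `a = s - g b`, so `a + g b = s`, `nn k (s - g b) b c = ng k g s b c`); the conditions `Gd` and the factor `RR` depend only on the line; lines with `RR = 0` or not `Gd` contribute `0`.
`err_line` for the others: `|..| ≤ 144 A^0.98762` (hypothesis `hRR`: `s = a + g b`, `|s| ≤ K g P ≤ A^1.01`, `|c| ≤ K P ≤ A^1.01` by `boxg` for `A` large, `c ≠ 0`). Number of lines `≤ 2 g A² ≤ 4 G A²` (`Ln_card`), number of `g`: `G = Gn A ≤ 2 A^0.0062`. Total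
`≤ 16 A^0.0124 A² 144 A^0.98762 = 2304 A^3.00002 ≤ A^3.00003` for `A` large.
-/

set_option autoImplicit false

namespace H96.DR

open Finset H23.LP

private theorem er_pow (c u : ℝ) (hu : 0 < u) : ∃ A0 : ℕ, ∀ A : ℕ, A0 ≤ A → c ≤ (A : ℝ) ^ u := by
  have h := ((tendsto_rpow_atTop hu).comp tendsto_natCast_atTop_atTop).eventually_ge_atTop c
  obtain ⟨A0, h⟩ := Filter.eventually_atTop.1 h
  exact ⟨A0, h⟩

private theorem er_Gn (A : ℕ) (hA : 1 ≤ A) : (Gn A : ℝ) ≤ 2 * (A : ℝ) ^ (0.0062 : ℝ) := by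
  have hA1 : (1 : ℝ) ≤ A := by exact_mod_cast hA
  have h1 : (1 : ℝ) ≤ (A : ℝ) ^ (0.0062 : ℝ) := Real.one_le_rpow hA1 (by norm_num)
  have h2 : (Gn A : ℝ) < (A : ℝ) ^ (0.0062 : ℝ) + 1 := Nat.ceil_lt_add_one (by linarith)
  linarith

private theorem er_card (A : ℕ) : (GG A).card = Gn A := by
  unfold GG
  rw [Int.card_Ioc]
  omega

open Classical in
theorem err (k : ℤ) (hk : ∀ t : ℤ, t ^ 3 ≠ k) : ∃ M0 : ℕ, 1 ≤ M0 ∧ ∀ w M J : ℕ,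
    k.natAbs + 3 ≤ w → M0 ≤ M → ∃ A0 : ℕ, ∀ A X : ℕ, A0 ≤ A → (X : ℝ) ≤ (A : ℝ) ^ 3 →
    (∀ g ∈ GG A, ∀ s c : ℤ, |(s : ℝ)| ≤ (A : ℝ) ^ (1.01 : ℝ) → |(c : ℝ)| ≤ (A : ℝ) ^ (1.01 : ℝ) →
      c ≠ 0 → RR k A g s c ≤ 144) → ∀ j : ℕ, 1 ≤ j → j ≤ J → ∀ φ : Finset ℕ → ℝ,
    (∀ S, φ S ≠ 0 → (∀ p ∈ S, p.Prime ∧ w < p ∧ (p : ℝ) ≤ (A : ℝ) ^ (0.0144 : ℝ) ∧ ¬ p ∣ j) ∧
      ((∏ p ∈ S, p : ℕ) : ℝ) ≤ (A : ℝ) ^ (0.1296 : ℝ)) → (∀ S, |φ S| ≤ 3 ^ S.card) →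
    |∑ g ∈ GG A, ∑ x ∈ (AJ k w M A j).filter (fun x => Gd k A g (x.1 + g * x.2.1) x.2.2 ∧
        CP k g (x.1 + g * x.2.1) x.2.1 x.2.2), (RR k A g (x.1 + g * x.2.1) x.2.2 : ℝ) *
      ((∑ S ∈ (nn k x.1 x.2.1 x.2.2).natAbs.primeFactors.powerset, φ S) *
        ((NR k X (nn k x.1 x.2.1 x.2.2 / j).natAbs x.1 x.2.1 x.2.2 : ℝ) -
          (X : ℝ) * j / nn k x.1 x.2.1 x.2.2))| ≤ (A : ℝ) ^ (3.00003 : ℝ) := by
  obtain ⟨M1, hM1, h1⟩ := err_line k hk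
  obtain ⟨K, hK, M2, hM2, h2⟩ := boxg k
  refine ⟨max M1 M2, hM1.trans (le_max_left _ _), fun w M J hw hM => ?_⟩
  obtain ⟨A1, h1⟩ := h1 w M J hw ((le_max_left _ _).trans hM)
  obtain ⟨A2, h3⟩ := er_pow K 0.0062 (by norm_num)
  obtain ⟨A3, h4⟩ := er_pow (4 * K * M) 0.0038 (by norm_num)
  obtain ⟨A4, h5⟩ := er_pow 2304 0.00001 (by norm_num)
  refine ⟨max 1 (max (max A1 A2) (max A3 A4)), fun A X hA hX hRR j hj hjJ φ hφ hφ3 => ?_⟩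
  have hA1' : 1 ≤ A := (le_max_left _ _).trans hA
  have hAA := (le_max_right _ _).trans hA
  have a1 : A1 ≤ A := ((le_max_left _ _).trans (le_max_left _ _)).trans hAA
  have a2 : A2 ≤ A := ((le_max_right _ _).trans (le_max_left _ _)).trans hAA
  have a3 : A3 ≤ A := ((le_max_left _ _).trans (le_max_right _ _)).trans hAA
  have a4 : A4 ≤ A := ((le_max_right _ _).trans (le_max_right _ _)).trans hAA
  have hA1 : (1 : ℝ) ≤ A := by exact_mod_cast hA1'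
  have hA0 : (0 : ℝ) < A := by linarith
  have b2 := h3 A a2
  have b3 := h4 A a3
  have b4 := h5 A a4
  have hG := er_Gn A hA1'
  have hG0 : (A : ℝ) ^ (0.0062 : ℝ) ≤ Gn A := Nat.le_ceil _
  have hB0 : (0 : ℝ) ≤ (A : ℝ) ^ (0.98762 : ℝ) := Real.rpow_nonneg hA0.le _
  have hE0 : (0 : ℝ) < (A : ℝ) ^ (0.0062 : ℝ) := Real.rpow_pos_of_pos hA0 _
  -- one line
  have hline : ∀ g ∈ GG A, ∀ l ∈ Ln k M A g,
      |∑ b ∈ Jb k M A g l.1, (if (Cl k w (l.1 - g * b) b l.2 ∧ Ex j (nn k (l.1 - g * b) b l.2)) ∧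
        (Gd k A g (l.1 - g * b + g * b) l.2 ∧ CP k g (l.1 - g * b + g * b) b l.2) then
        (RR k A g (l.1 - g * b + g * b) l.2 : ℝ) *
          ((∑ S ∈ (nn k (l.1 - g * b) b l.2).natAbs.primeFactors.powerset, φ S) *
            ((NR k X (nn k (l.1 - g * b) b l.2 / j).natAbs (l.1 - g * b) b l.2 : ℝ) -
              (X : ℝ) * j / nn k (l.1 - g * b) b l.2)) else 0)| ≤ 144 * (A : ℝ) ^ (0.98762 : ℝ) := by
    intro g hg l hl
    have hgG := hg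
    unfold GG at hgG
    rw [mem_Ioc] at hgG
    obtain ⟨a, ha, b, hb, hlab, hc, -⟩ := Ln_mem k M A g l hl
    have hgK : K ≤ (g : ℝ) := by
      have : (Gn A : ℝ) < (g : ℝ) := by exact_mod_cast hgG.1
      linarith
    have hg4 : (g : ℝ) ≤ 4 * (A : ℝ) ^ (0.0062 : ℝ) := by
      have h6 : (g : ℝ) ≤ 2 * (Gn A : ℝ) := by exact_mod_cast hgG.2
      linarith
    obtain ⟨-, -, -, -, -, -, -, -, -, -, -, s1, s2, -, c2, -⟩ :=
      h2 M A ((le_max_right _ _).trans hM) hA1' g hgK a ha b hb l.2 hc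
    rw [← hlab] at s1 s2
    have hM0 : (0 : ℝ) ≤ M := Nat.cast_nonneg _
    have e1 : (A : ℝ) ^ (0.0062 : ℝ) * A * (A : ℝ) ^ (0.0038 : ℝ) = (A : ℝ) ^ (1.01 : ℝ) := by
      have : (A : ℝ) ^ (0.0062 : ℝ) * (A : ℝ) ^ (1 : ℝ) * (A : ℝ) ^ (0.0038 : ℝ) = (A : ℝ) ^ (1.01 : ℝ) := by
        rw [← Real.rpow_add hA0, ← Real.rpow_add hA0]
        norm_num
      rwa [Real.rpow_one] at this
    have e2 : 4 * K * M * ((A : ℝ) ^ (0.0062 : ℝ) * A) ≤ (A : ℝ) ^ (1.01 : ℝ) := by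
      rw [← e1, mul_comm ((A : ℝ) ^ (0.0062 : ℝ) * A)]
      exact mul_le_mul_of_nonneg_right b3 (by positivity)
    have hs : |(l.1 : ℝ)| ≤ (A : ℝ) ^ (1.01 : ℝ) := by
      have e3 : (0 : ℝ) < (l.1 : ℝ) := by exact_mod_cast s1
      rw [abs_of_pos e3]
      refine s2.trans (le_trans ?_ e2)
      have e4 : K * (g * ((M : ℝ) * A)) ≤ K * ((4 * (A : ℝ) ^ (0.0062 : ℝ)) * ((M : ℝ) * A)) :=
        mul_le_mul_of_nonneg_left (mul_le_mul_of_nonneg_right hg4 (by positivity)) (by linarith)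
      refine e4.trans (le_of_eq (by ring))
    have hc0 : 0 < l.2 := by
      unfold Ic at hc
      rw [mem_Ioc] at hc
      exact lt_of_le_of_lt (by positivity) hc.1
    have hcc : |(l.2 : ℝ)| ≤ (A : ℝ) ^ (1.01 : ℝ) := by
      have e3 : (0 : ℝ) < (l.2 : ℝ) := by exact_mod_cast hc0
      rw [abs_of_pos e3]
      refine c2.trans (le_trans ?_ e2)
      have e4 : (1 : ℝ) ≤ (A : ℝ) ^ (0.0062 : ℝ) := Real.one_le_rpow hA1 (by norm_num)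
      have e5 : 0 ≤ K * ((M : ℝ) * A) := by positivity
      nlinarith [mul_nonneg e5 (by linarith : (0 : ℝ) ≤ 4 * (A : ℝ) ^ (0.0062 : ℝ) - 1)]
    have hR := hRR g hg l.1 l.2 hs hcc hc0.ne'
    simp only [sub_add_cancel]
    by_cases hGd : Gd k A g l.1 l.2
    · have e6 : ∑ b ∈ Jb k M A g l.1, (if (Cl k w (l.1 - g * b) b l.2 ∧ Ex j (nn k (l.1 - g * b) b l.2)) ∧
          (Gd k A g l.1 l.2 ∧ CP k g l.1 b l.2) then
          (RR k A g l.1 l.2 : ℝ) * ((∑ S ∈ (nn k (l.1 - g * b) b l.2).natAbs.primeFactors.powerset, φ S) *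
            ((NR k X (nn k (l.1 - g * b) b l.2 / j).natAbs (l.1 - g * b) b l.2 : ℝ) -
              (X : ℝ) * j / nn k (l.1 - g * b) b l.2)) else 0) = (RR k A g l.1 l.2 : ℝ) *
          ∑ b ∈ (Jb k M A g l.1).filter (fun b => CP k g l.1 b l.2 ∧ Cl k w (l.1 - g * b) b l.2 ∧
            Ex j (ng k g l.1 b l.2)), (∑ S ∈ (ng k g l.1 b l.2).natAbs.primeFactors.powerset, φ S) *
          ((NR k X (ng k g l.1 b l.2 / j).natAbs (l.1 - g * b) b l.2 : ℝ) - (X : ℝ) * j / ng k g l.1 b l.2) := by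
        rw [sum_filter, mul_sum]
        refine sum_congr rfl fun b _ => ?_
        by_cases h6 : CP k g l.1 b l.2 ∧ Cl k w (l.1 - g * b) b l.2 ∧ Ex j (ng k g l.1 b l.2)
        · rw [if_pos h6, if_pos ⟨h6.2, hGd, h6.1⟩]
          rfl
        · rw [if_neg h6, if_neg, mul_zero]
          rintro ⟨h7, -, h8⟩
          exact h6 ⟨h8, h7⟩
      rw [e6, abs_mul, Nat.abs_cast]
      by_cases hR0 : RR k A g l.1 l.2 = 0
      · rw [hR0, Nat.cast_zero, zero_mul]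
        positivity
      · have h7 := h1 A X a1 hX g hg l.1 l.2 hl (Nat.pos_of_ne_zero hR0) hGd j hj hjJ φ hφ hφ3
        exact mul_le_mul (by exact_mod_cast hR) h7 (abs_nonneg _) (by norm_num)
    · rw [sum_eq_zero, abs_zero]
      · positivity
      · intro b _
        rw [if_neg]
        exact fun h => hGd h.2.1
  -- one direction
  have hdir : ∀ g ∈ GG A, |∑ x ∈ (AJ k w M A j).filter (fun x => Gd k A g (x.1 + g * x.2.1) x.2.2 ∧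
        CP k g (x.1 + g * x.2.1) x.2.1 x.2.2), (RR k A g (x.1 + g * x.2.1) x.2.2 : ℝ) *
      ((∑ S ∈ (nn k x.1 x.2.1 x.2.2).natAbs.primeFactors.powerset, φ S) *
        ((NR k X (nn k x.1 x.2.1 x.2.2 / j).natAbs x.1 x.2.1 x.2.2 : ℝ) -
          (X : ℝ) * j / nn k x.1 x.2.1 x.2.2))| ≤
      8 * (A : ℝ) ^ (0.0062 : ℝ) * (A : ℝ) ^ 2 * (144 * (A : ℝ) ^ (0.98762 : ℝ)) := by
    intro g hg
    have hgG := hg
    unfold GG at hgG
    rw [mem_Ioc] at hgG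
    have hg1 : 1 ≤ g := by
      have : (0 : ℤ) ≤ (Gn A : ℤ) := Int.natCast_nonneg _
      linarith [hgG.1]
    have hg4 : (g : ℝ) ≤ 4 * (A : ℝ) ^ (0.0062 : ℝ) := by
      have h6 : (g : ℝ) ≤ 2 * (Gn A : ℝ) := by exact_mod_cast hgG.2
      linarith
    have e7 : ∑ x ∈ (AJ k w M A j).filter (fun x => Gd k A g (x.1 + g * x.2.1) x.2.2 ∧
        CP k g (x.1 + g * x.2.1) x.2.1 x.2.2), (RR k A g (x.1 + g * x.2.1) x.2.2 : ℝ) *
      ((∑ S ∈ (nn k x.1 x.2.1 x.2.2).natAbs.primeFactors.powerset, φ S) *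
        ((NR k X (nn k x.1 x.2.1 x.2.2 / j).natAbs x.1 x.2.1 x.2.2 : ℝ) -
          (X : ℝ) * j / nn k x.1 x.2.1 x.2.2)) = ∑ x ∈ Bx k M A,
        (if (Cl k w x.1 x.2.1 x.2.2 ∧ Ex j (nn k x.1 x.2.1 x.2.2)) ∧
          (Gd k A g (x.1 + g * x.2.1) x.2.2 ∧ CP k g (x.1 + g * x.2.1) x.2.1 x.2.2) then
          (RR k A g (x.1 + g * x.2.1) x.2.2 : ℝ) *
            ((∑ S ∈ (nn k x.1 x.2.1 x.2.2).natAbs.primeFactors.powerset, φ S) *
              ((NR k X (nn k x.1 x.2.1 x.2.2 / j).natAbs x.1 x.2.1 x.2.2 : ℝ) -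
                (X : ℝ) * j / nn k x.1 x.2.1 x.2.2)) else 0) := by
      unfold AJ
      rw [sum_filter, sum_filter]
      refine sum_congr rfl fun x _ => ?_
      by_cases h6 : Cl k w x.1 x.2.1 x.2.2 ∧ Ex j (nn k x.1 x.2.1 x.2.2)
      · by_cases h7 : Gd k A g (x.1 + g * x.2.1) x.2.2 ∧ CP k g (x.1 + g * x.2.1) x.2.1 x.2.2
        · rw [if_pos h6, if_pos h7, if_pos ⟨h6, h7⟩]
        · rw [if_pos h6, if_neg h7, if_neg fun h => h7 h.2]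
      · rw [if_neg h6, if_neg fun h => h6 h.1]
    rw [e7, lines_sum]
    refine (abs_sum_le_sum_abs _ _).trans ((sum_le_sum fun l hl => hline g hg l hl).trans ?_)
    rw [sum_const, nsmul_eq_mul]
    refine mul_le_mul_of_nonneg_right ?_ (by positivity)
    have e8 := Ln_card k M A g hg1
    have e9 : ((Ln k M A g).card : ℝ) ≤ 2 * g * A * A := by exact_mod_cast e8
    have e10 : 2 * (g : ℝ) * A * A ≤ 2 * (4 * (A : ℝ) ^ (0.0062 : ℝ)) * A * A := by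
      have := mul_le_mul_of_nonneg_right hg4 (by positivity : (0 : ℝ) ≤ 2 * A * A)
      nlinarith
    refine e9.trans (e10.trans (le_of_eq (by ring)))
  refine (abs_sum_le_sum_abs _ _).trans ((sum_le_sum hdir).trans ?_)
  rw [sum_const, nsmul_eq_mul, er_card]
  have f1 : (A : ℝ) ^ (0.0062 : ℝ) * (A : ℝ) ^ (0.0062 : ℝ) * (A : ℝ) ^ 2 * (A : ℝ) ^ (0.98762 : ℝ) = (A : ℝ) ^ (3.00002 : ℝ) := by
    rw [← Real.rpow_natCast (A : ℝ) 2, ← Real.rpow_add hA0, ← Real.rpow_add hA0, ← Real.rpow_add hA0]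
    norm_num
  have f2 : (A : ℝ) ^ (3.00002 : ℝ) * (A : ℝ) ^ (0.00001 : ℝ) = (A : ℝ) ^ (3.00003 : ℝ) := by
    rw [← Real.rpow_add hA0]
    norm_num
  have f3 : (Gn A : ℝ) * (8 * (A : ℝ) ^ (0.0062 : ℝ) * (A : ℝ) ^ 2 * (144 * (A : ℝ) ^ (0.98762 : ℝ))) ≤
      2 * (A : ℝ) ^ (0.0062 : ℝ) * (8 * (A : ℝ) ^ (0.0062 : ℝ) * (A : ℝ) ^ 2 * (144 * (A : ℝ) ^ (0.98762 : ℝ))) :=
    mul_le_mul_of_nonneg_right hG (by positivity)
  have f4 : 2 * (A : ℝ) ^ (0.0062 : ℝ) * (8 * (A : ℝ) ^ (0.0062 : ℝ) * (A : ℝ) ^ 2 * (144 * (A : ℝ) ^ (0.98762 : ℝ))) =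
      (A : ℝ) ^ (3.00002 : ℝ) * 2304 := by
    rw [← f1]
    ring
  have f5 : (A : ℝ) ^ (3.00002 : ℝ) * 2304 ≤ (A : ℝ) ^ (3.00002 : ℝ) * (A : ℝ) ^ (0.00001 : ℝ) :=
    mul_le_mul_of_nonneg_left b4 (Real.rpow_nonneg hA0.le _)
  linarith

end H96.DR
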