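import Pool.Agent.H96.DR.Cov
import Pool.Agent.H96.DR.Err
import Pool.Agent.H96.DR.Bxe
import Pool.Agent.H65.DR.Sv

/-!
# [DR STD] the sieve for one exact divisor `j`, 160-240 lines. File Pool/Agent/H96/DR/Std.lean

W.l.o.g. `ε ≤ 1/2` (the claim for a smaller `ε` implies the claim). `δ = ε/8`. `ε'`, `M0` from `cover` with `δ`; `M0` also from `err` and `bxe` with `δ`; `w0 = max (|k| + 3) (w0 of sieve)`. Given `w, M, J`: `A0` large, `E` from `cover`, `φ` from `sieve` for `j`. Write `n = nn x`, `Φ x = ∑_{S ⊆ primeFactors |n|} φ S ≥ 0`,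
`NR x = NR k X (n/j).natAbs x`, `N0 = NS k (M A)³`, `(1 - δ) N0 ≤ n ≤ (1 + δ) N0`, `W = WW`, `W0 > 0` (`W0_low`).
(1) For `x` in the set on the left: `1 ≤ Φ x`: if `p` is a prime factor of `n = j r`, `r = (n/j).natAbs` prime `> A^0.0144`, and `w < p ≤ A^0.0144` then `p ≠ r`, so `p ∣ j`. And `(1 - δ) W0 ≤ ∑_{g : Gd, CP} RR` (`cover`; `x ∈ AJ` contains `x ∈ Bx` and `Cl`). So
`(1 - δ) W0 ∑_{left} NR ≤ ∑_{x ∈ AJ} ∑_{g : Gd, CP} RR Φ NR = ∑_g ∑_{x ∈ AJ : Gd, CP} RR Φ NR` (all terms are `≥ 0`).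
(2) `err`: this is `≤ ∑_g ∑_{x ∈ AJ : Gd, CP} RR Φ X j/n + A^3.00003 ≤ (X j/((1 - δ) N0)) ∑_{x ∈ AJ} W Φ + A^3.00003` (drop the conditions; `n ≥ (1 - δ) N0`). The hypothesis `hRR` of `err` is `rr_le`.
(3) `∑_{AJ} W Φ ≤ W0 ∑_{AJ} Φ + ∑_{Bx} |W - W0| Φ`, `Φ x ≤ ∑_S 3^|S| = 4^ω(n) ≤ A^0.0001` (`|φ S| ≤ 3^|S|`; `4^ω(n) ≤ B n^(10^-5)`, `H19.QV.pow_omega`; `n ≤ A^4`), and `∑_{Bx} |W - W0| ≤ W0 A^2.998` (`exc`). So `∑_{AJ} W Φ ≤ W0 (∑_{AJ} Φ + A^2.9981)`.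
(4) `sieve`: `∑_{AJ} Φ ≤ 1.05 #rough + A^2.99`. Divide by `(1 - δ) W0`: `∑_{left} NR ≤ (1 - δ)^(-2) (X j/N0) (1.05 #rough + A^2.99 + A^2.9981) + A^3.00003/((1 - δ) W0)`; `(1 - δ)^(-2) ≤ 1 + ε` (`δ = ε/8 ≤ 1/16`), `A^2.99 + A^2.9981 ≤ A^2.9982`,
and `W0 ≥ cw A^0.0062`, so the last term is `≤ (2/cw) A^2.99383 ≤ A^2.99385`.
-/

set_option autoImplicit false

namespace H96.DR

open Finset H23.LP

private theorem sd_pow (K c : ℝ) (hc : 0 < c) : ∃ A0 : ℕ, ∀ A : ℕ, A0 ≤ A → K ≤ (A : ℝ) ^ c := by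
  have h := ((tendsto_rpow_atTop hc).comp tendsto_natCast_atTop_atTop).eventually_ge_atTop K
  obtain ⟨A0, hA0⟩ := Filter.eventually_atTop.1 h
  exact ⟨A0, fun A hA => hA0 A hA⟩

/-- the weighted sieve, abstract form -/
private theorem sd_abs {ι κ : Type} (As Ls Bs : Finset ι) (Gs : Finset κ) (P : κ → ι → Prop)
    (G1 : ι → Finset κ) (hG1 : ∀ x g, g ∈ G1 x ↔ g ∈ Gs ∧ P g x) (A1 : κ → Finset ι)
    (hA1 : ∀ g x, x ∈ A1 g ↔ x ∈ As ∧ P g x) (R : κ → ι → ℝ) (hR : ∀ g x, 0 ≤ R g x)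
    (Φ N Wt nv : ι → ℝ) (hL : Ls ⊆ As) (hAB : As ⊆ Bs) (hΦ : ∀ x, 0 ≤ Φ x) (hN : ∀ x, 0 ≤ N x)
    (h1 : ∀ x ∈ Ls, 1 ≤ Φ x) (W δ : ℝ) (hcov : ∀ x ∈ Ls, (1 - δ) * W ≤ ∑ g ∈ G1 x, R g x)
    (T Xj n0 : ℝ)
    (herr : |∑ g ∈ Gs, ∑ x ∈ A1 g, R g x * (Φ x * (N x - Xj / nv x))| ≤ T)
    (hnv : ∀ x ∈ As, n0 ≤ nv x) (hn0 : 0 < n0) (hXj : 0 ≤ Xj)
    (hWt : ∀ x, Wt x = ∑ g ∈ Gs, R g x) (Φm : ℝ) (hΦm0 : 0 ≤ Φm) (hΦm : ∀ x ∈ As, Φ x ≤ Φm) (V : ℝ)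
    (hV : ∑ x ∈ Bs, |Wt x - W| ≤ V) :
    (1 - δ) * W * ∑ x ∈ Ls, N x ≤ Xj / n0 * (W * ∑ x ∈ As, Φ x + Φm * V) + T := by
  have s1 : (1 - δ) * W * ∑ x ∈ Ls, N x ≤ ∑ x ∈ Ls, (∑ g ∈ G1 x, R g x) * (Φ x * N x) := by
    rw [mul_sum]
    refine sum_le_sum fun x hx => ?_
    have h2 : N x ≤ Φ x * N x := by nlinarith [hN x, h1 x hx]
    have h3 : 0 ≤ ∑ g ∈ G1 x, R g x := sum_nonneg fun g _ => hR g x
    calc (1 - δ) * W * N x ≤ (∑ g ∈ G1 x, R g x) * N x := mul_le_mul_of_nonneg_right (hcov x hx) (hN x)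
      _ ≤ (∑ g ∈ G1 x, R g x) * (Φ x * N x) := mul_le_mul_of_nonneg_left h2 h3
  have s2 : ∑ x ∈ Ls, (∑ g ∈ G1 x, R g x) * (Φ x * N x) ≤
      ∑ x ∈ As, (∑ g ∈ G1 x, R g x) * (Φ x * N x) := by
    refine sum_le_sum_of_subset_of_nonneg hL fun x _ _ => ?_
    exact mul_nonneg (sum_nonneg fun g _ => hR g x) (mul_nonneg (hΦ x) (hN x))
  have s3 : ∑ x ∈ As, (∑ g ∈ G1 x, R g x) * (Φ x * N x) =
      ∑ g ∈ Gs, ∑ x ∈ A1 g, R g x * (Φ x * N x) := by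
    have : ∀ x ∈ As, (∑ g ∈ G1 x, R g x) * (Φ x * N x) = ∑ g ∈ G1 x, R g x * (Φ x * N x) := by
      intro x _
      rw [sum_mul]
    rw [sum_congr rfl this]
    refine sum_comm' fun x g => ?_
    rw [hG1, hA1]
    tauto
  have s4 : ∑ g ∈ Gs, ∑ x ∈ A1 g, R g x * (Φ x * N x) =
      ∑ g ∈ Gs, ∑ x ∈ A1 g, R g x * (Φ x * (N x - Xj / nv x)) +
        ∑ g ∈ Gs, ∑ x ∈ A1 g, R g x * (Φ x * (Xj / nv x)) := by
    rw [← sum_add_distrib]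
    refine sum_congr rfl fun g _ => ?_
    rw [← sum_add_distrib]
    refine sum_congr rfl fun x _ => ?_
    ring
  have s5 : ∑ g ∈ Gs, ∑ x ∈ A1 g, R g x * (Φ x * (Xj / nv x)) ≤
      ∑ g ∈ Gs, ∑ x ∈ As, R g x * (Φ x * (Xj / n0)) := by
    refine sum_le_sum fun g _ => ?_
    have h2 : ∑ x ∈ A1 g, R g x * (Φ x * (Xj / nv x)) ≤ ∑ x ∈ A1 g, R g x * (Φ x * (Xj / n0)) := by
      refine sum_le_sum fun x hx => ?_
      have hxA := ((hA1 g x).1 hx).1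
      exact mul_le_mul_of_nonneg_left (mul_le_mul_of_nonneg_left
        (div_le_div_of_nonneg_left hXj hn0 (hnv x hxA)) (hΦ x)) (hR g x)
    refine h2.trans (sum_le_sum_of_subset_of_nonneg (fun x hx => ((hA1 g x).1 hx).1) fun x _ _ => ?_)
    exact mul_nonneg (hR g x) (mul_nonneg (hΦ x) (by positivity))
  have s6 : ∑ g ∈ Gs, ∑ x ∈ As, R g x * (Φ x * (Xj / n0)) = Xj / n0 * ∑ x ∈ As, Wt x * Φ x := by
    rw [sum_comm, mul_sum]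
    refine sum_congr rfl fun x _ => ?_
    rw [hWt, sum_mul, mul_sum]
    refine sum_congr rfl fun g _ => ?_
    ring
  have s7 : ∑ x ∈ As, Wt x * Φ x ≤ W * ∑ x ∈ As, Φ x + Φm * V := by
    have h2 : ∀ x ∈ As, Wt x * Φ x ≤ W * Φ x + Φm * |Wt x - W| := by
      intro x hx
      have h3 : Wt x - W ≤ |Wt x - W| := le_abs_self _
      have h4 : (Wt x - W) * Φ x ≤ |Wt x - W| * Φm :=
        (mul_le_mul_of_nonneg_right h3 (hΦ x)).trans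
          (mul_le_mul_of_nonneg_left (hΦm x hx) (abs_nonneg _))
      linarith
    refine (sum_le_sum h2).trans ?_
    rw [sum_add_distrib, ← mul_sum, ← mul_sum]
    have h5 : ∑ x ∈ As, |Wt x - W| ≤ V :=
      (sum_le_sum_of_subset_of_nonneg hAB fun _ _ _ => abs_nonneg _).trans hV
    have := mul_le_mul_of_nonneg_left h5 hΦm0
    linarith
  have s8 : Xj / n0 * ∑ x ∈ As, Wt x * Φ x ≤ Xj / n0 * (W * ∑ x ∈ As, Φ x + Φm * V) :=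
    mul_le_mul_of_nonneg_left s7 (by positivity)
  have s9 := (abs_le.1 herr).2
  linarith

private theorem sd_fin (ε δ W L N0 Xj ro P T T' : ℝ) (hδ : 0 < δ) (hδ1 : δ ≤ 1 / 16) (hδε : 8 * δ ≤ ε)
    (hW : 0 < W) (hN0 : 0 < N0) (hXj : 0 ≤ Xj) (hro : 0 ≤ ro) (hP : 0 ≤ P)
    (hT : T ≤ 15 / 16 * (W * T')) (hT' : 0 ≤ T')
    (h : (1 - δ) * W * L ≤ Xj / ((1 - δ) * N0) * (W * (1.05 * ro + P)) + T) :
    L ≤ (1 + ε) * (Xj / N0 * (1.05 * ro + P)) + T' := by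
  obtain ⟨Z, hZ⟩ : ∃ Z : ℝ, Z = Xj / N0 * (1.05 * ro + P) := ⟨_, rfl⟩
  have hZ0 : 0 ≤ Z := by rw [hZ]; positivity
  rw [← hZ]
  have hδ' : 0 < 1 - δ := by linarith
  have e : Xj / ((1 - δ) * N0) * (W * (1.05 * ro + P)) = W * Z / (1 - δ) := by
    rw [hZ]
    field_simp
  rw [e] at h
  have h1 : (1 - δ) * ((1 - δ) * W * L) ≤ W * Z + (1 - δ) * (15 / 16 * (W * T')) := by
    have h2 : (1 - δ) * ((1 - δ) * W * L) ≤ (1 - δ) * (W * Z / (1 - δ) + T) :=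
      mul_le_mul_of_nonneg_left h hδ'.le
    have h3 : (1 - δ) * (W * Z / (1 - δ) + T) = W * Z + (1 - δ) * T := by
      field_simp
    rw [h3] at h2
    have h4 := mul_le_mul_of_nonneg_left hT hδ'.le
    linarith
  have h5 : W * Z ≤ (1 - δ) ^ 2 * W * ((1 + ε) * Z) := by
    have h6 : 1 ≤ (1 - δ) ^ 2 * (1 + ε) := by
      have a1 : (1 - δ) ^ 2 * (1 + 8 * δ) ≤ (1 - δ) ^ 2 * (1 + ε) :=
        mul_le_mul_of_nonneg_left (by linarith) (sq_nonneg _)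
      have a2 : 1 ≤ (1 - δ) ^ 2 * (1 + 8 * δ) := by
        have a3 : (1 - δ) ^ 2 * (1 + 8 * δ) = 1 + δ * (6 - 15 * δ + 8 * δ ^ 2) := by ring
        have a4 : 0 ≤ δ * (6 - 15 * δ + 8 * δ ^ 2) := by
          apply mul_nonneg hδ.le
          nlinarith [sq_nonneg δ]
        linarith
      linarith
    have h7 : 0 ≤ W * Z := by positivity
    nlinarith
  have h8 : (1 - δ) * (15 / 16 * (W * T')) ≤ (1 - δ) ^ 2 * W * T' := by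
    have h9 : 0 ≤ W * T' := by positivity
    have h10 : (1 - δ) * (15 / 16) ≤ (1 - δ) ^ 2 := by nlinarith
    nlinarith
  have h11 : (1 - δ) ^ 2 * W * L ≤ (1 - δ) ^ 2 * W * ((1 + ε) * Z + T') := by
    have e2 : (1 - δ) * ((1 - δ) * W * L) = (1 - δ) ^ 2 * W * L := by ring
    rw [e2] at h1
    rw [mul_add]
    linarith
  exact le_of_mul_le_mul_left h11 (by positivity)

open Classical in
theorem std (k : ℤ) (hk : ∀ t : ℤ, t ^ 3 ≠ k) (ε : ℝ) (hε : 0 < ε) : ∃ ε' : ℝ, 0 < ε' ∧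
    ∃ w0 M0 : ℕ, 1 ≤ M0 ∧ ∀ w M J : ℕ, w0 ≤ w → M0 ≤ M → ∃ A0 : ℕ, ∀ A : ℕ, A0 ≤ A →
    ∃ E : Finset (ℤ × ℤ × ℤ), E ⊆ Bx k M A ∧ (E.card : ℝ) ≤ 2 * (A : ℝ) ^ (2.9939 : ℝ) ∧
    ∀ X j : ℕ, (X : ℝ) ≤ (A : ℝ) ^ 3 → 1 ≤ j → j ≤ J → Nat.Coprime j (QQ k w) →
    ∑ x ∈ (AJ k w M A j).filter (fun x => x ∉ E ∧ Nice k ε' x.1 x.2.1 x.2.2 ∧
        (nn k x.1 x.2.1 x.2.2 / j).natAbs.Prime ∧
        (A : ℝ) ^ (0.0144 : ℝ) < (nn k x.1 x.2.1 x.2.2 / j).natAbs),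
      (NR k X (nn k x.1 x.2.1 x.2.2 / j).natAbs x.1 x.2.1 x.2.2 : ℝ) ≤
      (1 + ε) * ((X : ℝ) * j / (NS k * ((M : ℝ) * A) ^ 3) *
        (1.05 * (((AJ k w M A j).filter fun x => Rough ((A : ℝ) ^ (0.0144 : ℝ))
          ((nn k x.1 x.2.1 x.2.2).natAbs / j)).card : ℝ) + (A : ℝ) ^ (2.9982 : ℝ))) +
      (A : ℝ) ^ (2.99385 : ℝ) := by
  obtain ⟨δ, hδd⟩ : ∃ δ : ℝ, δ = min ε (1 / 2) / 8 := ⟨_, rfl⟩
  have hδ : 0 < δ := by
    rw [hδd]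
    have : 0 < min ε (1 / 2) := lt_min hε (by norm_num)
    linarith
  have hδ1 : δ ≤ 1 / 16 := by
    rw [hδd]
    have := min_le_right ε (1 / 2)
    linarith
  have hδε : 8 * δ ≤ ε := by
    rw [hδd]
    have := min_le_left ε (1 / 2)
    linarith
  obtain ⟨ε', hε', Mc, hMc, hcov⟩ := cover k hk δ hδ
  obtain ⟨Me, hMe, herr⟩ := err k hk
  obtain ⟨Mb, hMb, hbx⟩ := bxe k δ hδ
  obtain ⟨ws, hsv⟩ := H65.DR.sieve k hk
  obtain ⟨Ar, hrr⟩ := H71.DV.rr_le k hk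
  obtain ⟨cw, hcw, Aw, hW0⟩ := H71.DV.W0_low k hk
  obtain ⟨B, hB1, hB⟩ := Pool.Agent.H19.QV.pow_omega 4 0.00001 (by norm_num) (by norm_num)
  refine ⟨ε', hε', max (k.natAbs + 3) ws, max (max Mc Me) Mb,
    hMb.trans (le_max_right _ _), fun w M J hw hM => ?_⟩
  have hwk : k.natAbs + 3 ≤ w := (le_max_left _ _).trans hw
  have hws : ws ≤ w := (le_max_right _ _).trans hw
  have hMc' : Mc ≤ M := ((le_max_left _ _).trans (le_max_left _ _)).trans hM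
  have hMe' : Me ≤ M := ((le_max_right _ _).trans (le_max_left _ _)).trans hM
  have hMb' : Mb ≤ M := (le_max_right _ _).trans hM
  have hM1 : 1 ≤ M := hMb.trans hMb'
  obtain ⟨Ac, hAc⟩ := hcov w M hwk hMc'
  obtain ⟨Ae, hAe⟩ := herr w M J hwk hMe'
  obtain ⟨As, hAs⟩ := hsv w hws M J hM1
  obtain ⟨Ax, hAx⟩ := H71.DV.exc k hk M hM1 1 one_pos
  obtain ⟨a1, ha1⟩ := sd_pow B 0.00006 (by norm_num)
  obtain ⟨a2, ha2⟩ := sd_pow 2 0.0001 (by norm_num)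
  obtain ⟨a3, ha3⟩ := sd_pow (16 / 15 / cw) 0.00002 (by norm_num)
  obtain ⟨a4, ha4⟩ := sd_pow (2 * NS k * (M : ℝ) ^ 3) 1 one_pos
  refine ⟨Ac + Ae + As + Ax + Ar + Aw + a1 + a2 + a3 + a4 + 1, fun A hA => ?_⟩
  obtain ⟨E, hE, hEc, hEx⟩ := hAc A (by omega)
  refine ⟨E, hE, hEc, fun X j hX hj1 hjJ hjQ => ?_⟩
  have hA1 : 1 ≤ A := by omega
  have hA0 : (0 : ℝ) < A := by exact_mod_cast hA1
  have hA1r : (1 : ℝ) ≤ A := by exact_mod_cast hA1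
  have hM0 : (0 : ℝ) < M := by exact_mod_cast hM1
  obtain ⟨φ, p1, p2, p3, p4, p5⟩ := hAs A (by omega) j hj1 hjJ hjQ
  have hW0' := hW0 A (by omega)
  have hcwA : 0 < cw * (A : ℝ) ^ (0.0062 : ℝ) := by positivity
  have hW0p : 0 < W0 k A := lt_of_lt_of_le hcwA hW0'
  have hNS : (1 : ℝ) ≤ (NS k : ℝ) := by exact_mod_cast NS_pos k
  obtain ⟨N0, hN0d⟩ : ∃ N0 : ℝ, N0 = NS k * ((M : ℝ) * A) ^ 3 := ⟨_, rfl⟩
  have hN0 : 0 < N0 := by rw [hN0d]; positivity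
  rw [← hN0d]
  -- the norm
  have hn : ∀ x ∈ AJ k w M A j, x ∈ Bx k M A ∧ Cl k w x.1 x.2.1 x.2.2 ∧
      Ex j (nn k x.1 x.2.1 x.2.2) ∧ (1 - δ) * N0 ≤ nn k x.1 x.2.1 x.2.2 ∧
      (nn k x.1 x.2.1 x.2.2 : ℝ) ≤ (1 + δ) * N0 := by
    intro x hx
    unfold AJ at hx
    rw [mem_filter] at hx
    have hb := hbx M A hMb' hA1 x hx.1
    rw [← hN0d, abs_le] at hb
    exact ⟨hx.1, hx.2.1, hx.2.2, by linarith [hb.1], by linarith [hb.2]⟩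
  have hnpos : ∀ x ∈ AJ k w M A j, 0 < nn k x.1 x.2.1 x.2.2 := by
    intro x hx
    have h1 := (hn x hx).2.2.2.1
    have h2 : (0 : ℝ) < (nn k x.1 x.2.1 x.2.2 : ℝ) := lt_of_lt_of_le (mul_pos (by linarith) hN0) h1
    exact_mod_cast h2
  have hErr := hAe A X (by omega) hX (fun g hg s c h1 h2 h3 => hrr A (by omega) g hg s c h1 h2
    (fun h => h3 h.2)) j hj1 hjJ φ (fun S hS => ⟨(p1 S hS).1, by
      have := (p1 S hS).2
      rw [Nat.cast_prod]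
      exact this⟩) p2
  obtain ⟨L, hL⟩ : ∃ L, L = (AJ k w M A j).filter (fun x => x ∉ E ∧ Nice k ε' x.1 x.2.1 x.2.2 ∧
        (nn k x.1 x.2.1 x.2.2 / j).natAbs.Prime ∧
        (A : ℝ) ^ (0.0144 : ℝ) < (nn k x.1 x.2.1 x.2.2 / j).natAbs) := ⟨_, rfl⟩
  rw [← hL]
  obtain ⟨ro, hro⟩ : ∃ ro : ℝ, ro = (((AJ k w M A j).filter fun x => Rough ((A : ℝ) ^ (0.0144 : ℝ))
          ((nn k x.1 x.2.1 x.2.2).natAbs / j)).card : ℝ) := ⟨_, rfl⟩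
  have hro0 : 0 ≤ ro := by rw [hro]; exact Nat.cast_nonneg _
  rw [← hro] at p5 ⊢
  -- `4 ^ omega`
  have hΦm : ∀ x ∈ AJ k w M A j,
      ∑ S ∈ (nn k x.1 x.2.1 x.2.2).natAbs.primeFactors.powerset, φ S ≤ (A : ℝ) ^ (0.0001 : ℝ) := by
    intro x hx
    obtain ⟨D, hD⟩ : ∃ D, D = (nn k x.1 x.2.1 x.2.2).natAbs.primeFactors := ⟨_, rfl⟩
    rw [← hD]
    have h1 : ∑ S ∈ D.powerset, φ S ≤ ∑ S ∈ D.powerset, (3 : ℝ) ^ S.card :=
      sum_le_sum fun S _ => (le_abs_self _).trans (p2 S)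
    have h2 : ∑ S ∈ D.powerset, (3 : ℝ) ^ S.card = 4 ^ D.card := by
      have h3 := Finset.sum_pow_mul_eq_add_pow (3 : ℝ) 1 D
      simp only [one_pow, mul_one] at h3
      rw [h3]
      norm_num
    rw [h2] at h1
    obtain ⟨n, hnd⟩ : ∃ n : ℕ, n = (nn k x.1 x.2.1 x.2.2).natAbs := ⟨_, rfl⟩
    have hn0 := hnpos x hx
    have hn1 : 1 ≤ n := by
      rw [hnd]
      exact Int.natAbs_pos.2 hn0.ne'
    have h4 := hB n hn1
    rw [hnd, ← hD, ← hnd] at h4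
    have h5 : (n : ℝ) = (nn k x.1 x.2.1 x.2.2 : ℝ) := by
      have : ((n : ℕ) : ℤ) = nn k x.1 x.2.1 x.2.2 := by
        rw [hnd]
        exact Int.natAbs_of_nonneg hn0.le
      rw [← this]
      push_cast
      rfl
    have h6 : (n : ℝ) ≤ (A : ℝ) ^ (4 : ℝ) := by
      rw [h5]
      refine (hn x hx).2.2.2.2.trans ?_
      have h7 := ha4 A (by omega)
      rw [Real.rpow_one] at h7
      have h8 : (1 + δ) * N0 ≤ 2 * N0 := by nlinarith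
      refine h8.trans ?_
      have h9 : (A : ℝ) ^ (4 : ℝ) = A * (A : ℝ) ^ 3 := by
        rw [show (4 : ℝ) = ((4 : ℕ) : ℝ) by norm_num, Real.rpow_natCast]
        ring
      rw [h9, hN0d]
      have h10 := mul_le_mul_of_nonneg_right h7 (by positivity : (0 : ℝ) ≤ (A : ℝ) ^ 3)
      have h11 : 2 * ((NS k : ℝ) * ((M : ℝ) * A) ^ 3) = 2 * NS k * (M : ℝ) ^ 3 * (A : ℝ) ^ 3 := by ring
      rw [h11]
      exact h10
    have h12 : (n : ℝ) ^ (0.00001 : ℝ) ≤ (A : ℝ) ^ (0.00004 : ℝ) := by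
      refine (Real.rpow_le_rpow (Nat.cast_nonneg n) h6 (by norm_num)).trans (le_of_eq ?_)
      rw [← Real.rpow_mul hA0.le]
      norm_num
    have h13 : B * (n : ℝ) ^ (0.00001 : ℝ) ≤ (A : ℝ) ^ (0.00006 : ℝ) * (A : ℝ) ^ (0.00004 : ℝ) :=
      mul_le_mul (ha1 A (by omega)) h12 (by positivity) (by positivity)
    rw [← Real.rpow_add hA0] at h13
    norm_num at h13
    norm_num
    norm_num at h4
    linarith
  have hmain := sd_abs (AJ k w M A j) L (Bx k M A) (GG A)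
    (fun g x => Gd k A g (x.1 + g * x.2.1) x.2.2 ∧ CP k g (x.1 + g * x.2.1) x.2.1 x.2.2)
    (fun x => (GG A).filter (fun g => Gd k A g (x.1 + g * x.2.1) x.2.2 ∧
        CP k g (x.1 + g * x.2.1) x.2.1 x.2.2)) (fun x g => by rw [mem_filter])
    (fun g => (AJ k w M A j).filter (fun x => Gd k A g (x.1 + g * x.2.1) x.2.2 ∧
        CP k g (x.1 + g * x.2.1) x.2.1 x.2.2)) (fun g x => by rw [mem_filter])
    (fun g x => (RR k A g (x.1 + g * x.2.1) x.2.2 : ℝ)) (fun _ _ => Nat.cast_nonneg _)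
    (fun x => ∑ S ∈ (nn k x.1 x.2.1 x.2.2).natAbs.primeFactors.powerset, φ S)
    (fun x => (NR k X (nn k x.1 x.2.1 x.2.2 / j).natAbs x.1 x.2.1 x.2.2 : ℝ))
    (fun x => (WW k A x.1 x.2.1 x.2.2 : ℝ)) (fun x => (nn k x.1 x.2.1 x.2.2 : ℝ))
    (by rw [hL]; exact filter_subset _ _) (fun x hx => (hn x hx).1) (fun x => p3 _)
    (fun _ => Nat.cast_nonneg _) ?_ (W0 k A) δ ?_ ((A : ℝ) ^ (3.00003 : ℝ)) ((X : ℝ) * j)
    ((1 - δ) * N0) hErr (fun x hx => (hn x hx).2.2.2.1) (mul_pos (by linarith) hN0) (by positivity)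
    (fun x => by unfold WW; push_cast; rfl) ((A : ℝ) ^ (0.0001 : ℝ)) (by positivity) hΦm
    (W0 k A * (A : ℝ) ^ (2.998 : ℝ)) (hAx A (by omega)).2
  · -- final numerical step
    refine sd_fin ε δ (W0 k A) _ N0 ((X : ℝ) * j) ro ((A : ℝ) ^ (2.9982 : ℝ)) ((A : ℝ) ^ (3.00003 : ℝ))
      ((A : ℝ) ^ (2.99385 : ℝ)) hδ hδ1 hδε hW0p hN0 (by positivity) hro0 (by positivity) ?_
      (by positivity) ?_
    · have h1 := ha3 A (by omega)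
      have h2 : (A : ℝ) ^ (3.00003 : ℝ) = (A : ℝ) ^ (0.0062 : ℝ) * (A : ℝ) ^ (2.99383 : ℝ) := by
        rw [← Real.rpow_add hA0]
        norm_num
      have h3 : (A : ℝ) ^ (2.99385 : ℝ) = (A : ℝ) ^ (0.00002 : ℝ) * (A : ℝ) ^ (2.99383 : ℝ) := by
        rw [← Real.rpow_add hA0]
        norm_num
      rw [h2, h3]
      have h4 : 0 < (A : ℝ) ^ (2.99383 : ℝ) := by positivity
      have h5 : (A : ℝ) ^ (0.0062 : ℝ) ≤ 15 / 16 * (W0 k A * (A : ℝ) ^ (0.00002 : ℝ)) := by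
        have h6 : cw * (A : ℝ) ^ (0.0062 : ℝ) * (16 / 15 / cw) ≤ W0 k A * (A : ℝ) ^ (0.00002 : ℝ) :=
          mul_le_mul hW0' h1 (by positivity) hW0p.le
        have h7 : cw * (A : ℝ) ^ (0.0062 : ℝ) * (16 / 15 / cw) = 16 / 15 * (A : ℝ) ^ (0.0062 : ℝ) := by
          field_simp
        rw [h7] at h6
        linarith
      have h8 := mul_le_mul_of_nonneg_right h5 h4.le
      linarith
    · refine hmain.trans (add_le_add (mul_le_mul_of_nonneg_left ?_ ?_) le_rfl)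
      · have h1 : (A : ℝ) ^ (0.0001 : ℝ) * (W0 k A * (A : ℝ) ^ (2.998 : ℝ)) =
            W0 k A * (A : ℝ) ^ (2.9981 : ℝ) := by
          have : (A : ℝ) ^ (2.9981 : ℝ) = (A : ℝ) ^ (0.0001 : ℝ) * (A : ℝ) ^ (2.998 : ℝ) := by
            rw [← Real.rpow_add hA0]
            norm_num
          rw [this]
          ring
        rw [h1, ← mul_add]
        refine mul_le_mul_of_nonneg_left ?_ hW0p.le
        have h2 : (A : ℝ) ^ (2.99 : ℝ) ≤ (A : ℝ) ^ (2.9981 : ℝ) :=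
          Real.rpow_le_rpow_of_exponent_le hA1r (by norm_num)
        have h3 : 2 * (A : ℝ) ^ (2.9981 : ℝ) ≤ (A : ℝ) ^ (2.9982 : ℝ) := by
          have h4 : (A : ℝ) ^ (2.9982 : ℝ) = (A : ℝ) ^ (0.0001 : ℝ) * (A : ℝ) ^ (2.9981 : ℝ) := by
            rw [← Real.rpow_add hA0]
            norm_num
          rw [h4]
          exact mul_le_mul_of_nonneg_right (ha2 A (by omega)) (by positivity)
        linarith
      · have : 0 < (1 - δ) * N0 := mul_pos (by linarith) hN0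
        positivity
  · -- `1 ≤ Φ`
    intro x hx
    rw [hL, mem_filter] at hx
    obtain ⟨hxA, -, -, hpr, hbig⟩ := hx
    refine p4 _ fun p hp hpp _ hpA => ?_
    have hj := (hn x hxA).2.2.1.1
    have h1 : (p : ℤ) ∣ nn k x.1 x.2.1 x.2.2 := by
      have := (Nat.mem_primeFactors.1 hp).2.1
      exact Int.natCast_dvd.2 this
    have h2 : nn k x.1 x.2.1 x.2.2 = j * (nn k x.1 x.2.1 x.2.2 / j) := (Int.mul_ediv_cancel' hj).symm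
    rw [h2] at h1
    rcases (Nat.prime_iff_prime_int.1 hpp).dvd_or_dvd h1 with h3 | h3
    · exact_mod_cast h3
    · exfalso
      have h4 : p ∣ (nn k x.1 x.2.1 x.2.2 / j).natAbs := Int.natCast_dvd.1 h3
      have h5 := (Nat.prime_dvd_prime_iff_eq hpp hpr).1 h4
      rw [h5] at hpA
      exact absurd hbig (not_lt.2 hpA)
  · intro x hx
    rw [hL, mem_filter] at hx
    obtain ⟨hxA, hxE, hNice, -, -⟩ := hx
    obtain ⟨q1, q2, -, -, -⟩ := hn x hxA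
    exact hEx x q1 hxE q2 hNice

end H96.DR
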