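import Pool.Agent.H96.DR.LDef

/-!
# [DR IDX] the indices, 80-130 lines. File Pool/Agent/H96/DR/Idx.lean

* `idx_LQ`: the homomorphism `x ↦ (x.1, x.2.1, x.2.2)` to `ZMod Q × ZMod Q × ZMod Q` is surjective with kernel `LQ Q` (`ZMod.intCast_zmod_eq_zero_iff_dvd`,
`ZMod.intCast_surjective`); the index of the kernel is the number of elements of the image (`AddMonoidHom.index_ker`, `Nat.card`, `ZMod.card` / `Nat.card_zmod`).
* `idx_Lr`: the homomorphism `x ↦ x.1 - x.2.1 m + x.2.2 m²` to `ZMod r`, surjective (`x = (t, 0, 0)`).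
* `idx_Lb`: `x ↦ (x.1 - ρ² x.2.2, x.2.1 - ρ x.2.2)` to `ZMod p × ZMod p`, surjective (`x = (s, t, 0)`).
* `idx_inf`: the index of `Λ ⊓ Λ'` is at most `m m'` (`AddSubgroup.index_inf_le`), is divisible by `m` and by `m'` (`AddSubgroup.index_dvd_of_le inf_le_left`), which are coprime, and is not
zero (`AddSubgroup.index_inf_ne_zero`); so it is `m m'`.
-/

set_option autoImplicit false

namespace H96.DR

open Finset H23.LP

private theorem idx_gen {G : Type} [AddGroup G] (f : ℤ × ℤ × ℤ →+ G) (hf : Function.Surjective f)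
    (Λ : AddSubgroup (ℤ × ℤ × ℤ)) (h : ∀ x, x ∈ Λ ↔ f x = 0) : Λ.index = Nat.card G := by
  have h1 : Λ = f.ker := by
    ext x
    rw [h, AddMonoidHom.mem_ker]
  rw [h1, AddSubgroup.index_eq_card]
  exact Nat.card_congr (QuotientAddGroup.quotientKerEquivOfSurjective f hf).toEquiv

theorem idx_LQ (Q : ℕ) (hQ : 0 < Q) : (LQ (Q : ℤ)).index = Q ^ 3 := by
  let c : ℤ →+ ZMod Q := Int.castAddHom (ZMod Q)
  let f : ℤ × ℤ × ℤ →+ ZMod Q × ZMod Q × ZMod Q := AddMonoidHom.prodMap c (AddMonoidHom.prodMap c c)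
  have hf : ∀ x, f x = ((x.1 : ZMod Q), (x.2.1 : ZMod Q), (x.2.2 : ZMod Q)) := fun x => rfl
  have hs : Function.Surjective f := by
    rintro ⟨u, v, w⟩
    obtain ⟨a, rfl⟩ := ZMod.intCast_surjective u
    obtain ⟨b, rfl⟩ := ZMod.intCast_surjective v
    obtain ⟨d, rfl⟩ := ZMod.intCast_surjective w
    exact ⟨(a, b, d), hf _⟩
  rw [idx_gen f hs (LQ (Q : ℤ)) fun x => ?_]
  · rw [Nat.card_prod, Nat.card_prod, Nat.card_zmod]
    ring
  · rw [hf, mem_LQ, Prod.mk_eq_zero, Prod.mk_eq_zero, ZMod.intCast_zmod_eq_zero_iff_dvd,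
      ZMod.intCast_zmod_eq_zero_iff_dvd, ZMod.intCast_zmod_eq_zero_iff_dvd]

theorem idx_Lr (r : ℕ) (hr : 0 < r) (m : ℤ) : (Lr (r : ℤ) m).index = r := by
  let f : ℤ × ℤ × ℤ →+ ZMod r :=
    { toFun := fun x => ((x.1 - x.2.1 * m + x.2.2 * m ^ 2 : ℤ) : ZMod r)
      map_zero' := by simp
      map_add' := by
        intro x y
        simp only [Prod.fst_add, Prod.snd_add]
        push_cast
        ring }
  have hf : ∀ x, f x = ((x.1 - x.2.1 * m + x.2.2 * m ^ 2 : ℤ) : ZMod r) := fun x => rfl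
  have hs : Function.Surjective f := by
    intro u
    obtain ⟨a, rfl⟩ := ZMod.intCast_surjective u
    refine ⟨(a, 0, 0), ?_⟩
    rw [hf]
    simp
  rw [idx_gen f hs (Lr (r : ℤ) m) fun x => ?_]
  · rw [Nat.card_zmod]
  · rw [hf, ZMod.intCast_zmod_eq_zero_iff_dvd]
    exact Iff.rfl

theorem idx_Lb (p : ℕ) (hp : 0 < p) (ρ : ℤ) : (Lb (p : ℤ) ρ).index = p ^ 2 := by
  let f : ℤ × ℤ × ℤ →+ ZMod p × ZMod p :=
    { toFun := fun x => (((x.1 - ρ ^ 2 * x.2.2 : ℤ) : ZMod p), ((x.2.1 - ρ * x.2.2 : ℤ) : ZMod p))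
      map_zero' := by simp
      map_add' := by
        intro x y
        ext
        · simp only [Prod.fst_add, Prod.snd_add]
          push_cast
          ring
        · simp only [Prod.fst_add, Prod.snd_add]
          push_cast
          ring }
  have hf : ∀ x, f x = (((x.1 - ρ ^ 2 * x.2.2 : ℤ) : ZMod p), ((x.2.1 - ρ * x.2.2 : ℤ) : ZMod p)) :=
    fun x => rfl
  have hs : Function.Surjective f := by
    rintro ⟨u, v⟩
    obtain ⟨a, rfl⟩ := ZMod.intCast_surjective u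
    obtain ⟨b, rfl⟩ := ZMod.intCast_surjective v
    refine ⟨(a, b, 0), ?_⟩
    rw [hf]
    simp
  rw [idx_gen f hs (Lb (p : ℤ) ρ) fun x => ?_]
  · rw [Nat.card_prod, Nat.card_zmod]
    ring
  · rw [hf, Prod.mk_eq_zero, ZMod.intCast_zmod_eq_zero_iff_dvd, ZMod.intCast_zmod_eq_zero_iff_dvd]
    exact Iff.rfl

theorem idx_inf (Λ Λ' : AddSubgroup (ℤ × ℤ × ℤ)) (m m' : ℕ) (hm : Λ.index = m) (hm' : Λ'.index = m')
    (h0 : 0 < m) (h0' : 0 < m') (h : Nat.Coprime m m') : (Λ ⊓ Λ').index = m * m' := by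
  have h1 : (Λ ⊓ Λ').index ≤ m * m' := by
    rw [← hm, ← hm']
    exact AddSubgroup.index_inf_le
  have h2 : (Λ ⊓ Λ').index ≠ 0 :=
    AddSubgroup.index_inf_ne_zero (by rw [hm]; exact h0.ne') (by rw [hm']; exact h0'.ne')
  have h3 : m ∣ (Λ ⊓ Λ').index := by
    rw [← hm]
    exact AddSubgroup.index_dvd_of_le inf_le_left
  have h4 : m' ∣ (Λ ⊓ Λ').index := by
    rw [← hm']
    exact AddSubgroup.index_dvd_of_le inf_le_right
  have h5 : m * m' ∣ (Λ ⊓ Λ').index := h.mul_dvd_of_dvd_of_dvd h3 h4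
  exact le_antisymm h1 (Nat.le_of_dvd (Nat.pos_of_ne_zero h2) h5)

end H96.DR
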