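import Pool.Agent.H96.DR.Thc
import Pool.Agent.H96.DR.Idx

/-!
# [DR LONE] the points of an ideal in the box, 80-130 lines. File Pool/Agent/H96/DR/Lone.lean

`set_le`: if the set is empty take any `y0`; otherwise let `y0` be one of its elements: for every `x` of the set `x - y0` lies in `LQ Q` (both are `≡ (1, 0, 0)`), in `Lr r m` and in `Λ`, and
`Bx k M A = box3 (2 LL² (M A)) (LL (M A)) (M A) A` (definitions; the coordinates of `x - y0` by `Prod.fst_sub`, `Prod.snd_sub`).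
Let `Q = QQ k w > 0` (`k ≠ 0` as `k` is not a cube). `Λ = LQ Q ⊓ Lr r m` has index `Q³ r` (`idx_inf`; `Nat.Coprime (Q ^ 3) r`) and is `θ`-closed (`thc_LQ`, `thc_Lr`, `thc_inf`).
There is `a0` with `a0 ≡ 1 (mod Q)`, `r ∣ a0` (Bezout); put `x0 = (a0, 0, 0)`. Then for all `x`: `Cl k w x ∧ Lt r m x ↔ x - x0 ∈ Λ`, so the number is `cnt Λ x0 ..` (`set_eq`).
`lone`: choose `R = 6 (|k| + 1) Q · 12/ε` (so `R ≥ 1` after taking the maximum with `1`): `D = (|k| + 1) (Q³ r)^(1/3) = (|k| + 1) Q r^(1/3)`, `6 D ≤ (ε/12) R r^(1/3) ≤ (ε/12) A`, w.l.o.g. `ε ≤ 1`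
(replace `ε` by `min ε 1`), `(1 + ε/12)³ ≤ 1 + ε`, `(1 - ε/12)³ ≥ 1 - ε`; `thc_cnt`.
-/

set_option autoImplicit false

namespace H96.DR

open Finset H23.LP

open Classical in
theorem set_le (k : ℤ) (w M A : ℕ) (r m : ℤ) (Λ : AddSubgroup (ℤ × ℤ × ℤ)) : ∃ y0 : ℤ × ℤ × ℤ,
    ((Bx k M A).filter fun x => (Cl k w x.1 x.2.1 x.2.2 ∧ Lt r m x.1 x.2.1 x.2.2) ∧ x ∈ Λ).card ≤
      cnt (LQ (QQ k w) ⊓ Lr r m ⊓ Λ) y0 (2 * LL k ^ 2 * (M * A)) (LL k * (M * A)) (M * A) A := by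
  by_cases he : ∃ y0, y0 ∈ (Bx k M A).filter fun x =>
      (Cl k w x.1 x.2.1 x.2.2 ∧ Lt r m x.1 x.2.1 x.2.2) ∧ x ∈ Λ
  · obtain ⟨y0, hy0⟩ := he
    obtain ⟨-, ⟨hyc, hyt⟩, hyΛ⟩ := mem_filter.1 hy0
    refine ⟨y0, card_le_card fun x hx => ?_⟩
    obtain ⟨hxB, ⟨hxc, hxt⟩, hxΛ⟩ := mem_filter.1 hx
    refine mem_filter.2 ⟨hxB, AddSubgroup.mem_inf.2 ⟨AddSubgroup.mem_inf.2 ⟨?_, ?_⟩, ?_⟩⟩
    · rw [mem_LQ]
      refine ⟨?_, ?_, ?_⟩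
      · exact (hyc.1.trans hxc.1.symm).dvd
      · exact (hyc.2.1.trans hxc.2.1.symm).dvd
      · exact (hyc.2.2.trans hxc.2.2.symm).dvd
    · exact (Lr r m).sub_mem hxt hyt
    · exact Λ.sub_mem hxΛ hyΛ
  · refine ⟨0, ?_⟩
    rw [card_eq_zero.2 (eq_empty_iff_forall_notMem.2 fun x hx => he ⟨x, hx⟩)]
    exact Nat.zero_le _

open Classical in
theorem set_eq (k : ℤ) (hk : k ≠ 0) (w M A r : ℕ) (hr : 0 < r) (hrQ : Nat.Coprime r (QQ k w)) (m : ℤ) :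
    ∃ x0 : ℤ × ℤ × ℤ,
      ((Bx k M A).filter fun x => Cl k w x.1 x.2.1 x.2.2 ∧ Lt r m x.1 x.2.1 x.2.2).card =
        cnt (LQ (QQ k w) ⊓ Lr r m) x0 (2 * LL k ^ 2 * (M * A)) (LL k * (M * A)) (M * A) A := by
  obtain ⟨a0, ha1, ha2⟩ := Nat.chineseRemainder hrQ 0 1
  have h1 : (r : ℤ) ∣ (a0 : ℤ) := by exact_mod_cast (Nat.modEq_zero_iff_dvd.1 ha1)
  have h2 : (QQ k w : ℤ) ∣ (a0 : ℤ) - 1 := by
    have h3 := (Int.natCast_modEq_iff.2 ha2).symm.dvd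
    simpa using h3
  refine ⟨((a0 : ℤ), 0, 0), ?_⟩
  have h4 : ∀ x : ℤ × ℤ × ℤ, (Cl k w x.1 x.2.1 x.2.2 ∧ Lt r m x.1 x.2.1 x.2.2) ↔
      x - ((a0 : ℤ), (0 : ℤ), (0 : ℤ)) ∈ LQ (QQ k w) ⊓ Lr r m := by
    rintro ⟨a, b, c⟩
    rw [AddSubgroup.mem_inf, mem_LQ, mem_Lr]
    simp only [Prod.mk_sub_mk, sub_zero]
    refine and_congr ?_ ?_
    · unfold Cl
      refine and_congr ?_ (and_congr ?_ ?_)
      · constructor
        · intro h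
          have h5 := h.symm.dvd
          have h6 : a - (a0 : ℤ) = (a - 1) - ((a0 : ℤ) - 1) := by ring
          rw [h6]
          exact dvd_sub h5 h2
        · intro h
          refine (Int.modEq_iff_dvd.2 ?_).symm
          have h6 : a - 1 = (a - (a0 : ℤ)) + ((a0 : ℤ) - 1) := by ring
          rw [h6]
          exact dvd_add h h2
      · exact Int.modEq_zero_iff_dvd
      · exact Int.modEq_zero_iff_dvd
    · unfold Lt
      have h6 : a - (a0 : ℤ) - b * m + c * m ^ 2 = (a - b * m + c * m ^ 2) - (a0 : ℤ) := by ring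
      rw [h6]
      exact (dvd_sub_left h1).symm
  unfold cnt
  refine congrArg card ?_
  change (Bx k M A).filter _ = (Bx k M A).filter _
  exact filter_congr fun x _ => h4 x

private theorem lone_up {x : ℝ} (h0 : 0 ≤ x) (h1 : x ≤ 1) : (1 + x / 12) ^ 3 ≤ 1 + x := by
  nlinarith [mul_nonneg h0 h0, mul_nonneg h0 (sub_nonneg.2 h1), mul_nonneg (mul_nonneg h0 h0) (sub_nonneg.2 h1)]

private theorem lone_lo {x : ℝ} (h0 : 0 ≤ x) (h1 : x ≤ 1) : 1 - x ≤ (1 - x / 12) ^ 3 := by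
  nlinarith [mul_nonneg h0 h0, mul_nonneg h0 (sub_nonneg.2 h1), mul_nonneg (mul_nonneg h0 h0) (sub_nonneg.2 h1)]

private theorem lone_real {a d c ε : ℝ} (ha : 0 ≤ a) (hd : 0 ≤ d) (hε : 0 < ε) (hda : d ≤ min ε 1 / 12 * a)
    (h1 : c ≤ (a + d) ^ 3) (h2 : (a - d) ^ 3 ≤ c) : |c - a ^ 3| ≤ ε * a ^ 3 := by
  have e0 : 0 ≤ min ε 1 := le_min hε.le zero_le_one
  have e1 : min ε 1 ≤ 1 := min_le_right _ _
  have e2 : min ε 1 ≤ ε := min_le_left _ _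
  have ha3 : 0 ≤ a ^ 3 := pow_nonneg ha 3
  have h3 : (a + d) ^ 3 ≤ (1 + min ε 1) * a ^ 3 := by
    calc (a + d) ^ 3 ≤ ((1 + min ε 1 / 12) * a) ^ 3 := by
          refine pow_le_pow_left₀ (by linarith) ?_ 3
          linarith
      _ = (1 + min ε 1 / 12) ^ 3 * a ^ 3 := by ring
      _ ≤ (1 + min ε 1) * a ^ 3 := mul_le_mul_of_nonneg_right (lone_up e0 e1) ha3
  have h4 : (1 - min ε 1) * a ^ 3 ≤ (a - d) ^ 3 := by
    have h5 : 0 ≤ 1 - min ε 1 / 12 := by linarith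
    calc (1 - min ε 1) * a ^ 3 ≤ (1 - min ε 1 / 12) ^ 3 * a ^ 3 :=
          mul_le_mul_of_nonneg_right (lone_lo e0 e1) ha3
      _ = ((1 - min ε 1 / 12) * a) ^ 3 := by ring
      _ ≤ (a - d) ^ 3 := by
          refine pow_le_pow_left₀ (mul_nonneg h5 ha) ?_ 3
          linarith
  have h6 : min ε 1 * a ^ 3 ≤ ε * a ^ 3 := mul_le_mul_of_nonneg_right e2 ha3
  rw [abs_le]
  constructor
  · nlinarith
  · nlinarith

open Classical in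
theorem lone (k : ℤ) (hk : ∀ t : ℤ, t ^ 3 ≠ k) (w M : ℕ) (ε : ℝ) (hε : 0 < ε) : ∃ R : ℝ, 1 ≤ R ∧
    ∀ r A : ℕ, 0 < r → Nat.Coprime r (QQ k w) → R * (r : ℝ) ^ ((1 : ℝ) / 3) ≤ A → ∀ m : ℤ,
    (r : ℤ) ∣ m ^ 3 + k →
    |(((Bx k M A).filter fun x => Cl k w x.1 x.2.1 x.2.2 ∧ Lt r m x.1 x.2.1 x.2.2).card : ℝ) *
      (r * (QQ k w : ℝ) ^ 3) - (A : ℝ) ^ 3| ≤ ε * (A : ℝ) ^ 3 := by
  have hk0 : k ≠ 0 := by
    rintro rfl
    exact hk 0 (by norm_num)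
  have hQ : 0 < QQ k w := by
    unfold QQ
    have := Int.natAbs_pos.2 hk0
    have := Nat.factorial_pos w
    positivity
  have hQr : (0 : ℝ) < (QQ k w : ℝ) := by exact_mod_cast hQ
  have he : 0 < min ε 1 := lt_min hε one_pos
  have hK : 0 < |(k : ℝ)| + 1 := by positivity
  refine ⟨max 1 (72 * (|(k : ℝ)| + 1) * (QQ k w : ℝ) / min ε 1), le_max_left _ _, ?_⟩
  intro r A hr hrQ hRA m hm
  have hrr : (0 : ℝ) < (r : ℝ) := by exact_mod_cast hr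
  have hidx : (LQ (QQ k w : ℤ) ⊓ Lr (r : ℤ) m).index = QQ k w ^ 3 * r :=
    idx_inf _ _ _ _ (idx_LQ _ hQ) (idx_Lr r hr m) (pow_pos hQ 3) hr (Nat.Coprime.pow_left 3 hrQ.symm)
  have hthc : Thc k (LQ (QQ k w : ℤ) ⊓ Lr (r : ℤ) m) := thc_inf k _ _ (thc_LQ k _) (thc_Lr k _ m hm)
  have hm0 : 0 < QQ k w ^ 3 * r := Nat.mul_pos (pow_pos hQ 3) hr
  obtain ⟨x0, hx0⟩ := set_eq k hk0 w M A r hr hrQ m
  have hc := thc_cnt k hk _ hthc _ hidx hm0 x0 (2 * LL k ^ 2 * (M * A)) (LL k * (M * A)) (M * A) A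
  rw [← hx0] at hc
  have hroot : ((QQ k w ^ 3 * r : ℕ) : ℝ) ^ ((1 : ℝ) / 3) = (QQ k w : ℝ) * (r : ℝ) ^ ((1 : ℝ) / 3) := by
    push_cast
    rw [Real.mul_rpow (by positivity) hrr.le]
    congr 1
    rw [← Real.rpow_natCast, ← Real.rpow_mul hQr.le]
    norm_num
  rw [hroot] at hc
  set ρ : ℝ := (r : ℝ) ^ ((1 : ℝ) / 3) with hρ
  have hρ0 : 0 ≤ ρ := Real.rpow_nonneg hrr.le _
  have hd : 6 * ((|(k : ℝ)| + 1) * ((QQ k w : ℝ) * ρ)) ≤ min ε 1 / 12 * A := by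
    have h1 : 72 * (|(k : ℝ)| + 1) * (QQ k w : ℝ) / min ε 1 * ρ ≤ A :=
      (mul_le_mul_of_nonneg_right (le_max_right _ _) hρ0).trans hRA
    have h2 : 6 * ((|(k : ℝ)| + 1) * ((QQ k w : ℝ) * ρ)) =
        min ε 1 / 12 * (72 * (|(k : ℝ)| + 1) * (QQ k w : ℝ) / min ε 1 * ρ) := by
      field_simp
      ring
    rw [h2]
    exact mul_le_mul_of_nonneg_left h1 (by positivity)
  have hd0 : 0 ≤ 6 * ((|(k : ℝ)| + 1) * ((QQ k w : ℝ) * ρ)) := by positivity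
  have hA0 : (0 : ℝ) ≤ A := Nat.cast_nonneg A
  have hdA : 6 * ((|(k : ℝ)| + 1) * ((QQ k w : ℝ) * ρ)) ≤ A := by
    refine hd.trans ?_
    have h3 : min ε 1 / 12 ≤ 1 := by
      have := min_le_right ε (1 : ℝ)
      linarith
    calc min ε 1 / 12 * (A : ℝ) ≤ 1 * A := mul_le_mul_of_nonneg_right h3 hA0
      _ = A := one_mul _
  have h5 := lone_real hA0 hd0 hε hd hc.1 (hc.2 hdA)
  have h6 : ∀ n : ℝ, n * ((r : ℝ) * (QQ k w : ℝ) ^ 3) = ((QQ k w ^ 3 * r : ℕ) : ℝ) * n := by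
    intro n
    push_cast
    ring
  rw [h6]
  exact h5

end H96.DR
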