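import Pool.Agent.H96.DR.Adz
import Pool.Agent.H96.DR.Lone

/-!
# [DR STG] the rough points are counted by the roots, 140-220 lines. File Pool/Agent/H96/DR/Stg.lean

`M0` from `bxe` (with `ε`) and `adz`. `Rl` the `R` of `lone` with `ε`; `R0 = 2 Rl`. `N0 = NS k (M A)³`, `n = nn x ∈ [(1 - ε) N0, (1 + ε) N0]`, `Q = QQ k w`.
Let `(j, x)`: `j ∈ J`, `x ∈ AJ(j)`, `r = |n|/j` rough. `n > 0`, `n = j r`, `r ≥ 1`, and from the bounds for `j`: `r ≥ (1 - ε) N0 Y/((1 + ε) N0) ≥ (1 - 4ε) Y`, `r ≤ (1 + ε) N0 2Y/((1 - ε) N0) ≤ (2 + 8ε) Y` (`ε ≤ 1/4`). `r` is prime to `Q` (`nn_cl`, `big_prime`). Rough `A^0.0144` implies rough `X^0.0048`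
(`X ≤ A³`, so `X^0.0048 ≤ A^0.0144`).
(1) The pairs for which a prime `p ∣ r` (so `p > A^0.0144`) divides `CC` and `BB`: at most `#J A^2.9857` (`adz`), and `#J ≤ Jm`... (every `j ∈ J` is `≤ Jm`, `1 ≤ j` w.l.o.g.: `j ≥ (1 - ε) N0/(2Y) > 0`).
(2) For the other pairs no prime `p ∣ r` divides `CC`: if `p ∣ CC` and `p ∣ n` then `p ∣ BB²` (`H23.LP.id_AC`). So `gcd(CC, r) = 1`; let `m0 ∈ range r` with `r ∣ CC m0 + BB`. Then `r ∣ m0³ + k`: `CC³ (m0³ + k) ≡ -(BB³ - k CC³)`... in detail `(CC m0)³ ≡ -BB³` and `k CC³ - BB³ = n DD` (`H23.LP.id_kCB`),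
so `CC³ (m0³ + k) ≡ -BB³ + k CC³ ≡ 0 (mod r)`; and `Lt r m0 x`: `CC² (a - b m0 + c m0²) ≡ a CC² + b BB CC + c BB² = c² n ≡ 0` (`H23.LP.id_abc`). The map `(j, x) ↦ (r, m0, x)` is injective (`j = n/r`). So their number is at most
`∑_{r ∈ [(1-4ε)Y, (2+8ε)Y], rough, prime to Q} ∑_{m0 < r, r ∣ m0³ + k} #{x ∈ Bx : Cl, Lt r m0 x} ≤ ∑_r rho k r (1 + ε) A³/(r Q³)` (`lone`: `Rl r^(1/3) ≤ Rl (4 Y)^(1/3) ≤ 2 Rl Y^(1/3) ≤ A`).
-/

set_option autoImplicit false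

namespace H96.DR

open Finset H23.LP

/-- a number prime to `CC`: the root -/
private theorem root_ex (k a b c : ℤ) (r : ℕ) (hr : 0 < r) (hn : (r : ℤ) ∣ nn k a b c)
    (hco : IsCoprime (CC a b c) (r : ℤ)) :
    ∃ m : ℕ, m < r ∧ (r : ℤ) ∣ (m : ℤ) ^ 3 + k ∧ Lt r m a b c := by
  obtain ⟨u, v, huv⟩ := hco
  have hr0 : (0 : ℤ) < r := by exact_mod_cast hr
  have h1 : 0 ≤ (-(u * BB k a b c)) % (r : ℤ) := Int.emod_nonneg _ hr0.ne'
  have h2 : (-(u * BB k a b c)) % (r : ℤ) < r := Int.emod_lt_of_pos _ hr0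
  obtain ⟨m, hm⟩ : ∃ m : ℕ, (m : ℤ) = (-(u * BB k a b c)) % (r : ℤ) :=
    ⟨((-(u * BB k a b c)) % (r : ℤ)).toNat, Int.toNat_of_nonneg h1⟩
  have hmr : m < r := by
    have : (m : ℤ) < r := by rw [hm]; exact h2
    exact_mod_cast this
  have h3 : (m : ℤ) = -(u * BB k a b c) - r * (-(u * BB k a b c) / r) := by
    rw [hm]; exact Int.emod_def _ _
  obtain ⟨t, ht⟩ : ∃ t : ℤ, CC a b c * (m : ℤ) = r * t - BB k a b c := by
    refine ⟨v * BB k a b c - (-(u * BB k a b c) / r) * CC a b c, ?_⟩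
    rw [h3]
    linear_combination (-(BB k a b c)) * huv
  have hco2 : IsCoprime (r : ℤ) (CC a b c) := ⟨v, u, by linear_combination huv⟩
  refine ⟨m, hmr, ?_, ?_⟩
  · have h4 : (r : ℤ) ∣ CC a b c ^ 3 * ((m : ℤ) ^ 3 + k) := by
      have h5 : CC a b c ^ 3 * ((m : ℤ) ^ 3 + k) = nn k a b c * DD k b c +
          r * (r ^ 2 * t ^ 3 - 3 * r * t ^ 2 * BB k a b c + 3 * t * BB k a b c ^ 2) := by
        have h6 : CC a b c ^ 3 * ((m : ℤ) ^ 3 + k) = (CC a b c * (m : ℤ)) ^ 3 + k * CC a b c ^ 3 := by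
          ring
        rw [h6, ht]
        linear_combination H23.LP.id_kCB k a b c
      rw [h5]
      exact dvd_add (dvd_mul_of_dvd_left hn _) (dvd_mul_right _ _)
    exact (hco2.pow_right).dvd_of_dvd_mul_left h4
  · have h4 : (r : ℤ) ∣ CC a b c ^ 2 * (a - b * m + c * (m : ℤ) ^ 2) := by
      have h5 : CC a b c ^ 2 * (a - b * m + c * (m : ℤ) ^ 2) = c ^ 2 * nn k a b c +
          r * (-(b * CC a b c * t) + c * (r * t ^ 2 - 2 * t * BB k a b c)) := by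
        have h6 : CC a b c ^ 2 * (a - b * m + c * (m : ℤ) ^ 2) = a * CC a b c ^ 2 -
            b * CC a b c * (CC a b c * (m : ℤ)) + c * (CC a b c * (m : ℤ)) ^ 2 := by ring
        rw [h6, ht]
        linear_combination id_abc k a b c
      rw [h5]
      exact dvd_add (dvd_mul_of_dvd_right hn _) (dvd_mul_right _ _)
    exact (hco2.pow_right).dvd_of_dvd_mul_left h4

open Classical in
/-- the roots -/
private noncomputable def Dr (k : ℤ) (z U V : ℝ) : Finset (Σ _ : ℕ, ℕ) :=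
  ((range (⌊V⌋₊ + 1)).filter fun r : ℕ => U ≤ (r : ℝ) ∧ Rough z r).sigma fun r =>
    (range r).filter fun m : ℕ => (r : ℤ) ∣ (m : ℤ) ^ 3 + k

/-- the points with a common prime factor -/
private def Bd (k : ℤ) (z : ℝ) (a b c : ℤ) : Prop := ∃ p : ℕ, p.Prime ∧ z < p ∧
  (p : ℤ) ∣ nn k a b c ∧ (p : ℤ) ∣ CC a b c ∧ (p : ℤ) ∣ BB k a b c

open Classical in
private theorem one_x (k : ℤ) (w : ℕ) (a b c : ℤ) (z z' ε N0 Y : ℝ) (hz : z' ≤ z) (hε : 0 < ε)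
    (hε4 : ε ≤ 1 / 4) (hN0 : 0 < N0) (hY : 1 ≤ Y) (hcl : Cl k w a b c)
    (hn1 : (1 - ε) * N0 ≤ nn k a b c) (hn2 : (nn k a b c : ℝ) ≤ (1 + ε) * N0) (J : Finset ℕ)
    (hJ : ∀ j ∈ J, (1 - ε) * N0 / (2 * Y) ≤ j ∧ (j : ℝ) ≤ (1 + ε) * N0 / Y) :
    (J.filter fun j : ℕ => Ex j (nn k a b c) ∧ Rough z ((nn k a b c).natAbs / j) ∧ ¬ Bd k z a b c).card ≤
      ((Dr k z' ((1 - 4 * ε) * Y) ((2 + 8 * ε) * Y)).filter fun y =>
        Nat.Coprime y.1 (QQ k w) ∧ Lt y.1 y.2 a b c).card := by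
  obtain ⟨n, hn⟩ : ∃ n : ℤ, n = nn k a b c := ⟨_, rfl⟩
  have hnr : (0 : ℝ) < n := by
    rw [hn]
    refine lt_of_lt_of_le ?_ hn1
    exact mul_pos (by linarith) hN0
  have hn0 : 0 < n := by exact_mod_cast hnr
  have key : ∀ j ∈ J.filter fun j : ℕ => Ex j (nn k a b c) ∧ Rough z ((nn k a b c).natAbs / j) ∧
      ¬ Bd k z a b c, 0 < j ∧ (j * (n.natAbs / j) = n.natAbs) ∧ ∃ m : ℕ,
      (⟨n.natAbs / j, m⟩ : Σ _ : ℕ, ℕ) ∈ (Dr k z' ((1 - 4 * ε) * Y) ((2 + 8 * ε) * Y)).filter fun y =>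
        Nat.Coprime y.1 (QQ k w) ∧ Lt y.1 y.2 a b c := by
    intro j hj
    rw [mem_filter, ← hn] at hj
    obtain ⟨hjJ, hex, hro, hbd⟩ := hj
    obtain ⟨hj1, hj2⟩ := hJ j hjJ
    have hjr : (0 : ℝ) < j := by
      refine lt_of_lt_of_le ?_ hj1
      exact div_pos (mul_pos (by linarith) hN0) (by linarith)
    have hj0 : 0 < j := by exact_mod_cast hjr
    have hdv : j ∣ n.natAbs := by
      have := hex.1
      exact Int.natCast_dvd.1 this
    obtain ⟨r, hr⟩ := hdv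
    have hdiv : n.natAbs / j = r := by rw [hr]; exact Nat.mul_div_cancel_left _ hj0
    have hnn : (n : ℤ) = j * r := by
      have h1 : ((n.natAbs : ℕ) : ℤ) = n := Int.natAbs_of_nonneg hn0.le
      rw [← h1, hr]; push_cast; ring
    have hr0 : 0 < r := by
      rcases Nat.eq_zero_or_pos r with h | h
      · rw [h] at hnn; simp at hnn; omega
      · exact h
    have hrr : (0 : ℝ) < r := by exact_mod_cast hr0
    have hnnr : (n : ℝ) = j * r := by rw [hnn]; push_cast; ring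
    rw [hdiv] at hro ⊢
    refine ⟨hj0, hr.symm, ?_⟩
    have hrn : (r : ℤ) ∣ nn k a b c := by rw [← hn, hnn]; exact dvd_mul_left _ _
    have hcop : IsCoprime (CC a b c) (r : ℤ) := by
      rw [Int.isCoprime_iff_gcd_eq_one]
      by_contra h1
      obtain ⟨p, hp, hp2⟩ := Nat.exists_prime_and_dvd h1
      have h2 : (p : ℤ) ∣ CC a b c := (Int.natCast_dvd_natCast.2 hp2).trans (Int.gcd_dvd_left _ _)
      have h3 : (p : ℤ) ∣ (r : ℤ) := (Int.natCast_dvd_natCast.2 hp2).trans (Int.gcd_dvd_right _ _)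
      have h4 : p ∣ r := by exact_mod_cast h3
      have h5 : (p : ℤ) ∣ nn k a b c := h3.trans hrn
      have hP : Prime (p : ℤ) := Nat.prime_iff_prime_int.mp hp
      apply hbd
      refine ⟨p, hp, hro p hp h4, h5, h2, ?_⟩
      have h6 : BB k a b c ^ 2 = (a ^ 2 - k * b * c) * CC a b c + c * nn k a b c := by
        linear_combination -(id_AC k a b c)
      apply hP.dvd_of_dvd_pow (n := 2)
      rw [h6]
      exact dvd_add (dvd_mul_of_dvd_right h2 _) (dvd_mul_of_dvd_right h5 _)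
    obtain ⟨m, hm1, hm2, hm3⟩ := root_ex k a b c r hr0 hrn hcop
    refine ⟨m, ?_⟩
    rw [mem_filter]
    refine ⟨?_, ?_, hm3⟩
    · unfold Dr
      rw [mem_sigma, mem_filter, mem_filter, mem_range, mem_range]
      refine ⟨⟨?_, ?_, ?_⟩, hm1, hm2⟩
      · apply Nat.lt_succ_of_le
        apply Nat.le_floor
        -- r ≤ (2 + 8ε) Y
        have h1 : (j : ℝ) * r ≤ (1 + ε) * N0 := by rw [← hnnr, hn]; exact hn2
        have h2 : (1 - ε) * N0 ≤ (j : ℝ) * (2 * Y) := by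
          rwa [div_le_iff₀ (by linarith)] at hj1
        have h3 : (1 - ε) * (r : ℝ) * N0 ≤ (2 * Y) * (1 + ε) * N0 := by
          calc (1 - ε) * (r : ℝ) * N0 = ((1 - ε) * N0) * r := by ring
            _ ≤ ((j : ℝ) * (2 * Y)) * r := mul_le_mul_of_nonneg_right h2 hrr.le
            _ = (2 * Y) * (j * r) := by ring
            _ ≤ (2 * Y) * ((1 + ε) * N0) := mul_le_mul_of_nonneg_left h1 (by linarith)
            _ = _ := by ring
        have h4 : (1 - ε) * (r : ℝ) ≤ (2 * Y) * (1 + ε) := le_of_mul_le_mul_right h3 hN0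
        have h5 : (2 * Y) * (1 + ε) ≤ (1 - ε) * ((2 + 8 * ε) * Y) := by
          have h6 : 0 ≤ Y * (ε * (1 - 2 * ε)) := by
            apply mul_nonneg (by linarith)
            apply mul_nonneg hε.le (by linarith)
          nlinarith [h6]
        exact le_of_mul_le_mul_left (h4.trans h5) (by linarith)
      · have h1 : (1 - ε) * N0 ≤ (j : ℝ) * r := by rw [← hnnr, hn]; exact hn1
        have h2 : (j : ℝ) * Y ≤ (1 + ε) * N0 := by
          rwa [le_div_iff₀ (by linarith)] at hj2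
        have h3 : (1 - ε) * Y * N0 ≤ (1 + ε) * r * N0 := by
          calc (1 - ε) * Y * N0 = ((1 - ε) * N0) * Y := by ring
            _ ≤ ((j : ℝ) * r) * Y := mul_le_mul_of_nonneg_right h1 (by linarith)
            _ = (j * Y) * r := by ring
            _ ≤ ((1 + ε) * N0) * r := mul_le_mul_of_nonneg_right h2 hrr.le
            _ = _ := by ring
        have h4 : (1 - ε) * Y ≤ (1 + ε) * r := le_of_mul_le_mul_right h3 hN0
        have h5 : (1 + ε) * ((1 - 4 * ε) * Y) ≤ (1 - ε) * Y := by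
          have h6 : 0 ≤ Y * (ε * (1 + 2 * ε)) := by
            apply mul_nonneg (by linarith)
            apply mul_nonneg hε.le (by linarith)
          nlinarith [h6]
        exact le_of_mul_le_mul_left (h5.trans h4) (by linarith)
      · intro p hp hpr
        exact lt_of_le_of_lt hz (hro p hp hpr)
    · have h1 := nn_cl k w a b c hcl
      rw [← hn] at h1
      have h2 : IsCoprime (n : ℤ) (QQ k w : ℤ) := by
        obtain ⟨t, ht⟩ := h1.dvd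
        exact ⟨1, t, by linear_combination -ht⟩
      have h3 : IsCoprime (r : ℤ) (QQ k w : ℤ) := by
        rw [hnn] at h2
        exact h2.of_mul_left_right
      exact Nat.isCoprime_iff_coprime.1 h3
  choose! f hf using fun j hj => (key j hj).2.2
  apply Finset.card_le_card_of_injOn (fun j => (⟨n.natAbs / j, f j⟩ : Σ _ : ℕ, ℕ))
  · intro j hj
    exact hf j hj
  · intro j hj j' hj' h
    have h1 : n.natAbs / j = n.natAbs / j' := congrArg Sigma.fst h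
    have h2 := (key j hj).2.1
    have h3 := (key j' hj').2.1
    have h4 : 0 < n.natAbs := Int.natAbs_pos.2 hn0.ne'
    rw [← h1] at h3
    have h5 : 0 < n.natAbs / j := by
      rcases Nat.eq_zero_or_pos (n.natAbs / j) with h6 | h6
      · rw [h6] at h2; omega
      · exact h6
    exact Nat.eq_of_mul_eq_mul_right h5 (h2.trans h3.symm)

open Classical in
theorem stg (k : ℤ) (hk : ∀ t : ℤ, t ^ 3 ≠ k) (ε : ℝ) (hε : 0 < ε) (hε4 : ε ≤ 1 / 4) :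
    ∃ M0 : ℕ, 1 ≤ M0 ∧ ∀ w M : ℕ, M0 ≤ M → ∃ R0 : ℝ, 1 ≤ R0 ∧ ∃ A0 : ℕ, ∀ A X Jm : ℕ, A0 ≤ A →
    (X : ℝ) ≤ (A : ℝ) ^ 3 → ∀ Y : ℝ, 1 ≤ Y → R0 * Y ^ ((1 : ℝ) / 3) ≤ A → ∀ J : Finset ℕ,
    (∀ j ∈ J, j ≤ Jm ∧ (1 - ε) * (NS k * ((M : ℝ) * A) ^ 3) / (2 * Y) ≤ j ∧
      (j : ℝ) ≤ (1 + ε) * (NS k * ((M : ℝ) * A) ^ 3) / Y) →
    ∑ j ∈ J, (((AJ k w M A j).filter fun x => Rough ((A : ℝ) ^ (0.0144 : ℝ))
        ((nn k x.1 x.2.1 x.2.2).natAbs / j)).card : ℝ) ≤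
      (1 + ε) * ((A : ℝ) ^ 3 / (QQ k w : ℝ) ^ 3) *
        Rs k ((X : ℝ) ^ (0.0048 : ℝ)) ((1 - 4 * ε) * Y) ((2 + 8 * ε) * Y) +
      Jm * (A : ℝ) ^ (2.9857 : ℝ) := by
  have hk0 : k ≠ 0 := by
    rintro rfl
    exact hk 0 (by norm_num)
  obtain ⟨M1, hM1, hbx⟩ := bxe k ε hε
  obtain ⟨M2, hM2, had⟩ := adz k hk0
  refine ⟨max M1 M2, hM1.trans (le_max_left _ _), ?_⟩
  intro w M hM
  have hQ : 0 < QQ k w := by
    unfold QQ
    have := Int.natAbs_pos.2 hk0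
    have := Nat.factorial_pos w
    positivity
  have hQr : (0 : ℝ) < (QQ k w : ℝ) := by exact_mod_cast hQ
  obtain ⟨R, hR, hlone⟩ := lone k hk w M ε hε
  obtain ⟨A1, hA1⟩ := had M ((le_max_right _ _).trans hM)
  refine ⟨2 * R, by linarith, max A1 1, ?_⟩
  intro A X Jm hA hXA Y hY hRY J hJ
  have hAone : 1 ≤ A := (le_max_right _ _).trans hA
  have hAr : (1 : ℝ) ≤ A := by exact_mod_cast hAone
  have hAp : (0 : ℝ) < A := by linarith
  have hMone : 1 ≤ M := hM1.trans ((le_max_left _ _).trans hM)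
  have hMr : (1 : ℝ) ≤ M := by exact_mod_cast hMone
  have hN1 : (1 : ℝ) ≤ (NS k : ℝ) := by exact_mod_cast NS_pos k
  obtain ⟨N0, hN0⟩ : ∃ N0 : ℝ, N0 = NS k * ((M : ℝ) * A) ^ 3 := ⟨_, rfl⟩
  rw [← hN0] at hJ
  have hN0p : 0 < N0 := by rw [hN0]; positivity
  obtain ⟨z, hz⟩ : ∃ z : ℝ, z = (A : ℝ) ^ (0.0144 : ℝ) := ⟨_, rfl⟩
  obtain ⟨z', hz'⟩ : ∃ z' : ℝ, z' = (X : ℝ) ^ (0.0048 : ℝ) := ⟨_, rfl⟩
  have hzz : z' ≤ z := by
    rw [hz, hz']
    calc (X : ℝ) ^ (0.0048 : ℝ) ≤ ((A : ℝ) ^ 3) ^ (0.0048 : ℝ) :=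
          Real.rpow_le_rpow (Nat.cast_nonneg _) hXA (by norm_num)
      _ = (A : ℝ) ^ (0.0144 : ℝ) := by
          rw [← Real.rpow_natCast, ← Real.rpow_mul hAp.le]; norm_num
  have hadz := hA1 A ((le_max_left _ _).trans hA)
  rw [← hz] at hadz
  rw [← hz, ← hz']
  -- the bad points
  have hJc : (J.card : ℝ) ≤ Jm := by
    have h1 : J ⊆ Ioc 0 Jm := by
      intro j hj
      obtain ⟨h2, h3, _⟩ := hJ j hj
      rw [mem_Ioc]
      refine ⟨?_, h2⟩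
      have hjr : (0 : ℝ) < j := by
        refine lt_of_lt_of_le ?_ h3
        exact div_pos (mul_pos (by linarith) hN0p) (by linarith)
      exact_mod_cast hjr
    have h2 := card_le_card h1
    rw [Nat.card_Ioc] at h2
    have h3 : J.card ≤ Jm := by omega
    exact_mod_cast h3
  have hsplit : ∀ j ∈ J, (((AJ k w M A j).filter fun x => Rough z
      ((nn k x.1 x.2.1 x.2.2).natAbs / j)).card : ℝ) ≤
      (((Bx k M A).filter fun x => Cl k w x.1 x.2.1 x.2.2 ∧ (Ex j (nn k x.1 x.2.1 x.2.2) ∧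
        Rough z ((nn k x.1 x.2.1 x.2.2).natAbs / j) ∧ ¬ Bd k z x.1 x.2.1 x.2.2)).card : ℝ) +
      (A : ℝ) ^ (2.9857 : ℝ) := by
    intro j _
    refine le_trans ?_ (add_le_add (le_refl _) hadz)
    have h1 : (AJ k w M A j).filter (fun x => Rough z ((nn k x.1 x.2.1 x.2.2).natAbs / j)) ⊆
        ((Bx k M A).filter fun x => Cl k w x.1 x.2.1 x.2.2 ∧ (Ex j (nn k x.1 x.2.1 x.2.2) ∧
        Rough z ((nn k x.1 x.2.1 x.2.2).natAbs / j) ∧ ¬ Bd k z x.1 x.2.1 x.2.2)) ∪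
        ((Bx k M A).filter fun x => ∃ p : ℕ, p.Prime ∧ z < p ∧
      (p : ℤ) ∣ nn k x.1 x.2.1 x.2.2 ∧ (p : ℤ) ∣ CC x.1 x.2.1 x.2.2 ∧
      (p : ℤ) ∣ BB k x.1 x.2.1 x.2.2) := by
      intro x hx
      unfold AJ at hx
      rw [mem_filter, mem_filter] at hx
      rw [mem_union, mem_filter, mem_filter]
      by_cases hb : Bd k z x.1 x.2.1 x.2.2
      · right
        exact ⟨hx.1.1, hb⟩
      · left
        exact ⟨hx.1.1, hx.1.2.1, hx.1.2.2, hx.2, hb⟩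
    have h2 := (card_le_card h1).trans (card_union_le _ _)
    exact_mod_cast h2
  refine (Finset.sum_le_sum hsplit).trans ?_
  rw [Finset.sum_add_distrib, sum_const, nsmul_eq_mul]
  refine add_le_add ?_ (mul_le_mul_of_nonneg_right hJc (by positivity))
  -- double counting
  obtain ⟨D, hD⟩ : ∃ D : Finset (Σ _ : ℕ, ℕ), D = Dr k z' ((1 - 4 * ε) * Y) ((2 + 8 * ε) * Y) :=
    ⟨_, rfl⟩
  obtain ⟨B', hB'⟩ : ∃ B' : Finset (ℤ × ℤ × ℤ), B' = (Bx k M A).filter fun x =>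
      Cl k w x.1 x.2.1 x.2.2 := ⟨_, rfl⟩
  have hdc1 : ∑ j ∈ J, ((Bx k M A).filter fun x => Cl k w x.1 x.2.1 x.2.2 ∧
      (Ex j (nn k x.1 x.2.1 x.2.2) ∧ Rough z ((nn k x.1 x.2.1 x.2.2).natAbs / j) ∧
        ¬ Bd k z x.1 x.2.1 x.2.2)).card =
      ∑ x ∈ B', (J.filter fun j : ℕ => Ex j (nn k x.1 x.2.1 x.2.2) ∧
        Rough z ((nn k x.1 x.2.1 x.2.2).natAbs / j) ∧ ¬ Bd k z x.1 x.2.1 x.2.2).card := by
    have h1 := Finset.sum_card_bipartiteAbove_eq_sum_card_bipartiteBelow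
      (s := J) (t := B') (fun (j : ℕ) (x : ℤ × ℤ × ℤ) => Ex j (nn k x.1 x.2.1 x.2.2) ∧
        Rough z ((nn k x.1 x.2.1 x.2.2).natAbs / j) ∧ ¬ Bd k z x.1 x.2.1 x.2.2)
    unfold bipartiteAbove bipartiteBelow at h1
    rw [← h1]
    apply Finset.sum_congr rfl
    intro j _
    rw [hB', filter_filter]
  have hdc2 : ∑ x ∈ B', (J.filter fun j : ℕ => Ex j (nn k x.1 x.2.1 x.2.2) ∧
        Rough z ((nn k x.1 x.2.1 x.2.2).natAbs / j) ∧ ¬ Bd k z x.1 x.2.1 x.2.2).card ≤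
      ∑ x ∈ B', (D.filter fun y => Nat.Coprime y.1 (QQ k w) ∧ Lt y.1 y.2 x.1 x.2.1 x.2.2).card := by
    apply Finset.sum_le_sum
    intro x hx
    rw [hB', mem_filter] at hx
    have h1 := hbx M A ((le_max_left _ _).trans hM) hAone x hx.1
    rw [← hN0, abs_le] at h1
    rw [hD]
    exact one_x k w x.1 x.2.1 x.2.2 z z' ε N0 Y hzz hε hε4 hN0p hY hx.2 (by linarith [h1.1])
      (by linarith [h1.2]) J fun j hj => (hJ j hj).2
  have hdc3 : ∑ x ∈ B', (D.filter fun y => Nat.Coprime y.1 (QQ k w) ∧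
      Lt y.1 y.2 x.1 x.2.1 x.2.2).card = ∑ y ∈ D, (B'.filter fun x => Nat.Coprime y.1 (QQ k w) ∧
      Lt y.1 y.2 x.1 x.2.1 x.2.2).card := by
    have h1 := Finset.sum_card_bipartiteAbove_eq_sum_card_bipartiteBelow
      (s := B') (t := D) (fun (x : ℤ × ℤ × ℤ) (y : Σ _ : ℕ, ℕ) => Nat.Coprime y.1 (QQ k w) ∧
        Lt y.1 y.2 x.1 x.2.1 x.2.2)
    unfold bipartiteAbove bipartiteBelow at h1
    exact h1
  have hdc : ∑ j ∈ J, (((Bx k M A).filter fun x => Cl k w x.1 x.2.1 x.2.2 ∧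
      (Ex j (nn k x.1 x.2.1 x.2.2) ∧ Rough z ((nn k x.1 x.2.1 x.2.2).natAbs / j) ∧
        ¬ Bd k z x.1 x.2.1 x.2.2)).card : ℝ) ≤
      ∑ y ∈ D, ((B'.filter fun x => Nat.Coprime y.1 (QQ k w) ∧
      Lt y.1 y.2 x.1 x.2.1 x.2.2).card : ℝ) := by
    have h1 := (hdc1.le.trans hdc2).trans hdc3.le
    exact_mod_cast h1
  refine hdc.trans ?_
  have hone : ∀ y ∈ D, ((B'.filter fun x => Nat.Coprime y.1 (QQ k w) ∧
      Lt y.1 y.2 x.1 x.2.1 x.2.2).card : ℝ) ≤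
      (1 + ε) * ((A : ℝ) ^ 3 / (QQ k w : ℝ) ^ 3) * (1 / (y.1 : ℝ)) := by
    rintro ⟨r, m⟩ hy
    rw [hD] at hy
    unfold Dr at hy
    rw [mem_sigma, mem_filter, mem_filter, mem_range, mem_range] at hy
    obtain ⟨⟨hr1, hr2, hr3⟩, hm1, hm2⟩ := hy
    simp only at hr1 hr2 hr3 hm1 hm2 ⊢
    have hr0 : 0 < r := lt_of_le_of_lt (Nat.zero_le _) hm1
    have hrr : (0 : ℝ) < r := by exact_mod_cast hr0
    by_cases hc : Nat.Coprime r (QQ k w)
    · have h1 : (r : ℝ) ≤ (2 + 8 * ε) * Y := by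
        have h2 : r ≤ ⌊(2 + 8 * ε) * Y⌋₊ := Nat.lt_succ_iff.1 hr1
        exact (Nat.le_floor_iff (by positivity)).1 h2
      have h2 : (r : ℝ) ≤ 8 * Y := by nlinarith
      have h3 : R * (r : ℝ) ^ ((1 : ℝ) / 3) ≤ A := by
        have h4 : (r : ℝ) ^ ((1 : ℝ) / 3) ≤ 2 * Y ^ ((1 : ℝ) / 3) := by
          calc (r : ℝ) ^ ((1 : ℝ) / 3) ≤ (8 * Y) ^ ((1 : ℝ) / 3) :=
                Real.rpow_le_rpow hrr.le h2 (by norm_num)
            _ = 2 * Y ^ ((1 : ℝ) / 3) := by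
                rw [Real.mul_rpow (by norm_num) (by linarith)]
                congr 1
                rw [show (8 : ℝ) = 2 ^ (3 : ℝ) by norm_num, ← Real.rpow_mul (by norm_num)]
                norm_num
        calc R * (r : ℝ) ^ ((1 : ℝ) / 3) ≤ R * (2 * Y ^ ((1 : ℝ) / 3)) :=
              mul_le_mul_of_nonneg_left h4 (by linarith)
          _ = 2 * R * Y ^ ((1 : ℝ) / 3) := by ring
          _ ≤ A := hRY
      have h4 := hlone r A hr0 hc h3 m hm2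
      rw [abs_le] at h4
      have h5 : (B'.filter fun x => Nat.Coprime r (QQ k w) ∧ Lt r m x.1 x.2.1 x.2.2) =
          (Bx k M A).filter fun x => Cl k w x.1 x.2.1 x.2.2 ∧ Lt r m x.1 x.2.1 x.2.2 := by
        rw [hB', filter_filter]
        apply Finset.filter_congr
        intro x _
        exact ⟨fun h => ⟨h.1, h.2.2⟩, fun h => ⟨h.1, hc, h.2⟩⟩
      rw [h5]
      have h6 : (((Bx k M A).filter fun x => Cl k w x.1 x.2.1 x.2.2 ∧
          Lt r m x.1 x.2.1 x.2.2).card : ℝ) * (r * (QQ k w : ℝ) ^ 3) ≤ (1 + ε) * (A : ℝ) ^ 3 := by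
        linarith [h4.2]
      have h7 : (1 + ε) * ((A : ℝ) ^ 3 / (QQ k w : ℝ) ^ 3) * (1 / (r : ℝ)) =
          ((1 + ε) * (A : ℝ) ^ 3) / (r * (QQ k w : ℝ) ^ 3) := by
        field_simp
      rw [h7, le_div_iff₀ (by positivity)]
      exact h6
    · have h5 : (B'.filter fun x => Nat.Coprime r (QQ k w) ∧ Lt r m x.1 x.2.1 x.2.2) = ∅ := by
        apply Finset.filter_false_of_mem
        intro x _ h
        exact hc h.1
      rw [h5, card_empty]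
      push_cast
      positivity
  refine (Finset.sum_le_sum hone).trans (le_of_eq ?_)
  rw [← Finset.mul_sum]
  congr 1
  rw [hD]
  unfold Dr Rs
  rw [Finset.sum_sigma]
  apply Finset.sum_congr rfl
  intro r _
  simp only
  rw [sum_const, nsmul_eq_mul, rho, mul_one_div]

end H96.DR
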