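import Pool.Agent.H96.DR.Sta
import Pool.Agent.H96.DR.Std
import Pool.Agent.H96.DR.Stg

/-!
# [DR WIN] the window bound, 180-280 lines. File Pool/Agent/H96/DR/Win.lean

`ε1 = min (ε/8) (1/2000)`. CHOICE: `ε'` from `std` (with `ε1`), then `sta` with `ε1`, `ε'`, `stg` with `ε1`, `bxe` with `ε1`; `w`, `M` = maxima of the `w0`, `M0` (`w ≥ |k| + 3` too); `R = max` of the `R0` of `sta`, of `stg`, and `2`; `Jm = ⌈2 NS k M³ (R + 1)³⌉₊`, `Q = QQ k w`.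
Given `X` large and `Y`, put `A = ⌈R Y^(1/3)⌉₊`, so `R Y^(1/3) ≤ A ≤ R Y^(1/3) + 1 ≤ 2 R Y^(1/3)`, `N0 = NS k (M A)³`. SIZES: `X ≤ Y ≤ A³`; `A³ ≤ 8 R³ Y ≤ 8 R³ X^1.00201`, `X^0.00201 ≤ A^0.00603`, so `Y ≤ X A^0.00603` and `A³ ≤ 8 R³ X A^0.00603 ≤ X A^0.0061` (`A` large);
`N0 ≤ NS k M³ (R+1)³ Y`, so `(1 + ε1) N0/Y ≤ Jm < Y` and `A^0.0144 ≤ Y`. `J = (range (Jm + 1)).filter (fun j => (1 - ε1) N0/(2Y) ≤ j ∧ j ≤ (1 + ε1) N0/Y)`; all `j ∈ J` are `≥ 1`. `E` from `std`.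
(1) `sta`: `(1 - ε1) A³ Sw ≤ Q³ (∑_{x good} ∑_{pairs} p + 12 Y #E)`.
(2) `pwl` for every good `x` (`bxe`: `|n - N0| ≤ ε1 N0`), exchange the sums: the `x` with `Ex j n`, `(n/j)` prime `> Y` lie in the filter of `std` (`AJ` contains `Bx`, `Cl`, `Ex`; `Y ≥ A^0.0144`). So `∑∑ p ≤ ∑_{j ∈ J} ((1 + ε1) N0/j) L_j`, `L_j` = left side of `std`. If `j` is not prime to `Q`
then `AJ` is empty (`j ∣ n`, `n ≡ 1 (mod Q)` by `nn_cl`) and `L_j = 0`; otherwise `std`: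
`((1+ε1) N0/j) L_j ≤ (1+ε1)² X (1.05 ro_j + A^2.9982) + (1+ε1) N0 A^2.99385`, `ro_j` the number of rough points. (For `j` not prime to `Q` the right side is `≥ 0`.)
(3) Sum over `j ∈ J` (`#J ≤ Jm`), `stg`: `∑∑ p ≤ (1+ε1)² X (1.05 ((1+ε1)(A³/Q³) Rs' + Jm A^2.9857) + Jm A^2.9982) + 2 Jm N0 A^2.99385`, `Rs' = Rs k (X^0.0048) ((1-4ε1)Y) ((2+8ε1)Y) ≤ Rs k (X^0.0048) ((1-ε)Y) ((2+ε)Y)` (more terms, `8 ε1 ≤ ε`).
(4) Divide by `(1 - ε1) A³/Q³`: main term `≤ 1.05 (1+ε1)³/(1-ε1) X Rs' ≤ 1.06 X Rs'` (`ε1 ≤ 1/2000`). The other terms are at most a constant (depending on `k, Q, M, R, Jm`) times `X A^-0.0018 + A^2.99385 + Y A^-0.0061 ≤ X (A^-0.0018 + A^-0.00005 + A^-0.00007)` (`A^2.99385 = A³ A^-0.00615 ≤ X A^-0.00005`,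
`Y A^-0.0061 ≤ X A^-0.00007`), and `A ≥ X^(1/3)`, so they are `≤ ε X/log X` for `X` large (`isLittleO_log_rpow_atTop`).
-/

set_option autoImplicit false

namespace H96.DR

open Finset H23.LP

private theorem wn_pow (K c : ℝ) (hc : 0 < c) : ∃ A0 : ℕ, ∀ A : ℕ, A0 ≤ A → K ≤ (A : ℝ) ^ c := by
  have h := ((tendsto_rpow_atTop hc).comp tendsto_natCast_atTop_atTop).eventually_ge_atTop K
  obtain ⟨A0, hA0⟩ := Filter.eventually_atTop.1 h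
  exact ⟨A0, fun A hA => hA0 A hA⟩

private theorem wn_log (c d : ℝ) (hc : 0 < c) (hd : 0 < d) : ∃ X0 : ℕ, ∀ X : ℕ, X0 ≤ X →
    Real.log X ≤ d * (X : ℝ) ^ c := by
  have h := (isLittleO_log_rpow_atTop hc).bound hd
  have h2 : ∀ᶠ X : ℕ in Filter.atTop, ‖Real.log (X : ℝ)‖ ≤ d * ‖(X : ℝ) ^ c‖ :=
    tendsto_natCast_atTop_atTop.eventually h
  obtain ⟨X0, hX0⟩ := Filter.eventually_atTop.1 h2
  refine ⟨X0, fun X hX => ?_⟩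
  have h3 := hX0 X hX
  rw [Real.norm_eq_abs, Real.norm_eq_abs, abs_of_nonneg (Real.rpow_nonneg (Nat.cast_nonneg X) c)] at h3
  exact (le_abs_self _).trans h3

open Classical in
private theorem wn_rs (k : ℤ) (z U V U' V' : ℝ) (hU : U' ≤ U) (hV : V ≤ V') :
    Rs k z U V ≤ Rs k z U' V' := by
  unfold Rs
  refine sum_le_sum_of_subset_of_nonneg ?_ fun _ _ _ => by positivity
  intro r hr
  rw [mem_filter, mem_range] at hr ⊢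
  have := Nat.floor_le_floor hV
  exact ⟨by omega, hU.trans hr.2.1, hr.2.2⟩

open Classical in
private theorem wn_rs0 (k : ℤ) (z U V : ℝ) : 0 ≤ Rs k z U V := by
  unfold Rs
  exact sum_nonneg fun _ _ => by positivity

open Classical in
/-- the pairs are seen through the exact divisors -/
private theorem wn_two (k : ℤ) (w M A X : ℕ) (ε1 ε' Y N0 : ℝ) (J : Finset ℕ)
    (E : Finset (ℤ × ℤ × ℤ)) (hε1 : 0 < ε1) (hε1' : ε1 < 1) (hN0 : 0 < N0) (hY : 1 ≤ Y)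
    (hn : ∀ x ∈ Bx k M A, (1 - ε1) * N0 ≤ nn k x.1 x.2.1 x.2.2 ∧
      (nn k x.1 x.2.1 x.2.2 : ℝ) ≤ (1 + ε1) * N0) (hJY : (1 + ε1) * N0 / Y < Y)
    (hJ : ∀ j : ℕ, (1 - ε1) * N0 / (2 * Y) ≤ j → (j : ℝ) ≤ (1 + ε1) * N0 / Y → j ∈ J)
    (hAY : (A : ℝ) ^ (0.0144 : ℝ) ≤ Y) :
    ∑ x ∈ (Bx k M A \ E).filter (fun x => Cl k w x.1 x.2.1 x.2.2 ∧ Nice k ε' x.1 x.2.1 x.2.2),
        ∑ y ∈ (Ss k X Y).filter (fun y => Lt y.2 y.1 x.1 x.2.1 x.2.2), (y.2 : ℝ) ≤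
      ∑ j ∈ J, ((1 + ε1) * N0 / j) * ∑ x ∈ (AJ k w M A j).filter (fun x => x ∉ E ∧
        Nice k ε' x.1 x.2.1 x.2.2 ∧ (nn k x.1 x.2.1 x.2.2 / j).natAbs.Prime ∧
        (A : ℝ) ^ (0.0144 : ℝ) < (nn k x.1 x.2.1 x.2.2 / j).natAbs),
      (NR k X (nn k x.1 x.2.1 x.2.2 / j).natAbs x.1 x.2.1 x.2.2 : ℝ) := by
  obtain ⟨G, hG⟩ : ∃ G, G = (Bx k M A \ E).filter (fun x => Cl k w x.1 x.2.1 x.2.2 ∧
      Nice k ε' x.1 x.2.1 x.2.2) := ⟨_, rfl⟩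
  rw [← hG]
  have h1 : ∀ x ∈ G, ∑ y ∈ (Ss k X Y).filter (fun y => Lt y.2 y.1 x.1 x.2.1 x.2.2), (y.2 : ℝ) ≤
      ∑ j ∈ J, if Ex j (nn k x.1 x.2.1 x.2.2) ∧ (nn k x.1 x.2.1 x.2.2 / j).natAbs.Prime ∧
          Y < (nn k x.1 x.2.1 x.2.2 / j).natAbs then
        ((1 + ε1) * N0 / j) * NR k X (nn k x.1 x.2.1 x.2.2 / j).natAbs x.1 x.2.1 x.2.2 else 0 := by
    intro x hx
    rw [hG, mem_filter, mem_sdiff] at hx
    obtain ⟨n1, n2⟩ := hn x hx.1.1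
    exact pwl k X Y N0 ε1 x hY hε1 hε1' hN0 n1 n2 hJY J hJ
  refine (sum_le_sum h1).trans ?_
  rw [sum_comm]
  refine sum_le_sum fun j _ => ?_
  rw [← sum_filter, mul_sum]
  refine sum_le_sum_of_subset_of_nonneg ?_ fun _ _ _ => by positivity
  intro x hx
  rw [mem_filter, hG, mem_filter, mem_sdiff] at hx
  obtain ⟨⟨⟨c1, c2⟩, c3, c4⟩, c5, c6, c7⟩ := hx
  rw [mem_filter, AJ, mem_filter]
  exact ⟨⟨c1, c3, c5⟩, c2, c4, c6, hAY.trans_lt c7⟩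

/-- final numerical step -/
private theorem wn_fin (ε1 A3 Sw Q X Rs' Rs1 Jm p1 p2 p3 N0 Y e lo NM : ℝ) (hε1 : 0 < ε1)
    (hε1' : ε1 ≤ 1 / 2000) (hA3 : 0 < A3) (hQ : 0 < Q) (hX : 0 < X) (hRs0 : 0 ≤ Rs')
    (hRs : Rs' ≤ Rs1) (hJm : 0 ≤ Jm) (hNM : 0 ≤ NM) (D : ℝ) (hD : 0 ≤ D)
    (h1 : p1 ≤ D) (h2 : p2 ≤ D) (h3 : N0 * p3 ≤ NM * (X * D)) (h4 : Y * e ≤ 2 * (X * D))
    (hlo : Q * (4 * 2.05 * Jm + 2 * Jm * NM + 24) * (X * D) ≤ 1 / 2 * (A3 * lo))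
    (hlo0 : 0 ≤ lo)
    (h : (1 - ε1) * A3 * Sw ≤ Q * (((1 + ε1) ^ 2 * X * (1.05 * ((1 + ε1) * (A3 / Q) * Rs' + Jm * p1) +
      Jm * p2) + (1 + ε1) * Jm * (N0 * p3)) + 12 * Y * e)) :
    Sw ≤ 1.06 * X * Rs1 + lo := by
  have hδ : 0 < 1 - ε1 := by linarith
  have e1 : Q * (((1 + ε1) ^ 2 * X * (1.05 * ((1 + ε1) * (A3 / Q) * Rs' + Jm * p1) +
      Jm * p2) + (1 + ε1) * Jm * (N0 * p3)) + 12 * Y * e) =
      1.05 * (1 + ε1) ^ 3 * (X * A3 * Rs') + Q * ((1 + ε1) ^ 2 * X * (1.05 * (Jm * p1) + Jm * p2) +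
        (1 + ε1) * Jm * (N0 * p3) + 12 * (Y * e)) := by
    field_simp
    ring
  rw [e1] at h
  have a1 : 1.05 * (1 + ε1) ^ 3 ≤ 1.06 * (1 - ε1) := by
    have b1 : (1 + ε1) ^ 3 ≤ 1 + 4 * ε1 := by nlinarith [mul_pos hε1 hε1, mul_pos (mul_pos hε1 hε1) hε1]
    linarith
  have hXA : 0 ≤ X * A3 * Rs' := by positivity
  have a2 : 1.05 * (1 + ε1) ^ 3 * (X * A3 * Rs') ≤ (1 - ε1) * A3 * (1.06 * X * Rs1) := by
    have b1 := mul_le_mul_of_nonneg_right a1 hXA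
    have b2 : X * A3 * Rs' ≤ X * A3 * Rs1 := mul_le_mul_of_nonneg_left hRs (by positivity)
    have b3 := mul_le_mul_of_nonneg_left b2 (by linarith : (0 : ℝ) ≤ 1.06 * (1 - ε1))
    linarith
  have hsq : (1 + ε1) ^ 2 ≤ 4 := by nlinarith
  have hJD : 0 ≤ Jm * D := by positivity
  have a3 : (1 + ε1) ^ 2 * X * (1.05 * (Jm * p1) + Jm * p2) ≤ 4 * 2.05 * Jm * (X * D) := by
    have b1 : 1.05 * (Jm * p1) + Jm * p2 ≤ 2.05 * (Jm * D) := by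
      have c1 := mul_le_mul_of_nonneg_left h1 hJm
      have c2 := mul_le_mul_of_nonneg_left h2 hJm
      linarith
    have b2 : (1 + ε1) ^ 2 * X * (1.05 * (Jm * p1) + Jm * p2) ≤ (1 + ε1) ^ 2 * X * (2.05 * (Jm * D)) :=
      mul_le_mul_of_nonneg_left b1 (by positivity)
    have b3 : (1 + ε1) ^ 2 * (X * (2.05 * (Jm * D))) ≤ 4 * (X * (2.05 * (Jm * D))) :=
      mul_le_mul_of_nonneg_right hsq (by positivity)
    linarith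
  have a4 : (1 + ε1) * Jm * (N0 * p3) ≤ 2 * Jm * NM * (X * D) := by
    have b1 : (1 + ε1) * Jm * (N0 * p3) ≤ (1 + ε1) * Jm * (NM * (X * D)) :=
      mul_le_mul_of_nonneg_left h3 (by positivity)
    have b2 : (1 + ε1) * (Jm * (NM * (X * D))) ≤ 2 * (Jm * (NM * (X * D))) :=
      mul_le_mul_of_nonneg_right (by linarith) (by positivity)
    linarith
  have a5 : Q * ((1 + ε1) ^ 2 * X * (1.05 * (Jm * p1) + Jm * p2) +
        (1 + ε1) * Jm * (N0 * p3) + 12 * (Y * e)) ≤ 1 / 2 * (A3 * lo) := by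
    refine le_trans (mul_le_mul_of_nonneg_left (add_le_add (add_le_add a3 a4)
      (mul_le_mul_of_nonneg_left h4 (by norm_num))) hQ.le) (le_trans (le_of_eq (by ring)) hlo)
  have a6 : 1 / 2 * (A3 * lo) ≤ (1 - ε1) * (A3 * lo) :=
    mul_le_mul_of_nonneg_right (by linarith) (by positivity)
  have a7 : (1 - ε1) * A3 * Sw ≤ (1 - ε1) * A3 * (1.06 * X * Rs1 + lo) := by
    rw [mul_add]
    linarith
  exact le_of_mul_le_mul_left a7 (by positivity)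

open Classical in
private theorem wn_one (k : ℤ) (w M A X j : ℕ) (ε1 ε' N0 ro p2 p3 : ℝ) (E : Finset (ℤ × ℤ × ℤ))
    (hε1 : 0 < ε1) (hN0 : 0 < N0) (hj : 1 ≤ j) (hro : 0 ≤ ro) (hp2 : 0 ≤ p2) (hp3 : 0 ≤ p3)
    (h : Nat.Coprime j (QQ k w) →
      ∑ x ∈ (AJ k w M A j).filter (fun x => x ∉ E ∧ Nice k ε' x.1 x.2.1 x.2.2 ∧
        (nn k x.1 x.2.1 x.2.2 / j).natAbs.Prime ∧
        (A : ℝ) ^ (0.0144 : ℝ) < (nn k x.1 x.2.1 x.2.2 / j).natAbs),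
      (NR k X (nn k x.1 x.2.1 x.2.2 / j).natAbs x.1 x.2.1 x.2.2 : ℝ) ≤
      (1 + ε1) * ((X : ℝ) * j / N0 * (1.05 * ro + p2)) + p3) :
    ((1 + ε1) * N0 / j) * ∑ x ∈ (AJ k w M A j).filter (fun x => x ∉ E ∧ Nice k ε' x.1 x.2.1 x.2.2 ∧
        (nn k x.1 x.2.1 x.2.2 / j).natAbs.Prime ∧
        (A : ℝ) ^ (0.0144 : ℝ) < (nn k x.1 x.2.1 x.2.2 / j).natAbs),
      (NR k X (nn k x.1 x.2.1 x.2.2 / j).natAbs x.1 x.2.1 x.2.2 : ℝ) ≤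
    (1 + ε1) ^ 2 * X * (1.05 * ro + p2) + (1 + ε1) * (N0 * p3) := by
  have hj0 : (0 : ℝ) < j := by exact_mod_cast hj
  have hj1 : (1 : ℝ) ≤ j := by exact_mod_cast hj
  have hR0 : 0 ≤ (1 + ε1) ^ 2 * X * (1.05 * ro + p2) + (1 + ε1) * (N0 * p3) := by positivity
  by_cases hc : Nat.Coprime j (QQ k w)
  · have h1 := mul_le_mul_of_nonneg_left (h hc) (by positivity : 0 ≤ (1 + ε1) * N0 / j)
    refine h1.trans ?_
    have e : ((1 + ε1) * N0 / j) * ((1 + ε1) * ((X : ℝ) * j / N0 * (1.05 * ro + p2)) + p3) =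
        (1 + ε1) ^ 2 * X * (1.05 * ro + p2) + (1 + ε1) * (N0 * p3) / j := by
      field_simp
    rw [e]
    have h2 : (1 + ε1) * (N0 * p3) / j ≤ (1 + ε1) * (N0 * p3) :=
      div_le_self (by positivity) hj1
    linarith
  · have h0 : AJ k w M A j = ∅ := by
      rw [Finset.eq_empty_iff_forall_notMem]
      intro x hx
      apply hc
      unfold AJ at hx
      rw [mem_filter] at hx
      obtain ⟨-, hCl, hEx⟩ := hx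
      have hncl := nn_cl k w _ _ _ hCl
      have hcopn : IsCoprime (nn k x.1 x.2.1 x.2.2) (QQ k w : ℤ) := by
        obtain ⟨t, ht⟩ := hncl.dvd
        exact ⟨1, t, by linear_combination -ht⟩
      have h1 : IsCoprime (j : ℤ) (QQ k w : ℤ) := IsCoprime.of_isCoprime_of_dvd_left hcopn hEx.1
      exact Nat.isCoprime_iff_coprime.1 h1
    rw [h0, filter_empty, sum_empty, mul_zero]
    exact hR0

open Classical in
private theorem wn_aux (k : ℤ) (hk : ∀ t : ℤ, t ^ 3 ≠ k) (ε : ℝ) (hε : 0 < ε) : ∃ X0 : ℕ, ∀ X : ℕ, X0 ≤ X →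
    ∀ Y : ℝ, (X : ℝ) ≤ Y → Y ≤ (X : ℝ) ^ (1.00201 : ℝ) →
    (Sw k X Y : ℝ) ≤ 1.06 * X * Rs k ((X : ℝ) ^ (0.0048 : ℝ)) ((1 - ε) * Y) ((2 + ε) * Y) +
      ε * X / Real.log X := by
  obtain ⟨ε1, hε1d⟩ : ∃ ε1 : ℝ, ε1 = min (ε / 8) (1 / 2000) := ⟨_, rfl⟩
  have hε1 : 0 < ε1 := by rw [hε1d]; exact lt_min (by linarith) (by norm_num)
  have hε1' : ε1 ≤ 1 / 2000 := by rw [hε1d]; exact min_le_right _ _
  have hε8 : 8 * ε1 ≤ ε := by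
    have : ε1 ≤ ε / 8 := by rw [hε1d]; exact min_le_left _ _
    linarith
  obtain ⟨ε', hε', ws, Ms, hMs, hstd⟩ := std k hk ε1 hε1
  obtain ⟨wa, Ma, hMa, hsta⟩ := sta k hk ε1 ε' hε1 hε'
  obtain ⟨Mg, hMg, hstg⟩ := stg k hk ε1 hε1 (by linarith)
  obtain ⟨Mb, hMb, hbx⟩ := bxe k ε1 hε1
  obtain ⟨w, hw⟩ : ∃ w, w = max ws wa := ⟨_, rfl⟩
  obtain ⟨M, hM⟩ : ∃ M, M = max (max Ms Ma) (max Mg Mb) := ⟨_, rfl⟩
  have hws : ws ≤ w := by rw [hw]; exact le_max_left _ _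
  have hwa : wa ≤ w := by rw [hw]; exact le_max_right _ _
  have hMs' : Ms ≤ M := by rw [hM]; exact (le_max_left _ _).trans (le_max_left _ _)
  have hMa' : Ma ≤ M := by rw [hM]; exact (le_max_right _ _).trans (le_max_left _ _)
  have hMg' : Mg ≤ M := by rw [hM]; exact (le_max_left _ _).trans (le_max_right _ _)
  have hMb' : Mb ≤ M := by rw [hM]; exact (le_max_right _ _).trans (le_max_right _ _)
  have hM1 : 1 ≤ M := hMb.trans hMb'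
  have hM0 : (0 : ℝ) < M := by exact_mod_cast hM1
  obtain ⟨Ra, hRa, hsta2⟩ := hsta w M hwa hMa'
  obtain ⟨Rg, hRg, Ag, hstg2⟩ := hstg w M hMg'
  obtain ⟨R, hR⟩ : ∃ R : ℝ, R = max (max Ra Rg) 2 := ⟨_, rfl⟩
  have hRRa : Ra ≤ R := by rw [hR]; exact (le_max_left _ _).trans (le_max_left _ _)
  have hRRg : Rg ≤ R := by rw [hR]; exact (le_max_right _ _).trans (le_max_left _ _)
  have hR2 : 2 ≤ R := by rw [hR]; exact le_max_right _ _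
  obtain ⟨Ya, hYa⟩ := hsta2 R hRRa
  have hNS : (1 : ℝ) ≤ (NS k : ℝ) := by exact_mod_cast NS_pos k
  obtain ⟨NM, hNM⟩ : ∃ NM : ℝ, NM = NS k * (M : ℝ) ^ 3 := ⟨_, rfl⟩
  have hNM0 : 0 < NM := by rw [hNM]; positivity
  obtain ⟨Jm, hJm⟩ : ∃ Jm : ℕ, Jm = ⌈2 * NM * (R + 1) ^ 3⌉₊ := ⟨_, rfl⟩
  obtain ⟨As, hAs⟩ := hstd w M Jm hws hMs'
  have hk0 : k ≠ 0 := fun h => hk 0 (by rw [h]; norm_num)
  have hQ : 0 < QQ k w := by
    unfold QQ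
    have := Int.natAbs_pos.2 hk0
    have := Nat.factorial_pos w
    positivity
  have hQr : (0 : ℝ) < (QQ k w : ℝ) := by exact_mod_cast hQ
  obtain ⟨K, hK⟩ : ∃ K : ℝ, K = (QQ k w : ℝ) ^ 3 * (4 * 2.05 * Jm + 2 * Jm * NM + 24) := ⟨_, rfl⟩
  have hK0 : 0 < K := by rw [hK]; positivity
  obtain ⟨a5, ha5⟩ := wn_pow (8 * R ^ 3) 0.00007 (by norm_num)
  obtain ⟨X1, hX1⟩ := wn_log 0.00001 (ε / (2 * K)) (by norm_num) (by positivity)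
  refine ⟨⌈Ya⌉₊ + (As + Ag + a5 + 1) ^ 3 + Jm + ⌈8 * R ^ 3⌉₊ + X1 + 3, fun X hX Y hXY hYX => ?_⟩
  -- X
  have hX3 : (3 : ℝ) ≤ X := by
    have : 3 ≤ X := by omega
    exact_mod_cast this
  have hX0 : (0 : ℝ) < X := by linarith
  have hY3 : (3 : ℝ) ≤ Y := hX3.trans hXY
  have hY0 : 0 < Y := by linarith
  have hY1 : 1 ≤ Y := by linarith
  have hYYa : Ya ≤ Y := by
    have h1 : Ya ≤ (⌈Ya⌉₊ : ℝ) := Nat.le_ceil _
    have h2 : ((⌈Ya⌉₊ : ℕ) : ℝ) ≤ X := by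
      have : ⌈Ya⌉₊ ≤ X := by omega
      exact_mod_cast this
    linarith
  have hYJ : (Jm : ℝ) < Y := by
    have h2 : (Jm : ℝ) < X := by
      have : Jm < X := by omega
      exact_mod_cast this
    linarith
  have hYR : 8 * R ^ 3 ≤ Y := by
    have h1 : 8 * R ^ 3 ≤ (⌈8 * R ^ 3⌉₊ : ℝ) := Nat.le_ceil _
    have h2 : ((⌈8 * R ^ 3⌉₊ : ℕ) : ℝ) ≤ X := by
      have : ⌈8 * R ^ 3⌉₊ ≤ X := by omega
      exact_mod_cast this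
    linarith
  have hlog := hX1 X (by omega)
  -- A
  obtain ⟨y3, hy3⟩ : ∃ y3 : ℝ, y3 = Y ^ ((1 : ℝ) / 3) := ⟨_, rfl⟩
  have hy3c : y3 ^ 3 = Y := by
    rw [hy3, ← Real.rpow_natCast, ← Real.rpow_mul hY0.le]
    norm_num
  have hy31 : 1 ≤ y3 := by
    rw [hy3]
    exact Real.one_le_rpow hY1 (by norm_num)
  obtain ⟨A, hA⟩ : ∃ A : ℕ, A = ⌈R * y3⌉₊ := ⟨_, rfl⟩
  have hA1 : R * y3 ≤ A := by rw [hA]; exact Nat.le_ceil _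
  have hA2 : (A : ℝ) ≤ R * y3 + 1 := by
    rw [hA]
    exact (Nat.ceil_lt_add_one (by positivity)).le
  have hApos : (0 : ℝ) < A := lt_of_lt_of_le (by positivity) hA1
  have hA1n : 1 ≤ A := by exact_mod_cast hApos
  have hA1r : (1 : ℝ) ≤ A := by exact_mod_cast hA1n
  have hYA : Y ≤ (A : ℝ) ^ 3 := by
    have h1 : y3 ≤ A := by nlinarith
    have h2 := pow_le_pow_left₀ (by linarith) h1 3
    rwa [hy3c] at h2
  have hXA : (X : ℝ) ≤ (A : ℝ) ^ 3 := hXY.trans hYA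
  have hAbig : As + Ag + a5 + 1 ≤ A := by
    by_contra hlt
    push Not at hlt
    have h1 : A ^ 3 < (As + Ag + a5 + 1) ^ 3 := Nat.pow_lt_pow_left hlt (by norm_num)
    have h2 : X ≤ A ^ 3 := by exact_mod_cast hXA
    omega
  have hA8 : (A : ℝ) ^ 3 ≤ 8 * R ^ 3 * Y := by
    have h1 : (A : ℝ) ≤ 2 * R * y3 := by nlinarith
    have h2 := pow_le_pow_left₀ hApos.le h1 3
    have h3 : (2 * R * y3) ^ 3 = 8 * R ^ 3 * Y := by rw [← hy3c]; ring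
    rwa [h3] at h2
  have hAR : (A : ℝ) ^ 3 ≤ (R + 1) ^ 3 * Y := by
    have h1 : (A : ℝ) ≤ (R + 1) * y3 := by linarith
    have h2 := pow_le_pow_left₀ hApos.le h1 3
    have h3 : ((R + 1) * y3) ^ 3 = (R + 1) ^ 3 * Y := by rw [← hy3c]; ring
    rwa [h3] at h2
  have hAY : (A : ℝ) ≤ Y := by
    by_contra hlt
    push Not at hlt
    have h1 : Y ^ 3 < (A : ℝ) ^ 3 := pow_lt_pow_left₀ hlt hY0.le (by norm_num)
    have h2 : (A : ℝ) ^ 3 ≤ Y * Y := hA8.trans (mul_le_mul_of_nonneg_right hYR hY0.le)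
    nlinarith [mul_pos hY0 hY0]
  have hA144 : (A : ℝ) ^ (0.0144 : ℝ) ≤ Y := by
    have h1 : (A : ℝ) ^ (0.0144 : ℝ) ≤ (A : ℝ) ^ (1 : ℝ) :=
      Real.rpow_le_rpow_of_exponent_le hA1r (by norm_num)
    rw [Real.rpow_one] at h1
    linarith
  -- sizes
  have hXs : (X : ℝ) ^ (0.00201 : ℝ) ≤ (A : ℝ) ^ (0.00603 : ℝ) := by
    have h1 : (X : ℝ) ^ (0.00201 : ℝ) ≤ ((A : ℝ) ^ 3) ^ (0.00201 : ℝ) :=
      Real.rpow_le_rpow hX0.le hXA (by norm_num)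
    have h2 : ((A : ℝ) ^ 3) ^ (0.00201 : ℝ) = (A : ℝ) ^ (0.00603 : ℝ) := by
      rw [← Real.rpow_natCast (A : ℝ) 3, ← Real.rpow_mul hApos.le]
      norm_num
    rwa [h2] at h1
  have hYX2 : Y ≤ X * (A : ℝ) ^ (0.00603 : ℝ) := by
    have h1 : (X : ℝ) ^ (1.00201 : ℝ) = X * (X : ℝ) ^ (0.00201 : ℝ) := by
      rw [show (1.00201 : ℝ) = 1 + 0.00201 by norm_num, Real.rpow_add hX0, Real.rpow_one]
    rw [h1] at hYX
    exact hYX.trans (mul_le_mul_of_nonneg_left hXs hX0.le)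
  have hA3X : (A : ℝ) ^ 3 ≤ X * (A : ℝ) ^ (0.0061 : ℝ) := by
    have h1 : 8 * R ^ 3 * Y ≤ (A : ℝ) ^ (0.00007 : ℝ) * (X * (A : ℝ) ^ (0.00603 : ℝ)) :=
      mul_le_mul (ha5 A (by omega)) hYX2 hY0.le (by positivity)
    have h2 : (A : ℝ) ^ (0.00007 : ℝ) * (X * (A : ℝ) ^ (0.00603 : ℝ)) = X * (A : ℝ) ^ (0.0061 : ℝ) := by
      have : (A : ℝ) ^ (0.0061 : ℝ) = (A : ℝ) ^ (0.00007 : ℝ) * (A : ℝ) ^ (0.00603 : ℝ) := by
        rw [← Real.rpow_add hApos]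
        norm_num
      rw [this]
      ring
    rw [h2] at h1
    exact hA8.trans h1
  obtain ⟨N0, hN0d⟩ : ∃ N0 : ℝ, N0 = NS k * ((M : ℝ) * A) ^ 3 := ⟨_, rfl⟩
  have hN0 : 0 < N0 := by rw [hN0d]; positivity
  have hN0M : N0 = NM * (A : ℝ) ^ 3 := by rw [hN0d, hNM]; ring
  have hNY : (1 + ε1) * N0 / Y ≤ Jm := by
    rw [div_le_iff₀ hY0]
    have h1 : (1 + ε1) * N0 ≤ 2 * N0 := by nlinarith
    have h2 : 2 * N0 ≤ 2 * NM * (R + 1) ^ 3 * Y := by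
      rw [hN0M]
      have := mul_le_mul_of_nonneg_left hAR (by positivity : (0 : ℝ) ≤ 2 * NM)
      linarith
    have h3 : 2 * NM * (R + 1) ^ 3 ≤ (Jm : ℝ) := by rw [hJm]; exact Nat.le_ceil _
    have h4 := mul_le_mul_of_nonneg_right h3 hY0.le
    linarith
  have hJY : (1 + ε1) * N0 / Y < Y := hNY.trans_lt hYJ
  obtain ⟨J, hJ⟩ : ∃ J : Finset ℕ, J = (range (Jm + 1)).filter fun j : ℕ =>
      (1 - ε1) * N0 / (2 * Y) ≤ j ∧ (j : ℝ) ≤ (1 + ε1) * N0 / Y := ⟨_, rfl⟩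
  have hJmem : ∀ j ∈ J, j ≤ Jm ∧ (1 - ε1) * N0 / (2 * Y) ≤ j ∧ (j : ℝ) ≤ (1 + ε1) * N0 / Y := by
    intro j hj
    rw [hJ, mem_filter, mem_range] at hj
    exact ⟨by omega, hj.2.1, hj.2.2⟩
  have hJpos : ∀ j ∈ J, 1 ≤ j := by
    intro j hj
    have h1 := (hJmem j hj).2.1
    have h2 : (0 : ℝ) < j := lt_of_lt_of_le (div_pos (mul_pos (by linarith) hN0) (by linarith)) h1
    have h3 : 0 < j := by exact_mod_cast h2
    omega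
  have hJcard : (J.card : ℝ) ≤ Jm := by
    have h1 : J ⊆ Icc 1 Jm := fun j hj => mem_Icc.2 ⟨hJpos j hj, (hJmem j hj).1⟩
    have h2 := card_le_card h1
    rw [Nat.card_Icc, Nat.add_sub_cancel] at h2
    exact_mod_cast h2
  have hJall : ∀ j : ℕ, (1 - ε1) * N0 / (2 * Y) ≤ j → (j : ℝ) ≤ (1 + ε1) * N0 / Y → j ∈ J := by
    intro j h1 h2
    rw [hJ, mem_filter, mem_range]
    have h3 : (j : ℝ) ≤ Jm := h2.trans hNY
    have h4 : j ≤ Jm := by exact_mod_cast h3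
    exact ⟨by omega, h1, h2⟩
  have hn : ∀ x ∈ Bx k M A, (1 - ε1) * N0 ≤ nn k x.1 x.2.1 x.2.2 ∧
      (nn k x.1 x.2.1 x.2.2 : ℝ) ≤ (1 + ε1) * N0 := by
    intro x hx
    have hb := hbx M A hMb' hA1n x hx
    rw [← hN0d, abs_le] at hb
    exact ⟨by linarith [hb.1], by linarith [hb.2]⟩
  -- the inputs
  obtain ⟨E, hE, hEc, hstd3⟩ := hAs A (by omega)
  have s1 := hYa Y hYYa A X (by rw [← hy3]; exact hA1) (by rw [← hy3]; exact hA2) hXY E hE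
  have s2 := wn_two k w M A X ε1 ε' Y N0 J E hε1 (by linarith) hN0 hY1 hn hJY hJall hA144
  have s3 := hstg2 A X Jm (by omega) hXA Y hY1
    (by
      rw [← hy3]
      exact (mul_le_mul_of_nonneg_right hRRg (by linarith)).trans hA1) J
    (fun j hj => by rw [← hN0d]; exact hJmem j hj)
  obtain ⟨ro, hro⟩ : ∃ ro : ℕ → ℝ, ro = fun j => (((AJ k w M A j).filter fun x =>
      Rough ((A : ℝ) ^ (0.0144 : ℝ)) ((nn k x.1 x.2.1 x.2.2).natAbs / j)).card : ℝ) := ⟨_, rfl⟩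
  have hroj : ∀ j, ro j = (((AJ k w M A j).filter fun x =>
      Rough ((A : ℝ) ^ (0.0144 : ℝ)) ((nn k x.1 x.2.1 x.2.2).natAbs / j)).card : ℝ) := fun j => by rw [hro]
  have s4 : ∀ j ∈ J, ((1 + ε1) * N0 / j) * ∑ x ∈ (AJ k w M A j).filter (fun x => x ∉ E ∧
        Nice k ε' x.1 x.2.1 x.2.2 ∧ (nn k x.1 x.2.1 x.2.2 / j).natAbs.Prime ∧
        (A : ℝ) ^ (0.0144 : ℝ) < (nn k x.1 x.2.1 x.2.2 / j).natAbs),
      (NR k X (nn k x.1 x.2.1 x.2.2 / j).natAbs x.1 x.2.1 x.2.2 : ℝ) ≤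
      (1 + ε1) ^ 2 * X * (1.05 * ro j + (A : ℝ) ^ (2.9982 : ℝ)) +
        (1 + ε1) * (N0 * (A : ℝ) ^ (2.99385 : ℝ)) := by
    intro j hj
    refine wn_one k w M A X j ε1 ε' N0 (ro j) _ _ E hε1 hN0 (hJpos j hj)
      (by rw [hroj]; exact Nat.cast_nonneg _) (by positivity) (by positivity) fun hc => ?_
    have h1 := hstd3 X j hXA (hJpos j hj) (hJmem j hj).1 hc
    rw [← hN0d, ← hroj] at h1
    exact h1
  have s5 : ∑ j ∈ J, ro j ≤ (1 + ε1) * ((A : ℝ) ^ 3 / (QQ k w : ℝ) ^ 3) *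
        Rs k ((X : ℝ) ^ (0.0048 : ℝ)) ((1 - 4 * ε1) * Y) ((2 + 8 * ε1) * Y) +
      Jm * (A : ℝ) ^ (2.9857 : ℝ) := by
    rw [sum_congr rfl fun j _ => hroj j]
    exact s3
  obtain ⟨Rs', hRs'⟩ : ∃ Rs' : ℝ, Rs' = Rs k ((X : ℝ) ^ (0.0048 : ℝ)) ((1 - 4 * ε1) * Y)
    ((2 + 8 * ε1) * Y) := ⟨_, rfl⟩
  rw [← hRs'] at s5
  have hRsm : Rs' ≤ Rs k ((X : ℝ) ^ (0.0048 : ℝ)) ((1 - ε) * Y) ((2 + ε) * Y) := by
    rw [hRs']
    refine wn_rs k _ _ _ _ _ ?_ ?_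
    · exact mul_le_mul_of_nonneg_right (by linarith) hY0.le
    · exact mul_le_mul_of_nonneg_right (by linarith) hY0.le
  have hRs0 : 0 ≤ Rs' := by rw [hRs']; exact wn_rs0 _ _ _ _
  have s6 : ∑ j ∈ J, ((1 + ε1) * N0 / j) * ∑ x ∈ (AJ k w M A j).filter (fun x => x ∉ E ∧
        Nice k ε' x.1 x.2.1 x.2.2 ∧ (nn k x.1 x.2.1 x.2.2 / j).natAbs.Prime ∧
        (A : ℝ) ^ (0.0144 : ℝ) < (nn k x.1 x.2.1 x.2.2 / j).natAbs),
      (NR k X (nn k x.1 x.2.1 x.2.2 / j).natAbs x.1 x.2.1 x.2.2 : ℝ) ≤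
      (1 + ε1) ^ 2 * X * (1.05 * ((1 + ε1) * ((A : ℝ) ^ 3 / (QQ k w : ℝ) ^ 3) * Rs' +
        Jm * (A : ℝ) ^ (2.9857 : ℝ)) + Jm * (A : ℝ) ^ (2.9982 : ℝ)) +
        (1 + ε1) * Jm * (N0 * (A : ℝ) ^ (2.99385 : ℝ)) := by
    refine (sum_le_sum s4).trans ?_
    have e1 : ∑ j ∈ J, ((1 + ε1) ^ 2 * X * (1.05 * ro j + (A : ℝ) ^ (2.9982 : ℝ)) +
        (1 + ε1) * (N0 * (A : ℝ) ^ (2.99385 : ℝ))) =
        (1 + ε1) ^ 2 * X * (1.05 * ∑ j ∈ J, ro j + J.card * (A : ℝ) ^ (2.9982 : ℝ)) +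
        J.card * ((1 + ε1) * (N0 * (A : ℝ) ^ (2.99385 : ℝ))) := by
      rw [sum_add_distrib, ← mul_sum, sum_add_distrib, ← mul_sum, sum_const, sum_const, nsmul_eq_mul,
        nsmul_eq_mul]
    rw [e1]
    have e2 : (J.card : ℝ) * (A : ℝ) ^ (2.9982 : ℝ) ≤ Jm * (A : ℝ) ^ (2.9982 : ℝ) :=
      mul_le_mul_of_nonneg_right hJcard (by positivity)
    have e3 : (J.card : ℝ) * ((1 + ε1) * (N0 * (A : ℝ) ^ (2.99385 : ℝ))) ≤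
        Jm * ((1 + ε1) * (N0 * (A : ℝ) ^ (2.99385 : ℝ))) :=
      mul_le_mul_of_nonneg_right hJcard (by positivity)
    have e4 : (1 + ε1) ^ 2 * X * (1.05 * ∑ j ∈ J, ro j + J.card * (A : ℝ) ^ (2.9982 : ℝ)) ≤
        (1 + ε1) ^ 2 * X * (1.05 * ((1 + ε1) * ((A : ℝ) ^ 3 / (QQ k w : ℝ) ^ 3) * Rs' +
        Jm * (A : ℝ) ^ (2.9857 : ℝ)) + Jm * (A : ℝ) ^ (2.9982 : ℝ)) := by
      refine mul_le_mul_of_nonneg_left ?_ (by positivity)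
      linarith
    linarith
  have s7 : (1 - ε1) * (A : ℝ) ^ 3 * Sw k X Y ≤ (QQ k w : ℝ) ^ 3 *
      (((1 + ε1) ^ 2 * X * (1.05 * ((1 + ε1) * ((A : ℝ) ^ 3 / (QQ k w : ℝ) ^ 3) * Rs' +
        Jm * (A : ℝ) ^ (2.9857 : ℝ)) + Jm * (A : ℝ) ^ (2.9982 : ℝ)) +
        (1 + ε1) * Jm * (N0 * (A : ℝ) ^ (2.99385 : ℝ))) + 12 * Y * E.card) := by
    refine s1.trans (mul_le_mul_of_nonneg_left ?_ (by positivity))
    exact add_le_add (s2.trans s6) le_rfl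
  -- the error terms
  obtain ⟨D, hD⟩ : ∃ D : ℝ, D = (A : ℝ) ^ (2.99995 : ℝ) := ⟨_, rfl⟩
  have hD0 : 0 < D := by rw [hD]; positivity
  have g1 : (A : ℝ) ^ (2.9857 : ℝ) ≤ D := by
    rw [hD]
    exact Real.rpow_le_rpow_of_exponent_le hA1r (by norm_num)
  have g2 : (A : ℝ) ^ (2.9982 : ℝ) ≤ D := by
    rw [hD]
    exact Real.rpow_le_rpow_of_exponent_le hA1r (by norm_num)
  have g3 : N0 * (A : ℝ) ^ (2.99385 : ℝ) ≤ NM * (X * D) := by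
    rw [hN0M, mul_assoc]
    refine mul_le_mul_of_nonneg_left ?_ hNM0.le
    have h1 := mul_le_mul_of_nonneg_right hA3X (by positivity : (0 : ℝ) ≤ (A : ℝ) ^ (2.99385 : ℝ))
    refine h1.trans (le_of_eq ?_)
    have : D = (A : ℝ) ^ (0.0061 : ℝ) * (A : ℝ) ^ (2.99385 : ℝ) := by
      rw [hD, ← Real.rpow_add hApos]
      norm_num
    rw [this]
    ring
  have g4 : Y * (E.card : ℝ) ≤ 2 * (X * D) := by
    have h1 : Y * (E.card : ℝ) ≤ (X * (A : ℝ) ^ (0.00603 : ℝ)) * (2 * (A : ℝ) ^ (2.9939 : ℝ)) :=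
      mul_le_mul hYX2 hEc (Nat.cast_nonneg _) (by positivity)
    refine h1.trans ?_
    have h2 : (A : ℝ) ^ (0.00603 : ℝ) * (A : ℝ) ^ (2.9939 : ℝ) ≤ D := by
      rw [hD, ← Real.rpow_add hApos]
      exact Real.rpow_le_rpow_of_exponent_le hA1r (by norm_num)
    have h3 := mul_le_mul_of_nonneg_left h2 (by positivity : (0 : ℝ) ≤ 2 * X)
    linarith
  have hlogpos : 0 < Real.log X := Real.log_pos (by linarith)
  have g5 : (QQ k w : ℝ) ^ 3 * (4 * 2.05 * Jm + 2 * Jm * NM + 24) * (X * D) ≤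
      1 / 2 * ((A : ℝ) ^ 3 * (ε * X / Real.log X)) := by
    rw [← hK]
    have h1 : (X : ℝ) ^ (0.00001 : ℝ) ≤ (A : ℝ) ^ (0.00005 : ℝ) := by
      have h2 : (X : ℝ) ^ (0.00001 : ℝ) ≤ ((A : ℝ) ^ 3) ^ (0.00001 : ℝ) :=
        Real.rpow_le_rpow hX0.le hXA (by norm_num)
      have h3 : ((A : ℝ) ^ 3) ^ (0.00001 : ℝ) = (A : ℝ) ^ (0.00003 : ℝ) := by
        rw [← Real.rpow_natCast (A : ℝ) 3, ← Real.rpow_mul hApos.le]
        norm_num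
      rw [h3] at h2
      exact h2.trans (Real.rpow_le_rpow_of_exponent_le hA1r (by norm_num))
    have h4 : (A : ℝ) ^ 3 = (A : ℝ) ^ (0.00005 : ℝ) * D := by
      rw [hD, ← Real.rpow_add hApos, ← Real.rpow_natCast (A : ℝ) 3]
      norm_num
    have h5 : K * Real.log X ≤ ε / 2 * (A : ℝ) ^ (0.00005 : ℝ) := by
      have h6 := mul_le_mul_of_nonneg_left hlog hK0.le
      have h7 : K * (ε / (2 * K) * (X : ℝ) ^ (0.00001 : ℝ)) = ε / 2 * (X : ℝ) ^ (0.00001 : ℝ) := by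
        field_simp
      rw [h7] at h6
      have h8 := mul_le_mul_of_nonneg_left h1 (by linarith : (0 : ℝ) ≤ ε / 2)
      linarith
    have h9 : 1 / 2 * ((A : ℝ) ^ 3 * (ε * X / Real.log X)) =
        (ε / 2 * (A : ℝ) ^ (0.00005 : ℝ)) * (X * D) / Real.log X := by
      rw [h4]
      ring
    rw [h9, le_div_iff₀ hlogpos]
    have h10 := mul_le_mul_of_nonneg_right h5 (by positivity : (0 : ℝ) ≤ X * D)
    linarith
  exact wn_fin ε1 ((A : ℝ) ^ 3) (Sw k X Y) ((QQ k w : ℝ) ^ 3) X Rs' _ Jm _ _ _ N0 Y _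
    (ε * X / Real.log X) NM hε1 hε1' (by positivity) (by positivity) hX0 hRs0 hRsm
    (Nat.cast_nonneg _) hNM0.le D hD0.le g1 g2 g3 g4 g5 (by positivity) s7

theorem window (k : ℤ) (hk : ∀ t : ℤ, t ^ 3 ≠ k) (ε : ℝ) (hε : 0 < ε) : ∃ X0 : ℕ, ∀ X : ℕ, X0 ≤ X →
    ∀ Y : ℝ, (X : ℝ) ≤ Y → Y ≤ (X : ℝ) ^ (1.00201 : ℝ) →
    (Sw k X Y : ℝ) ≤ 1.06 * X * Rs k ((X : ℝ) ^ (0.0048 : ℝ)) ((1 - ε) * Y) ((2 + ε) * Y) +
      ε * X / Real.log X :=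
  wn_aux k hk ε hε

end H96.DR
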