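import Pool.Agent.H23.LP.Def

/-!
# DR (MP_4d57ea_nt): large prime factors of `m ^ 3 + k`, slices in the directions `θ - g`. Definitions

`θ ^ 3 = k`, `α = a + b θ + c θ ^ 2`, norm `nn k a b c` (`H23.LP.Def`). For the direction `γ = θ - g` the quantities `s = a + g b` and `c` are constant
on the line `α + t γ`; the line is parametrised by `b` (`a = s - g b`).
* `II k g s c` the index form `I(α, γ) = nn k s (-g c) (-c)`, constant on the line;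
* `yy`, `xx` with `x ^ 3 - k y ^ 3 = (g ^ 3 - k) I`;
* `Cg`, `Bg` the coefficients of `θ ^ 2`, `θ` of `(θ - g) adj α`: `Cg = BB - g CC`, `Bg = AA - g BB`; linear in `b`;
* `Vg` with `y ^ 2 n = I B + C V`.
* `PP k A u v` the pairs `(q, ρ)`, `q` prime, `A ^ u < q ≤ A ^ v`, `ρ ^ 3 = k` modulo `q`; `RR` counts the pairs of such pairs which divide;
  `WW` is the sum over the directions `g ∈ (G, 2 G]`, `W0` its mean value.
-/

set_option autoImplicit false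

namespace H96.DR

open Finset H23.LP

/-- coefficient of `θ ^ 2` of `adj (θ - g) α` -/
def yy (g s c : ℤ) : ℤ := s + g ^ 2 * c

/-- coefficient of `θ` of `adj (θ - g) α` -/
def xx (k g s c : ℤ) : ℤ := k * c + g * s

/-- index form of the line -/
def II (k g s c : ℤ) : ℤ := s ^ 3 - 3 * k * g * c ^ 2 * s - k * (g ^ 3 + k) * c ^ 3

/-- coefficient of `θ ^ 2` of `(θ - g) adj α`, `α = (s - g b) + b θ + c θ ^ 2` -/
def Cg (k g s b c : ℤ) : ℤ := c * xx k g s c - b * yy g s c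

/-- coefficient of `θ` of `(θ - g) adj α` -/
def Bg (k g s b c : ℤ) : ℤ := s ^ 2 - g * k * c ^ 2 - b * xx k g s c

/-- the numerator -/
def Vg (k g s b c : ℤ) : ℤ := (g ^ 3 - k) * yy g s c * b ^ 2 +
  xx k g s c * (c * (g ^ 3 - k) - 3 * g * yy g s c) * b +
  xx k g s c * (2 * yy g s c ^ 2 - 3 * g ^ 2 * c * yy g s c + g * c ^ 2 * (g ^ 3 - k))

/-- norm on the line -/
def ng (k g s b c : ℤ) : ℤ := nn k (s - g * b) b c

/-- squarefull part of `n`: the product of `p ^ v_p(n)` over the primes with `p ^ 2 ∣ n` -/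
def SF (n : ℕ) : ℕ := ∏ p ∈ n.primeFactors.filter fun p => p ^ 2 ∣ n, p ^ n.factorization p

/-- the other part: the product of the primes with `p ∣ n`, `¬ p ^ 2 ∣ n` -/
def SQ (n : ℕ) : ℕ := ∏ p ∈ n.primeFactors.filter fun p => ¬ p ^ 2 ∣ n, p

/-- the number of directions is `G = ⌈A ^ 0.0062⌉` -/
noncomputable def Gn (A : ℕ) : ℕ := ⌈(A : ℝ) ^ (0.0062 : ℝ)⌉₊

/-- the directions -/
noncomputable def GG (A : ℕ) : Finset ℤ := Ioc (Gn A : ℤ) (2 * Gn A)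

/-- pairs `(q, ρ)`: `q` prime, `A ^ u < q ≤ A ^ v`, `ρ ^ 3 ≡ k (mod q)`, `0 ≤ ρ < q` -/
noncomputable def PP (k : ℤ) (A : ℕ) (u v : ℝ) : Finset (ℕ × ℕ) :=
  ((range (⌊(A : ℝ) ^ v⌋₊ + 1)) ×ˢ (range (⌊(A : ℝ) ^ v⌋₊ + 1))).filter fun x =>
    x.1.Prime ∧ (A : ℝ) ^ u < x.1 ∧ (x.1 : ℝ) ≤ (A : ℝ) ^ v ∧ x.2 < x.1 ∧ (x.1 : ℤ) ∣ (x.2 : ℤ) ^ 3 - k

/-- first range of primes -/
noncomputable def P1 (k : ℤ) (A : ℕ) : Finset (ℕ × ℕ) := PP k A 0.72 0.7204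

/-- second range of primes -/
noncomputable def P2 (k : ℤ) (A : ℕ) : Finset (ℕ × ℕ) := PP k A 0.761 0.7614

/-- the linear form `s - (g ρ + ρ ^ 2) c`; if it vanishes modulo `q` then `q ∣ II k g s c` -/
def lf (g s c : ℤ) (x : ℕ × ℕ) : Prop := (x.1 : ℤ) ∣ s - (g * x.2 + (x.2 : ℤ) ^ 2) * c

open Classical in
/-- the number of pairs of prime factors `q1`, `q2` (with roots) of the line `(g, s, c)` -/
noncomputable def RR (k : ℤ) (A : ℕ) (g s c : ℤ) : ℕ :=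
  ((P1 k A ×ˢ P2 k A).filter fun x => lf g s c x.1 ∧ lf g s c x.2).card

/-- the weight of `(a, b, c)` -/
noncomputable def WW (k : ℤ) (A : ℕ) (a b c : ℤ) : ℕ := ∑ g ∈ GG A, RR k A g (a + g * b) c

/-- the mean value of the weight -/
noncomputable def W0 (k : ℤ) (A : ℕ) : ℝ :=
  (GG A).card * ((∑ x ∈ P1 k A, 1 / (x.1 : ℝ)) * ∑ x ∈ P2 k A, 1 / (x.1 : ℝ))

/-- the box -/
noncomputable def Bx (k : ℤ) (M A : ℕ) : Finset (ℤ × ℤ × ℤ) := Ia k M A ×ˢ (Ib k M A ×ˢ Ic M A)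

/-- a good line: small squarefull part of the index form, `(y, g ^ 3 - k) = 1` -/
def Gd (k : ℤ) (A : ℕ) (g s c : ℤ) : Prop :=
  (SF (II k g s c).natAbs : ℝ) ≤ (A : ℝ) ^ (0.09 : ℝ) ∧ Int.gcd (yy g s c) (g ^ 3 - k) = 1

/-- the coprimality conditions on a point of a line -/
def CP (k g s b c : ℤ) : Prop :=
  Int.gcd (Cg k g s b c) (SQ (II k g s c).natAbs) = 1 ∧ Int.gcd (ng k g s b c) (SF (II k g s c).natAbs) = 1

/-- the number of `m ∈ (X, 2 X]` with `r ∣ CC m + BB` -/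
noncomputable def NR (k : ℤ) (X r : ℕ) (a b c : ℤ) : ℕ :=
  ((Ioc (X : ℤ) (2 * X)).filter fun m => (r : ℤ) ∣ CC a b c * m + BB k a b c).card

/-- the class modulo `Q = QQ k w` -/
def Cl (k : ℤ) (w : ℕ) (a b c : ℤ) : Prop :=
  a ≡ 1 [ZMOD (QQ k w : ℤ)] ∧ b ≡ 0 [ZMOD (QQ k w : ℤ)] ∧ c ≡ 0 [ZMOD (QQ k w : ℤ)]

/-- exact divisor: `j ∣ n` and `n / j` is prime to `j` -/
def Ex (j n : ℤ) : Prop := j ∣ n ∧ Int.gcd (n / j) j = 1

open Classical in
/-- the `(a, b, c)` of the box in the class modulo `Q` with exact divisor `j` of the norm -/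
noncomputable def AJ (k : ℤ) (w M A j : ℕ) : Finset (ℤ × ℤ × ℤ) :=
  (Bx k M A).filter fun x => Cl k w x.1 x.2.1 x.2.2 ∧ Ex j (nn k x.1 x.2.1 x.2.2)

/-- the ideal `(r, θ + m)`: `α ≡ 0` -/
def Lt (r m a b c : ℤ) : Prop := r ∣ a - b * m + c * m ^ 2

/-- all prime factors are `> z` -/
def Rough (z : ℝ) (r : ℕ) : Prop := ∀ p : ℕ, p.Prime → p ∣ r → z < p

/-- number of roots of `m ^ 3 + k` modulo `r` -/
def rho (k : ℤ) (r : ℕ) : ℕ := ((range r).filter fun m : ℕ => (r : ℤ) ∣ (m : ℤ) ^ 3 + k).card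

/-- nice `α`: `adj α` is not divisible by a prime factor of the norm, and the sum of the reciprocals of the prime factors is small -/
def Nice (k : ℤ) (ε : ℝ) (a b c : ℤ) : Prop :=
  (∀ p : ℕ, p.Prime → (p : ℤ) ∣ nn k a b c → ¬ ((p : ℤ) ∣ CC a b c ∧ (p : ℤ) ∣ BB k a b c)) ∧
    ∑ p ∈ (nn k a b c).natAbs.primeFactors, (1 : ℝ) / p ≤ ε

/-- the number of pairs `(m, p)`: `m ∈ (X, 2X]`, `p ∈ (Y, 2Y]` prime, `p ∣ m ^ 3 + k` -/
noncomputable def Sw (k : ℤ) (X : ℕ) (Y : ℝ) : ℕ :=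
  (((Ioc (X : ℤ) (2 * X)) ×ˢ range (⌊2 * Y⌋₊ + 1)).filter fun x =>
    x.2.Prime ∧ Y < x.2 ∧ (x.2 : ℝ) ≤ 2 * Y ∧ (x.2 : ℤ) ∣ x.1 ^ 3 + k).card

open Classical in
/-- the sum of `ρ(r) / r` over the `z`-rough `r ∈ [U, V]` -/
noncomputable def Rs (k : ℤ) (z U V : ℝ) : ℝ :=
  ∑ r ∈ (range (⌊V⌋₊ + 1)).filter fun r : ℕ => U ≤ (r : ℝ) ∧ Rough z r, (rho k r : ℝ) / (r : ℝ)

/-! ### Identities -/

theorem id_II (k g s c : ℤ) : II k g s c = nn k s (-(g * c)) (-c) := by simp only [II, nn]; ring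

theorem id_C (k g s b c : ℤ) : Cg k g s b c = BB k (s - g * b) b c - g * CC (s - g * b) b c := by
  simp only [Cg, BB, CC, xx, yy]; ring

theorem id_yB (k g s b c : ℤ) :
    yy g s c * Bg k g s b c = II k g s c + xx k g s c * Cg k g s b c := by
  simp only [Cg, Bg, II, xx, yy]; ring

theorem id_V (k g s b c : ℤ) : yy g s c ^ 2 * ng k g s b c =
    II k g s c * Bg k g s b c + Cg k g s b c * Vg k g s b c := by
  simp only [Cg, Bg, II, Vg, ng, nn, xx, yy]; ring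

theorem id_kCB (k g s b c : ℤ) :
    Bg k g s b c ^ 3 - k * Cg k g s b c ^ 3 = ng k g s b c * II k g s c := by
  simp only [Cg, Bg, II, ng, nn, xx, yy]; ring

theorem id_xy (k g s c : ℤ) : xx k g s c ^ 3 - k * yy g s c ^ 3 = (g ^ 3 - k) * II k g s c := by
  simp only [II, xx, yy]; ring

theorem id_Nc (k g s c : ℤ) : (g ^ 3 - k) * c = g * yy g s c - xx k g s c := by
  simp only [xx, yy]; ring

theorem id_Bg (k g s b c : ℤ) :
    Bg k g s b c = ((s - g * b) ^ 2 - k * b * c) - g * BB k (s - g * b) b c := by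
  simp only [Bg, BB, xx]; ring

theorem id_CBg (k g s b c : ℤ) : Cg k g s b c * BB k (s - g * b) b c -
    CC (s - g * b) b c * Bg k g s b c = c * ng k g s b c := by
  simp only [Cg, Bg, BB, CC, ng, nn, xx, yy]; ring

theorem id_root (k a b c m : ℤ) : CC a b c * m + BB k a b c =
    -(b + c * m) * (a - b * m + c * m ^ 2) + c ^ 2 * (m ^ 3 + k) := by
  simp only [CC, BB]; ring

theorem id_I_y (k g s c : ℤ) : II k g s c = yy g s c ^ 3 - 3 * g ^ 2 * c * yy g s c ^ 2 +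
    3 * g * c ^ 2 * (g ^ 3 - k) * yy g s c - (g ^ 3 - k) ^ 2 * c ^ 3 := by
  simp only [II, yy]; ring

theorem id_nn_g (k g a b c : ℤ) : nn k a b c = (a + g * b + g ^ 2 * c) *
    (a ^ 2 + g ^ 2 * b ^ 2 + g ^ 4 * c ^ 2 - g * a * b - g ^ 3 * b * c - g ^ 2 * a * c) +
    (k - g ^ 3) * (b ^ 3 + (k + g ^ 3) * c ^ 3 - 3 * a * b * c) := by
  simp only [nn]; ring

end H96.DR
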