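import Pool.Agent.H96.DR.LatDef

/-!
# [DR LATT] the cosets tile the box, 60-110 lines. File Pool/Agent/H96/DR/LatT.lean

`Λ` has index `m > 0`: the quotient `(ℤ × ℤ × ℤ) ⧸ Λ` is finite with `m` elements (`AddSubgroup.index_ne_zero_iff_finite` or
`AddSubgroup.FiniteIndex`, `AddSubgroup.index_eq_card`, `Nat.card_eq_fintype_card`). Sort the points of the box by their class
(`Finset.card_eq_sum_card_fiberwise`, map `x ↦ (x : quotient)`): `∑_q #{x ∈ box : x = q} = #box = A³`; for `q` the class of `x1 = q.out`,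
`{x ∈ box : (x : quotient) = q} = {x ∈ box : x - x1 ∈ Λ}` (`QuotientAddGroup.eq`: `(x : quotient) = y ↔ -x + y ∈ Λ`).
* `tile_le`: if `N ≤ cnt Λ x1 α β γ A` for all `x1` then `m * N ≤ A³` (`Finset.card_nsmul_le_sum`).
* `tile_ge`: if `cnt Λ x1 α β γ A ≤ N` for all `x1` then `A³ ≤ m * N`.
`(box3 α β γ A).card = A ^ 3`: `Finset.card_product`, `Int.card_Ioc`.
-/

set_option autoImplicit false

namespace H96.DR

open Finset

theorem card_box3 (α β γ : ℤ) (A : ℕ) : (box3 α β γ A).card = A ^ 3 := by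
  unfold box3
  rw [card_product, card_product, Int.card_Ioc, Int.card_Ioc, Int.card_Ioc]
  simp only [add_sub_cancel_left, Int.toNat_natCast]
  ring

open Classical in
private theorem tile_sum (Λ : AddSubgroup (ℤ × ℤ × ℤ)) [Fintype ((ℤ × ℤ × ℤ) ⧸ Λ)] (α β γ : ℤ) (A : ℕ) :
    ∑ q : (ℤ × ℤ × ℤ) ⧸ Λ, cnt Λ q.out α β γ A = A ^ 3 := by
  rw [← card_box3 α β γ A, card_eq_sum_card_fiberwise (f := fun x => (QuotientAddGroup.mk x : (ℤ × ℤ × ℤ) ⧸ Λ))
    (t := univ) (fun x _ => by simp)]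
  refine sum_congr rfl fun q _ => ?_
  unfold cnt
  congr 1
  ext x
  rw [mem_filter, mem_filter]
  refine and_congr_right fun _ => ?_
  conv_rhs => rw [← QuotientAddGroup.out_eq' q, eq_comm, QuotientAddGroup.eq]
  rw [show -q.out + x = x - q.out by abel]

theorem tile_le (Λ : AddSubgroup (ℤ × ℤ × ℤ)) (m : ℕ) (hm : Λ.index = m) (hm0 : 0 < m) (α β γ : ℤ)
    (A N : ℕ) (h : ∀ x1, N ≤ cnt Λ x1 α β γ A) : m * N ≤ A ^ 3 := by
  have : Finite ((ℤ × ℤ × ℤ) ⧸ Λ) := AddSubgroup.index_ne_zero_iff_finite.1 (by rw [hm]; exact hm0.ne')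
  have : Fintype ((ℤ × ℤ × ℤ) ⧸ Λ) := Fintype.ofFinite _
  rw [← tile_sum Λ α β γ A, ← hm, AddSubgroup.index_eq_card, Nat.card_eq_fintype_card, ← smul_eq_mul, ← card_univ]
  exact card_nsmul_le_sum _ _ _ fun q _ => h _

theorem tile_ge (Λ : AddSubgroup (ℤ × ℤ × ℤ)) (m : ℕ) (hm : Λ.index = m) (hm0 : 0 < m) (α β γ : ℤ)
    (A N : ℕ) (h : ∀ x1, cnt Λ x1 α β γ A ≤ N) : A ^ 3 ≤ m * N := by
  have : Finite ((ℤ × ℤ × ℤ) ⧸ Λ) := AddSubgroup.index_ne_zero_iff_finite.1 (by rw [hm]; exact hm0.ne')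
  have : Fintype ((ℤ × ℤ × ℤ) ⧸ Λ) := Fintype.ofFinite _
  rw [← tile_sum Λ α β γ A, ← hm, AddSubgroup.index_eq_card, Nat.card_eq_fintype_card, ← smul_eq_mul, ← card_univ]
  exact sum_le_card_nsmul _ _ _ fun q _ => h _

end H96.DR
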