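import Pool.Agent.H96.DR.LatR
import Pool.Agent.H96.DR.LatT

/-!
# [DR LAT] the number of points of a coset in a box, 60-110 lines. File Pool/Agent/H96/DR/Lat.lean

`D` a natural number. SHIFT: for all `x0, x1` there is `w` with `Nm (3 D) w` and `x1 - x0 - w ∈ Λ` (`small_rep` for `z = x1 - x0`). If `x` lies in the box
`(α, α + A] × ..` and `x - x0 ∈ Λ` then `x + w - x1 = (x - x0) - (x1 - x0 - w) ∈ Λ` and `x + w` lies in the box with corners `α - 3 D, ..` and side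
`A + 6 D`. The map `x ↦ x + w` is injective, so `cnt Λ x0 α β γ A ≤ cnt Λ x1 (α - 3D) (β - 3D) (γ - 3D) (A + 6D)` (`Finset.card_le_card_of_injOn`).
* `lat3_le`: this holds for every `x1`, so `tile_le` for the box of side `A + 6 D` with `N = cnt Λ x0 α β γ A`: `m N ≤ (A + 6D)³`.
* `lat3_ge` (`6 D ≤ A`): in the same way `cnt Λ x1 (α + 3D) (β + 3D) (γ + 3D) (A - 6D) ≤ cnt Λ x0 α β γ A` for every `x1` (the previous inequality for the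
smaller box, `A = (A - 6D) + 6D`), so `tile_ge` gives `(A - 6D)³ ≤ m cnt Λ x0 α β γ A`.
* `lat3`: real form with a real `D ≥ 0`: use `⌊D⌋₊` (the coordinates are integers, so `Nm D v` implies `Nm ⌊D⌋₊ v`).
-/

set_option autoImplicit false

namespace H96.DR

open Finset

private theorem lat_shift (Λ : AddSubgroup (ℤ × ℤ × ℤ)) (v1 v2 v3 : ℤ × ℤ × ℤ) (h1 : v1 ∈ Λ) (h2 : v2 ∈ Λ)
    (h3 : v3 ∈ Λ) (hd : det3 v1 v2 v3 ≠ 0) (D : ℕ)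
    (hD1 : Nm D v1) (hD2 : Nm D v2) (hD3 : Nm D v3) (x0 x1 : ℤ × ℤ × ℤ) (α β γ : ℤ) (A : ℕ) :
    cnt Λ x0 α β γ A ≤ cnt Λ x1 (α - 3 * D) (β - 3 * D) (γ - 3 * D) (A + 6 * D) := by
  classical
  obtain ⟨u, hu, hn⟩ := small_rep Λ v1 v2 v3 h1 h2 h3 hd D hD1 hD2 hD3 (x1 - x0)
  obtain ⟨w, hw⟩ : ∃ w, w = x1 - x0 - u := ⟨_, rfl⟩
  rw [← hw] at hn
  obtain ⟨n1, n2, n3⟩ := hn
  have k1 : |w.1| ≤ 3 * (D : ℤ) := by exact_mod_cast n1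
  have k2 : |w.2.1| ≤ 3 * (D : ℤ) := by exact_mod_cast n2
  have k3 : |w.2.2| ≤ 3 * (D : ℤ) := by exact_mod_cast n3
  rw [abs_le] at k1 k2 k3
  unfold cnt
  refine Finset.card_le_card_of_injOn (fun x => x + w) ?_ (fun a _ b _ h => add_right_cancel h)
  intro x hx
  rw [Finset.mem_coe, Finset.mem_filter] at hx ⊢
  obtain ⟨hx1, hx2⟩ := hx
  unfold box3 at hx1 ⊢
  rw [Finset.mem_product, Finset.mem_product, Finset.mem_Ioc, Finset.mem_Ioc, Finset.mem_Ioc] at hx1 ⊢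
  obtain ⟨⟨a1, a2⟩, ⟨b1, b2⟩, ⟨c1, c2⟩⟩ := hx1
  refine ⟨?_, ?_⟩
  · change (α - 3 * (D : ℤ) < x.1 + w.1 ∧ x.1 + w.1 ≤ α - 3 * (D : ℤ) + ((A + 6 * D : ℕ) : ℤ)) ∧
      (β - 3 * (D : ℤ) < x.2.1 + w.2.1 ∧ x.2.1 + w.2.1 ≤ β - 3 * (D : ℤ) + ((A + 6 * D : ℕ) : ℤ)) ∧
      (γ - 3 * (D : ℤ) < x.2.2 + w.2.2 ∧ x.2.2 + w.2.2 ≤ γ - 3 * (D : ℤ) + ((A + 6 * D : ℕ) : ℤ))
    push_cast
    refine ⟨⟨?_, ?_⟩, ⟨?_, ?_⟩, ⟨?_, ?_⟩⟩ <;> omega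
  · have e : x + w - x1 = (x - x0) - u := by
      rw [hw]
      abel
    change x + w - x1 ∈ Λ
    rw [e]
    exact Λ.sub_mem hx2 hu

theorem lat3_le (Λ : AddSubgroup (ℤ × ℤ × ℤ)) (m : ℕ) (hm : Λ.index = m) (hm0 : 0 < m)
    (v1 v2 v3 : ℤ × ℤ × ℤ) (h1 : v1 ∈ Λ) (h2 : v2 ∈ Λ) (h3 : v3 ∈ Λ) (hd : det3 v1 v2 v3 ≠ 0) (D : ℕ)
    (hD1 : Nm D v1) (hD2 : Nm D v2) (hD3 : Nm D v3) (x0 : ℤ × ℤ × ℤ) (α β γ : ℤ) (A : ℕ) :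
    m * cnt Λ x0 α β γ A ≤ (A + 6 * D) ^ 3 :=
  tile_le Λ m hm hm0 (α - 3 * D) (β - 3 * D) (γ - 3 * D) (A + 6 * D) _
    fun x1 => lat_shift Λ v1 v2 v3 h1 h2 h3 hd D hD1 hD2 hD3 x0 x1 α β γ A

theorem lat3_ge (Λ : AddSubgroup (ℤ × ℤ × ℤ)) (m : ℕ) (hm : Λ.index = m) (hm0 : 0 < m)
    (v1 v2 v3 : ℤ × ℤ × ℤ) (h1 : v1 ∈ Λ) (h2 : v2 ∈ Λ) (h3 : v3 ∈ Λ) (hd : det3 v1 v2 v3 ≠ 0) (D : ℕ)
    (hD1 : Nm D v1) (hD2 : Nm D v2) (hD3 : Nm D v3) (x0 : ℤ × ℤ × ℤ) (α β γ : ℤ) (A : ℕ)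
    (hA : 6 * D ≤ A) : (A - 6 * D) ^ 3 ≤ m * cnt Λ x0 α β γ A := by
  refine tile_ge Λ m hm hm0 (α + 3 * D) (β + 3 * D) (γ + 3 * D) (A - 6 * D) _ fun x1 => ?_
  have h := lat_shift Λ v1 v2 v3 h1 h2 h3 hd D hD1 hD2 hD3 x1 x0 (α + 3 * D) (β + 3 * D) (γ + 3 * D) (A - 6 * D)
  rw [Nat.sub_add_cancel hA, add_sub_cancel_right, add_sub_cancel_right, add_sub_cancel_right] at h
  exact h

private theorem nm_floor {D : ℝ} {v : ℤ × ℤ × ℤ} (h : Nm D v) : Nm (⌊D⌋₊ : ℝ) v := by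
  have key : ∀ a : ℤ, |(a : ℝ)| ≤ D → |(a : ℝ)| ≤ (⌊D⌋₊ : ℝ) := by
    intro a ha
    have h1 : |(a : ℝ)| = ((a.natAbs : ℕ) : ℝ) := by
      rw [Nat.cast_natAbs, Int.cast_abs]
    rw [h1] at ha ⊢
    exact_mod_cast Nat.le_floor ha
  exact ⟨key _ h.1, key _ h.2.1, key _ h.2.2⟩

theorem lat3 (Λ : AddSubgroup (ℤ × ℤ × ℤ)) (m : ℕ) (hm : Λ.index = m) (hm0 : 0 < m)
    (v1 v2 v3 : ℤ × ℤ × ℤ) (h1 : v1 ∈ Λ) (h2 : v2 ∈ Λ) (h3 : v3 ∈ Λ) (hd : det3 v1 v2 v3 ≠ 0) (D : ℝ)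
    (hD : 0 ≤ D) (hD1 : Nm D v1) (hD2 : Nm D v2) (hD3 : Nm D v3) (x0 : ℤ × ℤ × ℤ) (α β γ : ℤ) (A : ℕ) :
    (m : ℝ) * cnt Λ x0 α β γ A ≤ ((A : ℝ) + 6 * D) ^ 3 ∧
      (6 * D ≤ A → ((A : ℝ) - 6 * D) ^ 3 ≤ (m : ℝ) * cnt Λ x0 α β γ A) := by
  have hf : ((⌊D⌋₊ : ℕ) : ℝ) ≤ D := Nat.floor_le hD
  refine ⟨?_, fun hA => ?_⟩
  · have h := lat3_le Λ m hm hm0 v1 v2 v3 h1 h2 h3 hd ⌊D⌋₊ (nm_floor hD1) (nm_floor hD2) (nm_floor hD3) x0 α β γ A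
    have h' : (m : ℝ) * cnt Λ x0 α β γ A ≤ ((A : ℝ) + 6 * (⌊D⌋₊ : ℝ)) ^ 3 := by exact_mod_cast h
    refine h'.trans ?_
    gcongr
  · have hA' : 6 * ⌊D⌋₊ ≤ A := by
      have h4 : (6 : ℝ) * (⌊D⌋₊ : ℝ) ≤ A := by linarith
      exact_mod_cast h4
    have h := lat3_ge Λ m hm hm0 v1 v2 v3 h1 h2 h3 hd ⌊D⌋₊ (nm_floor hD1) (nm_floor hD2) (nm_floor hD3) x0 α β γ A hA'
    have h' : ((A : ℝ) - 6 * (⌊D⌋₊ : ℝ)) ^ 3 ≤ (m : ℝ) * cnt Λ x0 α β γ A := by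
      have h5 : (((A - 6 * ⌊D⌋₊ : ℕ) : ℝ)) ^ 3 ≤ (m : ℝ) * cnt Λ x0 α β γ A := by exact_mod_cast h
      rw [Nat.cast_sub hA'] at h5
      push_cast at h5
      exact h5
    refine le_trans ?_ h'
    have h6 : (0 : ℝ) ≤ (A : ℝ) - 6 * D := by linarith
    gcongr

end H96.DR
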