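import Pool.Agent.H96.DR.Nzp
import Pool.Agent.H96.DR.Bxe
import Pool.Agent.H23.LP.Nup

/-!
# [DR ADZ] points with `adj α` divisible by a prime `> z`, 100-160 lines. File Pool/Agent/H96/DR/Adz.lean

For a prime `p ∣ nn`, `p ∣ CC`, `p ∣ BB`: `p² ∣ nn` (`bzp`) and `0 < nn ≤ 2 NS k (M A)³` (`bxe` with `ε = 1`... take `ε = 1/2`), so `p ≤ Kp A^(3/2)` with a constant `Kp = Kp(k, M)`; and either `p ∣ a, b, c` or `a ≡ ρ² c`, `b ≡ ρ c (mod p)` for one of at most three `ρ < p` with `ρ³ ≡ k`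
(`H23.LP.nu_le`). For fixed `c` and `p` at most `4 (A/p + 1)²` pairs `(a, b)` of the box (every class modulo `p` contains at most `A/p + 1` integers of an interval of length `A`: `Int.Ioc_filter_modEq_card`). So the number of points is at most
`∑_{z < p ≤ Kp A^(3/2)} 4 A (A/p + 1)² ≤ 8 A ∑_{z < p} (A²/p² + 1) ≤ 8 A (A² · 2/z + Kp A^(3/2)) ≤ 16 A³/z + 8 Kp A^(5/2)` (`(x + 1)² ≤ 2 x² + 2`; `∑_{p > z} 1/p² ≤ 2/z` for `z ≥ 1`, telescoping). With `z = A^0.0144`: `≤ A^2.9857` for `A` large.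
-/

set_option autoImplicit false

namespace H96.DR

open Finset H23.LP

private theorem cls (p : ℕ) (hp : 0 < p) (u v : ℤ) (A : ℕ) :
    (((Ioc u (u + A)).filter fun x : ℤ => (p : ℤ) ∣ x - v).card : ℝ) ≤ (A : ℝ) / p + 1 := by
  have e : ((Ioc u (u + A)).filter fun x : ℤ => (p : ℤ) ∣ x - v) =
      (Ioc u (u + A)).filter fun x : ℤ => x ≡ v [ZMOD (p : ℤ)] := by
    apply Finset.filter_congr
    intro x _
    constructor
    · intro h; exact (Int.modEq_iff_dvd.2 h).symm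
    · intro h; exact Int.modEq_iff_dvd.1 h.symm
  have hp0 : (0 : ℚ) < p := by exact_mod_cast hp
  have h := Int.Ioc_filter_modEq_card u (u + A) (r := (p : ℤ)) (by exact_mod_cast hp) v
  rw [e]
  have h2 : (((((Ioc u (u + A)).filter fun x : ℤ => x ≡ v [ZMOD (p : ℤ)]).card : ℤ) : ℚ)) ≤
      (A : ℚ) / p + 1 := by
    rw [h]
    push_cast
    apply max_le
    · have h3 := Int.floor_le (((u : ℚ) + A - v) / (p : ℚ))
      have h4 := Int.sub_one_lt_floor (((u : ℚ) - v) / (p : ℚ))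
      have h5 : ((u : ℚ) + A - v) / (p : ℚ) = ((u : ℚ) - v) / p + A / p := by ring
      linarith
    · positivity
  have h3 : (((((Ioc u (u + A)).filter fun x : ℤ => x ≡ v [ZMOD (p : ℤ)]).card : ℕ) : ℚ)) ≤
      (A : ℚ) / p + 1 := by exact_mod_cast h2
  have h4 := (Rat.cast_le (K := ℝ)).2 h3
  push_cast at h4
  exact h4

/-- one class modulo `p` -/
private theorem onecls (k : ℤ) (M A p : ℕ) (hp : 0 < p) (t : ℤ × ℤ) :
    (((Bx k M A).filter fun x => (p : ℤ) ∣ x.1 - t.1 * x.2.2 ∧ (p : ℤ) ∣ x.2.1 - t.2 * x.2.2).card : ℝ)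
      ≤ A * ((A : ℝ) / p + 1) ^ 2 := by
  have hsub : ((Bx k M A).filter fun x => (p : ℤ) ∣ x.1 - t.1 * x.2.2 ∧ (p : ℤ) ∣ x.2.1 - t.2 * x.2.2) ⊆
      (Ic M A).biUnion fun c => ((((Ia k M A).filter fun a : ℤ => (p : ℤ) ∣ a - t.1 * c) ×ˢ
        ((Ib k M A).filter fun b : ℤ => (p : ℤ) ∣ b - t.2 * c)).image fun y => (y.1, y.2, c)) := by
    rintro ⟨a, b, c⟩ hx
    rw [mem_filter] at hx
    obtain ⟨hx, h1, h2⟩ := hx
    unfold Bx at hx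
    rw [mem_product, mem_product] at hx
    rw [mem_biUnion]
    refine ⟨c, hx.2.2, ?_⟩
    rw [mem_image]
    refine ⟨(a, b), ?_, rfl⟩
    rw [mem_product, mem_filter, mem_filter]
    exact ⟨⟨hx.1, h1⟩, hx.2.1, h2⟩
  have h1 := (card_le_card hsub).trans card_biUnion_le
  have h2 : (((Bx k M A).filter fun x => (p : ℤ) ∣ x.1 - t.1 * x.2.2 ∧
      (p : ℤ) ∣ x.2.1 - t.2 * x.2.2).card : ℝ) ≤ ∑ c ∈ Ic M A,
      (((((Ia k M A).filter fun a : ℤ => (p : ℤ) ∣ a - t.1 * c) ×ˢ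
        ((Ib k M A).filter fun b : ℤ => (p : ℤ) ∣ b - t.2 * c)).image fun y => (y.1, y.2, c)).card : ℝ) := by
    exact_mod_cast h1
  refine h2.trans ?_
  have h3 : ∀ c ∈ Ic M A, (((((Ia k M A).filter fun a : ℤ => (p : ℤ) ∣ a - t.1 * c) ×ˢ
        ((Ib k M A).filter fun b : ℤ => (p : ℤ) ∣ b - t.2 * c)).image fun y => (y.1, y.2, c)).card : ℝ) ≤
      ((A : ℝ) / p + 1) ^ 2 := by
    intro c _
    have h4 := card_image_le (s := ((Ia k M A).filter fun a : ℤ => (p : ℤ) ∣ a - t.1 * c) ×ˢ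
        ((Ib k M A).filter fun b : ℤ => (p : ℤ) ∣ b - t.2 * c)) (f := fun y => (y.1, y.2, c))
    rw [card_product] at h4
    have h5 : (((((Ia k M A).filter fun a : ℤ => (p : ℤ) ∣ a - t.1 * c) ×ˢ
        ((Ib k M A).filter fun b : ℤ => (p : ℤ) ∣ b - t.2 * c)).image fun y => (y.1, y.2, c)).card : ℝ) ≤
        (((Ia k M A).filter fun a : ℤ => (p : ℤ) ∣ a - t.1 * c).card : ℝ) *
          (((Ib k M A).filter fun b : ℤ => (p : ℤ) ∣ b - t.2 * c).card : ℝ) := by exact_mod_cast h4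
    refine h5.trans ?_
    rw [pow_two]
    apply mul_le_mul
    · exact cls p hp _ _ A
    · exact cls p hp _ _ A
    · positivity
    · positivity
  refine (Finset.sum_le_sum h3).trans ?_
  rw [sum_const, nsmul_eq_mul]
  have h4 : (Ic M A).card = A := by
    unfold Ic
    rw [Int.card_Ioc]; simp
  rw [h4]

open Classical in
/-- the points with `p ∣ a, b, c` or in one of the lattices -/
private theorem onep (k : ℤ) (M A p : ℕ) (hp : p.Prime) :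
    (((Bx k M A).filter fun x => (p : ℤ) ∣ nn k x.1 x.2.1 x.2.2 ∧ (p : ℤ) ∣ CC x.1 x.2.1 x.2.2 ∧
      (p : ℤ) ∣ BB k x.1 x.2.1 x.2.2).card : ℝ) ≤ 4 * (A * ((A : ℝ) / p + 1) ^ 2) := by
  obtain ⟨T, hT⟩ : ∃ T : Finset (ℤ × ℤ), T = insert ((0 : ℤ), (0 : ℤ))
      (((range p).filter fun t : ℕ => (p : ℤ) ∣ (t : ℤ) ^ 3 - k).image
        fun r : ℕ => ((r : ℤ) ^ 2, (r : ℤ))) := ⟨_, rfl⟩
  have hTc : T.card ≤ 4 := by
    rw [hT]
    refine (card_insert_le _ _).trans ?_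
    have h1 := card_image_le (s := (range p).filter fun t : ℕ => (p : ℤ) ∣ (t : ℤ) ^ 3 - k)
      (f := fun r : ℕ => ((r : ℤ) ^ 2, (r : ℤ)))
    have h2 := nu_le k p hp
    unfold nu at h2
    omega
  have hsub : ((Bx k M A).filter fun x => (p : ℤ) ∣ nn k x.1 x.2.1 x.2.2 ∧
      (p : ℤ) ∣ CC x.1 x.2.1 x.2.2 ∧ (p : ℤ) ∣ BB k x.1 x.2.1 x.2.2) ⊆
      T.biUnion fun t => (Bx k M A).filter fun x =>
        (p : ℤ) ∣ x.1 - t.1 * x.2.2 ∧ (p : ℤ) ∣ x.2.1 - t.2 * x.2.2 := by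
    rintro ⟨a, b, c⟩ hx
    rw [mem_filter] at hx
    obtain ⟨hx, h1, h2, h3⟩ := hx
    rw [mem_biUnion]
    obtain ⟨_, h4 | ⟨r, hr, hr2, hr3⟩⟩ := bzp k a b c p hp h1 h2 h3
    · refine ⟨(0, 0), ?_, ?_⟩
      · rw [hT]; exact mem_insert_self _ _
      · rw [mem_filter]
        refine ⟨hx, ?_, ?_⟩
        · simpa using h4.1
        · simpa using h4.2.1
    · refine ⟨((r : ℤ) ^ 2, (r : ℤ)), ?_, ?_⟩
      · rw [hT]
        apply mem_insert_of_mem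
        rw [mem_image]
        exact ⟨r, by rw [mem_filter, mem_range]; exact ⟨hr, hr2⟩, rfl⟩
      · rw [mem_filter]
        rw [mem_Lb] at hr3
        exact ⟨hx, hr3.1, hr3.2⟩
  have h1 := (card_le_card hsub).trans card_biUnion_le
  have h2 : (((Bx k M A).filter fun x => (p : ℤ) ∣ nn k x.1 x.2.1 x.2.2 ∧
      (p : ℤ) ∣ CC x.1 x.2.1 x.2.2 ∧ (p : ℤ) ∣ BB k x.1 x.2.1 x.2.2).card : ℝ) ≤ ∑ t ∈ T,
      (((Bx k M A).filter fun x =>
        (p : ℤ) ∣ x.1 - t.1 * x.2.2 ∧ (p : ℤ) ∣ x.2.1 - t.2 * x.2.2).card : ℝ) := by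
    exact_mod_cast h1
  refine h2.trans ((Finset.sum_le_sum fun t _ => onecls k M A p hp.pos t).trans ?_)
  rw [sum_const, nsmul_eq_mul]
  apply mul_le_mul_of_nonneg_right
  · exact_mod_cast hTc
  · positivity

/-- sum of `1 / p ^ 2` -/
private theorem sqs (z : ℝ) (hz : 1 ≤ z) (N : ℕ) :
    ∑ p ∈ (range (N + 1)).filter (fun p : ℕ => z < p), 1 / (p : ℝ) ^ 2 ≤ 2 / z := by
  have hf : 1 ≤ ⌊z⌋₊ := by
    apply Nat.le_floor; simpa using hz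
  have hf2 : z / 2 ≤ (⌊z⌋₊ : ℝ) := by
    have h1 := Nat.lt_floor_add_one z
    have h2 : (1 : ℝ) ≤ ⌊z⌋₊ := by exact_mod_cast hf
    linarith
  have hsub : (range (N + 1)).filter (fun p : ℕ => z < p) ⊆ Ioc ⌊z⌋₊ (max N ⌊z⌋₊) := by
    intro p hp
    rw [mem_filter, mem_range] at hp
    rw [mem_Ioc]
    constructor
    · exact (Nat.floor_lt (by linarith)).2 hp.2
    · exact (Nat.lt_succ_iff.1 hp.1).trans (le_max_left _ _)
  have h1 : ∑ p ∈ (range (N + 1)).filter (fun p : ℕ => z < p), 1 / (p : ℝ) ^ 2 ≤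
      ∑ p ∈ Ioc ⌊z⌋₊ (max N ⌊z⌋₊), ((p : ℝ) ^ 2)⁻¹ := by
    refine (Finset.sum_le_sum_of_subset_of_nonneg hsub fun i _ _ => by positivity).trans (le_of_eq ?_)
    apply Finset.sum_congr rfl
    intro i _
    rw [one_div]
  have h2 := sum_Ioc_inv_sq_le_sub (α := ℝ) (k := ⌊z⌋₊) (n := max N ⌊z⌋₊) (by omega) (le_max_right _ _)
  have h3 : (0 : ℝ) ≤ ((max N ⌊z⌋₊ : ℕ) : ℝ)⁻¹ := by positivity
  have h4 : (⌊z⌋₊ : ℝ)⁻¹ ≤ 2 / z := by
    have h5 : (⌊z⌋₊ : ℝ)⁻¹ ≤ (z / 2)⁻¹ := inv_anti₀ (by linarith) hf2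
    rwa [inv_div] at h5
  linarith

open Classical in
theorem adz (k : ℤ) (hk : k ≠ 0) : ∃ M0 : ℕ, 1 ≤ M0 ∧ ∀ M : ℕ, M0 ≤ M → ∃ A0 : ℕ, ∀ A : ℕ, A0 ≤ A →
    (((Bx k M A).filter fun x => ∃ p : ℕ, p.Prime ∧ (A : ℝ) ^ (0.0144 : ℝ) < p ∧
      (p : ℤ) ∣ nn k x.1 x.2.1 x.2.2 ∧ (p : ℤ) ∣ CC x.1 x.2.1 x.2.2 ∧
      (p : ℤ) ∣ BB k x.1 x.2.1 x.2.2).card : ℝ) ≤ (A : ℝ) ^ (2.9857 : ℝ) := by
  obtain ⟨M0, hM0, hbx⟩ := bxe k (1 / 2) (by norm_num)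
  refine ⟨M0, hM0, ?_⟩
  intro M hM
  have hM1 : 1 ≤ M := hM0.trans hM
  have hMr : (1 : ℝ) ≤ M := by exact_mod_cast hM1
  have hN1 : (1 : ℝ) ≤ (NS k : ℝ) := by exact_mod_cast NS_pos k
  obtain ⟨K, hK⟩ : ∃ K : ℝ, K = 2 * NS k * (M : ℝ) ^ 3 := ⟨_, rfl⟩
  have hK0 : 0 < K := by rw [hK]; positivity
  have t1 : Filter.Tendsto (fun A : ℕ => (A : ℝ) ^ (0.0001 : ℝ)) Filter.atTop Filter.atTop :=
    (tendsto_rpow_atTop (by norm_num)).comp tendsto_natCast_atTop_atTop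
  have t2 : Filter.Tendsto (fun A : ℕ => (A : ℝ) ^ (0.4857 : ℝ)) Filter.atTop Filter.atTop :=
    (tendsto_rpow_atTop (by norm_num)).comp tendsto_natCast_atTop_atTop
  obtain ⟨A0, hA0⟩ := Filter.eventually_atTop.1
    ((t1.eventually_ge_atTop 32).and ((t2.eventually_ge_atTop (16 * Real.sqrt K)).and
      (Filter.eventually_ge_atTop 1)))
  refine ⟨A0, ?_⟩
  intro A hA
  obtain ⟨hA1, hA2, hA3⟩ := hA0 A hA
  have hAr : (1 : ℝ) ≤ A := by exact_mod_cast hA3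
  have hAp : (0 : ℝ) < A := by linarith
  obtain ⟨z, hz⟩ : ∃ z : ℝ, z = (A : ℝ) ^ (0.0144 : ℝ) := ⟨_, rfl⟩
  have hz1 : 1 ≤ z := by rw [hz]; exact Real.one_le_rpow hAr (by norm_num)
  rw [← hz]
  obtain ⟨N, hN⟩ : ∃ N : ℕ, N = ⌊Real.sqrt K * (A : ℝ) ^ (1.5 : ℝ)⌋₊ := ⟨_, rfl⟩
  have hsub : ((Bx k M A).filter fun x => ∃ p : ℕ, p.Prime ∧ z < p ∧
      (p : ℤ) ∣ nn k x.1 x.2.1 x.2.2 ∧ (p : ℤ) ∣ CC x.1 x.2.1 x.2.2 ∧
      (p : ℤ) ∣ BB k x.1 x.2.1 x.2.2) ⊆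
      (((range (N + 1)).filter (fun p : ℕ => z < p)).filter fun p : ℕ => p.Prime).biUnion fun p =>
        (Bx k M A).filter fun x => (p : ℤ) ∣ nn k x.1 x.2.1 x.2.2 ∧
          (p : ℤ) ∣ CC x.1 x.2.1 x.2.2 ∧ (p : ℤ) ∣ BB k x.1 x.2.1 x.2.2 := by
    rintro ⟨a, b, c⟩ hx
    rw [mem_filter] at hx
    obtain ⟨hx, p, hp, hzp, h1, h2, h3⟩ := hx
    rw [mem_biUnion]
    refine ⟨p, ?_, ?_⟩
    · rw [mem_filter, mem_filter, mem_range]
      refine ⟨⟨?_, hzp⟩, hp⟩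
      have h4 := hbx M A hM hA3 (a, b, c) hx
      simp only at h4
      obtain ⟨h5, _⟩ := bzp k a b c p hp h1 h2 h3
      have hMA : (0 : ℝ) < NS k * ((M : ℝ) * A) ^ 3 := by positivity
      rw [abs_le] at h4
      have hpos : (0 : ℝ) < (nn k a b c : ℝ) := by linarith
      have hposz : (0 : ℤ) < nn k a b c := by exact_mod_cast hpos
      have h6 := Int.le_of_dvd hposz h5
      have h7 : ((p : ℝ)) ^ 2 ≤ (nn k a b c : ℝ) := by exact_mod_cast h6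
      have h8 : ((p : ℝ)) ^ 2 ≤ K * (A : ℝ) ^ 3 := by
        have h9 : NS k * ((M : ℝ) * A) ^ 3 = NS k * (M : ℝ) ^ 3 * A ^ 3 := by ring
        rw [hK]
        rw [h9] at h4 hMA
        have h10 : 2 * (NS k : ℝ) * (M : ℝ) ^ 3 * (A : ℝ) ^ 3 = 2 * (NS k * (M : ℝ) ^ 3 * A ^ 3) := by
          ring
        rw [h10]
        linarith [h4.2]
      have h9 : (p : ℝ) ≤ Real.sqrt K * (A : ℝ) ^ (1.5 : ℝ) := by
        have h10 : (p : ℝ) = Real.sqrt ((p : ℝ) ^ 2) := by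
          rw [Real.sqrt_sq]; positivity
        rw [h10]
        refine (Real.sqrt_le_sqrt h8).trans (le_of_eq ?_)
        rw [Real.sqrt_mul hK0.le]
        congr 1
        rw [Real.sqrt_eq_rpow, ← Real.rpow_natCast, ← Real.rpow_mul hAp.le]
        norm_num
      have h10 : p ≤ N := by
        rw [hN]; exact Nat.le_floor h9
      omega
    · rw [mem_filter]
      exact ⟨hx, h1, h2, h3⟩
  have h1 := (card_le_card hsub).trans card_biUnion_le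
  have h2 : (((Bx k M A).filter fun x => ∃ p : ℕ, p.Prime ∧ z < p ∧
      (p : ℤ) ∣ nn k x.1 x.2.1 x.2.2 ∧ (p : ℤ) ∣ CC x.1 x.2.1 x.2.2 ∧
      (p : ℤ) ∣ BB k x.1 x.2.1 x.2.2).card : ℝ) ≤
      ∑ p ∈ (((range (N + 1)).filter (fun p : ℕ => z < p)).filter fun p : ℕ => p.Prime),
        (((Bx k M A).filter fun x => (p : ℤ) ∣ nn k x.1 x.2.1 x.2.2 ∧
          (p : ℤ) ∣ CC x.1 x.2.1 x.2.2 ∧ (p : ℤ) ∣ BB k x.1 x.2.1 x.2.2).card : ℝ) := by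
    exact_mod_cast h1
  refine h2.trans ?_
  have h3 : ∑ p ∈ (((range (N + 1)).filter (fun p : ℕ => z < p)).filter fun p : ℕ => p.Prime),
        (((Bx k M A).filter fun x => (p : ℤ) ∣ nn k x.1 x.2.1 x.2.2 ∧
          (p : ℤ) ∣ CC x.1 x.2.1 x.2.2 ∧ (p : ℤ) ∣ BB k x.1 x.2.1 x.2.2).card : ℝ) ≤
      ∑ p ∈ (range (N + 1)).filter (fun p : ℕ => z < p), 8 * A * (A ^ 2 * (1 / (p : ℝ) ^ 2) + 1) := by
    refine (Finset.sum_le_sum fun p hp => onep k M A p (mem_filter.1 hp).2).trans ?_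
    refine le_trans (Finset.sum_le_sum_of_subset_of_nonneg (filter_subset _ _)
      fun i _ _ => by positivity) ?_
    apply Finset.sum_le_sum
    intro p _
    have h4 : ((A : ℝ) / p + 1) ^ 2 ≤ 2 * (A ^ 2 * (1 / (p : ℝ) ^ 2)) + 2 := by
      have h5 : (A : ℝ) ^ 2 * (1 / (p : ℝ) ^ 2) = ((A : ℝ) / p) ^ 2 := by ring
      rw [h5]
      nlinarith [sq_nonneg ((A : ℝ) / p - 1)]
    have h5 : (A : ℝ) * ((A : ℝ) / p + 1) ^ 2 ≤ A * (2 * (A ^ 2 * (1 / (p : ℝ) ^ 2)) + 2) :=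
      mul_le_mul_of_nonneg_left h4 hAp.le
    nlinarith [h5]
  refine h3.trans ?_
  rw [← Finset.mul_sum, Finset.sum_add_distrib, ← Finset.mul_sum]
  have h4 := sqs z hz1 N
  have h5 : ∑ p ∈ (range (N + 1)).filter (fun p : ℕ => z < p), (1 : ℝ) ≤ N := by
    rw [sum_const, nsmul_eq_mul, mul_one]
    have h6 : ((range (N + 1)).filter (fun p : ℕ => z < p)).card ≤ N := by
      have h7 : (range (N + 1)).filter (fun p : ℕ => z < p) ⊆ Ioc 0 N := by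
        intro p hp
        rw [mem_filter, mem_range] at hp
        rw [mem_Ioc]
        refine ⟨?_, by omega⟩
        have h8 : (0 : ℝ) < p := by linarith [hp.2]
        exact_mod_cast h8
      have h8 := card_le_card h7
      rw [Nat.card_Ioc] at h8
      omega
    exact_mod_cast h6
  have hNle : (N : ℝ) ≤ Real.sqrt K * (A : ℝ) ^ (1.5 : ℝ) := by
    rw [hN]; exact Nat.floor_le (by positivity)
  have h6 : 8 * (A : ℝ) * (A ^ 2 * ∑ p ∈ (range (N + 1)).filter (fun p : ℕ => z < p), 1 / (p : ℝ) ^ 2 +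
      ∑ p ∈ (range (N + 1)).filter (fun p : ℕ => z < p), (1 : ℝ)) ≤
      8 * A * (A ^ 2 * (2 / z) + Real.sqrt K * (A : ℝ) ^ (1.5 : ℝ)) := by
    apply mul_le_mul_of_nonneg_left _ (by positivity)
    apply add_le_add
    · exact mul_le_mul_of_nonneg_left h4 (by positivity)
    · exact h5.trans hNle
  refine h6.trans ?_
  have e1 : 8 * (A : ℝ) * (A ^ 2 * (2 / z)) = 16 * (A : ℝ) ^ (2.9856 : ℝ) := by
    have h7 : (A : ℝ) ^ (2.9856 : ℝ) * z = A ^ 3 := by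
      rw [hz, ← Real.rpow_add hAp, ← Real.rpow_natCast]
      norm_num
    have hz0 : z ≠ 0 := by linarith
    field_simp
    nlinarith [h7]
  have e2 : 8 * (A : ℝ) * (Real.sqrt K * (A : ℝ) ^ (1.5 : ℝ)) =
      8 * Real.sqrt K * (A : ℝ) ^ (2.5 : ℝ) := by
    have h7 : (A : ℝ) ^ (2.5 : ℝ) = A * (A : ℝ) ^ (1.5 : ℝ) := by
      have h8 : (A : ℝ) ^ (2.5 : ℝ) = (A : ℝ) ^ (1 + 1.5 : ℝ) := by norm_num
      rw [h8, Real.rpow_add hAp, Real.rpow_one]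
    rw [h7]; ring
  have e3 : (A : ℝ) ^ (2.9857 : ℝ) = (A : ℝ) ^ (2.9856 : ℝ) * (A : ℝ) ^ (0.0001 : ℝ) := by
    rw [← Real.rpow_add hAp]; norm_num
  have e4 : (A : ℝ) ^ (2.9857 : ℝ) = (A : ℝ) ^ (2.5 : ℝ) * (A : ℝ) ^ (0.4857 : ℝ) := by
    rw [← Real.rpow_add hAp]; norm_num
  have p1 : (0 : ℝ) < (A : ℝ) ^ (2.9856 : ℝ) := by positivity
  have p2 : (0 : ℝ) < (A : ℝ) ^ (2.5 : ℝ) := by positivity
  have q1 : 32 * (A : ℝ) ^ (2.9856 : ℝ) ≤ (A : ℝ) ^ (2.9857 : ℝ) := by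
    rw [e3]; nlinarith [hA1]
  have q2 : 16 * Real.sqrt K * (A : ℝ) ^ (2.5 : ℝ) ≤ (A : ℝ) ^ (2.9857 : ℝ) := by
    rw [e4]; nlinarith [hA2]
  rw [mul_add, e1, e2]
  linarith

end H96.DR
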