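import Pool.Agent.H96.DR.Sfp

/-!
# [DR AGL] divisibility on a line, 100-160 lines. File Pool/Agent/H96/DR/Agl.lean

Write `I, C, B, V, n, x, y, N = g³ - k` for `II, Cg, Bg, Vg, ng, xx, yy`. Identities: `Def.lean`.
* `cop_Cn`: let a prime `p` divide `C` and `n`. `y³ n = y (I B + C V) = I (y B) + y C V = I² + C (x I + y V)` (`id_V`, `id_yB`), so `p ∣ I²`, `p ∣ I`. By `dvd_SQ_iff`, `dvd_SF_iff` `p` divides `SQ |I|` (then `(C, SQ) ≠ 1`) or `SF |I|`
(then `(n, SF) ≠ 1`): contradiction to `CP`. (`Int.gcd` and primes: `Nat.Coprime` of the `natAbs`, `Nat.Prime.not_coprime_iff_dvd`.)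
* `cop_CC`: if a prime `p` divides `CC` and `n` then `p ∣ BB` (`H23.LP.id_AC` for `a = s - g b`: `BB² = AA CC + c n`), so `p ∣ C = BB - g CC` (`id_C`), against `cop_Cn`.
* `root_iff`: `C (CC m + BB) - CC (C m + B) = C BB - CC B = c n` (`id_CBg`); so `n ∣ C (CC m + BB) ↔ n ∣ CC (C m + B)`, and `C`, `CC` are prime to `n`.
* `dvd_V`: `C (V - I m) = y² n - I B - I C m = y² n - I (C m + B)` (`id_V`), divisible by `n`; `C` is prime to `n`.
* `K0_C`: with `n K0 = V - I m` and `C m + B = n u`: `n (C K0) = C (V - I m) = n (y² - I u)`, cancel `n ≠ 0`.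
* `y_cop`: let the prime `p` divide `SQ |I|` and `y`. By `id_xy` `p ∣ x³`, so `p ∣ x`, and `N c = g y - x` (`id_Nc`) is divisible by `p`. In `id_I_y`: `I = y³ - 3 g² c y² + 3 g c (N c) y - (N c)² c` every term is divisible by `p²`, so `p² ∣ I`,
contradiction to `dvd_SQ_iff`.
-/

set_option autoImplicit false

namespace H96.DR

open Finset H23.LP

private theorem gcd_one_of {a b : ℤ} (h : ∀ p : ℕ, p.Prime → (p : ℤ) ∣ a → (p : ℤ) ∣ b → False) :
    Int.gcd a b = 1 := by
  by_contra hne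
  obtain ⟨p, hp, hd⟩ := Nat.exists_prime_and_dvd hne
  have h1 : (p : ℤ) ∣ (Int.gcd a b : ℤ) := Int.natCast_dvd_natCast.2 hd
  exact h p hp (h1.trans (Int.gcd_dvd_left ..)) (h1.trans (Int.gcd_dvd_right ..))

private theorem not_of_gcd {a b : ℤ} (h : Int.gcd a b = 1) {p : ℕ} (hp : p.Prime) (ha : (p : ℤ) ∣ a)
    (hb : (p : ℤ) ∣ b) : False := by
  have h1 : p ∣ Int.gcd a b := by
    have := Int.dvd_coe_gcd ha hb
    exact_mod_cast this
  rw [h] at h1
  exact hp.one_lt.ne' (Nat.dvd_one.1 h1)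

theorem cop_Cn (k g s b c : ℤ) (hI : II k g s c ≠ 0) (h : CP k g s b c) :
    Int.gcd (Cg k g s b c) (ng k g s b c) = 1 := by
  refine gcd_one_of fun p hp hC hn => ?_
  have hpp := Nat.prime_iff_prime_int.1 hp
  have e : yy g s c ^ 3 * ng k g s b c = II k g s c ^ 2 + Cg k g s b c *
      (xx k g s c * II k g s c + yy g s c * Vg k g s b c) := by
    have h1 := id_V k g s b c
    have h2 := id_yB k g s b c
    linear_combination yy g s c * h1 + II k g s c * h2
  have h3 : (p : ℤ) ∣ II k g s c ^ 2 := by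
    have h4 : II k g s c ^ 2 = yy g s c ^ 3 * ng k g s b c - Cg k g s b c *
      (xx k g s c * II k g s c + yy g s c * Vg k g s b c) := by linear_combination -e
    rw [h4]
    exact dvd_sub (hn.mul_left _) (hC.mul_right _)
  have h5 : (p : ℤ) ∣ II k g s c := hpp.dvd_of_dvd_pow h3
  have h6 : p ∣ (II k g s c).natAbs := Int.natCast_dvd.1 h5
  have h7 : (II k g s c).natAbs ≠ 0 := Int.natAbs_ne_zero.2 hI
  by_cases h8 : p ^ 2 ∣ (II k g s c).natAbs
  · have h9 := (dvd_SF_iff _ p h7 hp).2 h8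
    exact not_of_gcd h.2 hp hn (Int.natCast_dvd_natCast.2 h9)
  · have h9 := (dvd_SQ_iff _ p h7 hp).2 ⟨h6, h8⟩
    exact not_of_gcd h.1 hp hC (Int.natCast_dvd_natCast.2 h9)

theorem cop_CC (k g s b c : ℤ) (h : Int.gcd (Cg k g s b c) (ng k g s b c) = 1) :
    Int.gcd (CC (s - g * b) b c) (ng k g s b c) = 1 := by
  refine gcd_one_of fun p hp hC hn => ?_
  have hpp := Nat.prime_iff_prime_int.1 hp
  have e := id_AC k (s - g * b) b c
  have h1 : (p : ℤ) ∣ BB k (s - g * b) b c ^ 2 := by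
    have h2 : BB k (s - g * b) b c ^ 2 = ((s - g * b) ^ 2 - k * b * c) * CC (s - g * b) b c + c * ng k g s b c := by
      unfold ng
      linear_combination -e
    rw [h2]
    exact dvd_add (hC.mul_left _) (hn.mul_left _)
  have h3 : (p : ℤ) ∣ BB k (s - g * b) b c := hpp.dvd_of_dvd_pow h1
  have h4 : (p : ℤ) ∣ Cg k g s b c := by
    rw [id_C]
    exact dvd_sub h3 (hC.mul_left _)
  exact not_of_gcd h hp h4 hn

theorem root_iff (k g s b c m : ℤ) (h : Int.gcd (Cg k g s b c) (ng k g s b c) = 1) :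
    ng k g s b c ∣ Cg k g s b c * m + Bg k g s b c ↔
      ng k g s b c ∣ CC (s - g * b) b c * m + BB k (s - g * b) b c := by
  have h1 := cop_CC k g s b c h
  have e := id_CBg k g s b c
  have e2 : Cg k g s b c * (CC (s - g * b) b c * m + BB k (s - g * b) b c) =
      CC (s - g * b) b c * (Cg k g s b c * m + Bg k g s b c) + c * ng k g s b c := by
    linear_combination e
  have c1 : IsCoprime (ng k g s b c) (Cg k g s b c) := (Int.isCoprime_iff_gcd_eq_one.2 h).symm
  have c2 : IsCoprime (ng k g s b c) (CC (s - g * b) b c) := (Int.isCoprime_iff_gcd_eq_one.2 h1).symm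
  constructor
  · intro hd
    refine c1.dvd_of_dvd_mul_left ?_
    rw [e2]
    exact dvd_add (hd.mul_left _) (dvd_mul_left _ _)
  · intro hd
    refine c2.dvd_of_dvd_mul_left ?_
    have e3 : CC (s - g * b) b c * (Cg k g s b c * m + Bg k g s b c) =
      Cg k g s b c * (CC (s - g * b) b c * m + BB k (s - g * b) b c) - c * ng k g s b c := by
      linear_combination -e2
    rw [e3]
    exact dvd_sub (hd.mul_left _) (dvd_mul_left _ _)

theorem dvd_V (k g s b c m : ℤ) (h : Int.gcd (Cg k g s b c) (ng k g s b c) = 1)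
    (hm : ng k g s b c ∣ Cg k g s b c * m + Bg k g s b c) :
    ng k g s b c ∣ Vg k g s b c - II k g s c * m := by
  have c1 : IsCoprime (ng k g s b c) (Cg k g s b c) := (Int.isCoprime_iff_gcd_eq_one.2 h).symm
  refine c1.dvd_of_dvd_mul_left ?_
  have e : Cg k g s b c * (Vg k g s b c - II k g s c * m) = yy g s c ^ 2 * ng k g s b c -
      II k g s c * (Cg k g s b c * m + Bg k g s b c) := by
    linear_combination -id_V k g s b c
  rw [e]
  exact dvd_sub (dvd_mul_left _ _) (hm.mul_left _)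

theorem K0_C (k g s b c m K0 u : ℤ) (hn : ng k g s b c ≠ 0)
    (h1 : Vg k g s b c - II k g s c * m = ng k g s b c * K0)
    (h2 : Cg k g s b c * m + Bg k g s b c = ng k g s b c * u) :
    Cg k g s b c * K0 = yy g s c ^ 2 - II k g s c * u := by
  apply mul_left_cancel₀ hn
  linear_combination -Cg k g s b c * h1 - II k g s c * h2 - id_V k g s b c

theorem y_cop (k g s c : ℤ) (hI : II k g s c ≠ 0) (p : ℕ) (hp : p.Prime)
    (h : p ∣ SQ (II k g s c).natAbs) : ¬ (p : ℤ) ∣ yy g s c := by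
  intro hy
  have hpp := Nat.prime_iff_prime_int.1 hp
  have h7 : (II k g s c).natAbs ≠ 0 := Int.natAbs_ne_zero.2 hI
  obtain ⟨h1, h2⟩ := (dvd_SQ_iff _ p h7 hp).1 h
  have h3 : (p : ℤ) ∣ II k g s c := Int.natCast_dvd.2 h1
  have hx : (p : ℤ) ∣ xx k g s c := by
    refine hpp.dvd_of_dvd_pow (n := 3) ?_
    have e : xx k g s c ^ 3 = (g ^ 3 - k) * II k g s c + k * yy g s c ^ 3 := by
      linear_combination id_xy k g s c
    rw [e]
    exact dvd_add (h3.mul_left _) ((hy.pow (by norm_num)).mul_left _)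
  have hN : (p : ℤ) ∣ (g ^ 3 - k) * c := by
    rw [id_Nc]
    exact dvd_sub (hy.mul_left _) hx
  obtain ⟨y', hy'⟩ := hy
  obtain ⟨z, hz⟩ := hN
  apply h2
  rw [← Int.natCast_dvd]
  refine ⟨p * y' ^ 3 - 3 * g ^ 2 * c * y' ^ 2 + 3 * g * c * z * y' - z ^ 2 * c, ?_⟩
  rw [id_I_y, hy']
  push_cast
  linear_combination (3 * g * c * (p * y') - c * ((g ^ 3 - k) * c) - c * (p * z)) * hz

end H96.DR
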