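import Pool.Agent.H96.DR.LDef

/-!
# [DR NZP] prime factors of the norm, 80-130 lines. File Pool/Agent/H96/DR/Nzp.lean

Congruences modulo the prime `p`, `n = nn`, `C = CC`, `B = BB`, `T = a² - k b c`.
* `nzp`: if `p ∣ C` then `p ∣ B²` by `H23.LP.id_AC`, so `p ∣ B`, against the hypothesis; so `p ∤ C` and there is `ρ`, `0 ≤ ρ < p`, with `p ∣ ρ C - B`. Then `C³ (ρ³ - k) ≡ B³ - k C³ ≡ 0`
(`H23.LP.id_kCB`) and `C² (a + b ρ + c ρ²) ≡ a C² + b B C + c B² = c² n ≡ 0` (`H23.LP.id_abc`).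
* `bzp`: `p ∣ T`: identity `nn k T B C = n²` (`ring`), and `nn k T B C ≡ T³`. So `p³ ∣ n²`: write `T = p T'`, `B = p B'`, `C = p C'`, `n² = p³ nn k T' B' C'`; hence `p² ∣ n`
(if `p² ∤ n` then `n = p n'` with `p ∤ n'`, `p² n'² = p³ (..)`, `p ∣ n'²`, contradiction). If `p ∣ c`: `C = b² - a c` gives `p ∣ b`, and `T = a² - k b c` gives `p ∣ a`. If `p ∤ c`: let `ρ < p`
with `p ∣ ρ c - b`; `c (a - ρ² c) = a c - (ρ c)² ≡ a c - b² ≡ 0`, so `(a, b, c) ∈ Lb p ρ`; `c³ (ρ³ - k) ≡ b³ - k c³`, and `b³ ≡ b a c ≡ k c² c` (`b² ≡ a c`, `a b ≡ k c²`), so `p ∣ ρ³ - k`.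
* `lt_nn`: identity `id_nn_g` with `g = -m`.
* `nn_cl`: `nn k 1 0 0 = 1` and `nn` is a polynomial (`Int.ModEq`).
-/

set_option autoImplicit false

namespace H96.DR

open Finset H23.LP

/-- a natural root of `ρ C ≡ B` -/
private lemma exρ (p : ℕ) (hp : p.Prime) (C B : ℤ) (hC : ¬ (p : ℤ) ∣ C) :
    ∃ ρ : ℕ, ρ < p ∧ ∃ t : ℤ, (ρ : ℤ) * C = B + p * t := by
  have hP : Prime (p : ℤ) := Nat.prime_iff_prime_int.mp hp
  have hco : IsCoprime (p : ℤ) C := (hP.irreducible.coprime_iff_not_dvd).2 hC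
  obtain ⟨u, v, huv⟩ := hco
  have hp0 : (0 : ℤ) < p := by exact_mod_cast hp.pos
  have h1 : 0 ≤ (v * B) % (p : ℤ) := Int.emod_nonneg _ hp0.ne'
  have h2 : (v * B) % (p : ℤ) < p := Int.emod_lt_of_pos _ hp0
  refine ⟨((v * B) % (p : ℤ)).toNat, ?_, ?_⟩
  · have : ((((v * B) % (p : ℤ)).toNat : ℕ) : ℤ) < p := by rw [Int.toNat_of_nonneg h1]; exact h2
    exact_mod_cast this
  · rw [Int.toNat_of_nonneg h1]
    have h3 : (v * B) % (p : ℤ) = v * B - p * (v * B / p) := Int.emod_def _ _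
    refine ⟨- (u * B) - (v * B / p) * C, ?_⟩
    rw [h3]
    linear_combination B * huv

theorem nzp (k a b c : ℤ) (p : ℕ) (hp : p.Prime) (h : (p : ℤ) ∣ nn k a b c)
    (h' : ¬ ((p : ℤ) ∣ CC a b c ∧ (p : ℤ) ∣ BB k a b c)) : ¬ (p : ℤ) ∣ CC a b c ∧
    ∃ ρ : ℕ, ρ < p ∧ (p : ℤ) ∣ (ρ : ℤ) ^ 3 - k ∧ (p : ℤ) ∣ a + b * ρ + c * (ρ : ℤ) ^ 2 := by
  have hP : Prime (p : ℤ) := Nat.prime_iff_prime_int.mp hp
  have hC : ¬ (p : ℤ) ∣ CC a b c := by
    intro hC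
    apply h'
    refine ⟨hC, ?_⟩
    have h1 : BB k a b c ^ 2 = (a ^ 2 - k * b * c) * CC a b c + c * nn k a b c := by
      linear_combination -(id_AC k a b c)
    apply hP.dvd_of_dvd_pow (n := 2)
    rw [h1]
    exact dvd_add (dvd_mul_of_dvd_right hC _) (dvd_mul_of_dvd_right h _)
  refine ⟨hC, ?_⟩
  obtain ⟨ρ, hρ, t, ht⟩ := exρ p hp (CC a b c) (BB k a b c) hC
  refine ⟨ρ, hρ, ?_, ?_⟩
  · have h1 : (p : ℤ) ∣ CC a b c ^ 3 * ((ρ : ℤ) ^ 3 - k) := by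
      have h2 : CC a b c ^ 3 * ((ρ : ℤ) ^ 3 - k) = - (nn k a b c * DD k b c) +
          p * (3 * BB k a b c ^ 2 * t + 3 * BB k a b c * p * t ^ 2 + p ^ 2 * t ^ 3) := by
        have h3 : CC a b c ^ 3 * ((ρ : ℤ) ^ 3 - k) = ((ρ : ℤ) * CC a b c) ^ 3 - k * CC a b c ^ 3 := by ring
        rw [h3, ht]
        linear_combination -(H23.LP.id_kCB k a b c)
      rw [h2]
      exact dvd_add ((dvd_neg).2 (dvd_mul_of_dvd_left h _)) (dvd_mul_right _ _)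
    rcases hP.dvd_or_dvd h1 with h2 | h2
    · exact absurd (hP.dvd_of_dvd_pow h2) hC
    · exact h2
  · have h1 : (p : ℤ) ∣ CC a b c ^ 2 * (a + b * ρ + c * (ρ : ℤ) ^ 2) := by
      have h2 : CC a b c ^ 2 * (a + b * ρ + c * (ρ : ℤ) ^ 2) = c ^ 2 * nn k a b c +
          p * (b * CC a b c * t + 2 * c * BB k a b c * t + c * p * t ^ 2) := by
        have h3 : CC a b c ^ 2 * (a + b * ρ + c * (ρ : ℤ) ^ 2) = a * CC a b c ^ 2 +
            b * CC a b c * ((ρ : ℤ) * CC a b c) + c * ((ρ : ℤ) * CC a b c) ^ 2 := by ring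
        rw [h3, ht]
        linear_combination (id_abc k a b c)
      rw [h2]
      exact dvd_add (dvd_mul_of_dvd_right h _) (dvd_mul_right _ _)
    rcases hP.dvd_or_dvd h1 with h2 | h2
    · exact absurd (hP.dvd_of_dvd_pow h2) hC
    · exact h2

theorem bzp (k a b c : ℤ) (p : ℕ) (hp : p.Prime) (h : (p : ℤ) ∣ nn k a b c)
    (hC : (p : ℤ) ∣ CC a b c) (hB : (p : ℤ) ∣ BB k a b c) : (p : ℤ) ^ 2 ∣ nn k a b c ∧
    (((p : ℤ) ∣ a ∧ (p : ℤ) ∣ b ∧ (p : ℤ) ∣ c) ∨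
      ∃ ρ : ℕ, ρ < p ∧ (p : ℤ) ∣ (ρ : ℤ) ^ 3 - k ∧ (a, b, c) ∈ Lb p ρ) := by
  have hP : Prime (p : ℤ) := Nat.prime_iff_prime_int.mp hp
  have hp0 : (p : ℤ) ≠ 0 := hP.ne_zero
  have hn2 : nn k (a ^ 2 - k * b * c) (BB k a b c) (CC a b c) = nn k a b c ^ 2 := by
    simp only [nn, BB, CC]; ring
  have hT : (p : ℤ) ∣ a ^ 2 - k * b * c := by
    apply hP.dvd_of_dvd_pow (n := 3)
    have h1 : (a ^ 2 - k * b * c) ^ 3 = nn k a b c * nn k a b c - BB k a b c * (k * BB k a b c ^ 2)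
        - CC a b c * (k ^ 2 * CC a b c ^ 2) +
        CC a b c * (3 * k * (a ^ 2 - k * b * c) * BB k a b c) := by
      rw [← pow_two, ← hn2]; simp only [nn]; ring
    rw [h1]
    exact dvd_add (dvd_sub (dvd_sub (dvd_mul_of_dvd_left h _) (dvd_mul_of_dvd_left hB _))
      (dvd_mul_of_dvd_left hC _)) (dvd_mul_of_dvd_left hC _)
  refine ⟨?_, ?_⟩
  · obtain ⟨T', hT'⟩ := hT
    obtain ⟨B', hB'⟩ := hB
    obtain ⟨C', hC'⟩ := hC
    obtain ⟨n', hn'⟩ := h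
    have h1 : (p : ℤ) ^ 2 * (n' ^ 2) = (p : ℤ) ^ 2 * (p * nn k T' B' C') := by
      have h2 := hn2
      rw [hT', hB', hC', hn'] at h2
      have h3 : nn k (p * T') (p * B') (p * C') = (p : ℤ) ^ 3 * nn k T' B' C' := by
        simp only [nn]; ring
      rw [h3] at h2
      linear_combination -h2
    have h2 : n' ^ 2 = p * nn k T' B' C' := mul_left_cancel₀ (pow_ne_zero 2 hp0) h1
    have h3 : (p : ℤ) ∣ n' := hP.dvd_of_dvd_pow (n := 2) (h2 ▸ dvd_mul_right _ _)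
    rw [hn', pow_two]
    exact mul_dvd_mul_left _ h3
  · by_cases hc : (p : ℤ) ∣ c
    · left
      have hb : (p : ℤ) ∣ b := by
        apply hP.dvd_of_dvd_pow (n := 2)
        have h1 : b ^ 2 = CC a b c + a * c := by simp only [CC]; ring
        rw [h1]
        exact dvd_add hC (dvd_mul_of_dvd_right hc _)
      refine ⟨?_, hb, hc⟩
      apply hP.dvd_of_dvd_pow (n := 2)
      have h1 : a ^ 2 = (a ^ 2 - k * b * c) + k * b * c := by ring
      rw [h1]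
      exact dvd_add hT (dvd_mul_of_dvd_right hc _)
    · right
      obtain ⟨ρ, hρ, t, ht⟩ := exρ p hp c b hc
      refine ⟨ρ, hρ, ?_, ?_⟩
      · have h1 : (p : ℤ) ∣ c ^ 3 * ((ρ : ℤ) ^ 3 - k) := by
          have h2 : c ^ 3 * ((ρ : ℤ) ^ 3 - k) = CC a b c * b - BB k a b c * c +
              p * (3 * b ^ 2 * t + 3 * b * p * t ^ 2 + p ^ 2 * t ^ 3) := by
            have h3 : c ^ 3 * ((ρ : ℤ) ^ 3 - k) = ((ρ : ℤ) * c) ^ 3 - k * c ^ 3 := by ring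
            rw [h3, ht]
            simp only [CC, BB]; ring
          rw [h2]
          exact dvd_add (dvd_sub (dvd_mul_of_dvd_left hC _) (dvd_mul_of_dvd_left hB _))
            (dvd_mul_right _ _)
        rcases hP.dvd_or_dvd h1 with h2 | h2
        · exact absurd (hP.dvd_of_dvd_pow h2) hc
        · exact h2
      · rw [mem_Lb]
        simp only
        refine ⟨?_, ⟨-t, by linear_combination -ht⟩⟩
        have h1 : (p : ℤ) ∣ c * (a - (ρ : ℤ) ^ 2 * c) := by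
          have h2 : c * (a - (ρ : ℤ) ^ 2 * c) = CC a b c * (-1) + p * (- (2 * b * t + p * t ^ 2)) := by
            have h3 : c * (a - (ρ : ℤ) ^ 2 * c) = a * c - ((ρ : ℤ) * c) ^ 2 := by ring
            rw [h3, ht]
            simp only [CC]; ring
          rw [h2]
          exact dvd_add (dvd_mul_of_dvd_left hC _) (dvd_mul_right _ _)
        rcases hP.dvd_or_dvd h1 with h2 | h2
        · exact absurd h2 hc
        · exact h2

theorem lt_nn (k r m a b c : ℤ) (hm : r ∣ m ^ 3 + k) (h : Lt r m a b c) : r ∣ nn k a b c := by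
  rw [id_nn_g k (-m) a b c]
  refine dvd_add (dvd_mul_of_dvd_left ?_ _) (dvd_mul_of_dvd_left ?_ _)
  · have h1 : a + -m * b + (-m) ^ 2 * c = a - b * m + c * m ^ 2 := by ring
    rw [h1]; exact h
  · have h1 : k - (-m) ^ 3 = m ^ 3 + k := by ring
    rw [h1]; exact hm

theorem nn_cl (k : ℤ) (w : ℕ) (a b c : ℤ) (h : Cl k w a b c) : nn k a b c ≡ 1 [ZMOD (QQ k w : ℤ)] := by
  obtain ⟨ha, hb, hc⟩ := h
  have h1 : nn k a b c ≡ nn k 1 0 0 [ZMOD (QQ k w : ℤ)] := by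
    unfold nn
    exact (((ha.pow 3).add ((hb.pow 3).mul_left k)).add ((hc.pow 3).mul_left (k ^ 2))).sub
      (((ha.mul_left (3 * k)).mul hb).mul hc)
  have h2 : nn k 1 0 0 = 1 := by simp [nn]
  rw [h2] at h1
  exact h1

theorem big_prime (k : ℤ) (w : ℕ) (n : ℤ) (hn : n ≡ 1 [ZMOD (QQ k w : ℤ)]) (p : ℕ) (hp : p.Prime)
    (h : (p : ℤ) ∣ n) : w < p ∧ Nat.Coprime p (QQ k w) ∧ ¬ (p : ℤ) ∣ 6 * k := by
  have hQ : ¬ p ∣ QQ k w := by
    intro h1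
    have h2 : (p : ℤ) ∣ (QQ k w : ℤ) := by exact_mod_cast h1
    have h3 : (p : ℤ) ∣ n - 1 := by
      have := (hn.symm).dvd
      exact h2.trans this
    have h4 : (p : ℤ) ∣ 1 := by
      have := dvd_sub h h3
      simpa using this
    have h5 : p ∣ 1 := by exact_mod_cast h4
    exact hp.one_lt.ne' (Nat.dvd_one.mp h5)
  refine ⟨?_, (Nat.Prime.coprime_iff_not_dvd hp).2 hQ, ?_⟩
  · by_contra h1
    push Not at h1
    apply hQ
    unfold QQ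
    exact dvd_mul_of_dvd_right (hp.dvd_factorial.2 h1) _
  · intro h1
    apply hQ
    have h2 : p ∣ (6 * k).natAbs := Int.natCast_dvd.mp h1
    rw [Int.natAbs_mul] at h2
    unfold QQ
    exact dvd_mul_of_dvd_left h2 _

end H96.DR
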