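import Pool.Agent.H96.DR.Lone
import Pool.Agent.H96.DR.Nzp
import Pool.Agent.H23.LP.Nup

/-!
# [DR BDC] the points of the ideal whose norm is divisible by a prime `q`, 100-160 lines. File Pool/Agent/H96/DR/Bdc.lean

`K = 864 (|k| + 1)³`, `Q = QQ k w`, `Λ0 = LQ Q ⊓ Lr p m`, index `Q³ p` (`idx_LQ`, `idx_Lr`, `idx_inf`). `q ≠ p` is prime and prime to `Q`.
* `bdc2`: by `bzp` the set is contained in the union of `{.. ∧ x ∈ LQ q}` and of the at most three sets `{.. ∧ x ∈ Lb q ρ}`, `ρ ∈ (range q).filter (q ∣ ρ³ - k)` (`H23.LP.nu_le`: at most 3 elements, `nu`).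
By `set_le` with `Λ = LQ q` or `Lb q ρ` each has at most `cnt (Λ0 ⊓ Λ) ..` elements, `Λ0 ⊓ Λ` is `θ`-closed (`thc_LQ`, `thc_Lr`, `thc_Lb`, `thc_inf`) of index `Q³ p q³` or `Q³ p q²` (`idx_inf`),
so `thc_le` gives `≤ K (A³/(Q³ p q²) + 1)` in both cases. Four sets.
* `bdc1`: if `q ∣ nn` then either `q ∣ CC`, `q ∣ BB` (`bdc2`, and `1/q² ≤ 1/q`), or by `nzp` `x ∈ Lr q (-ρ)` for one of at most three `ρ`; `Lr q (-ρ)` is `θ`-closed (`q ∣ (-ρ)³ + k`) of index `q`. Together `≤ 7 K (A³/(Q³ p q) + 1)`.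
-/

set_option autoImplicit false

namespace H96.DR

open Finset H23.LP

open Classical in
private theorem one_set (k : ℤ) (hk : ∀ t : ℤ, t ^ 3 ≠ k) (w M A p : ℕ) (hp : 0 < p)
    (hpQ : Nat.Coprime p (QQ k w)) (m : ℤ) (hm : (p : ℤ) ∣ m ^ 3 + k) (Λ : AddSubgroup (ℤ × ℤ × ℤ))
    (hΛ : Thc k Λ) (m' : ℕ) (hm' : Λ.index = m') (h0 : 0 < m') (hc : Nat.Coprime (QQ k w ^ 3 * p) m') :
    (((Bx k M A).filter fun x => (Cl k w x.1 x.2.1 x.2.2 ∧ Lt p m x.1 x.2.1 x.2.2) ∧ x ∈ Λ).card : ℝ) ≤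
      864 * (|(k : ℝ)| + 1) ^ 3 * ((A : ℝ) ^ 3 / ((QQ k w : ℝ) ^ 3 * p * m') + 1) := by
  have hk0 : k ≠ 0 := by
    rintro rfl
    exact hk 0 (by norm_num)
  have hQ : 0 < QQ k w := by
    unfold QQ
    have := Int.natAbs_pos.2 hk0
    have := Nat.factorial_pos w
    positivity
  have hidx : (LQ (QQ k w : ℤ) ⊓ Lr (p : ℤ) m).index = QQ k w ^ 3 * p :=
    idx_inf _ _ _ _ (idx_LQ _ hQ) (idx_Lr p hp m) (pow_pos hQ 3) hp (Nat.Coprime.pow_left 3 hpQ.symm)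
  have hthc : Thc k (LQ (QQ k w : ℤ) ⊓ Lr (p : ℤ) m) := thc_inf k _ _ (thc_LQ k _) (thc_Lr k _ m hm)
  have hm0 : 0 < QQ k w ^ 3 * p := Nat.mul_pos (pow_pos hQ 3) hp
  have hidx2 := idx_inf _ Λ _ m' hidx hm' hm0 h0 hc
  have hthc2 := thc_inf k _ Λ hthc hΛ
  obtain ⟨y0, hy⟩ := set_le k w M A (p : ℤ) m Λ
  have h1 := thc_le k hk _ hthc2 _ hidx2 (Nat.mul_pos hm0 h0) y0 (2 * LL k ^ 2 * (M * A)) (LL k * (M * A)) (M * A) A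
  push_cast at h1
  exact (by exact_mod_cast hy : _ ≤ _).trans h1

private theorem cop_pow (k : ℤ) (w p q : ℕ) (hp : p.Prime) (hq : q.Prime) (hqQ : Nat.Coprime q (QQ k w))
    (hpq : q ≠ p) (e : ℕ) : Nat.Coprime (QQ k w ^ 3 * p) (q ^ e) :=
  Nat.Coprime.pow_right e (Nat.Coprime.mul_left (Nat.Coprime.pow_left 3 hqQ.symm)
    ((Nat.coprime_primes hp hq).2 hpq.symm))

private theorem rt_card (k : ℤ) (q : ℕ) (hq : q.Prime) :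
    ((range q).filter fun t : ℕ => (q : ℤ) ∣ (t : ℤ) ^ 3 - k).card ≤ 3 := nu_le k q hq

open Classical in
/-- a union over the at most three roots -/
private theorem un_rt (k : ℤ) (q : ℕ) (hq : q.Prime) (S : Finset (ℤ × ℤ × ℤ)) (f : ℕ → Finset (ℤ × ℤ × ℤ))
    (B : ℝ) (hB : 0 ≤ B)
    (hf : ∀ ρ : ℕ, (q : ℤ) ∣ (ρ : ℤ) ^ 3 - k → ((f ρ).card : ℝ) ≤ B)
    (hS : ∀ x ∈ S, ∃ ρ : ℕ, ρ < q ∧ (q : ℤ) ∣ (ρ : ℤ) ^ 3 - k ∧ x ∈ f ρ) : (S.card : ℝ) ≤ 3 * B := by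
  have h1 : S ⊆ ((range q).filter fun t : ℕ => (q : ℤ) ∣ (t : ℤ) ^ 3 - k).biUnion f := by
    intro x hx
    obtain ⟨ρ, hρ, hd, hm⟩ := hS x hx
    exact mem_biUnion.2 ⟨ρ, mem_filter.2 ⟨mem_range.2 hρ, hd⟩, hm⟩
  have h2 : (S.card : ℝ) ≤ ∑ ρ ∈ (range q).filter (fun t : ℕ => (q : ℤ) ∣ (t : ℤ) ^ 3 - k), ((f ρ).card : ℝ) := by
    exact_mod_cast (card_le_card h1).trans card_biUnion_le
  have h3 : ∑ ρ ∈ (range q).filter (fun t : ℕ => (q : ℤ) ∣ (t : ℤ) ^ 3 - k), ((f ρ).card : ℝ) ≤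
      ∑ _ρ ∈ (range q).filter (fun t : ℕ => (q : ℤ) ∣ (t : ℤ) ^ 3 - k), B :=
    sum_le_sum fun ρ hρ => hf ρ (mem_filter.1 hρ).2
  rw [sum_const, nsmul_eq_mul] at h3
  have h4 : (((range q).filter fun t : ℕ => (q : ℤ) ∣ (t : ℤ) ^ 3 - k).card : ℝ) ≤ 3 := by
    exact_mod_cast rt_card k q hq
  exact h2.trans (h3.trans (mul_le_mul_of_nonneg_right h4 hB))

/-- monotonicity in the index -/
private theorem bd_mono (k : ℤ) (A Q p q : ℕ) (hq : 0 < q) (e : ℕ) (hp : 0 < p) (d : ℕ) (he : d ≤ e) :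
    864 * (|(k : ℝ)| + 1) ^ 3 * ((A : ℝ) ^ 3 / ((Q : ℝ) ^ 3 * p * (q : ℝ) ^ e) + 1) ≤
      864 * (|(k : ℝ)| + 1) ^ 3 * ((A : ℝ) ^ 3 / ((Q : ℝ) ^ 3 * p * (q : ℝ) ^ d) + 1) := by
  have hq1 : (1 : ℝ) ≤ (q : ℝ) := by exact_mod_cast hq
  have hp1 : (0 : ℝ) < (p : ℝ) := by exact_mod_cast hp
  refine mul_le_mul_of_nonneg_left (add_le_add_left ?_ 1) (by positivity)
  rcases Nat.eq_zero_or_pos Q with h | h
  · subst h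
    simp
  · have hQ1 : (0 : ℝ) < (Q : ℝ) := by exact_mod_cast h
    refine div_le_div_of_nonneg_left (by positivity) (by positivity) ?_
    exact mul_le_mul_of_nonneg_left (pow_le_pow_right₀ hq1 he) (by positivity)

open Classical in
theorem bdc2 (k : ℤ) (hk : ∀ t : ℤ, t ^ 3 ≠ k) (w M A p q : ℕ) (hp : p.Prime)
    (hpQ : Nat.Coprime p (QQ k w)) (hq : q.Prime) (hqQ : Nat.Coprime q (QQ k w)) (hpq : q ≠ p) (m : ℤ)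
    (hm : (p : ℤ) ∣ m ^ 3 + k) :
    (((Bx k M A).filter fun x => (Cl k w x.1 x.2.1 x.2.2 ∧ Lt p m x.1 x.2.1 x.2.2) ∧
      (q : ℤ) ∣ nn k x.1 x.2.1 x.2.2 ∧ (q : ℤ) ∣ CC x.1 x.2.1 x.2.2 ∧
      (q : ℤ) ∣ BB k x.1 x.2.1 x.2.2).card : ℝ) ≤
      4 * (864 * (|(k : ℝ)| + 1) ^ 3) * ((A : ℝ) ^ 3 / ((QQ k w : ℝ) ^ 3 * p * (q : ℝ) ^ 2) + 1) := by
  obtain ⟨B, hBd⟩ : ∃ B : ℝ, B = 864 * (|(k : ℝ)| + 1) ^ 3 *
      ((A : ℝ) ^ 3 / ((QQ k w : ℝ) ^ 3 * p * (q : ℝ) ^ 2) + 1) := ⟨_, rfl⟩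
  have hB0 : 0 ≤ B := by rw [hBd]; positivity
  obtain ⟨S1, hS1⟩ : ∃ S1 : Finset (ℤ × ℤ × ℤ), S1 = (Bx k M A).filter fun x =>
      (Cl k w x.1 x.2.1 x.2.2 ∧ Lt p m x.1 x.2.1 x.2.2) ∧ x ∈ LQ (q : ℤ) := ⟨_, rfl⟩
  obtain ⟨S, hS⟩ : ∃ S : Finset (ℤ × ℤ × ℤ), S = (Bx k M A).filter fun x =>
      (Cl k w x.1 x.2.1 x.2.2 ∧ Lt p m x.1 x.2.1 x.2.2) ∧
      (q : ℤ) ∣ nn k x.1 x.2.1 x.2.2 ∧ (q : ℤ) ∣ CC x.1 x.2.1 x.2.2 ∧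
      (q : ℤ) ∣ BB k x.1 x.2.1 x.2.2 := ⟨_, rfl⟩
  have c1 : (S1.card : ℝ) ≤ B := by
    have h := one_set k hk w M A p hp.pos hpQ m hm (LQ (q : ℤ)) (thc_LQ k _) (q ^ 3) (idx_LQ q hq.pos)
      (pow_pos hq.pos 3) (cop_pow k w p q hp hq hqQ hpq 3)
    rw [hS1, hBd]
    push_cast at h
    exact h.trans (bd_mono k A (QQ k w) p q hq.pos 3 hp.pos 2 (by norm_num))
  have c2 : ((S \ S1).card : ℝ) ≤ 3 * B := by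
    refine un_rt k q hq (S \ S1) (fun ρ => (Bx k M A).filter fun x =>
      (Cl k w x.1 x.2.1 x.2.2 ∧ Lt p m x.1 x.2.1 x.2.2) ∧ x ∈ Lb (q : ℤ) (ρ : ℤ)) B hB0 ?_ ?_
    · intro ρ hρ
      have h := one_set k hk w M A p hp.pos hpQ m hm (Lb (q : ℤ) (ρ : ℤ)) (thc_Lb k _ _ hρ) (q ^ 2)
        (idx_Lb q hq.pos _) (pow_pos hq.pos 2) (cop_pow k w p q hp hq hqQ hpq 2)
      rw [hBd]
      push_cast at h
      exact h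
    · rintro ⟨a, b, c⟩ hx
      obtain ⟨hxS, hx1⟩ := mem_sdiff.1 hx
      rw [hS] at hxS
      rw [hS1] at hx1
      obtain ⟨hxB, hcl, hn, hC, hBB⟩ := mem_filter.1 hxS
      obtain ⟨-, h | ⟨ρ, hρ, hd, hm2⟩⟩ := bzp k a b c q hq hn hC hBB
      · exact absurd (mem_filter.2 ⟨hxB, hcl, h⟩) hx1
      · exact ⟨ρ, hρ, hd, mem_filter.2 ⟨hxB, hcl, hm2⟩⟩
  have c3 : (S.card : ℝ) ≤ (S1.card : ℝ) + ((S \ S1).card : ℝ) := by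
    have h1 : S ⊆ S1 ∪ (S \ S1) := by
      intro x hx
      by_cases h : x ∈ S1
      · exact mem_union_left _ h
      · exact mem_union_right _ (mem_sdiff.2 ⟨hx, h⟩)
    exact_mod_cast (card_le_card h1).trans (card_union_le _ _)
  rw [← hS]
  calc (S.card : ℝ) ≤ (S1.card : ℝ) + ((S \ S1).card : ℝ) := c3
    _ ≤ B + 3 * B := add_le_add c1 c2
    _ = 4 * (864 * (|(k : ℝ)| + 1) ^ 3) * ((A : ℝ) ^ 3 / ((QQ k w : ℝ) ^ 3 * p * (q : ℝ) ^ 2) + 1) := by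
      rw [hBd]; ring

open Classical in
theorem bdc1 (k : ℤ) (hk : ∀ t : ℤ, t ^ 3 ≠ k) (w M A p q : ℕ) (hp : p.Prime)
    (hpQ : Nat.Coprime p (QQ k w)) (hq : q.Prime) (hqQ : Nat.Coprime q (QQ k w)) (hpq : q ≠ p) (m : ℤ)
    (hm : (p : ℤ) ∣ m ^ 3 + k) :
    (((Bx k M A).filter fun x => (Cl k w x.1 x.2.1 x.2.2 ∧ Lt p m x.1 x.2.1 x.2.2) ∧
      (q : ℤ) ∣ nn k x.1 x.2.1 x.2.2).card : ℝ) ≤
      7 * (864 * (|(k : ℝ)| + 1) ^ 3) * ((A : ℝ) ^ 3 / ((QQ k w : ℝ) ^ 3 * p * q) + 1) := by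
  obtain ⟨B, hBd⟩ : ∃ B : ℝ, B = 864 * (|(k : ℝ)| + 1) ^ 3 *
      ((A : ℝ) ^ 3 / ((QQ k w : ℝ) ^ 3 * p * q) + 1) := ⟨_, rfl⟩
  have hB0 : 0 ≤ B := by rw [hBd]; positivity
  obtain ⟨S1, hS1⟩ : ∃ S1 : Finset (ℤ × ℤ × ℤ), S1 = (Bx k M A).filter fun x =>
      (Cl k w x.1 x.2.1 x.2.2 ∧ Lt p m x.1 x.2.1 x.2.2) ∧
      (q : ℤ) ∣ nn k x.1 x.2.1 x.2.2 ∧ (q : ℤ) ∣ CC x.1 x.2.1 x.2.2 ∧
      (q : ℤ) ∣ BB k x.1 x.2.1 x.2.2 := ⟨_, rfl⟩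
  obtain ⟨S, hS⟩ : ∃ S : Finset (ℤ × ℤ × ℤ), S = (Bx k M A).filter fun x =>
      (Cl k w x.1 x.2.1 x.2.2 ∧ Lt p m x.1 x.2.1 x.2.2) ∧
      (q : ℤ) ∣ nn k x.1 x.2.1 x.2.2 := ⟨_, rfl⟩
  have c1 : (S1.card : ℝ) ≤ 4 * B := by
    have h := bdc2 k hk w M A p q hp hpQ hq hqQ hpq m hm
    have h2 := bd_mono k A (QQ k w) p q hq.pos 2 hp.pos 1 (by norm_num)
    rw [pow_one] at h2
    rw [hS1, hBd]
    refine h.trans ?_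
    rw [mul_assoc]
    exact mul_le_mul_of_nonneg_left h2 (by norm_num)
  have c2 : ((S \ S1).card : ℝ) ≤ 3 * B := by
    refine un_rt k q hq (S \ S1) (fun ρ => (Bx k M A).filter fun x =>
      (Cl k w x.1 x.2.1 x.2.2 ∧ Lt p m x.1 x.2.1 x.2.2) ∧ x ∈ Lr (q : ℤ) (-(ρ : ℤ))) B hB0 ?_ ?_
    · intro ρ hρ
      have hd : (q : ℤ) ∣ (-(ρ : ℤ)) ^ 3 + k := by
        have h1 : (-(ρ : ℤ)) ^ 3 + k = -((ρ : ℤ) ^ 3 - k) := by ring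
        rw [h1]
        exact (dvd_neg).2 hρ
      have h := one_set k hk w M A p hp.pos hpQ m hm (Lr (q : ℤ) (-(ρ : ℤ))) (thc_Lr k _ _ hd) q
        (idx_Lr q hq.pos _) hq.pos (by simpa using cop_pow k w p q hp hq hqQ hpq 1)
      rw [hBd]
      exact h
    · rintro ⟨a, b, c⟩ hx
      obtain ⟨hxS, hx1⟩ := mem_sdiff.1 hx
      rw [hS] at hxS
      rw [hS1] at hx1
      obtain ⟨hxB, hcl, hn⟩ := mem_filter.1 hxS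
      have hnot : ¬ ((q : ℤ) ∣ CC a b c ∧ (q : ℤ) ∣ BB k a b c) := by
        rintro ⟨hC, hBB⟩
        exact hx1 (mem_filter.2 ⟨hxB, hcl, hn, hC, hBB⟩)
      obtain ⟨-, ρ, hρ, hd, hm2⟩ := nzp k a b c q hq hn hnot
      refine ⟨ρ, hρ, hd, mem_filter.2 ⟨hxB, hcl, ?_⟩⟩
      rw [mem_Lr]
      change (q : ℤ) ∣ a - b * (-(ρ : ℤ)) + c * (-(ρ : ℤ)) ^ 2
      have h1 : a - b * (-(ρ : ℤ)) + c * (-(ρ : ℤ)) ^ 2 = a + b * ρ + c * (ρ : ℤ) ^ 2 := by ring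
      rw [h1]
      exact hm2
  have c3 : (S.card : ℝ) ≤ (S1.card : ℝ) + ((S \ S1).card : ℝ) := by
    have h1 : S ⊆ S1 ∪ (S \ S1) := by
      intro x hx
      by_cases h : x ∈ S1
      · exact mem_union_left _ h
      · exact mem_union_right _ (mem_sdiff.2 ⟨hx, h⟩)
    exact_mod_cast (card_le_card h1).trans (card_union_le _ _)
  rw [← hS]
  calc (S.card : ℝ) ≤ (S1.card : ℝ) + ((S \ S1).card : ℝ) := c3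
    _ ≤ 4 * B + 3 * B := add_le_add c1 c2
    _ = 7 * (864 * (|(k : ℝ)| + 1) ^ 3) * ((A : ℝ) ^ 3 / ((QQ k w : ℝ) ^ 3 * p * q) + 1) := by
      rw [hBd]; ring

end H96.DR
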