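import Pool.Agent.H96.DR.Agl
import Pool.Agent.H96.DR.Nzp

/-!
# [DR BDG] bad directions for a nice point, 120-200 lines. File Pool/Agent/H96/DR/Bdg.lean

* `poly_cnt`: modulo the prime `p` the polynomial is not zero and has degree at most `3`: at most `3` roots modulo `p` (`Polynomial.card_roots'` over `ZMod p`, or by hand), and every class modulo `p` contains at most `G/p + 1` elements of `Ioc G (2G)` (`Int.Ioc_filter_modEq_card` or
`Nat`), real division.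
* `bad_p`: let `n = nn k a b c`, `I = II k g (a + g b) c ≠ 0` (`I ≡ 1 (mod QQ)` by `Cl`, since `a + g b ≡ 1`, `c ≡ 0`; and `QQ ≥ 2`), `C = Cg k g (a + g b) b c`, `ng k g (a + g b) b c = n`.
If `gcd(yy, g³ - k) ≠ 1`: a prime `p` divides both; by `id_nn_g` (`a + g b + g² c = yy g (a + g b) c`) `p ∣ n`. If `CP` fails: either a prime `p` divides `SF |I|` and `n`: `p ∣ I` (`dvd_SF_iff`); or a prime `p` divides `C` and `SQ |I|`: `p ∣ I`
(`dvd_SQ_iff`), `y² n = I B + C V` (`id_V`) is divisible by `p` and `p ∤ y` (`y_cop`), so `p ∣ n`. In all cases `p ∣ n` and (`p ∣ g³ - k` or `p ∣ I`).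
* `II_g`: `II k g (a + g b) c = (b³ - k c³) g³ + (-3 b BB) g² + (-3 a BB) g + (a³ - k² c³)`, `BB = BB k a b c` (`ring`).
* `II_nz`: let `p ∣ n`, `p ∤ 3 k` and suppose that `p` divides the four coefficients. If `p ∤ BB`: `p ∣ b`, `p ∣ a`, then `p ∣ k c³`, `p ∣ c`, `p ∣ BB`, contradiction. So `p ∣ BB`: `a b ≡ k c²`. If `p ∣ c`: `p ∣ b` (`b³ ≡ k c³`), `p ∣ a` (`a³ ≡ k² c³`), so `p ∣ CC = b² - a c`. If `p ∤ c`:
`b³ ≡ k c³`, so `p ∤ b`, `b (b² - a c) = b³ - (a b) c ≡ k c³ - k c³ = 0`, so `p ∣ CC`. In both cases `p ∣ CC` and `p ∣ BB`, against `Nice`.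
* `bdg`: the set of bad `g` is contained in the union over the primes `p ∣ n` of the two sets `{g : p ∣ g³ - k}`, `{g : p ∣ I}`, each with at most `3 (G/p + 1)` elements (`poly_cnt`; `g³ - k` has leading coefficient `1`): total `≤ ∑_{p ∣ n} 6 (G/p + 1) ≤ 6 (ε' G + ω(n))`.
Every prime `p ∣ n` satisfies `p ∤ 6 k` (`nn_cl`, `big_prime`).
-/

set_option autoImplicit false

namespace H96.DR

open Finset H23.LP

private theorem cls (p : ℕ) (hp : 0 < p) (v : ℤ) (G : ℕ) :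
    (((Ioc (G : ℤ) (2 * G)).filter fun g => g ≡ v [ZMOD (p : ℤ)]).card : ℝ) ≤ (G : ℝ) / p + 1 := by
  have hp' : (0 : ℤ) < p := by exact_mod_cast hp
  have h := Int.Ioc_filter_modEq_card (G : ℤ) (2 * G) hp' v
  have hq : (0 : ℚ) < p := by exact_mod_cast hp
  have h1 : (((Ioc (G : ℤ) (2 * G)).filter fun g => g ≡ v [ZMOD (p : ℤ)]).card : ℚ) ≤ (G : ℚ) / p + 1 := by
    have e : (((((Ioc (G : ℤ) (2 * G)).filter fun g => g ≡ v [ZMOD (p : ℤ)]).card : ℕ) : ℤ) : ℚ) =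
        (((Ioc (G : ℤ) (2 * G)).filter fun g => g ≡ v [ZMOD (p : ℤ)]).card : ℚ) := by push_cast; rfl
    rw [← e, h]
    have f1 : ((⌊(((2 * G : ℤ) : ℚ) - v) / ((p : ℤ) : ℚ)⌋ : ℤ) : ℚ) ≤ (((2 * G : ℤ) : ℚ) - v) / ((p : ℤ) : ℚ) :=
      Int.floor_le _
    have f2 : (((G : ℤ) : ℚ) - v) / ((p : ℤ) : ℚ) < (⌊(((G : ℤ) : ℚ) - v) / ((p : ℤ) : ℚ)⌋ : ℚ) + 1 :=
      Int.lt_floor_add_one _
    have f3 : (((2 * G : ℤ) : ℚ) - v) / ((p : ℤ) : ℚ) - (((G : ℤ) : ℚ) - v) / ((p : ℤ) : ℚ) = (G : ℚ) / p := by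
      push_cast
      field_simp
      ring
    rw [Int.cast_max, Int.cast_sub, Int.cast_zero]
    apply max_le
    · linarith
    · positivity
  have h2 := (Rat.cast_le (K := ℝ)).2 h1
  push_cast at h2
  exact h2

open Polynomial in
theorem poly_cnt (p : ℕ) (hp : p.Prime) (c3 c2 c1 c0 : ℤ)
    (h : ¬ ((p : ℤ) ∣ c3 ∧ (p : ℤ) ∣ c2 ∧ (p : ℤ) ∣ c1 ∧ (p : ℤ) ∣ c0)) (G : ℕ) :
    (((Ioc (G : ℤ) (2 * G)).filter fun g =>
      (p : ℤ) ∣ c3 * g ^ 3 + c2 * g ^ 2 + c1 * g + c0).card : ℝ) ≤ 3 * ((G : ℝ) / p + 1) := by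
  haveI : Fact p.Prime := ⟨hp⟩
  set P : (ZMod p)[X] := C (c3 : ZMod p) * X ^ 3 + C (c2 : ZMod p) * X ^ 2 + C (c1 : ZMod p) * X + C (c0 : ZMod p)
    with hP
  have hP0 : P ≠ 0 := by
    intro h0
    apply h
    have k3 := congrArg (fun Q : (ZMod p)[X] => Q.coeff 3) h0
    have k2 := congrArg (fun Q : (ZMod p)[X] => Q.coeff 2) h0
    have k1 := congrArg (fun Q : (ZMod p)[X] => Q.coeff 1) h0
    have k0 := congrArg (fun Q : (ZMod p)[X] => Q.coeff 0) h0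
    simp only [hP, coeff_add, coeff_C_mul, coeff_X_pow, coeff_X, coeff_C, coeff_zero] at k3 k2 k1 k0
    norm_num at k3 k2 k1 k0
    exact ⟨(ZMod.intCast_zmod_eq_zero_iff_dvd _ p).1 k3, (ZMod.intCast_zmod_eq_zero_iff_dvd _ p).1 k2,
      (ZMod.intCast_zmod_eq_zero_iff_dvd _ p).1 k1, (ZMod.intCast_zmod_eq_zero_iff_dvd _ p).1 k0⟩
  have hdeg : P.natDegree ≤ 3 := by
    rw [hP]
    compute_degree
  have hR : (P.roots.toFinset.card : ℝ) ≤ 3 := by
    have h1 := (P.roots.toFinset_card_le).trans (P.card_roots')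
    exact_mod_cast h1.trans hdeg
  have hsub : ((Ioc (G : ℤ) (2 * G)).filter fun g => (p : ℤ) ∣ c3 * g ^ 3 + c2 * g ^ 2 + c1 * g + c0) ⊆
      P.roots.toFinset.biUnion fun r => (Ioc (G : ℤ) (2 * G)).filter fun g => g ≡ (r.val : ℤ) [ZMOD (p : ℤ)] := by
    intro g hg
    rw [mem_filter] at hg
    rw [mem_biUnion]
    refine ⟨(g : ZMod p), ?_, ?_⟩
    · rw [Multiset.mem_toFinset, mem_roots hP0, IsRoot.def, hP]
      have h1 := (ZMod.intCast_zmod_eq_zero_iff_dvd _ p).2 hg.2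
      push_cast at h1
      simp only [eval_add, eval_mul, eval_C, eval_pow, eval_X]
      exact h1
    · rw [mem_filter]
      refine ⟨hg.1, ?_⟩
      rw [← ZMod.intCast_eq_intCast_iff]
      simp
  have h1 : (((Ioc (G : ℤ) (2 * G)).filter fun g =>
      (p : ℤ) ∣ c3 * g ^ 3 + c2 * g ^ 2 + c1 * g + c0).card : ℝ) ≤
      ∑ r ∈ P.roots.toFinset, (((Ioc (G : ℤ) (2 * G)).filter fun g => g ≡ (r.val : ℤ) [ZMOD (p : ℤ)]).card : ℝ) := by
    exact_mod_cast (card_le_card hsub).trans card_biUnion_le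
  have h2 : ∑ r ∈ P.roots.toFinset, (((Ioc (G : ℤ) (2 * G)).filter fun g => g ≡ (r.val : ℤ) [ZMOD (p : ℤ)]).card : ℝ) ≤
      P.roots.toFinset.card * ((G : ℝ) / p + 1) := by
    have := sum_le_card_nsmul P.roots.toFinset
      (fun r => (((Ioc (G : ℤ) (2 * G)).filter fun g => g ≡ (r.val : ℤ) [ZMOD (p : ℤ)]).card : ℝ)) _
      (fun r _ => cls p hp.pos r.val G)
    rwa [nsmul_eq_mul] at this
  have h3 : (P.roots.toFinset.card : ℝ) * ((G : ℝ) / p + 1) ≤ 3 * ((G : ℝ) / p + 1) :=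
    mul_le_mul_of_nonneg_right hR (by positivity)
  linarith

private theorem QQ_ge (k : ℤ) (w : ℕ) (hk : k ≠ 0) : 2 ≤ QQ k w := by
  unfold QQ
  have h1 : 0 < k.natAbs := Int.natAbs_pos.2 hk
  have h2 : 0 < w.factorial := Nat.factorial_pos w
  have : 1 ≤ k.natAbs * w.factorial := Nat.mul_pos h1 h2
  nlinarith

private theorem gcd_ne {a b : ℤ} (h : Int.gcd a b ≠ 1) : ∃ p : ℕ, p.Prime ∧ (p : ℤ) ∣ a ∧ (p : ℤ) ∣ b := by
  obtain ⟨p, hp, hd⟩ := Nat.exists_prime_and_dvd h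
  have h1 : (p : ℤ) ∣ (Int.gcd a b : ℤ) := Int.natCast_dvd_natCast.2 hd
  exact ⟨p, hp, h1.trans (Int.gcd_dvd_left ..), h1.trans (Int.gcd_dvd_right ..)⟩

theorem bad_p (k : ℤ) (w : ℕ) (g a b c : ℤ) (hk : k ≠ 0) (hcl : Cl k w a b c)
    (h : Int.gcd (yy g (a + g * b) c) (g ^ 3 - k) ≠ 1 ∨ ¬ CP k g (a + g * b) b c) :
    ∃ p : ℕ, p.Prime ∧ (p : ℤ) ∣ nn k a b c ∧ ((p : ℤ) ∣ g ^ 3 - k ∨ (p : ℤ) ∣ II k g (a + g * b) c) := by
  have hng : ng k g (a + g * b) b c = nn k a b c := by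
    unfold ng
    rw [add_sub_cancel_right]
  have hI : II k g (a + g * b) c ≠ 0 := by
    obtain ⟨ha, hb, hc⟩ := hcl
    have h1 : II k g (a + g * b) c ≡ II k g (1 + g * 0) 0 [ZMOD (QQ k w : ℤ)] := by
      unfold II
      have hs : a + g * b ≡ 1 + g * 0 [ZMOD (QQ k w : ℤ)] := ha.add (hb.mul_left g)
      exact ((hs.pow 3).sub (((hc.pow 2).mul_left (3 * k * g)).mul hs)).sub ((hc.pow 3).mul_left (k * (g ^ 3 + k)))
    have h2 : II k g (1 + g * 0) 0 = 1 := by simp [II]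
    rw [h2] at h1
    intro h0
    rw [h0] at h1
    have h3 : (QQ k w : ℤ) ∣ 1 := by simpa using h1.dvd
    have h4 : QQ k w ∣ 1 := by exact_mod_cast h3
    have := Nat.le_of_dvd one_pos h4
    have := QQ_ge k w hk
    omega
  have hI' : (II k g (a + g * b) c).natAbs ≠ 0 := Int.natAbs_ne_zero.2 hI
  rcases h with h | h
  · obtain ⟨p, hp, h1, h2⟩ := gcd_ne h
    refine ⟨p, hp, ?_, Or.inl h2⟩
    rw [id_nn_g k g a b c]
    refine dvd_add (Dvd.dvd.mul_right ?_ _) (Dvd.dvd.mul_right ?_ _)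
    · have : a + g * b + g ^ 2 * c = yy g (a + g * b) c := by unfold yy; ring
      rw [this]
      exact h1
    · have : k - g ^ 3 = -(g ^ 3 - k) := by ring
      rw [this]
      exact (dvd_neg).2 h2
  · unfold CP at h
    rw [not_and_or] at h
    rcases h with h | h
    · obtain ⟨p, hp, h1, h2⟩ := gcd_ne h
      have h2' : p ∣ SQ (II k g (a + g * b) c).natAbs := by exact_mod_cast h2
      have h3 := ((dvd_SQ_iff _ p hI' hp).1 h2').1
      have h4 : (p : ℤ) ∣ II k g (a + g * b) c := Int.natCast_dvd.2 h3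
      have hy := y_cop k g (a + g * b) c hI p hp h2'
      have hpp := Nat.prime_iff_prime_int.1 hp
      refine ⟨p, hp, ?_, Or.inr h4⟩
      have e := id_V k g (a + g * b) b c
      rw [hng] at e
      have h5 : (p : ℤ) ∣ yy g (a + g * b) c ^ 2 * nn k a b c := by
        rw [e]
        exact dvd_add (Dvd.dvd.mul_right h4 _) (Dvd.dvd.mul_right h1 _)
      rcases hpp.dvd_or_dvd h5 with h6 | h6
      · exact absurd (hpp.dvd_of_dvd_pow h6) hy
      · exact h6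
    · obtain ⟨p, hp, h1, h2⟩ := gcd_ne h
      have h2' : p ∣ SF (II k g (a + g * b) c).natAbs := by exact_mod_cast h2
      have h3 := (dvd_pow_self p (by norm_num : 2 ≠ 0)).trans ((dvd_SF_iff _ p hI' hp).1 h2')
      rw [hng] at h1
      exact ⟨p, hp, h1, Or.inr (Int.natCast_dvd.2 h3)⟩

theorem II_nz (k : ℤ) (a b c : ℤ) (p : ℕ) (hp : p.Prime) (h3 : ¬ (p : ℤ) ∣ 6 * k)
    (hN : ¬ ((p : ℤ) ∣ CC a b c ∧ (p : ℤ) ∣ BB k a b c)) :
    ¬ ((p : ℤ) ∣ b ^ 3 - k * c ^ 3 ∧ (p : ℤ) ∣ -3 * b * BB k a b c ∧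
      (p : ℤ) ∣ -3 * a * BB k a b c ∧ (p : ℤ) ∣ a ^ 3 - k ^ 2 * c ^ 3) := by
  have hP := Nat.prime_iff_prime_int.1 hp
  rintro ⟨h4, h5, h6, h7⟩
  have nk : ¬ (p : ℤ) ∣ k := fun h => h3 (h.mul_left _)
  have n3 : ¬ (p : ℤ) ∣ -3 := fun h => h3 (by
    have : (6 * k : ℤ) = -3 * (-2 * k) := by ring
    rw [this]
    exact h.mul_right _)
  by_cases hB : (p : ℤ) ∣ BB k a b c
  · by_cases hc : (p : ℤ) ∣ c
    · have hb3 : (p : ℤ) ∣ b ^ 3 := by
        have : b ^ 3 = (b ^ 3 - k * c ^ 3) + k * c ^ 3 := by ring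
        rw [this]
        exact dvd_add h4 ((hc.pow (by norm_num)).mul_left _ |> fun h => h)
      have hb := hP.dvd_of_dvd_pow hb3
      refine hN ⟨?_, hB⟩
      unfold CC
      exact dvd_sub (hb.pow (by norm_num)) (hc.mul_left _)
    · have hb : ¬ (p : ℤ) ∣ b := by
        intro hb
        have h8 : (p : ℤ) ∣ k * c ^ 3 := by
          have : k * c ^ 3 = b ^ 3 - (b ^ 3 - k * c ^ 3) := by ring
          rw [this]
          exact dvd_sub (hb.pow (by norm_num)) h4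
        rcases hP.dvd_or_dvd h8 with h9 | h9
        · exact nk h9
        · exact hc (hP.dvd_of_dvd_pow h9)
      have h8 : (p : ℤ) ∣ b * CC a b c := by
        have : b * CC a b c = (b ^ 3 - k * c ^ 3) + BB k a b c * c := by unfold CC BB; ring
        rw [this]
        exact dvd_add h4 (hB.mul_right _)
      rcases hP.dvd_or_dvd h8 with h9 | h9
      · exact hb h9
      · exact hN ⟨h9, hB⟩
  · have hb : (p : ℤ) ∣ b := by
      rcases hP.dvd_or_dvd h5 with h8 | h8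
      · rcases hP.dvd_or_dvd h8 with h9 | h9
        · exact absurd h9 n3
        · exact h9
      · exact absurd h8 hB
    have ha : (p : ℤ) ∣ a := by
      rcases hP.dvd_or_dvd h6 with h8 | h8
      · rcases hP.dvd_or_dvd h8 with h9 | h9
        · exact absurd h9 n3
        · exact h9
      · exact absurd h8 hB
    have hc : (p : ℤ) ∣ c := by
      have h8 : (p : ℤ) ∣ k ^ 2 * c ^ 3 := by
        have : k ^ 2 * c ^ 3 = a ^ 3 - (a ^ 3 - k ^ 2 * c ^ 3) := by ring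
        rw [this]
        exact dvd_sub (ha.pow (by norm_num)) h7
      rcases hP.dvd_or_dvd h8 with h9 | h9
      · exact absurd (hP.dvd_of_dvd_pow h9) nk
      · exact hP.dvd_of_dvd_pow h9
    apply hB
    unfold BB
    exact dvd_sub ((hc.pow (by norm_num)).mul_left _) (ha.mul_right _)

open Classical in
theorem bdg (k : ℤ) (hk : k ≠ 0) (w : ℕ) (a b c : ℤ) (ε' : ℝ) (hcl : Cl k w a b c)
    (hN : Nice k ε' a b c) (hn : nn k a b c ≠ 0) (G : ℕ) :
    (((Ioc (G : ℤ) (2 * G)).filter fun g =>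
      Int.gcd (yy g (a + g * b) c) (g ^ 3 - k) ≠ 1 ∨ ¬ CP k g (a + g * b) b c).card : ℝ) ≤
      6 * (ε' * G + (nn k a b c).natAbs.primeFactors.card) := by
  set N := (nn k a b c).natAbs with hNdef
  have hN0 : N ≠ 0 := Int.natAbs_ne_zero.2 hn
  set S1 : ℕ → Finset ℤ := fun p => (Ioc (G : ℤ) (2 * G)).filter fun g =>
      (p : ℤ) ∣ 1 * g ^ 3 + 0 * g ^ 2 + 0 * g + (-k) with hS1
  set S2 : ℕ → Finset ℤ := fun p => (Ioc (G : ℤ) (2 * G)).filter fun g =>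
      (p : ℤ) ∣ (b ^ 3 - k * c ^ 3) * g ^ 3 + (-3 * b * BB k a b c) * g ^ 2 + (-3 * a * BB k a b c) * g +
        (a ^ 3 - k ^ 2 * c ^ 3) with hS2
  have hsub : ((Ioc (G : ℤ) (2 * G)).filter fun g =>
      Int.gcd (yy g (a + g * b) c) (g ^ 3 - k) ≠ 1 ∨ ¬ CP k g (a + g * b) b c) ⊆
      N.primeFactors.biUnion fun p => S1 p ∪ S2 p := by
    intro g hg
    rw [mem_filter] at hg
    obtain ⟨p, hp, h1, h2⟩ := bad_p k w g a b c hk hcl hg.2
    rw [mem_biUnion]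
    refine ⟨p, Nat.mem_primeFactors.2 ⟨hp, Int.natCast_dvd.1 h1, hN0⟩, ?_⟩
    rw [mem_union]
    rcases h2 with h2 | h2
    · left
      rw [hS1, mem_filter]
      refine ⟨hg.1, ?_⟩
      have : 1 * g ^ 3 + 0 * g ^ 2 + 0 * g + (-k) = g ^ 3 - k := by ring
      rw [this]
      exact h2
    · right
      rw [hS2, mem_filter]
      refine ⟨hg.1, ?_⟩
      have : (b ^ 3 - k * c ^ 3) * g ^ 3 + (-3 * b * BB k a b c) * g ^ 2 + (-3 * a * BB k a b c) * g +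
        (a ^ 3 - k ^ 2 * c ^ 3) = II k g (a + g * b) c := by unfold II BB; ring
      rw [this]
      exact h2
  have hterm : ∀ p ∈ N.primeFactors, ((S1 p ∪ S2 p).card : ℝ) ≤ 6 * ((G : ℝ) / p + 1) := by
    intro p hp
    have hp1 := Nat.prime_of_mem_primeFactors hp
    have hpd : (p : ℤ) ∣ nn k a b c := Int.natCast_dvd.2 (Nat.dvd_of_mem_primeFactors hp)
    have h6 := (big_prime k w _ (nn_cl k w a b c hcl) p hp1 hpd).2.2
    have c1 : ((S1 p).card : ℝ) ≤ 3 * ((G : ℝ) / p + 1) := by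
      apply poly_cnt p hp1
      rintro ⟨h1, -⟩
      have : p ∣ 1 := by exact_mod_cast h1
      exact hp1.one_lt.ne' (Nat.dvd_one.1 this)
    have c2 : ((S2 p).card : ℝ) ≤ 3 * ((G : ℝ) / p + 1) :=
      poly_cnt p hp1 _ _ _ _ (II_nz k a b c p hp1 h6 (hN.1 p hp1 hpd)) G
    have c3 : ((S1 p ∪ S2 p).card : ℝ) ≤ (S1 p).card + (S2 p).card := by exact_mod_cast card_union_le _ _
    linarith
  have h1 : (((Ioc (G : ℤ) (2 * G)).filter fun g =>
      Int.gcd (yy g (a + g * b) c) (g ^ 3 - k) ≠ 1 ∨ ¬ CP k g (a + g * b) b c).card : ℝ) ≤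
      ∑ p ∈ N.primeFactors, ((S1 p ∪ S2 p).card : ℝ) := by
    exact_mod_cast (card_le_card hsub).trans card_biUnion_le
  have h2 : ∑ p ∈ N.primeFactors, ((S1 p ∪ S2 p).card : ℝ) ≤ ∑ p ∈ N.primeFactors, 6 * ((G : ℝ) / p + 1) :=
    sum_le_sum hterm
  have h3 : ∑ p ∈ N.primeFactors, 6 * ((G : ℝ) / p + 1) =
      6 * ((∑ p ∈ N.primeFactors, (1 : ℝ) / p) * G + N.primeFactors.card) := by
    rw [← mul_sum, sum_add_distrib, sum_mul]
    simp only [sum_const, nsmul_eq_mul, mul_one]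
    congr 2
    apply sum_congr rfl
    intro p _
    ring
  have h4 : (∑ p ∈ N.primeFactors, (1 : ℝ) / p) * G ≤ ε' * G :=
    mul_le_mul_of_nonneg_right hN.2 (by positivity)
  linarith

end H96.DR
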