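import Pool.Agent.H96.DR.Def
import Pool.Agent.H23.LP.Box

/-!
# [DR BXG] sizes on the lines, 120-200 lines. File Pool/Agent/H96/DR/Bxg.lean

`K0`, `M0` from `H23.LP.box`, `P = M A`, `κ = |k|`. `a ∈ Ia`, `b ∈ Ib`, `c ∈ Ic`, `s = a + g b`, so `s - g b = a`; all of `a, b, c` are between `P` and `K0 P`. All constants depend only on `k`; `K` large enough, `g ≥ K`.
* `ng k g s b c = nn k a b c`: `P³/2 ≤ ng ≤ K P³` (`box`).
* `s`: `g P ≤ s ≤ 2 K0 g P`. `yy = s + g² c`: `g² P ≤ yy ≤ 3 K0 g² P`. `xx = k c + g s`: `|xx| ≤ (κ + 2) K0 g² P`.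
* `II k g (a + g b) c = g³ DD k b c - 3 g² b BB - 3 g a BB + (a³ - k² c³)` (`ring`; `BB = BB k a b c`), `DD ≥ P³`, `|BB| ≤ K0 P²`: the other terms are at most `(6 K0² + K0³ (1 + κ²)) g² P³ ≤ g³ P³/2` for `g ≥ K`. So `g³ P³/2 ≤ II ≤ K g³ P³`.
* `Cg = BB - g CC` (`id_C`), `-CC ≥ P²`, `|BB| ≤ K0 P²`: `g P²/2 ≤ Cg ≤ K g P²` for `g ≥ 2 K0`. `|Bg| ≤ K g P²` (`id_Bg`; `|AA| = |a² - k b c| ≤ (1 + κ) K0² P²`).
* `|Vg| ≤ K g⁶ P³`: `|g³ - k| ≤ (1 + κ) g³`, term by term.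
-/

set_option autoImplicit false

namespace H96.DR

open Finset H23.LP

private theorem bx_mul {u v U V : ℝ} (hu : |u| ≤ U) (hv : |v| ≤ V) : |u * v| ≤ U * V := by
  rw [abs_mul]
  exact mul_le_mul hu hv (abs_nonneg _) ((abs_nonneg _).trans hu)

private theorem bx_add {u v U V : ℝ} (hu : |u| ≤ U) (hv : |v| ≤ V) : |u + v| ≤ U + V :=
  (abs_add_le _ _).trans (add_le_add hu hv)

private theorem bx_sub {u v U V : ℝ} (hu : |u| ≤ U) (hv : |v| ≤ V) : |u - v| ≤ U + V :=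
  (abs_sub _ _).trans (add_le_add hu hv)

/-- the index form -/
private theorem bx_II (k g a b c P U L D B : ℝ) (hP : 0 < P) (hU : 1 ≤ U) (hL : L = |k| + 2)
    (hg : 40 * L ^ 2 * U ^ 3 ≤ g) (ha1 : P ≤ a) (ha2 : a ≤ U * P) (hb1 : P ≤ b) (hb2 : b ≤ U * P)
    (hc1 : P ≤ c) (hc2 : c ≤ U * P) (hD1 : P ^ 3 ≤ D) (hD2 : D ≤ U * P ^ 3) (hB : |B| ≤ U * P ^ 2) :
    g ^ 3 * P ^ 3 / 2 ≤ g ^ 3 * D - 3 * g ^ 2 * b * B - 3 * g * a * B + (a ^ 3 - k ^ 2 * c ^ 3) ∧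
    g ^ 3 * D - 3 * g ^ 2 * b * B - 3 * g * a * B + (a ^ 3 - k ^ 2 * c ^ 3) ≤ 40 * L ^ 2 * U ^ 3 * (g ^ 3 * P ^ 3) := by
  have hk0 := abs_nonneg k
  have hL2 : 2 ≤ L := by linarith
  have hL4 : 4 ≤ L ^ 2 := by nlinarith
  have hU2 : 1 ≤ U ^ 2 := one_le_pow₀ hU
  have hU3 : 1 ≤ U ^ 3 := one_le_pow₀ hU
  have hU23 : U ^ 2 ≤ U ^ 3 := pow_le_pow_right₀ hU (by norm_num)
  have hU13 : U ≤ U ^ 3 := by
    calc U = U ^ 1 := (pow_one _).symm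
      _ ≤ U ^ 3 := pow_le_pow_right₀ hU (by norm_num)
  have hLU : 4 * U ^ 3 ≤ L ^ 2 * U ^ 3 := mul_le_mul_of_nonneg_right hL4 (by linarith)
  have hg1 : 1 ≤ g := by linarith
  have hg0 : 0 < g := by linarith
  have hP3 : 0 < P ^ 3 := by positivity
  have hg2 : 0 < g ^ 2 * P ^ 3 := by positivity
  have hg12 : g ≤ g ^ 2 := by nlinarith
  have hg02 : 1 ≤ g ^ 2 := one_le_pow₀ hg1
  have hg23 : g ^ 2 ≤ g ^ 3 := pow_le_pow_right₀ hg1 (by norm_num)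
  have habs_b : |b| ≤ U * P := by rw [abs_of_pos (hP.trans_le hb1)]; exact hb2
  have habs_a : |a| ≤ U * P := by rw [abs_of_pos (hP.trans_le ha1)]; exact ha2
  have habs_c : |c| ≤ U * P := by rw [abs_of_pos (hP.trans_le hc1)]; exact hc2
  have e1 : |3 * g ^ 2 * b * B| ≤ 3 * U ^ 2 * (g ^ 2 * P ^ 3) := by
    have h1 := bx_mul (bx_mul (le_of_eq (abs_of_pos (by positivity : 0 < 3 * g ^ 2))) habs_b) hB
    refine h1.trans (le_of_eq (by ring))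
  have e2 : |3 * g * a * B| ≤ 3 * U ^ 2 * (g ^ 2 * P ^ 3) := by
    have h1 := bx_mul (bx_mul (le_of_eq (abs_of_pos (by positivity : 0 < 3 * g))) habs_a) hB
    refine h1.trans ?_
    have h2 : 3 * g * (U * P) * (U * P ^ 2) = 3 * U ^ 2 * P ^ 3 * g := by ring
    rw [h2]
    calc 3 * U ^ 2 * P ^ 3 * g ≤ 3 * U ^ 2 * P ^ 3 * g ^ 2 := mul_le_mul_of_nonneg_left hg12 (by positivity)
      _ = _ := by ring
  have e3 : |k ^ 2 * c ^ 3| ≤ L ^ 2 * U ^ 3 * (g ^ 2 * P ^ 3) := by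
    rw [abs_mul, abs_pow, abs_pow]
    have h1 : |k| ^ 2 ≤ L ^ 2 := pow_le_pow_left₀ hk0 (by linarith) 2
    have h2 : |c| ^ 3 ≤ (U * P) ^ 3 := pow_le_pow_left₀ (abs_nonneg _) habs_c 3
    calc |k| ^ 2 * |c| ^ 3 ≤ L ^ 2 * (U * P) ^ 3 := mul_le_mul h1 h2 (by positivity) (by positivity)
      _ = L ^ 2 * U ^ 3 * P ^ 3 * 1 := by ring
      _ ≤ L ^ 2 * U ^ 3 * P ^ 3 * g ^ 2 := mul_le_mul_of_nonneg_left hg02 (by positivity)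
      _ = _ := by ring
  have e4 : 0 ≤ a ^ 3 := pow_nonneg (hP.le.trans ha1) 3
  have e5 : a ^ 3 ≤ U ^ 3 * (g ^ 2 * P ^ 3) := by
    calc a ^ 3 ≤ (U * P) ^ 3 := pow_le_pow_left₀ (hP.le.trans ha1) ha2 3
      _ = U ^ 3 * P ^ 3 * 1 := by ring
      _ ≤ U ^ 3 * P ^ 3 * g ^ 2 := mul_le_mul_of_nonneg_left hg02 (by positivity)
      _ = _ := by ring
  have e6 : g ^ 3 * P ^ 3 ≤ g ^ 3 * D := mul_le_mul_of_nonneg_left hD1 (by positivity)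
  have e7 : g ^ 3 * D ≤ U * (g ^ 3 * P ^ 3) := by
    calc g ^ 3 * D ≤ g ^ 3 * (U * P ^ 3) := mul_le_mul_of_nonneg_left hD2 (by positivity)
      _ = _ := by ring
  have f1 := abs_le.1 e1
  have f2 := abs_le.1 e2
  have f3 := abs_le.1 e3
  have k1 : U ^ 2 * (g ^ 2 * P ^ 3) ≤ L ^ 2 * U ^ 3 * (g ^ 2 * P ^ 3) / 4 := by
    have : U ^ 2 ≤ L ^ 2 * U ^ 3 / 4 := by linarith
    calc U ^ 2 * (g ^ 2 * P ^ 3) ≤ L ^ 2 * U ^ 3 / 4 * (g ^ 2 * P ^ 3) := mul_le_mul_of_nonneg_right this hg2.le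
      _ = _ := by ring
  have k2 : 40 * (L ^ 2 * U ^ 3 * (g ^ 2 * P ^ 3)) ≤ g ^ 3 * P ^ 3 := by
    calc 40 * (L ^ 2 * U ^ 3 * (g ^ 2 * P ^ 3)) = 40 * L ^ 2 * U ^ 3 * (g ^ 2 * P ^ 3) := by ring
      _ ≤ g * (g ^ 2 * P ^ 3) := mul_le_mul_of_nonneg_right hg hg2.le
      _ = _ := by ring
  have k3 : U * (g ^ 3 * P ^ 3) ≤ L ^ 2 * U ^ 3 * (g ^ 3 * P ^ 3) :=
    mul_le_mul_of_nonneg_right (by nlinarith) (by positivity)
  have k4 : U ^ 3 * (g ^ 2 * P ^ 3) ≤ L ^ 2 * U ^ 3 * (g ^ 2 * P ^ 3) / 4 := by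
    have : U ^ 3 ≤ L ^ 2 * U ^ 3 / 4 := by linarith
    calc U ^ 3 * (g ^ 2 * P ^ 3) ≤ L ^ 2 * U ^ 3 / 4 * (g ^ 2 * P ^ 3) := mul_le_mul_of_nonneg_right this hg2.le
      _ = _ := by ring
  have k5 : 0 ≤ L ^ 2 * U ^ 3 * (g ^ 2 * P ^ 3) := by positivity
  have k6 : L ^ 2 * U ^ 3 * (g ^ 2 * P ^ 3) ≤ L ^ 2 * U ^ 3 * (g ^ 3 * P ^ 3) :=
    mul_le_mul_of_nonneg_left (mul_le_mul_of_nonneg_right hg23 hP3.le) (by positivity)
  constructor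
  · linarith [f1.1, f1.2, f2.1, f2.2, f3.1, f3.2]
  · have e : 40 * L ^ 2 * U ^ 3 * (g ^ 3 * P ^ 3) = 40 * (L ^ 2 * U ^ 3 * (g ^ 3 * P ^ 3)) := by ring
    rw [e]
    linarith [f1.1, f1.2, f2.1, f2.2, f3.1, f3.2]


private theorem bx_s (k g a b c P U L : ℝ) (hP : 0 < P) (hU : 1 ≤ U) (hL : L = |k| + 2)
    (hg : 1 ≤ g) (ha1 : P ≤ a) (ha2 : a ≤ U * P) (hb1 : P ≤ b) (hb2 : b ≤ U * P)
    (hc1 : P ≤ c) (hc2 : c ≤ U * P) :
    0 < a + g * b ∧ a + g * b ≤ 2 * U * (g * P) ∧ 0 < a + g * b + g ^ 2 * c ∧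
      a + g * b + g ^ 2 * c ≤ 3 * U * (g ^ 2 * P) ∧ |k * c + g * (a + g * b)| ≤ L * U * (g ^ 2 * P) := by
  have hk0 := abs_nonneg k
  have hg0 : 0 < g := by linarith
  have ha0 : 0 < a := hP.trans_le ha1
  have hb0 : 0 < b := hP.trans_le hb1
  have hc0 : 0 < c := hP.trans_le hc1
  have h1 : 0 < a + g * b := by positivity
  have h2 : a + g * b ≤ 2 * U * (g * P) := by
    have h3 : U * P * 1 ≤ U * P * g := mul_le_mul_of_nonneg_left hg (by positivity)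
    have h4 : g * b ≤ g * (U * P) := mul_le_mul_of_nonneg_left hb2 hg0.le
    linarith
  have h5 : 2 * U * (g * P) ≤ 2 * U * (g ^ 2 * P) := by
    have h6 : g * P ≤ g ^ 2 * P := mul_le_mul_of_nonneg_right (by nlinarith) hP.le
    exact mul_le_mul_of_nonneg_left h6 (by positivity)
  refine ⟨h1, h2, by positivity, ?_, ?_⟩
  · have h4 : g ^ 2 * c ≤ g ^ 2 * (U * P) := mul_le_mul_of_nonneg_left hc2 (by positivity)
    linarith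
  · have h6 : |k * c| ≤ |k| * U * (g ^ 2 * P) := by
      have h7 : |c| ≤ U * P := by rw [abs_of_pos hc0]; exact hc2
      refine (bx_mul le_rfl h7).trans ?_
      calc |k| * (U * P) = |k| * U * P * 1 := by ring
        _ ≤ |k| * U * P * g ^ 2 := mul_le_mul_of_nonneg_left (one_le_pow₀ hg) (by positivity)
        _ = _ := by ring
    have h8 : |g * (a + g * b)| ≤ 2 * U * (g ^ 2 * P) := by
      rw [abs_of_pos (by positivity)]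
      calc g * (a + g * b) ≤ g * (2 * U * (g * P)) := mul_le_mul_of_nonneg_left h2 hg0.le
        _ = _ := by ring
    refine (bx_add h6 h8).trans (le_of_eq ?_)
    rw [hL]
    ring

private theorem bx_C (k g a b c P U L B C : ℝ) (hP : 0 < P) (hU : 1 ≤ U) (hL : L = |k| + 2)
    (hg : 2 * U ≤ g) (ha1 : P ≤ a) (ha2 : a ≤ U * P) (hb1 : P ≤ b) (hb2 : b ≤ U * P)
    (hc1 : P ≤ c) (hc2 : c ≤ U * P) (hB : |B| ≤ U * P ^ 2) (hC1 : P ^ 2 ≤ -C) (hC2 : -C ≤ U * P ^ 2) :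
    g * P ^ 2 / 2 ≤ B - g * C ∧ B - g * C ≤ 2 * U * (g * P ^ 2) ∧
      |(a ^ 2 - k * b * c) - g * B| ≤ L * U ^ 3 * (g * P ^ 2) := by
  have hk0 := abs_nonneg k
  have hg1 : 1 ≤ g := by linarith
  have hg0 : 0 < g := by linarith
  have hP2 : 0 < P ^ 2 := by positivity
  have ha0 : 0 < a := hP.trans_le ha1
  have hb0 : 0 < b := hP.trans_le hb1
  have hc0 : 0 < c := hP.trans_le hc1
  have f1 := abs_le.1 hB
  have h1 : g * P ^ 2 ≤ g * (-C) := mul_le_mul_of_nonneg_left hC1 hg0.le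
  have h2 : g * (-C) ≤ g * (U * P ^ 2) := mul_le_mul_of_nonneg_left hC2 hg0.le
  have h3 : 2 * U * P ^ 2 ≤ g * P ^ 2 := mul_le_mul_of_nonneg_right hg hP2.le
  have h4 : U * P ^ 2 * 1 ≤ U * P ^ 2 * g := mul_le_mul_of_nonneg_left hg1 (by positivity)
  refine ⟨by linarith [f1.1, f1.2], by linarith [f1.1, f1.2], ?_⟩
  have hU2 : U ^ 2 ≤ U ^ 3 := pow_le_pow_right₀ hU (by norm_num)
  have hU1 : U ≤ U ^ 3 := by
    calc U = U ^ 1 := (pow_one _).symm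
      _ ≤ U ^ 3 := pow_le_pow_right₀ hU (by norm_num)
  have habs_a : |a| ≤ U * P := by rw [abs_of_pos ha0]; exact ha2
  have habs_b : |b| ≤ U * P := by rw [abs_of_pos hb0]; exact hb2
  have habs_c : |c| ≤ U * P := by rw [abs_of_pos hc0]; exact hc2
  have k1 : |a ^ 2| ≤ U ^ 3 * (g * P ^ 2) := by
    rw [abs_pow]
    calc |a| ^ 2 ≤ (U * P) ^ 2 := pow_le_pow_left₀ (abs_nonneg _) habs_a 2
      _ = U ^ 2 * P ^ 2 * 1 := by ring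
      _ ≤ U ^ 2 * P ^ 2 * g := mul_le_mul_of_nonneg_left hg1 (by positivity)
      _ = U ^ 2 * (g * P ^ 2) := by ring
      _ ≤ _ := mul_le_mul_of_nonneg_right hU2 (by positivity)
  have k2 : |k * b * c| ≤ |k| * U ^ 3 * (g * P ^ 2) := by
    refine (bx_mul (bx_mul le_rfl habs_b) habs_c).trans ?_
    calc |k| * (U * P) * (U * P) = |k| * U ^ 2 * P ^ 2 * 1 := by ring
      _ ≤ |k| * U ^ 2 * P ^ 2 * g := mul_le_mul_of_nonneg_left hg1 (by positivity)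
      _ = |k| * (g * P ^ 2) * U ^ 2 := by ring
      _ ≤ |k| * (g * P ^ 2) * U ^ 3 := mul_le_mul_of_nonneg_left hU2 (by positivity)
      _ = _ := by ring
  have k3 : |g * B| ≤ U ^ 3 * (g * P ^ 2) := by
    refine (bx_mul (le_of_eq (abs_of_pos hg0)) hB).trans ?_
    calc g * (U * P ^ 2) = U * (g * P ^ 2) := by ring
      _ ≤ _ := mul_le_mul_of_nonneg_right hU1 (by positivity)
  refine (bx_sub (bx_sub k1 k2) k3).trans (le_of_eq ?_)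
  rw [hL]
  ring

private theorem bx_V (k g b c y x P U L : ℝ) (hP : 0 < P) (hU : 1 ≤ U) (hL : L = |k| + 2)
    (hg : 1 ≤ g) (hb : |b| ≤ U * P) (hc : |c| ≤ U * P) (hy : |y| ≤ 3 * U * (g ^ 2 * P))
    (hx : |x| ≤ L * U * (g ^ 2 * P)) :
    |(g ^ 3 - k) * y * b ^ 2 + x * (c * (g ^ 3 - k) - 3 * g * y) * b +
      x * (2 * y ^ 2 - 3 * g ^ 2 * c * y + g * c ^ 2 * (g ^ 3 - k))| ≤ 40 * L ^ 2 * U ^ 3 * (g ^ 6 * P ^ 3) := by
  have hk0 := abs_nonneg k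
  have hg0 : 0 < g := by linarith
  have hL2 : 2 ≤ L := by linarith
  have hL0 : 0 < L := by linarith
  have hU0 : 0 < U := by linarith
  have hgk : |g ^ 3 - k| ≤ L * g ^ 3 := by
    refine (bx_sub (le_of_eq (abs_of_pos (by positivity))) le_rfl).trans ?_
    have h1 : |k| * 1 ≤ |k| * g ^ 3 := mul_le_mul_of_nonneg_left (one_le_pow₀ hg) hk0
    have h2 : 0 < g ^ 3 := by positivity
    rw [hL]
    nlinarith
  have h3g : |3 * g| ≤ 3 * g := le_of_eq (abs_of_pos (by positivity))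
  have h3g2 : |3 * g ^ 2| ≤ 3 * g ^ 2 := le_of_eq (abs_of_pos (by positivity))
  have hgg : |g| ≤ g := le_of_eq (abs_of_pos hg0)
  have hb2 : |b ^ 2| ≤ (U * P) ^ 2 := by rw [abs_pow]; exact pow_le_pow_left₀ (abs_nonneg _) hb 2
  have hc2 : |c ^ 2| ≤ (U * P) ^ 2 := by rw [abs_pow]; exact pow_le_pow_left₀ (abs_nonneg _) hc 2
  have hy2 : |y ^ 2| ≤ (3 * U * (g ^ 2 * P)) ^ 2 := by
    rw [abs_pow]; exact pow_le_pow_left₀ (abs_nonneg _) hy 2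
  have h2 : |(2 : ℝ)| ≤ 2 := by norm_num
  have t1 := bx_mul (bx_mul hgk hy) hb2
  have t2 := bx_mul (bx_mul hx (bx_sub (bx_mul hc hgk) (bx_mul h3g hy))) hb
  have t3 := bx_mul hx (bx_add (bx_sub (bx_mul h2 hy2) (bx_mul (bx_mul h3g2 hc) hy)) (bx_mul (bx_mul hgg hc2) hgk))
  refine (bx_add (bx_add t1 t2) t3).trans ?_
  have e : L * g ^ 3 * (3 * U * (g ^ 2 * P)) * (U * P) ^ 2 +
      L * U * (g ^ 2 * P) * (U * P * (L * g ^ 3) + 3 * g * (3 * U * (g ^ 2 * P))) * (U * P) +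
      L * U * (g ^ 2 * P) * (2 * (3 * U * (g ^ 2 * P)) ^ 2 + 3 * g ^ 2 * (U * P) * (3 * U * (g ^ 2 * P)) +
        g * (U * P) ^ 2 * (L * g ^ 3)) =
      (12 * L + L ^ 2) * U ^ 3 * (g ^ 5 * P ^ 3) + (27 * L + L ^ 2) * U ^ 3 * (g ^ 6 * P ^ 3) := by ring
  rw [e]
  have h56 : g ^ 5 * P ^ 3 ≤ g ^ 6 * P ^ 3 :=
    mul_le_mul_of_nonneg_right (pow_le_pow_right₀ hg (by norm_num)) (by positivity)
  have h5 : (12 * L + L ^ 2) * U ^ 3 * (g ^ 5 * P ^ 3) ≤ (12 * L + L ^ 2) * U ^ 3 * (g ^ 6 * P ^ 3) :=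
    mul_le_mul_of_nonneg_left h56 (by positivity)
  have h6 : (39 * L + 2 * L ^ 2) * (U ^ 3 * (g ^ 6 * P ^ 3)) ≤ 40 * L ^ 2 * (U ^ 3 * (g ^ 6 * P ^ 3)) :=
    mul_le_mul_of_nonneg_right (by nlinarith) (by positivity)
  linarith

theorem boxg (k : ℤ) : ∃ K : ℝ, 1 ≤ K ∧ ∃ M0 : ℕ, 1 ≤ M0 ∧ ∀ M A : ℕ, M0 ≤ M → 1 ≤ A → ∀ g : ℤ, K ≤ g →
    ∀ a ∈ Ia k M A, ∀ b ∈ Ib k M A, ∀ c ∈ Ic M A,
      ((M : ℝ) * A) ^ 3 / 2 ≤ nn k a b c ∧ (nn k a b c : ℝ) ≤ K * ((M : ℝ) * A) ^ 3 ∧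
      (g : ℝ) ^ 3 * ((M : ℝ) * A) ^ 3 / 2 ≤ II k g (a + g * b) c ∧
      (II k g (a + g * b) c : ℝ) ≤ K * ((g : ℝ) ^ 3 * ((M : ℝ) * A) ^ 3) ∧
      (g : ℝ) * ((M : ℝ) * A) ^ 2 / 2 ≤ Cg k g (a + g * b) b c ∧
      (Cg k g (a + g * b) b c : ℝ) ≤ K * (g * ((M : ℝ) * A) ^ 2) ∧
      |(Bg k g (a + g * b) b c : ℝ)| ≤ K * (g * ((M : ℝ) * A) ^ 2) ∧
      |(Vg k g (a + g * b) b c : ℝ)| ≤ K * ((g : ℝ) ^ 6 * ((M : ℝ) * A) ^ 3) ∧
      0 < yy g (a + g * b) c ∧ (yy g (a + g * b) c : ℝ) ≤ K * ((g : ℝ) ^ 2 * ((M : ℝ) * A)) ∧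
      |(xx k g (a + g * b) c : ℝ)| ≤ K * ((g : ℝ) ^ 2 * ((M : ℝ) * A)) ∧
      0 < a + g * b ∧ ((a + g * b : ℤ) : ℝ) ≤ K * (g * ((M : ℝ) * A)) ∧
      (b : ℝ) ≤ K * ((M : ℝ) * A) ∧ (c : ℝ) ≤ K * ((M : ℝ) * A) ∧ (a : ℝ) ≤ K * ((M : ℝ) * A) := by
  obtain ⟨U, hU, M0, hM0, hbox⟩ := box k
  obtain ⟨L, hL⟩ : ∃ L : ℝ, L = |(k : ℝ)| + 2 := ⟨_, rfl⟩
  have hk0 := abs_nonneg (k : ℝ)
  have hL2 : 2 ≤ L := by linarith
  have hL4 : 4 ≤ L ^ 2 := by nlinarith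
  have hU3 : 1 ≤ U ^ 3 := one_le_pow₀ hU
  have hU13 : U ≤ U ^ 3 := by
    calc U = U ^ 1 := (pow_one _).symm
      _ ≤ U ^ 3 := pow_le_pow_right₀ hU (by norm_num)
  obtain ⟨K, hK⟩ : ∃ K : ℝ, K = 40 * L ^ 2 * U ^ 3 := ⟨_, rfl⟩
  have hLU : 4 * U ^ 3 ≤ L ^ 2 * U ^ 3 := mul_le_mul_of_nonneg_right hL4 (by linarith)
  have hLL : L * U ^ 3 ≤ L ^ 2 * U ^ 3 := mul_le_mul_of_nonneg_right (by nlinarith) (by linarith)
  have hLU1 : L * U ≤ L * U ^ 3 := mul_le_mul_of_nonneg_left hU13 (by linarith)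
  have K1 : 1 ≤ K := by rw [hK]; linarith
  have K2 : 3 * U ≤ K := by rw [hK]; linarith
  have K3 : L * U ^ 3 ≤ K := by
    rw [hK]
    have : 0 ≤ L ^ 2 * U ^ 3 := by positivity
    linarith
  have K4 : L * U ≤ K := hLU1.trans K3
  refine ⟨K, K1, M0, hM0, fun M A hM hA g hg a ha b hb c hc => ?_⟩
  obtain ⟨-, n1, n2, c1, c2, d1, d2, b0, a1, a2, b1, b2, cc1, cc2⟩ := hbox M A hM hA a ha b hb c hc
  obtain ⟨P, hPd⟩ : ∃ P : ℝ, P = (M : ℝ) * A := ⟨_, rfl⟩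
  rw [← hPd] at n1 n2 c1 c2 d1 d2 b0 a1 a2 b1 b2 cc1 cc2 ⊢
  have hP : 0 < P := by
    rw [hPd]
    have h1 : (0 : ℝ) < M := by exact_mod_cast (by omega : 0 < M)
    have h2 : (0 : ℝ) < A := by exact_mod_cast (by omega : 0 < A)
    positivity
  have hg1 : (1 : ℝ) ≤ g := K1.trans hg
  have hg0 : (0 : ℝ) < g := by linarith
  have hII : (II k g (a + g * b) c : ℝ) = (g : ℝ) ^ 3 * (DD k b c : ℝ) - 3 * (g : ℝ) ^ 2 * b * (BB k a b c : ℝ) -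
      3 * g * a * (BB k a b c : ℝ) + ((a : ℝ) ^ 3 - (k : ℝ) ^ 2 * (c : ℝ) ^ 3) := by
    simp only [II, DD, BB]
    push_cast
    ring
  have hCg : (Cg k g (a + g * b) b c : ℝ) = (BB k a b c : ℝ) - g * (CC a b c : ℝ) := by
    simp only [Cg, xx, yy, BB, CC]
    push_cast
    ring
  have hBg : (Bg k g (a + g * b) b c : ℝ) = ((a : ℝ) ^ 2 - k * b * c) - g * (BB k a b c : ℝ) := by
    simp only [Bg, xx, BB]
    push_cast
    ring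
  have hyy : (yy g (a + g * b) c : ℝ) = (a : ℝ) + g * b + (g : ℝ) ^ 2 * c := by
    simp only [yy]
    push_cast
    ring
  have hxx : (xx k g (a + g * b) c : ℝ) = (k : ℝ) * c + g * ((a : ℝ) + g * b) := by
    simp only [xx]
    push_cast
    ring
  have hVg : (Vg k g (a + g * b) b c : ℝ) = ((g : ℝ) ^ 3 - k) * (yy g (a + g * b) c : ℝ) * (b : ℝ) ^ 2 +
      (xx k g (a + g * b) c : ℝ) * ((c : ℝ) * ((g : ℝ) ^ 3 - k) - 3 * g * (yy g (a + g * b) c : ℝ)) * b +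
      (xx k g (a + g * b) c : ℝ) * (2 * (yy g (a + g * b) c : ℝ) ^ 2 -
        3 * (g : ℝ) ^ 2 * c * (yy g (a + g * b) c : ℝ) + g * (c : ℝ) ^ 2 * ((g : ℝ) ^ 3 - k)) := by
    simp only [Vg]
    push_cast
    ring
  obtain ⟨r1, r2⟩ := bx_II k g a b c P U L (DD k b c) (BB k a b c) hP hU hL (by rw [← hK]; exact hg) a1 a2 b1 b2
    cc1 cc2 d1 d2 b0
  obtain ⟨s1, s2, s3, s4, s5⟩ := bx_s k g a b c P U L hP hU hL hg1 a1 a2 b1 b2 cc1 cc2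
  obtain ⟨t1, t2, t3⟩ := bx_C k g a b c P U L (BB k a b c) (CC a b c) hP hU hL (by linarith) a1 a2 b1 b2
    cc1 cc2 b0 c1 c2
  rw [← hII] at r1 r2
  rw [← hCg] at t1 t2
  rw [← hBg] at t3
  rw [← hyy] at s3 s4
  rw [← hxx] at s5
  have hb' : |(b : ℝ)| ≤ U * P := by rw [abs_of_pos (hP.trans_le b1)]; exact b2
  have hc' : |(c : ℝ)| ≤ U * P := by rw [abs_of_pos (hP.trans_le cc1)]; exact cc2
  have hy' : |(yy g (a + g * b) c : ℝ)| ≤ 3 * U * ((g : ℝ) ^ 2 * P) := by rw [abs_of_pos s3]; exact s4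
  have v1 := bx_V k g b c (yy g (a + g * b) c) (xx k g (a + g * b) c) P U L hP hU hL hg1 hb' hc' hy' s5
  rw [← hVg] at v1
  rw [← hK] at r2 v1
  have hUK : U ≤ K := by linarith
  have h2UK : 2 * U ≤ K := by linarith
  refine ⟨n1, n2.trans (mul_le_mul_of_nonneg_right hUK (by positivity)), r1, r2, t1,
    t2.trans (mul_le_mul_of_nonneg_right h2UK (by positivity)),
    t3.trans (mul_le_mul_of_nonneg_right K3 (by positivity)), v1, by exact_mod_cast s3,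
    s4.trans (mul_le_mul_of_nonneg_right K2 (by positivity)),
    s5.trans (mul_le_mul_of_nonneg_right K4 (by positivity)), by exact_mod_cast s1, ?_,
    b2.trans (mul_le_mul_of_nonneg_right hUK hP.le), cc2.trans (mul_le_mul_of_nonneg_right hUK hP.le),
    a2.trans (mul_le_mul_of_nonneg_right hUK hP.le)⟩
  push_cast
  exact s2.trans (mul_le_mul_of_nonneg_right h2UK (by positivity))

end H96.DR
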