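import Pool.Agent.H96.DR.Def
import Pool.Agent.H23.LP.Rcl

/-!
# [DR CLR] the number of classes of `b` modulo `Q j² ∏ S`, 120-200 lines. File Pool/Agent/H96/DR/Clr.lean

* `cls_count`: induction on `S` (as in `H23/LP/Rcl.lean`): for `S = ∅` the set is contained in the set of the hypothesis `hW` (`range W`). Step `insert p S`, `T = W ∏ S`, `p ∤ T`: the map `τ ↦ (τ mod T, τ mod p)` is injective on `range (T p)` (Chinese remainder theorem) and maps
the set for `insert p S` into the product of the set for `S` and `{t < p : p ∣ f t}` (the conditions are periodic: `c0` modulo `W`, `p' ∣ f` modulo `p'`), so its cardinality is at most the product.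
* `roots_ng`: `ng k g s b c = -(g³ - k) b³ + 3 g x b² - 3 s x b + (s³ + k² c³)`, `x = xx k g s c = k c + g s` (`ring`). If `p ∤ g³ - k` this is a polynomial of degree `3` over the field `ZMod p`: at most `3` roots (`Polynomial.card_roots'`; or by hand with the divided
differences: four roots `t0, .., t3`, pairwise different modulo `p`, give `p ∣ leading coefficient`). If `p ∣ g³ - k` there are at most `p = gcd(p, g³ - k)` classes.
* `cls`: `cls_count` with `W = Q j²`, `f b = ng k g s b c`; `{t < Q j² : t ≡ 0 (mod Q)}` has `j²` elements; `∏_{p ∈ S} 3 gcd(p, N)`.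
-/

set_option autoImplicit false

namespace H96.DR

open Finset H23.LP

private theorem crt_card (g q : ℕ) (h : g.Coprime q) (hg : 0 < g) (hq : 0 < q) (U V : ℕ → Prop)
    [DecidablePred U] [DecidablePred V] (hU : ∀ r, U r ↔ U (r % g)) (hV : ∀ r, V r ↔ V (r % q)) :
    ((range (g * q)).filter (fun r => U r ∧ V r)).card ≤
      ((range g).filter U).card * ((range q).filter V).card := by
  rw [← Finset.card_product]
  refine Finset.card_le_card_of_injOn (fun r => (r % g, r % q)) ?_ ?_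
  · intro r hr
    rw [Finset.mem_coe, Finset.mem_filter, Finset.mem_range] at hr
    rw [Finset.mem_coe, Finset.mem_product, Finset.mem_filter, Finset.mem_filter,
      Finset.mem_range, Finset.mem_range]
    exact ⟨⟨Nat.mod_lt _ hg, (hU r).mp hr.2.1⟩, ⟨Nat.mod_lt _ hq, (hV r).mp hr.2.2⟩⟩
  · intro r hr r' hr' he
    rw [Finset.mem_coe, Finset.mem_filter, Finset.mem_range] at hr hr'
    have h1 : r ≡ r' [MOD g] := (Prod.mk.inj he).1
    have h2 : r ≡ r' [MOD q] := (Prod.mk.inj he).2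
    exact Nat.ModEq.eq_of_lt_of_lt ((Nat.modEq_and_modEq_iff_modEq_mul h).1 ⟨h1, h2⟩) hr.1 hr'.1

private theorem mod_modEq (r g m : ℕ) (h : m ∣ g) : (r : ℤ) ≡ ((r % g : ℕ) : ℤ) [ZMOD (m : ℤ)] := by
  have h1 : (g : ℤ) ∣ (r : ℤ) - ((r % g : ℕ) : ℤ) := by
    refine ⟨((r / g : ℕ) : ℤ), ?_⟩
    have := Nat.mod_add_div r g
    have h2 : ((r % g : ℕ) : ℤ) + (g : ℤ) * ((r / g : ℕ) : ℤ) = r := by exact_mod_cast this
    linarith
  exact (Int.modEq_iff_dvd.2 (dvd_trans (by exact_mod_cast h) h1)).symm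

theorem cls_count (W : ℕ) (hW0 : 0 < W) (c0 : ℤ → Prop) [DecidablePred c0]
    (hc0 : ∀ a b : ℤ, a ≡ b [ZMOD (W : ℤ)] → (c0 a ↔ c0 b)) (f : ℤ → ℤ)
    (hf : ∀ (m a b : ℤ), a ≡ b [ZMOD m] → f a ≡ f b [ZMOD m]) (S : Finset ℕ)
    (hS : ∀ p ∈ S, p.Prime ∧ ¬ p ∣ W) (B : ℕ → ℕ)
    (hB : ∀ p ∈ S, ((range p).filter fun t : ℕ => (p : ℤ) ∣ f t).card ≤ B p) :
    ((range (W * ∏ p ∈ S, p)).filter fun t : ℕ => c0 t ∧ ∀ p ∈ S, (p : ℤ) ∣ f t).card ≤
      ((range W).filter fun t : ℕ => c0 t).card * ∏ p ∈ S, B p := by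
  classical
  have hdvd : ∀ m : ℤ, ∀ a b : ℤ, a ≡ b [ZMOD m] → (m ∣ f a ↔ m ∣ f b) := by
    intro m a b h
    have h1 := hf m a b h
    constructor
    · intro h2
      exact Int.modEq_zero_iff_dvd.1 (h1.symm.trans (Int.modEq_zero_iff_dvd.2 h2))
    · intro h2
      exact Int.modEq_zero_iff_dvd.1 (h1.trans (Int.modEq_zero_iff_dvd.2 h2))
  induction S using Finset.induction_on with
  | empty =>
    rw [Finset.prod_empty, Finset.prod_empty, mul_one, mul_one]
    refine Finset.card_le_card ?_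
    intro t ht
    rw [mem_filter] at ht ⊢
    exact ⟨ht.1, ht.2.1⟩
  | insert q T hqT ih =>
    have ih' := ih (fun p hp => hS p (mem_insert_of_mem hp)) (fun p hp => hB p (mem_insert_of_mem hp))
    obtain ⟨hq, hqW⟩ := hS q (mem_insert_self q T)
    obtain ⟨g, hg⟩ : ∃ g : ℕ, g = W * ∏ p ∈ T, p := ⟨_, rfl⟩
    have hgpos : 0 < g := by
      rw [hg]
      exact Nat.mul_pos hW0 (Finset.prod_pos fun p hp => (hS p (mem_insert_of_mem hp)).1.pos)
    have hco : g.Coprime q := by
      rw [hg]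
      apply Nat.Coprime.mul_left
      · exact ((Nat.Prime.coprime_iff_not_dvd hq).mpr hqW).symm
      · apply Nat.Coprime.prod_left
        intro p hp
        exact (Nat.coprime_primes (hS p (mem_insert_of_mem hp)).1 hq).mpr
          fun h => hqT (h ▸ hp)
    have key := crt_card g q hco hgpos hq.pos
      (fun r => c0 r ∧ ∀ p ∈ T, (p : ℤ) ∣ f r) (fun r => (q : ℤ) ∣ f r)
      (by
        intro r
        have hWg : W ∣ g := by rw [hg]; exact dvd_mul_right _ _
        refine and_congr (hc0 _ _ (mod_modEq r g W hWg)) (forall₂_congr fun p hp => ?_)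
        have hpg : p ∣ g := by
          rw [hg]; exact dvd_mul_of_dvd_right (Finset.dvd_prod_of_mem _ hp) _
        exact hdvd _ _ _ (mod_modEq r g p hpg))
      (by
        intro r
        exact hdvd _ _ _ (mod_modEq r q q (dvd_refl q)))
    have e1 : ((range (W * ∏ p ∈ insert q T, p)).filter fun t : ℕ => c0 t ∧ ∀ p ∈ insert q T, (p : ℤ) ∣ f t) =
        (range (g * q)).filter (fun r : ℕ => (c0 r ∧ ∀ p ∈ T, (p : ℤ) ∣ f r) ∧ (q : ℤ) ∣ f r) := by
      have e2 : W * ∏ p ∈ insert q T, p = g * q := by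
        rw [Finset.prod_insert hqT, hg]; ring
      rw [e2]
      apply Finset.filter_congr
      intro r _
      constructor
      · rintro ⟨h1, h2⟩
        exact ⟨⟨h1, fun p hp => h2 p (mem_insert_of_mem hp)⟩, h2 q (mem_insert_self q T)⟩
      · rintro ⟨⟨h1, h2⟩, h3⟩
        refine ⟨h1, fun p hp => ?_⟩
        rcases mem_insert.mp hp with h | h
        · rw [h]; exact h3
        · exact h2 p h
    rw [e1, Finset.prod_insert hqT]
    rw [← hg] at ih'
    calc ((range (g * q)).filter (fun r : ℕ => (c0 r ∧ ∀ p ∈ T, (p : ℤ) ∣ f r) ∧ (q : ℤ) ∣ f r)).card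
        ≤ ((range g).filter (fun r : ℕ => c0 r ∧ ∀ p ∈ T, (p : ℤ) ∣ f r)).card *
          ((range q).filter (fun r : ℕ => (q : ℤ) ∣ f r)).card := key
      _ ≤ (((range W).filter fun t : ℕ => c0 t).card * ∏ p ∈ T, B p) * B q :=
          Nat.mul_le_mul ih' (hB q (mem_insert_self q T))
      _ = ((range W).filter fun t : ℕ => c0 t).card * (B q * ∏ p ∈ T, B p) := by ring

theorem roots_ng (k g s c : ℤ) (p : ℕ) (hp : p.Prime) :
    ((range p).filter fun t : ℕ => (p : ℤ) ∣ ng k g s t c).card ≤ 3 * Int.gcd (p : ℤ) (g ^ 3 - k) := by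
  classical
  by_cases h : (p : ℤ) ∣ g ^ 3 - k
  · have h1 : Int.gcd (p : ℤ) (g ^ 3 - k) = p := by
      have h2 := (Int.gcd_eq_left_iff_dvd (Int.natCast_nonneg p)).2 h
      exact_mod_cast h2
    rw [h1]
    refine (Finset.card_filter_le _ _).trans ?_
    rw [card_range]
    omega
  · have h1 : 1 ≤ Int.gcd (p : ℤ) (g ^ 3 - k) := by
      rw [Nat.one_le_iff_ne_zero]
      intro h2
      rw [Int.gcd_eq_zero_iff] at h2
      have := hp.pos
      omega
    have hfact : Fact p.Prime := ⟨hp⟩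
    let P : Polynomial (ZMod p) := Polynomial.C ((-(g ^ 3 - k) : ℤ) : ZMod p) * Polynomial.X ^ 3 +
      Polynomial.C ((3 * g * xx k g s c : ℤ) : ZMod p) * Polynomial.X ^ 2 +
      Polynomial.C ((-(3 * s * xx k g s c) : ℤ) : ZMod p) * Polynomial.X +
      Polynomial.C ((s ^ 3 + k ^ 2 * c ^ 3 : ℤ) : ZMod p)
    have hlead : ((-(g ^ 3 - k) : ℤ) : ZMod p) ≠ 0 := by
      intro h2
      rw [ZMod.intCast_zmod_eq_zero_iff_dvd] at h2
      exact h ((dvd_neg).1 h2)
    have hdeg : P.natDegree = 3 := Polynomial.natDegree_cubic hlead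
    have hP0 : P ≠ 0 := by
      intro h2
      rw [h2, Polynomial.natDegree_zero] at hdeg
      omega
    have h3 : ((range p).filter fun t : ℕ => (p : ℤ) ∣ ng k g s t c).card ≤ P.roots.toFinset.card := by
      refine Finset.card_le_card_of_injOn (fun t : ℕ => (t : ZMod p)) ?_ ?_
      · intro t ht
        rw [Finset.mem_coe, mem_filter] at ht
        rw [Finset.mem_coe, Multiset.mem_toFinset, Polynomial.mem_roots hP0, Polynomial.IsRoot.def]
        have h4 := (ZMod.intCast_zmod_eq_zero_iff_dvd _ p).2 ht.2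
        have h5 : P.eval (t : ZMod p) = ((ng k g s t c : ℤ) : ZMod p) := by
          simp only [P, Polynomial.eval_add, Polynomial.eval_mul, Polynomial.eval_C, Polynomial.eval_pow,
            Polynomial.eval_X, ng, nn, xx]
          push_cast
          ring
        rw [h5, h4]
      · intro t ht t' ht' he
        rw [Finset.mem_coe, mem_filter, mem_range] at ht ht'
        have h4 := (ZMod.natCast_eq_natCast_iff t t' p).1 he
        exact Nat.ModEq.eq_of_lt_of_lt h4 ht.1 ht'.1
    calc ((range p).filter fun t : ℕ => (p : ℤ) ∣ ng k g s t c).card ≤ P.roots.toFinset.card := h3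
      _ ≤ P.roots.card := Multiset.toFinset_card_le _
      _ ≤ P.natDegree := Polynomial.card_roots' P
      _ ≤ 3 := hdeg.le
      _ ≤ 3 * Int.gcd (p : ℤ) (g ^ 3 - k) := by omega

theorem cls (k : ℤ) (hk : k ≠ 0) (w : ℕ) (g s c : ℤ) (j : ℕ) (hj : 0 < j) (S : Finset ℕ)
    (hS : ∀ p ∈ S, p.Prime ∧ ¬ p ∣ QQ k w * j ^ 2) :
    ((range (QQ k w * j ^ 2 * ∏ p ∈ S, p)).filter fun t : ℕ =>
      (t : ℤ) ≡ 0 [ZMOD (QQ k w : ℤ)] ∧ ∀ p ∈ S, (p : ℤ) ∣ ng k g s t c).card ≤
      j ^ 2 * ∏ p ∈ S, (3 * Int.gcd (p : ℤ) (g ^ 3 - k)) := by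
  classical
  have hQ : 0 < QQ k w := by
    unfold QQ
    have h1 : 0 < k.natAbs := by omega
    have h2 := Nat.factorial_pos w
    positivity
  have h1 := cls_count (QQ k w * j ^ 2) (by positivity) (fun t : ℤ => t ≡ 0 [ZMOD (QQ k w : ℤ)])
    (by
      intro a b hab
      have h2 : a ≡ b [ZMOD (QQ k w : ℤ)] := by
        refine hab.of_dvd ?_
        push_cast
        exact dvd_mul_right _ _
      exact ⟨fun h => h2.symm.trans h, fun h => h2.trans h⟩)
    (fun b => ng k g s b c)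
    (by
      intro m a b hab
      have h2 : m ∣ b - a := Int.modEq_iff_dvd.1 hab
      refine Int.modEq_iff_dvd.2 ?_
      have e : ng k g s b c - ng k g s a c = (b - a) * (-(g ^ 3 - k) * (b ^ 2 + a * b + a ^ 2) +
          3 * g * xx k g s c * (a + b) - 3 * s * xx k g s c) := by
        simp only [ng, nn, xx]; ring
      rw [e]
      exact dvd_mul_of_dvd_left h2 _)
    S hS (fun p => 3 * Int.gcd (p : ℤ) (g ^ 3 - k)) (fun p hp => roots_ng k g s c p (hS p hp).1)
  refine h1.trans (Nat.mul_le_mul_right _ ?_)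
  have h2 : ((range (QQ k w * j ^ 2)).filter fun t : ℕ => (t : ℤ) ≡ 0 [ZMOD (QQ k w : ℤ)]).card ≤
      (range (j ^ 2)).card := by
    refine Finset.card_le_card_of_injOn (fun t => t / QQ k w) ?_ ?_
    · intro t ht
      rw [Finset.mem_coe, mem_filter, mem_range] at ht
      rw [Finset.mem_coe, mem_range]
      exact Nat.div_lt_of_lt_mul ht.1
    · intro t ht t' ht' he
      rw [Finset.mem_coe, mem_filter, mem_range] at ht ht'
      have h3 : QQ k w ∣ t := by exact_mod_cast Int.modEq_zero_iff_dvd.1 ht.2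
      have h4 : QQ k w ∣ t' := by exact_mod_cast Int.modEq_zero_iff_dvd.1 ht'.2
      have he' : t / QQ k w = t' / QQ k w := he
      rw [← Nat.mul_div_cancel' h3, ← Nat.mul_div_cancel' h4, he']
  rwa [card_range] at h2

end H96.DR
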