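import Pool.Agent.H96.DR.Bdg
import Pool.Agent.H96.DR.Bxg
import Pool.Agent.H71.DV.Exc
import Pool.Agent.H71.DV.Wlo
import Pool.Agent.H71.DV.Rr
import Pool.Agent.H97.DR.Qbd

/-!
# [DR COV] the directions cover the nice points, 140-220 lines. File Pool/Agent/H96/DR/Cov.lean

`cw > 0` from `W0_low` (`cw A^0.0062 ≤ W0`), so with `G = Gn A ≤ 2 A^0.0062` (`H71.DV.Gn_bd`): `G ≤ (2/cw) W0`. Choose `ε' > 0` with `144 · 7 ε' · 2/cw ≤ ε/4` and `ε2 > 0` with `144 ε2 2/cw ≤ ε/4`. `M0` from `boxg`.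
`E1 = {x ∈ Bx : (ε/4) W0 < |WW - W0|}` (`exc` with `ε/4`): `#E1 ≤ A^2.9939`. For `g ∈ GG A` let `Z g = {x ∈ Bx : Cl, gcd(yy, g³ - k) = 1, A^0.09 < SF |II|}` (at `s = a + g b`); `Cl` gives `II ≡ 1 (mod QQ k w)`, so `gcd(II, 6k) = 1` and `#(Z g) ≤ A^2.9938` (`bad_lines`).
`E2 = {x ∈ Bx : ε2 G < #{g ∈ GG A : x ∈ Z g}}`: `ε2 G #E2 ≤ ∑_g #(Z g) ≤ G A^2.9938` (`card (GG A) = G`, `H71.DV.card_GG`; `Finset.sum_comm`), so `#E2 ≤ A^2.9938/ε2 ≤ A^2.9939` for `A` large. `E = E1 ∪ E2`.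
Let `x ∈ Bx`, `x ∉ E`, `Cl`, `Nice k ε'`; `n = nn x > 0`, `n ≤ K (M A)³ ≤ A^4`, so `ω(n) ≤ log₂ n ≤ 4 log A/log 2 ≤ ε' G/6` for `A` large (`2^ω(n) ≤ n`). The `g ∈ GG A` which do not satisfy (`Gd` and `CP`) are: those of `bdg` (at most `6 (ε' G + ω(n)) ≤ 7 ε' G`),
and those with `gcd(yy, g³ - k) = 1`, `SF > A^0.09`, i.e. `x ∈ Z g` (at most `ε2 G`). For each of them `RR ≤ 144` (`rr_le`; `|a + g b| ≤ K g M A ≤ A^1.01`, `|c| ≤ K M A ≤ A^1.01` by `boxg` for `A` large, `c > 0`). So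
`∑_{g : Gd, CP} RR ≥ WW - 144 (7 ε' + ε2) G ≥ (1 - ε/4) W0 - (ε/2) W0 ≥ (1 - ε) W0`.
-/

set_option autoImplicit false

namespace H96.DR

open Finset H23.LP

private theorem cv_big (B : ℝ) : ∃ A0 : ℕ, ∀ A : ℕ, A0 ≤ A → B ≤ (A : ℝ) ^ (0.0001 : ℝ) :=
  Filter.eventually_atTop.1 (((tendsto_rpow_atTop (by norm_num : (0 : ℝ) < 0.0001)).comp
    (tendsto_natCast_atTop_atTop (R := ℝ))).eventually (Filter.eventually_ge_atTop B))

private theorem cv_two (n : ℕ) (hn : n ≠ 0) : 2 ^ n.primeFactors.card ≤ n := by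
  calc 2 ^ n.primeFactors.card ≤ ∏ p ∈ n.primeFactors, p :=
        Finset.pow_card_le_prod _ _ _ fun p hp => (Nat.prime_of_mem_primeFactors hp).two_le
    _ ≤ n := Nat.le_of_dvd (Nat.pos_of_ne_zero hn) (Nat.prod_primeFactors_dvd n)

private theorem cv_om (n : ℕ) (hn : n ≠ 0) (x : ℝ) (hx : 1 ≤ x) (h : (n : ℝ) ≤ x ^ 4) (δ : ℝ)
    (hδ : 0 < δ) (hb : 36 / (0.0031 * δ) ≤ x ^ (0.0031 : ℝ)) :
    (n.primeFactors.card : ℝ) ≤ δ / 6 * x ^ (0.0062 : ℝ) := by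
  have hx0 : 0 < x := by linarith
  have hn0 : (0 : ℝ) < n := by exact_mod_cast Nat.pos_of_ne_zero hn
  have h1 : ((2 : ℝ)) ^ n.primeFactors.card ≤ n := by exact_mod_cast cv_two n hn
  have h2 : (n.primeFactors.card : ℝ) * Real.log 2 ≤ 4 * Real.log x := by
    have e1 := Real.log_le_log (by positivity) (h1.trans h)
    rw [Real.log_pow, Real.log_pow] at e1
    exact_mod_cast e1
  have h3 := Real.log_two_gt_d9
  have h4 : Real.log x ≤ x ^ (0.0031 : ℝ) / 0.0031 := Real.log_le_rpow_div hx0.le (by norm_num)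
  have h5 : 0 ≤ (n.primeFactors.card : ℝ) := Nat.cast_nonneg _
  have h6 : (n.primeFactors.card : ℝ) ≤ 6 * Real.log x := by nlinarith
  have h7 : x ^ (0.0062 : ℝ) = x ^ (0.0031 : ℝ) * x ^ (0.0031 : ℝ) := by
    rw [← Real.rpow_add hx0]; norm_num
  have h8 : 0 < x ^ (0.0031 : ℝ) := Real.rpow_pos_of_pos hx0 _
  have h9 : 6 / 0.0031 ≤ δ / 6 * x ^ (0.0031 : ℝ) := by
    calc 6 / 0.0031 = δ / 6 * (36 / (0.0031 * δ)) := by field_simp; norm_num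
      _ ≤ δ / 6 * x ^ (0.0031 : ℝ) := by gcongr
  calc (n.primeFactors.card : ℝ) ≤ 6 * (x ^ (0.0031 : ℝ) / 0.0031) := by linarith
    _ = 6 / 0.0031 * x ^ (0.0031 : ℝ) := by ring
    _ ≤ δ / 6 * x ^ (0.0031 : ℝ) * x ^ (0.0031 : ℝ) := by gcongr
    _ = δ / 6 * x ^ (0.0062 : ℝ) := by rw [h7]; ring

private theorem cv_cop (k : ℤ) (w : ℕ) (g a b c : ℤ) (h : Cl k w a b c) :
    Int.gcd (II k g (a + g * b) c) (6 * k) = 1 := by
  obtain ⟨ha, hb, hc⟩ := h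
  have hs : a + g * b ≡ 1 [ZMOD (QQ k w : ℤ)] := by
    have := ha.add (hb.mul_left g)
    rwa [mul_zero, add_zero] at this
  have h1 : II k g (a + g * b) c ≡ II k g 1 0 [ZMOD (QQ k w : ℤ)] := by
    unfold II
    exact ((hs.pow 3).sub ((((hc.pow 2).mul_left (3 * k * g)).mul hs))).sub
      ((hc.pow 3).mul_left (k * (g ^ 3 + k)))
  have h2 : II k g 1 0 = 1 := by simp [II]
  rw [h2] at h1
  have h3 : (6 * k : ℤ) ∣ (QQ k w : ℤ) := by
    rw [QQ]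
    push_cast
    exact Dvd.dvd.mul_right (mul_dvd_mul_left 6 (self_dvd_abs k)) _
  have h4 : (6 * k : ℤ) ∣ 1 - II k g (a + g * b) c := (h1.of_dvd h3).dvd
  have h5 : ((Int.gcd (II k g (a + g * b) c) (6 * k) : ℕ) : ℤ) ∣ 1 := by
    have e1 : ((Int.gcd (II k g (a + g * b) c) (6 * k) : ℕ) : ℤ) ∣ II k g (a + g * b) c :=
      Int.gcd_dvd_left _ _
    have e2 : ((Int.gcd (II k g (a + g * b) c) (6 * k) : ℕ) : ℤ) ∣ 6 * k := Int.gcd_dvd_right _ _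
    have e3 := dvd_add (e2.trans h4) e1
    rwa [sub_add_cancel] at e3
  exact_mod_cast Int.eq_one_of_dvd_one (by positivity) h5

open Classical in
theorem cover (k : ℤ) (hk : ∀ t : ℤ, t ^ 3 ≠ k) (ε : ℝ) (hε : 0 < ε) : ∃ ε' : ℝ, 0 < ε' ∧ ∃ M0 : ℕ,
    1 ≤ M0 ∧ ∀ w M : ℕ, k.natAbs + 3 ≤ w → M0 ≤ M → ∃ A0 : ℕ, ∀ A : ℕ, A0 ≤ A →
    ∃ E : Finset (ℤ × ℤ × ℤ), E ⊆ Bx k M A ∧ (E.card : ℝ) ≤ 2 * (A : ℝ) ^ (2.9939 : ℝ) ∧
    ∀ x ∈ Bx k M A, x ∉ E → Cl k w x.1 x.2.1 x.2.2 → Nice k ε' x.1 x.2.1 x.2.2 →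
      (1 - ε) * W0 k A ≤ ∑ g ∈ (GG A).filter (fun g => Gd k A g (x.1 + g * x.2.1) x.2.2 ∧
        CP k g (x.1 + g * x.2.1) x.2.1 x.2.2), (RR k A g (x.1 + g * x.2.1) x.2.2 : ℝ) := by
  have hk0 : k ≠ 0 := fun h => hk 0 (by rw [h]; norm_num)
  obtain ⟨cw, hcw, A1, h1⟩ := H71.DV.W0_low k hk
  obtain ⟨K, hK, M0, hM0, hbx⟩ := boxg k
  obtain ⟨ε1, hε1⟩ : ∃ ε1 : ℝ, ε1 = ε * cw / 8064 := ⟨_, rfl⟩
  obtain ⟨ε2, hε2⟩ : ∃ ε2 : ℝ, ε2 = ε * cw / 1152 := ⟨_, rfl⟩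
  have hε10 : 0 < ε1 := by rw [hε1]; positivity
  have hε20 : 0 < ε2 := by rw [hε2]; positivity
  refine ⟨ε1, hε10, M0, hM0, fun w M hw hM => ?_⟩
  have hM1 : 1 ≤ M := hM0.trans hM
  obtain ⟨A2, h2⟩ := H71.DV.exc k hk M hM1 (ε / 4) (by positivity)
  obtain ⟨A3, h3⟩ := H97.DR.bad_lines k hk M hM1
  obtain ⟨A4, h4⟩ := H71.DV.rr_le k hk
  obtain ⟨A5, h5⟩ := cv_big (1 / ε2 + 36 / (0.0031 * ε1) + 4 * K * M + K * (M : ℝ) ^ 3 + K)
  refine ⟨max (max (max A1 A2) (max A3 A4)) (max A5 1), fun A hA => ?_⟩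
  have hAl := (le_max_left _ _).trans hA
  have hAr := (le_max_right _ _).trans hA
  have hA1 : A1 ≤ A := ((le_max_left _ _).trans (le_max_left _ _)).trans hAl
  have hA2 : A2 ≤ A := ((le_max_right _ _).trans (le_max_left _ _)).trans hAl
  have hA3 : A3 ≤ A := ((le_max_left _ _).trans (le_max_right _ _)).trans hAl
  have hA4 : A4 ≤ A := ((le_max_right _ _).trans (le_max_right _ _)).trans hAl
  have hA5 : A5 ≤ A := (le_max_left _ _).trans hAr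
  have hA6 : 1 ≤ A := (le_max_right _ _).trans hAr
  replace h1 := h1 A hA1
  replace h2 := (h2 A hA2).1
  replace h3 := h3 A hA3
  replace h4 := h4 A hA4
  replace h5 := h5 A hA5
  obtain ⟨hG1, hG2⟩ := H71.DV.Gn_bd A hA6
  have hcG := H71.DV.card_GG A
  obtain ⟨y, hy⟩ : ∃ y : ℝ, y = A := ⟨_, rfl⟩
  have hy1 : 1 ≤ y := by rw [hy]; exact_mod_cast hA6
  have hy0 : 0 < y := by linarith
  have mon : ∀ a b : ℝ, a ≤ b → y ^ a ≤ y ^ b := fun a b h => Real.rpow_le_rpow_of_exponent_le hy1 h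
  have pos : ∀ a : ℝ, 0 < y ^ a := fun a => Real.rpow_pos_of_pos hy0 a
  have pm : ∀ a b c : ℝ, a + b = c → y ^ a * y ^ b = y ^ c := by
    intro a b c h; rw [← Real.rpow_add hy0, h]
  rw [← hy] at h1 h2 h4 h5 hG1 hG2 ⊢
  have hMr : (1 : ℝ) ≤ M := by exact_mod_cast hM1
  have q1 : 0 < 1 / ε2 := by positivity
  have q2 : 0 < 36 / (0.0031 * ε1) := by positivity
  have q3 : 0 < 4 * K * M := by positivity
  have q4 : 0 < K * (M : ℝ) ^ 3 := by positivity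
  have r1 : 1 / ε2 ≤ y ^ (0.0001 : ℝ) := by linarith
  have r2 : 36 / (0.0031 * ε1) ≤ y ^ (0.0001 : ℝ) := by linarith
  have r3 : 4 * K * M ≤ y ^ (0.0001 : ℝ) := by linarith
  have r4 : K * (M : ℝ) ^ 3 ≤ y ^ (0.0001 : ℝ) := by linarith
  have r5 : K ≤ y ^ (0.0001 : ℝ) := by linarith
  obtain ⟨G, hGd⟩ : ∃ G : ℕ, G = Gn A := ⟨_, rfl⟩
  obtain ⟨W, hWd⟩ : ∃ W : ℝ, W = W0 k A := ⟨_, rfl⟩
  rw [← hGd] at hG1 hG2 hcG
  rw [← hWd] at h1 h2 ⊢
  have hW0 : 0 < W := lt_of_lt_of_le (mul_pos hcw (pos _)) h1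
  have hG0 : (0 : ℝ) < G := lt_of_lt_of_le (pos _) hG1
  have hGG : GG A = Ioc (G : ℤ) (2 * G) := by rw [hGd]; rfl
  -- the predicate
  obtain ⟨Q, hQ⟩ : ∃ Q : ℤ × ℤ × ℤ → ℤ → Prop, Q = fun x g => Cl k w x.1 x.2.1 x.2.2 ∧
      Int.gcd (yy g (x.1 + g * x.2.1) x.2.2) (g ^ 3 - k) = 1 ∧
      (A : ℝ) ^ (0.09 : ℝ) < (SF (II k g (x.1 + g * x.2.1) x.2.2).natAbs : ℝ) := ⟨_, rfl⟩
  have hZ : ∀ g ∈ GG A, (((Bx k M A).filter fun x => Q x g).card : ℝ) ≤ y ^ (2.9938 : ℝ) := by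
    intro g hg
    rw [hy]
    refine h3 g hg _ fun x hx => ?_
    rw [mem_filter, hQ] at hx
    obtain ⟨hx1, hx2, hx3, hx4⟩ := hx
    exact ⟨hx1, cv_cop k w g _ _ _ hx2, hx3, hx4⟩
  obtain ⟨E1, hE1⟩ : ∃ E1 : Finset (ℤ × ℤ × ℤ), E1 = (Bx k M A).filter fun x =>
    ε / 4 * W < |(WW k A x.1 x.2.1 x.2.2 : ℝ) - W| := ⟨_, rfl⟩
  obtain ⟨E2, hE2⟩ : ∃ E2 : Finset (ℤ × ℤ × ℤ), E2 = (Bx k M A).filter fun x =>
    ε2 * G < (((GG A).filter fun g => Q x g).card : ℝ) := ⟨_, rfl⟩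
  rw [← hE1] at h2
  have hE2c : (E2.card : ℝ) ≤ y ^ (2.9939 : ℝ) := by
    have s1 : ∑ x ∈ Bx k M A, ((GG A).filter fun g => Q x g).card =
        ∑ g ∈ GG A, ((Bx k M A).filter fun x => Q x g).card :=
      Finset.sum_card_bipartiteAbove_eq_sum_card_bipartiteBelow Q
    have s2 : ε2 * G * E2.card ≤ ∑ x ∈ E2, (((GG A).filter fun g => Q x g).card : ℝ) := by
      have : ∑ x ∈ E2, (ε2 * (G : ℝ)) ≤ ∑ x ∈ E2, (((GG A).filter fun g => Q x g).card : ℝ) := by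
        refine sum_le_sum fun x hx => ?_
        rw [hE2, mem_filter] at hx
        exact hx.2.le
      rw [sum_const, nsmul_eq_mul] at this
      linarith
    have s3 : ∑ x ∈ E2, (((GG A).filter fun g => Q x g).card : ℝ) ≤
        ∑ x ∈ Bx k M A, (((GG A).filter fun g => Q x g).card : ℝ) := by
      refine sum_le_sum_of_subset_of_nonneg (by rw [hE2]; exact filter_subset _ _) fun x _ _ => ?_
      exact Nat.cast_nonneg _
    have s4 : ∑ x ∈ Bx k M A, (((GG A).filter fun g => Q x g).card : ℝ) =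
        ∑ g ∈ GG A, (((Bx k M A).filter fun x => Q x g).card : ℝ) := by exact_mod_cast s1
    have s5 : ∑ g ∈ GG A, (((Bx k M A).filter fun x => Q x g).card : ℝ) ≤ G * y ^ (2.9938 : ℝ) := by
      have := sum_le_sum hZ
      rwa [sum_const, hcG, nsmul_eq_mul] at this
    have s6 : ε2 * G * E2.card ≤ G * y ^ (2.9938 : ℝ) := by linarith
    have s7 : (E2.card : ℝ) ≤ 1 / ε2 * y ^ (2.9938 : ℝ) := by
      rw [div_mul_eq_mul_div, one_mul, le_div_iff₀ hε20]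
      have : (G : ℝ) * (E2.card * ε2) ≤ G * y ^ (2.9938 : ℝ) := by linarith
      exact le_of_mul_le_mul_left this hG0
    calc (E2.card : ℝ) ≤ 1 / ε2 * y ^ (2.9938 : ℝ) := s7
      _ ≤ y ^ (0.0001 : ℝ) * y ^ (2.9938 : ℝ) := by
        have := pos 2.9938
        gcongr
      _ = y ^ (2.9939 : ℝ) := pm _ _ _ (by norm_num)
  refine ⟨E1 ∪ E2, ?_, ?_, ?_⟩
  · rw [hE1, hE2]
    exact union_subset (filter_subset _ _) (filter_subset _ _)
  · have : ((E1 ∪ E2).card : ℝ) ≤ E1.card + E2.card := by exact_mod_cast card_union_le _ _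
    linarith
  · intro x hx hxE hcl hnice
    rw [mem_union, not_or] at hxE
    obtain ⟨hx1, hx2⟩ := hxE
    have w1 : |(WW k A x.1 x.2.1 x.2.2 : ℝ) - W| ≤ ε / 4 * W := by
      by_contra hcon
      push Not at hcon
      exact hx1 (by rw [hE1, mem_filter]; exact ⟨hx, hcon⟩)
    have w2 : (((GG A).filter fun g => Q x g).card : ℝ) ≤ ε2 * G := by
      by_contra hcon
      push Not at hcon
      exact hx2 (by rw [hE2, mem_filter]; exact ⟨hx, hcon⟩)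
    have hx' := hx
    simp only [Bx, mem_product] at hx'
    obtain ⟨xa, xb, xc⟩ := hx'
    have hgK : ∀ g ∈ GG A, K ≤ (g : ℝ) := by
      intro g hg
      rw [hGG, mem_Ioc] at hg
      have e1 : (G : ℝ) ≤ g := by exact_mod_cast hg.1.le
      have e2 := mon 0.0001 0.0062 (by norm_num)
      linarith
    have hgG : ∀ g ∈ GG A, (g : ℝ) ≤ 4 * y ^ (0.0062 : ℝ) := by
      intro g hg
      rw [hGG, mem_Ioc] at hg
      have e1 : (g : ℝ) ≤ 2 * G := by exact_mod_cast hg.2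
      linarith
    have c0 : (0 : ℝ) < x.2.2 := by
      rw [Ic, mem_Ioc] at xc
      have e1 : ((M : ℤ) * A : ℤ) < x.2.2 := xc.1
      have e2 : (0 : ℤ) ≤ (M : ℤ) * A := by positivity
      exact_mod_cast lt_of_le_of_lt e2 e1
    have hRR : ∀ g ∈ GG A, (RR k A g (x.1 + g * x.2.1) x.2.2 : ℝ) ≤ 144 := by
      intro g hg
      obtain ⟨-, -, -, -, -, -, -, -, -, -, -, b1, b2, -, b3, -⟩ :=
        hbx M A hM hA6 g (hgK g hg) x.1 xa x.2.1 xb x.2.2 xc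
      rw [← hy] at b2 b3
      have b1' : (0 : ℝ) < ((x.1 + g * x.2.1 : ℤ) : ℝ) := by exact_mod_cast b1
      have e1 : K * ((g : ℝ) * (M * y)) ≤ y ^ (1.01 : ℝ) := by
        calc K * ((g : ℝ) * (M * y)) ≤ K * (4 * y ^ (0.0062 : ℝ) * (M * y)) := by
              have := hgG g hg
              gcongr
          _ = 4 * K * M * (y ^ (0.0062 : ℝ) * y ^ (1 : ℝ)) := by rw [Real.rpow_one]; ring
          _ = 4 * K * M * y ^ (1.0062 : ℝ) := by rw [pm _ _ 1.0062 (by norm_num)]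
          _ ≤ y ^ (0.0001 : ℝ) * y ^ (1.0062 : ℝ) := by
              have := pos 1.0062
              gcongr
          _ = y ^ (1.0063 : ℝ) := pm _ _ _ (by norm_num)
          _ ≤ y ^ (1.01 : ℝ) := mon _ _ (by norm_num)
      have e2 : K * ((M : ℝ) * y) ≤ y ^ (1.01 : ℝ) := by
        calc K * ((M : ℝ) * y) ≤ 4 * K * M * y := by nlinarith [mul_pos (mul_pos (by linarith : 0 < K) (by linarith : (0 : ℝ) < M)) hy0]
          _ = 4 * K * M * y ^ (1 : ℝ) := by rw [Real.rpow_one]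
          _ ≤ y ^ (0.0001 : ℝ) * y ^ (1 : ℝ) := by
              have := pos 1
              gcongr
          _ = y ^ (1.0001 : ℝ) := pm _ _ _ (by norm_num)
          _ ≤ y ^ (1.01 : ℝ) := mon _ _ (by norm_num)
      have e3 := h4 g hg (x.1 + g * x.2.1) x.2.2 (by rw [abs_of_pos b1']; linarith)
        (by rw [abs_of_pos c0]; linarith) (fun h => b1.ne' h.1)
      exact_mod_cast e3
    -- the norm
    have hgex : (GG A).Nonempty := by
      rw [← card_pos, hcG]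
      exact_mod_cast hG0
    obtain ⟨g0, hg0⟩ := hgex
    obtain ⟨n1, n2, -⟩ := hbx M A hM hA6 g0 (hgK g0 hg0) x.1 xa x.2.1 xb x.2.2 xc
    rw [← hy] at n1 n2
    have n0 : (0 : ℝ) < nn k x.1 x.2.1 x.2.2 := lt_of_lt_of_le (by positivity) n1
    have n0' : 0 < nn k x.1 x.2.1 x.2.2 := by exact_mod_cast n0
    have nabs : (((nn k x.1 x.2.1 x.2.2).natAbs : ℕ) : ℝ) = nn k x.1 x.2.1 x.2.2 := by
      rw [Nat.cast_natAbs, abs_of_pos n0']
    have hom := cv_om (nn k x.1 x.2.1 x.2.2).natAbs (Int.natAbs_ne_zero.2 n0'.ne') y hy1 (by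
      rw [nabs]
      calc (nn k x.1 x.2.1 x.2.2 : ℝ) ≤ K * ((M : ℝ) * y) ^ 3 := n2
        _ = K * (M : ℝ) ^ 3 * y ^ 3 := by ring
        _ ≤ y ^ (0.0001 : ℝ) * y ^ 3 := by gcongr
        _ ≤ y ^ (1 : ℝ) * y ^ 3 := by
            have := mon 0.0001 1 (by norm_num)
            gcongr
        _ = y ^ 4 := by rw [Real.rpow_one]; ring) ε1 hε10 (r2.trans (mon _ _ (by norm_num)))
    have hB1 := bdg k hk0 w x.1 x.2.1 x.2.2 ε1 hcl hnice n0'.ne' G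
    rw [← hGG] at hB1
    have hB1' : (((GG A).filter fun g => Int.gcd (yy g (x.1 + g * x.2.1) x.2.2) (g ^ 3 - k) ≠ 1 ∨
        ¬ CP k g (x.1 + g * x.2.1) x.2.1 x.2.2).card : ℝ) ≤ 7 * ε1 * G := by
      have : ε1 / 6 * y ^ (0.0062 : ℝ) ≤ ε1 / 6 * G := by gcongr
      linarith
    have hWW : (WW k A x.1 x.2.1 x.2.2 : ℝ) = ∑ g ∈ GG A, (RR k A g (x.1 + g * x.2.1) x.2.2 : ℝ) := by
      unfold WW; push_cast; rfl
    have hsplit : ∑ g ∈ GG A, (RR k A g (x.1 + g * x.2.1) x.2.2 : ℝ) ≤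
        ∑ g ∈ (GG A).filter (fun g => Gd k A g (x.1 + g * x.2.1) x.2.2 ∧
          CP k g (x.1 + g * x.2.1) x.2.1 x.2.2), (RR k A g (x.1 + g * x.2.1) x.2.2 : ℝ) +
        144 * (7 * ε1 * G + ε2 * G) := by
      rw [← sum_filter_add_sum_filter_not (GG A) (fun g => Gd k A g (x.1 + g * x.2.1) x.2.2 ∧
          CP k g (x.1 + g * x.2.1) x.2.1 x.2.2)]
      refine add_le_add le_rfl ?_
      have t1 : ∑ g ∈ (GG A).filter (fun g => ¬ (Gd k A g (x.1 + g * x.2.1) x.2.2 ∧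
          CP k g (x.1 + g * x.2.1) x.2.1 x.2.2)), (RR k A g (x.1 + g * x.2.1) x.2.2 : ℝ) ≤
          144 * (((GG A).filter (fun g => ¬ (Gd k A g (x.1 + g * x.2.1) x.2.2 ∧
          CP k g (x.1 + g * x.2.1) x.2.1 x.2.2))).card : ℝ) := by
        have := sum_le_sum (s := (GG A).filter (fun g => ¬ (Gd k A g (x.1 + g * x.2.1) x.2.2 ∧
          CP k g (x.1 + g * x.2.1) x.2.1 x.2.2))) fun g hg => hRR g (mem_filter.1 hg).1
        rw [sum_const, nsmul_eq_mul] at this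
        linarith
      have t2 : (((GG A).filter (fun g => ¬ (Gd k A g (x.1 + g * x.2.1) x.2.2 ∧
          CP k g (x.1 + g * x.2.1) x.2.1 x.2.2))).card : ℝ) ≤ 7 * ε1 * G + ε2 * G := by
        have t3 : (GG A).filter (fun g => ¬ (Gd k A g (x.1 + g * x.2.1) x.2.2 ∧
            CP k g (x.1 + g * x.2.1) x.2.1 x.2.2)) ⊆
            ((GG A).filter fun g => Int.gcd (yy g (x.1 + g * x.2.1) x.2.2) (g ^ 3 - k) ≠ 1 ∨
              ¬ CP k g (x.1 + g * x.2.1) x.2.1 x.2.2) ∪ ((GG A).filter fun g => Q x g) := by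
          intro g hg
          rw [mem_filter] at hg
          obtain ⟨hg1, hg2⟩ := hg
          rw [mem_union, mem_filter, mem_filter]
          by_cases c1 : Int.gcd (yy g (x.1 + g * x.2.1) x.2.2) (g ^ 3 - k) = 1
          · by_cases c2 : CP k g (x.1 + g * x.2.1) x.2.1 x.2.2
            · right
              refine ⟨hg1, ?_⟩
              rw [hQ]
              refine ⟨hcl, c1, ?_⟩
              by_contra c3
              push Not at c3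
              exact hg2 ⟨⟨c3, c1⟩, c2⟩
            · exact Or.inl ⟨hg1, Or.inr c2⟩
          · exact Or.inl ⟨hg1, Or.inl c1⟩
        have t4 := (card_le_card t3).trans (card_union_le _ _)
        have t5 : (((GG A).filter (fun g => ¬ (Gd k A g (x.1 + g * x.2.1) x.2.2 ∧
            CP k g (x.1 + g * x.2.1) x.2.1 x.2.2))).card : ℝ) ≤
            (((GG A).filter fun g => Int.gcd (yy g (x.1 + g * x.2.1) x.2.2) (g ^ 3 - k) ≠ 1 ∨
              ¬ CP k g (x.1 + g * x.2.1) x.2.1 x.2.2).card : ℝ) +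
            (((GG A).filter fun g => Q x g).card : ℝ) := by exact_mod_cast t4
        linarith
      linarith
    have hfin : 144 * (7 * ε1 * G + ε2 * G) ≤ ε / 2 * W := by
      have e1 : 144 * (7 * ε1 * G + ε2 * G) = ε * cw / 4 * G := by rw [hε1, hε2]; ring
      rw [e1]
      calc ε * cw / 4 * G ≤ ε * cw / 4 * (2 * y ^ (0.0062 : ℝ)) := by gcongr
        _ = ε / 2 * (cw * y ^ (0.0062 : ℝ)) := by ring
        _ ≤ ε / 2 * W := by gcongr
    rw [hWW] at w1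
    have w3 := (abs_le.1 w1).1
    have w4 : 0 < ε * W := mul_pos hε hW0
    linarith

end H96.DR
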