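import Pool.Agent.H96.DR.Esg
import Pool.Agent.H23.LP.Dsc

/-!
# [DR EQG] equidistribution of the roots on a good line, 120-200 lines. File Pool/Agent/H96/DR/Eqg.lean

`C`, `M0` from `esg` (also `M0` of `boxg`). `S` = the filter set; `#S ≤ 2 A^0.9938/D` (`Jb_int`, `prog_len` as in `Esg`; the sum of `1` by `prog`). For `b ∈ S`: `n = ng > 0`, `j ∣ n` (`n` is a polynomial in `b`, `b ≡ τ (mod D)`, `j ∣ D`), `r = n/j > 0`, `CC` is prime to `n`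
(`cop_Cn`, `II > 0`; `cop_CC`), so there is `m b` with `n ∣ CC m + BB`, hence (`root_iff`) `n ∣ Cg m + Bg`; and for all `m'`: `r ∣ CC m' + BB ↔ m' ≡ m b [ZMOD r]`. So (as in `H23/LP/Cnn.lean`, `NN_eq`):
`NR k X r = X/r - saw ((2X - m b)/r) + saw ((X - m b)/r)`, `X/r = X j/n`, `(Y - m b)/r = j (Y - m b)/n`.
(`m` on `ℤ`: choose `0` outside of `S`.) `disc` for `τ b = (Y - m b)/r`, `Y ∈ {X, 2X}`, `ρ = A^-0.0062 ≤ 1/2`, `H = ⌊A^0.0126⌋ ≥ A^0.0126/2`: `#S (1/(2 H ρ) + 2 ρ) ≤ 2 A^0.9938 (A^-0.0064 + 2 A^-0.0062)/D ≤ 6 A^0.9876/D`; the exponential sums have the frequency `h j ≤ J A^0.0126 ≤ A^0.0127`: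
`∑_{h ≤ H} (1/h) C h j A^0.9734/D ≤ C J A^0.986/D ≤ A^0.9876/D` (`A` large). Together `≤ 7 A^0.9876/D` for each of the two.
-/

set_option autoImplicit false

namespace H96.DR

open Finset H23.LP

private theorem eqg_big (y : ℝ) (hy : 0 < y) (B : ℝ) :
    ∃ A0 : ℕ, ∀ A : ℕ, A0 ≤ A → B ≤ (A : ℝ) ^ y := by
  have h := ((tendsto_rpow_atTop hy).comp (tendsto_natCast_atTop_atTop (R := ℝ))).eventually
    (Filter.eventually_ge_atTop B)
  exact Filter.eventually_atTop.1 h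

/-- the number of solutions -/
private theorem nr_eq (k : ℤ) (X : ℕ) (a b c : ℤ) (j r : ℕ) (hr : 0 < r)
    (hn : nn k a b c = j * r) (h : Int.gcd (CC a b c) (nn k a b c) = 1) :
    ∃ m : ℤ, nn k a b c ∣ CC a b c * m + BB k a b c ∧
      (NR k X r a b c : ℝ) = X / r - saw (((2 * X : ℝ) - m) / r) + saw (((X : ℝ) - m) / r) := by
  obtain ⟨n, hn'⟩ : ∃ n : ℤ, n = nn k a b c := ⟨_, rfl⟩
  obtain ⟨C, hC⟩ : ∃ C : ℤ, C = CC a b c := ⟨_, rfl⟩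
  obtain ⟨B, hB⟩ : ∃ B : ℤ, B = BB k a b c := ⟨_, rfl⟩
  rw [← hn', ← hC] at h
  rw [← hn'] at hn
  have hbz := Int.gcd_eq_gcd_ab C n
  rw [h] at hbz
  obtain ⟨m, hm⟩ : ∃ m : ℤ, m = -(B * Int.gcdA C n) := ⟨_, rfl⟩
  have hroot : n ∣ C * m + B := by
    refine ⟨B * Int.gcdB C n, ?_⟩
    rw [hm]
    push_cast at hbz
    linear_combination B * hbz
  refine ⟨m, by rw [← hn', ← hC, ← hB]; exact hroot, ?_⟩
  have hrn : (r : ℤ) ∣ n := ⟨j, by rw [hn]; ring⟩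
  have hroot' : (r : ℤ) ∣ C * m + B := hrn.trans hroot
  have hiff : ∀ m' : ℤ, (r : ℤ) ∣ C * m' + B ↔ m' ≡ m [ZMOD (r : ℤ)] := by
    intro m'
    have hcop : IsCoprime (r : ℤ) C := by
      have h1 : IsCoprime n C := (Int.isCoprime_iff_gcd_eq_one.2 h).symm
      exact h1.of_isCoprime_of_dvd_left hrn
    rw [Int.modEq_iff_dvd]
    have e : C * m' + B = (C * m + B) - C * (m - m') := by ring
    rw [e, dvd_sub_right hroot']
    exact ⟨fun h' => hcop.dvd_of_dvd_mul_left h', fun h' => dvd_mul_of_dvd_right h' _⟩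
  have hr' : (0 : ℤ) < (r : ℤ) := by exact_mod_cast hr
  have hcard : ((NR k X r a b c : ℕ) : ℤ) =
      max (⌊(((2 * (X : ℤ) : ℤ) : ℚ) - (m : ℚ)) / ((r : ℤ) : ℚ)⌋ -
        ⌊(((X : ℤ) : ℚ) - (m : ℚ)) / ((r : ℤ) : ℚ)⌋) 0 := by
    unfold NR
    rw [← hC, ← hB, ← Int.Ioc_filter_modEq_card _ _ hr' m]
    congr 2
    exact filter_congr fun m' _ => hiff m'
  have hnR : (0 : ℝ) < (r : ℝ) := by exact_mod_cast hr
  have f2 : ⌊(((2 * (X : ℤ) : ℤ) : ℚ) - (m : ℚ)) / ((r : ℤ) : ℚ)⌋ = ⌊((2 * X : ℝ) - m) / r⌋ := by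
    rw [← Rat.floor_cast (α := ℝ)]
    push_cast
    rfl
  have f1 : ⌊(((X : ℤ) : ℚ) - (m : ℚ)) / ((r : ℤ) : ℚ)⌋ = ⌊((X : ℝ) - m) / r⌋ := by
    rw [← Rat.floor_cast (α := ℝ)]
    push_cast
    rfl
  rw [f1, f2] at hcard
  have hmono : ⌊((X : ℝ) - m) / r⌋ ≤ ⌊((2 * X : ℝ) - m) / r⌋ := by
    refine Int.floor_le_floor ?_
    refine div_le_div_of_nonneg_right ?_ hnR.le
    have : (0 : ℝ) ≤ X := Nat.cast_nonneg _
    linarith
  rw [max_eq_left (by linarith)] at hcard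
  have hcR : ((NR k X r a b c : ℕ) : ℝ) =
      (⌊((2 * X : ℝ) - m) / r⌋ : ℝ) - (⌊((X : ℝ) - m) / r⌋ : ℝ) := by
    exact_mod_cast congrArg (Int.cast (R := ℝ)) hcard
  rw [hcR]
  unfold saw Int.fract
  field_simp
  ring

/-- one of the two sums -/
private theorem eqg_one {S : Finset ℤ} {x : ℤ → ℝ} {j J D : ℕ} {a C : ℝ} (hj : 1 ≤ j) (hJ : j ≤ J)
    (hD : 0 < D) (hC : 0 < C) (ha1 : 1 ≤ a)
    (hcard : (S.card : ℝ) ≤ 2 * a ^ (0.9938 : ℝ) / D)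
    (k1 : 2 ≤ a ^ (0.0062 : ℝ)) (k3 : C * J ≤ a ^ (0.0016 : ℝ)) (k4 : (J : ℝ) ≤ a ^ (0.0001 : ℝ))
    (hes : ∀ h : ℕ, 1 ≤ h → (h : ℝ) ≤ a ^ (0.0127 : ℝ) →
      ‖∑ b ∈ S, ee (h * x b)‖ ≤ C * h * (a ^ (0.9734 : ℝ) / D)) :
    |∑ b ∈ S, saw (j * x b)| ≤ 7 * a ^ (0.9876 : ℝ) / D := by
  have ha0 : 0 < a := by linarith
  have hadd : ∀ s t u : ℝ, s + t = u → a ^ s * a ^ t = a ^ u := fun s t u h => by
    rw [← Real.rpow_add ha0, h]
  have hpos : ∀ s : ℝ, 0 < a ^ s := fun s => Real.rpow_pos_of_pos ha0 s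
  have hmo : ∀ s t : ℝ, s ≤ t → a ^ s ≤ a ^ t := fun s t h =>
    Real.rpow_le_rpow_of_exponent_le ha1 h
  have hDr : (0 : ℝ) < (D : ℝ) := by exact_mod_cast hD
  have k2 : 2 ≤ a ^ (0.0126 : ℝ) := k1.trans (hmo _ _ (by norm_num))
  obtain ⟨H, hH⟩ : ∃ H : ℕ, H = ⌊a ^ (0.0126 : ℝ)⌋₊ := ⟨_, rfl⟩
  have hH1 : 1 ≤ H := by
    rw [hH]
    exact Nat.le_floor (by push_cast; linarith)
  have hHle : (H : ℝ) ≤ a ^ (0.0126 : ℝ) := by
    rw [hH]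
    exact Nat.floor_le (hpos _).le
  have hHge : a ^ (0.0126 : ℝ) ≤ 2 * H := by
    have h1 : a ^ (0.0126 : ℝ) < (H : ℝ) + 1 := by
      rw [hH]
      exact Nat.lt_floor_add_one _
    have h2 : (1 : ℝ) ≤ (H : ℝ) := by exact_mod_cast hH1
    linarith
  have hHr : (0 : ℝ) < (H : ℝ) := by
    have h2 : (1 : ℝ) ≤ (H : ℝ) := by exact_mod_cast hH1
    linarith
  obtain ⟨ρ, hρ⟩ : ∃ ρ : ℝ, ρ = a ^ (-(0.0062 : ℝ)) := ⟨_, rfl⟩
  have hρ0 : 0 < ρ := by rw [hρ]; exact hpos _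
  have hρ1 : a ^ (0.0062 : ℝ) * ρ = 1 := by
    rw [hρ, hadd _ _ 0 (by norm_num), Real.rpow_zero]
  have hρ2 : ρ ≤ 1 / 2 := by nlinarith
  have key := disc S (fun b => (j : ℝ) * x b) H hH1 ρ hρ0 hρ2
  have e1 : 1 / (2 * H * ρ) ≤ ρ := by
    rw [div_le_iff₀ (by positivity)]
    have h1 : 1 ≤ a ^ (0.0002 : ℝ) := Real.one_le_rpow ha1 (by norm_num)
    have h2 : a ^ (0.0126 : ℝ) * (ρ * ρ) = a ^ (0.0002 : ℝ) := by
      rw [hρ, hadd (-(0.0062 : ℝ)) (-(0.0062 : ℝ)) (-(0.0124 : ℝ)) (by norm_num),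
        hadd _ _ 0.0002 (by norm_num)]
    calc (1 : ℝ) ≤ a ^ (0.0126 : ℝ) * (ρ * ρ) := by rw [h2]; exact h1
      _ ≤ 2 * H * (ρ * ρ) := mul_le_mul_of_nonneg_right hHge (by positivity)
      _ = ρ * (2 * H * ρ) := by ring
  have e2 : (S.card : ℝ) * (1 / (2 * H * ρ) + 2 * ρ) ≤ 6 * a ^ (0.9876 : ℝ) / D := by
    calc (S.card : ℝ) * (1 / (2 * H * ρ) + 2 * ρ) ≤ (2 * a ^ (0.9938 : ℝ) / D) * (3 * ρ) := by
          refine mul_le_mul hcard (by linarith) (by positivity) ?_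
          have := hpos (0.9938 : ℝ)
          positivity
      _ = 6 * (a ^ (0.9938 : ℝ) * ρ) / D := by ring
      _ = 6 * a ^ (0.9876 : ℝ) / D := by
          rw [hρ, hadd _ _ 0.9876 (by norm_num)]
  have e3 : ∑ h ∈ Icc 1 H, (1 / (h : ℝ)) * ‖∑ i ∈ S, ee (h * ((j : ℝ) * x i))‖ ≤
      a ^ (0.9876 : ℝ) / D := by
    have h1 : ∀ h ∈ Icc 1 H, (1 / (h : ℝ)) * ‖∑ i ∈ S, ee (h * ((j : ℝ) * x i))‖ ≤
        C * J * (a ^ (0.9734 : ℝ) / D) := by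
      intro h hh
      rw [mem_Icc] at hh
      have hhr : (0 : ℝ) < (h : ℝ) := by exact_mod_cast hh.1
      have hhj : 1 ≤ h * j := Nat.mul_pos hh.1 hj
      have hjJ : (j : ℝ) ≤ (J : ℝ) := by exact_mod_cast hJ
      have hle : ((h * j : ℕ) : ℝ) ≤ a ^ (0.0127 : ℝ) := by
        push_cast
        calc (h : ℝ) * j ≤ a ^ (0.0126 : ℝ) * a ^ (0.0001 : ℝ) := by
              refine mul_le_mul ?_ (hjJ.trans k4) (by positivity) (hpos _).le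
              have : (h : ℝ) ≤ (H : ℝ) := by exact_mod_cast hh.2
              exact this.trans hHle
          _ = a ^ (0.0127 : ℝ) := hadd _ _ _ (by norm_num)
      have h2 := hes (h * j) hhj hle
      have h3 : ∑ i ∈ S, ee (h * ((j : ℝ) * x i)) = ∑ b ∈ S, ee (((h * j : ℕ) : ℝ) * x b) := by
        refine sum_congr rfl fun b _ => ?_
        push_cast
        rw [mul_assoc]
      rw [h3, div_mul_eq_mul_div, one_mul, div_le_iff₀ hhr]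
      refine h2.trans ?_
      push_cast
      have h4 : 0 ≤ a ^ (0.9734 : ℝ) / D := by
        have := hpos (0.9734 : ℝ)
        positivity
      calc C * (h * j) * (a ^ (0.9734 : ℝ) / D) ≤ C * (h * J) * (a ^ (0.9734 : ℝ) / D) := by
            gcongr
        _ = C * J * (a ^ (0.9734 : ℝ) / D) * h := by ring
    refine (sum_le_sum h1).trans ?_
    rw [sum_const, Nat.card_Icc, nsmul_eq_mul, Nat.add_sub_cancel]
    have h4 : 0 ≤ a ^ (0.9734 : ℝ) / D := by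
      have := hpos (0.9734 : ℝ)
      positivity
    calc (H : ℝ) * (C * J * (a ^ (0.9734 : ℝ) / D)) ≤
          a ^ (0.0126 : ℝ) * (a ^ (0.0016 : ℝ) * (a ^ (0.9734 : ℝ) / D)) := by
            have := (hpos (0.0126 : ℝ)).le
            gcongr
      _ = (a ^ (0.0126 : ℝ) * a ^ (0.0016 : ℝ)) * a ^ (0.9734 : ℝ) / D := by ring
      _ = a ^ (0.9876 : ℝ) / D := by
          rw [hadd _ _ 0.0142 (by norm_num), hadd _ _ 0.9876 (by norm_num)]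
  have e4 : 7 * a ^ (0.9876 : ℝ) / D = 6 * a ^ (0.9876 : ℝ) / D + a ^ (0.9876 : ℝ) / D := by ring
  rw [e4]
  exact key.trans (add_le_add e2 e3)

/-- the number of points -/
private theorem eqg_card (k : ℤ) (M A : ℕ) (g s : ℤ) (hg : 0 < g) (D : ℕ) (hD : 0 < D) (τ : ℤ)
    (S : Finset ℤ) (hS : ∀ b ∈ S, b ∈ Jb k M A g s ∧ b ≡ τ [ZMOD (D : ℤ)]) :
    (S.card : ℝ) ≤ (A / g + 1) / D + 1 := by
  obtain ⟨s0, e0, h1, h2, h3⟩ := Jb_int k M A g s hg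
  have hDr : (0 : ℝ) < (D : ℝ) := by exact_mod_cast hD
  have h4 : S ⊆ (Ioc s0 e0).filter (fun b => b ≡ τ [ZMOD (D : ℤ)]) := by
    intro b hb
    obtain ⟨h5, h6⟩ := hS b hb
    rw [h2] at h5
    exact mem_filter.2 ⟨h5, h6⟩
  have h5 := card_le_card h4
  have h6 := prog (R := ℕ) s0 e0 τ D hD (fun _ => 1)
  rw [← card_eq_sum_ones, ← card_eq_sum_ones, Int.card_Ioc] at h6
  rw [h6] at h5
  have h7 := prog_len s0 e0 τ D hD h1
  have h8 : (0 : ℤ) ≤ (e0 - τ) / D - (s0 - τ) / D := by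
    have : (s0 - τ) / (D : ℤ) ≤ (e0 - τ) / D :=
      Int.ediv_le_ediv (by exact_mod_cast hD) (by omega)
    omega
  have h9 : (S.card : ℤ) ≤ (e0 - τ) / D - (s0 - τ) / D := by
    rw [← Int.toNat_of_nonneg h8]
    exact_mod_cast h5
  have h10 : (S.card : ℝ) ≤ (((e0 - τ) / D - (s0 - τ) / D : ℤ) : ℝ) := by exact_mod_cast h9
  refine (h10.trans h7).trans ?_
  have h11 : ((e0 - s0 : ℤ) : ℝ) / D ≤ (A / g + 1) / D := div_le_div_of_nonneg_right h3 hDr.le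
  linarith

/-- the norm modulo `D` -/
private theorem ng_mod (k g s c : ℤ) (D : ℤ) {b τ : ℤ} (h : b ≡ τ [ZMOD D]) :
    ng k g s b c ≡ ng k g s τ c [ZMOD D] := by
  unfold ng nn
  gcongr

open Classical in
theorem eqg (k : ℤ) (hk : ∀ t : ℤ, t ^ 3 ≠ k) : ∃ M0 : ℕ, 1 ≤ M0 ∧ ∀ M J : ℕ, M0 ≤ M → ∃ A0 : ℕ,
    ∀ A X : ℕ, A0 ≤ A → (X : ℝ) ≤ (A : ℝ) ^ 3 → ∀ g ∈ GG A, ∀ s c : ℤ, c ∈ Ic M A →
    0 < RR k A g s c → Gd k A g s c → ∀ j D : ℕ, 1 ≤ j → j ≤ J → 0 < D →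
    (D : ℝ) ≤ (A : ℝ) ^ (0.13 : ℝ) → j ∣ D → ∀ τ : ℤ, (j : ℤ) ∣ ng k g s τ c →
    |∑ b ∈ (Jb k M A g s).filter (fun b => b ≡ τ [ZMOD (D : ℤ)] ∧ CP k g s b c),
      ((NR k X (ng k g s b c / j).natAbs (s - g * b) b c : ℝ) - (X : ℝ) * j / ng k g s b c)| ≤
      15 * (A : ℝ) ^ (0.9876 : ℝ) / D := by
  obtain ⟨C, hC, M1, hM1, hesg⟩ := esg k hk
  obtain ⟨K, hK, M2, hM2, hbox⟩ := boxg k
  refine ⟨max M1 M2, hM1.trans (le_max_left _ _), fun M J hM => ?_⟩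
  have hMM1 : M1 ≤ M := (le_max_left _ _).trans hM
  have hMM2 : M2 ≤ M := (le_max_right _ _).trans hM
  obtain ⟨A0, hA0⟩ := hesg M hMM1
  obtain ⟨A1, g1⟩ := eqg_big 0.0062 (by norm_num) (max K 2)
  obtain ⟨A2, g2⟩ := eqg_big 0.0016 (by norm_num) (C * J)
  obtain ⟨A3, g3⟩ := eqg_big 0.0001 (by norm_num) J
  obtain ⟨A4, g4⟩ := eqg_big 0.8638 (by norm_num) 2
  refine ⟨max 1 (max (max A0 A1) (max A2 (max A3 A4))), ?_⟩
  intro A X hA hX g hg s c hc hRR hGd j D hj hjJ hD hDA hjD τ hτ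
  have hAA : 1 ≤ A := (le_max_left _ _).trans hA
  have hA' := (le_max_right _ _).trans hA
  have hAA0 : A0 ≤ A := ((le_max_left _ _).trans (le_max_left _ _)).trans hA'
  have hAA1 : A1 ≤ A := ((le_max_right _ _).trans (le_max_left _ _)).trans hA'
  have hA'' := (le_max_right _ _).trans hA'
  have hAA2 : A2 ≤ A := (le_max_left _ _).trans hA''
  have hA4' := (le_max_right _ _).trans hA''
  have hAA3 : A3 ≤ A := (le_max_left _ _).trans hA4'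
  have hAA4 : A4 ≤ A := (le_max_right _ _).trans hA4'
  have k0 : K ≤ (A : ℝ) ^ (0.0062 : ℝ) := (le_max_left _ _).trans (g1 A hAA1)
  have k1 : 2 ≤ (A : ℝ) ^ (0.0062 : ℝ) := (le_max_right _ _).trans (g1 A hAA1)
  have k2 := g2 A hAA2
  have k3 := g3 A hAA3
  have k4 := g4 A hAA4
  have ha1 : (1 : ℝ) ≤ (A : ℝ) := by exact_mod_cast hAA
  have ha0 : (0 : ℝ) < (A : ℝ) := by linarith
  have hDr : (0 : ℝ) < (D : ℝ) := by exact_mod_cast hD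
  have hpos : ∀ s : ℝ, 0 < (A : ℝ) ^ s := fun s => Real.rpow_pos_of_pos ha0 s
  have hadd : ∀ s t u : ℝ, s + t = u → (A : ℝ) ^ s * (A : ℝ) ^ t = (A : ℝ) ^ u := fun s t u h => by
    rw [← Real.rpow_add ha0, h]
  -- the size of `g`
  have hgA : (A : ℝ) ^ (0.0062 : ℝ) ≤ (g : ℝ) := by
    unfold GG at hg
    rw [mem_Ioc] at hg
    have h1 : (A : ℝ) ^ (0.0062 : ℝ) ≤ (Gn A : ℝ) := Nat.le_ceil _
    have h2 : (Gn A : ℝ) < (g : ℝ) := by exact_mod_cast hg.1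
    linarith
  have hgK : K ≤ (g : ℝ) := k0.trans hgA
  have hg0 : (0 : ℝ) < (g : ℝ) := by linarith
  have hgz : 0 < g := by exact_mod_cast hg0
  obtain ⟨S, hS⟩ : ∃ S : Finset ℤ, S = (Jb k M A g s).filter
    (fun b => b ≡ τ [ZMOD (D : ℤ)] ∧ CP k g s b c) := ⟨_, rfl⟩
  rw [← hS]
  have hmem : ∀ b ∈ S, b ∈ Jb k M A g s ∧ b ≡ τ [ZMOD (D : ℤ)] ∧ CP k g s b c := by
    intro b hb
    rw [hS, mem_filter] at hb
    exact hb
  have hcard : (S.card : ℝ) ≤ 2 * (A : ℝ) ^ (0.9938 : ℝ) / D := by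
    refine (eqg_card k M A g s hgz D hD τ S fun b hb => ⟨(hmem b hb).1, (hmem b hb).2.1⟩).trans ?_
    have h1 : (A : ℝ) / g ≤ (A : ℝ) ^ (0.9938 : ℝ) := by
      rw [div_le_iff₀ hg0]
      have h2 : (A : ℝ) = (A : ℝ) ^ (0.9938 : ℝ) * (A : ℝ) ^ (0.0062 : ℝ) := by
        rw [hadd _ _ 1 (by norm_num), Real.rpow_one]
      calc (A : ℝ) = (A : ℝ) ^ (0.9938 : ℝ) * (A : ℝ) ^ (0.0062 : ℝ) := h2
        _ ≤ (A : ℝ) ^ (0.9938 : ℝ) * g := mul_le_mul_of_nonneg_left hgA (hpos _).le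
    have h3 : 1 + (D : ℝ) ≤ (A : ℝ) ^ (0.9938 : ℝ) := by
      have h4 : (A : ℝ) ^ (0.8638 : ℝ) * (A : ℝ) ^ (0.13 : ℝ) = (A : ℝ) ^ (0.9938 : ℝ) :=
        hadd _ _ _ (by norm_num)
      have h5 : (1 : ℝ) ≤ (A : ℝ) ^ (0.13 : ℝ) := Real.one_le_rpow ha1 (by norm_num)
      rw [← h4]
      nlinarith
    rw [div_add_one hDr.ne', div_le_div_iff_of_pos_right hDr]
    linarith
  -- the roots
  have hex : ∀ b ∈ S, ∃ m : ℤ, ng k g s b c ∣ Cg k g s b c * m + Bg k g s b c ∧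
      (NR k X (ng k g s b c / j).natAbs (s - g * b) b c : ℝ) - (X : ℝ) * j / ng k g s b c =
        -saw (j * (((2 * X : ℤ) - m : ℝ) / ng k g s b c)) +
          saw (j * ((((X : ℤ) : ℝ) - m) / ng k g s b c)) := by
    intro b hb
    obtain ⟨hb1, hb2, hb3⟩ := hmem b hb
    unfold Jb at hb1
    rw [mem_filter] at hb1
    have hes := hbox M A hMM2 hAA g hgK (s - g * b) hb1.2 b hb1.1 c hc
    have e0 : s - g * b + g * b = s := by ring
    rw [e0] at hes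
    have hPpos : (0 : ℝ) < (M : ℝ) * A := by
      have : (1 : ℝ) ≤ (M : ℝ) := by exact_mod_cast (hM2.trans hMM2)
      positivity
    have hn0 : 0 < ng k g s b c := by
      have h1 : (0 : ℝ) < (nn k (s - g * b) b c : ℝ) := lt_of_lt_of_le (by positivity) hes.1
      have h2 : 0 < nn k (s - g * b) b c := by exact_mod_cast h1
      exact h2
    have hI0 : II k g s c ≠ 0 := by
      have h1 : (0 : ℝ) < (II k g s c : ℝ) := lt_of_lt_of_le (by positivity) hes.2.2.1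
      have h2 : 0 < II k g s c := by exact_mod_cast h1
      exact h2.ne'
    have hcop := cop_Cn k g s b c hI0 hb3
    have hcop2 := cop_CC k g s b c hcop
    have hjn : (j : ℤ) ∣ ng k g s b c := by
      have h1 : (j : ℤ) ∣ (D : ℤ) := by exact_mod_cast hjD
      have h2 := (ng_mod k g s c (D : ℤ) hb2).symm.dvd
      have h3 : ng k g s b c = (ng k g s b c - ng k g s τ c) + ng k g s τ c := by ring
      rw [h3]
      exact dvd_add (h1.trans h2) hτ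
    obtain ⟨r', hr'⟩ := hjn
    have hj0 : (0 : ℤ) < (j : ℤ) := by exact_mod_cast hj
    have hr'0 : 0 < r' := by
      rw [hr'] at hn0
      exact (mul_pos_iff_of_pos_left hj0).1 hn0
    obtain ⟨r, rfl⟩ : ∃ r : ℕ, r' = r := ⟨r'.toNat, (Int.toNat_of_nonneg hr'0.le).symm⟩
    have hr0 : 0 < r := by exact_mod_cast hr'0
    have hdiv : (ng k g s b c / j).natAbs = r := by
      rw [hr', Int.mul_ediv_cancel_left _ hj0.ne', Int.natAbs_natCast]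
    obtain ⟨m, hm1, hm2⟩ := nr_eq k X (s - g * b) b c j r hr0 hr' hcop2
    refine ⟨m, (root_iff k g s b c m hcop).2 hm1, ?_⟩
    have hrr : (0 : ℝ) < (r : ℝ) := by exact_mod_cast hr0
    have hjr : (0 : ℝ) < (j : ℝ) := by exact_mod_cast hj
    have hnr : (ng k g s b c : ℝ) = j * r := by
      rw [hr']
      push_cast
      ring
    rw [hdiv, hm2, hnr]
    have e1 : (X : ℝ) * j / (j * r) = X / r := by field_simp
    have e2 : ((2 * X : ℝ) - m) / r = j * (((2 * X : ℤ) - m : ℝ) / (j * r)) := by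
      push_cast
      field_simp
    have e3 : ((X : ℝ) - m) / r = j * ((((X : ℤ) : ℝ) - m) / (j * r)) := by
      push_cast
      field_simp
    rw [e1, e2, e3]
    ring
  choose! m hm using hex
  have hsum : ∀ Y : ℤ, |Y| ≤ 2 * X →
      |∑ b ∈ S, saw (j * (((Y : ℝ) - m b) / ng k g s b c))| ≤ 7 * (A : ℝ) ^ (0.9876 : ℝ) / D := by
    intro Y hY
    refine eqg_one (x := fun b => ((Y : ℝ) - m b) / ng k g s b c) hj hjJ hD hC ha1 hcard k1 k2 k3 ?_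
    intro h hh1 hh2
    have := hA0 A X hAA0 hX g hg s c hc hRR hGd D h hD hDA hh1 hh2 τ Y hY m (by
      rw [← hS]
      exact fun b hb => (hm b hb).1)
    rw [← hS] at this
    exact this
  rw [sum_congr rfl fun b hb => (hm b hb).2, sum_add_distrib, sum_neg_distrib]
  have s1 := hsum (2 * X : ℤ) (by rw [abs_of_nonneg (by positivity)])
  have s2 := hsum (X : ℤ) (by rw [abs_of_nonneg (by positivity)]; linarith [Int.natCast_nonneg X])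
  have e5 : 15 * (A : ℝ) ^ (0.9876 : ℝ) / D = 7 * (A : ℝ) ^ (0.9876 : ℝ) / D +
      7 * (A : ℝ) ^ (0.9876 : ℝ) / D + (A : ℝ) ^ (0.9876 : ℝ) / D := by ring
  rw [e5]
  have e6 : 0 ≤ (A : ℝ) ^ (0.9876 : ℝ) / D := div_nonneg (hpos _).le hDr.le
  rw [abs_le] at s1 s2 ⊢
  push_cast at s1 s2 ⊢
  constructor
  · linarith [s1.2, s2.1]
  · linarith [s1.1, s2.2]

end H96.DR
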