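import Pool.Agent.H96.DR.Def
import Pool.Agent.H19.QV.GCD

/-!
# [DR GSM] a sum over squarefree `d` with `gcd(d, N)`, 80-130 lines. File Pool/Agent/H96/DR/Gsm.lean

`d = ∏_{p ∈ S} p` determines `S` (`S = d.primeFactors`, `Nat.primeFactors_prod`), `|S| = ω(d)`, `∏_{p ∈ S} gcd(p, N) = gcd(d, N)` (distinct primes: `Nat.Coprime.gcd_mul`, induction; `≤` is enough: every factor `gcd(p, N)` is `1` or `p`, the product of those `p ∣ N` divides `d` and `N`),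
`9^|S| ≤ B d^(ε/3) ≤ B A^(ε/3)` (`H19.QV.pow_omega`). So the sum is `≤ B A^(ε/3) ∑_{1 ≤ d ≤ A} gcd(d, N)/d`, and `gcd(d, N) ≤ ∑_{e ∣ N, e ∣ d} e` gives `∑_{d ≤ A} gcd(d, N)/d ≤ ∑_{e ∣ N} ∑_{d ≤ A, e ∣ d} e/d ≤ τ(N) ∑_{d' ≤ A} 1/d' ≤ τ(N) (1 + log A)`
(`d = e d'`). `τ(N) ≤ B' N^(ε/24) ≤ B' A^(ε/6)` (`N ≤ A⁴`; a divisor bound: `H19/QV` has only squarefree; `τ(n) ≤ C_ε n^ε`: search `Pool/Agent` for `divisors.card`, e.g. `H6/LP/Tau`-type lemmas, or avoid it: only squarefree `e ∣ N` matter, because `d` is squarefree: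
`gcd(d, N)` is squarefree, so `gcd(d, N) ≤ ∑_{e ∈ divisors of rad N, e ∣ d} e`, and the number of squarefree divisors of `N` is `2^ω(N) ≤ B' N^(ε/24)`). Total `≤ B B' A^(ε/3 + ε/6) (1 + log A) ≤ A^ε` for `A` large.
-/

set_option autoImplicit false

namespace H96.DR

open Finset

private theorem harm (A : ℕ) : ∑ d ∈ Icc 1 A, (1 : ℝ) / d ≤ 1 + Real.log A := by
  have h := harmonic_le_one_add_log A
  rw [harmonic_eq_sum_Icc] at h
  push_cast at h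
  simpa only [one_div] using h

private theorem prod_gcd (N : ℕ) (hN : 0 < N) (S : Finset ℕ) (hS : ∀ p ∈ S, p.Prime) :
    (∏ p ∈ S, (Nat.gcd p N : ℝ)) = ∏ p ∈ S ∩ N.primeFactors, (p : ℝ) := by
  classical
  rw [← Finset.filter_mem_eq_inter, Finset.prod_filter]
  refine Finset.prod_congr rfl fun p hp => ?_
  split_ifs with h
  · rw [Nat.gcd_eq_left (Nat.dvd_of_mem_primeFactors h)]
  · have h1 : ¬ p ∣ N := fun h2 => h (Nat.mem_primeFactors.2 ⟨hS p hp, h2, hN.ne'⟩)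
    have h2 : Nat.gcd p N = 1 := (Nat.Prime.coprime_iff_not_dvd (hS p hp)).2 h1
    rw [h2, Nat.cast_one]

private theorem fiber_sum (A : ℕ) (U P : Finset ℕ) (Z : Finset (Finset ℕ))
    (hZ : ∀ S ∈ Z, (∀ p ∈ S, p.Prime) ∧ ((∏ p ∈ S, p : ℕ) : ℝ) ≤ A) :
    ∑ S ∈ Z with S ∩ P = U, (1 : ℝ) / ((∏ p ∈ S \ U, p : ℕ) : ℝ) ≤ 1 + Real.log A := by
  classical
  have hinj : Set.InjOn (fun S : Finset ℕ => ∏ p ∈ S \ U, p) (Z.filter fun S => S ∩ P = U) := by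
    intro S hS S' hS' he
    rw [mem_coe, mem_filter] at hS hS'
    have h1 : (∏ p ∈ S \ U, p).primeFactors = S \ U :=
      Nat.primeFactors_prod fun p hp => (hZ S hS.1).1 p (mem_sdiff.1 hp).1
    have h2 : (∏ p ∈ S' \ U, p).primeFactors = S' \ U :=
      Nat.primeFactors_prod fun p hp => (hZ S' hS'.1).1 p (mem_sdiff.1 hp).1
    have he' : ∏ p ∈ S \ U, p = ∏ p ∈ S' \ U, p := he
    rw [he', h2] at h1
    have u1 : U ⊆ S := by rw [← hS.2]; exact inter_subset_left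
    have u2 : U ⊆ S' := by rw [← hS'.2]; exact inter_subset_left
    rw [← sdiff_union_of_subset u1, ← sdiff_union_of_subset u2, h1]
  rw [← Finset.sum_image (f := fun d : ℕ => (1 : ℝ) / (d : ℝ)) hinj]
  refine (Finset.sum_le_sum_of_subset_of_nonneg ?_ (fun d _ _ => by positivity)).trans (harm A)
  intro d hd
  rw [mem_image] at hd
  obtain ⟨S, hS, rfl⟩ := hd
  rw [mem_filter] at hS
  have hpr := (hZ S hS.1).1
  have hle : (∏ p ∈ S, p : ℕ) ≤ A := by exact_mod_cast (hZ S hS.1).2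
  rw [mem_Icc]
  constructor
  · exact Nat.one_le_iff_ne_zero.2 (Finset.prod_ne_zero_iff.2 fun p hp => (hpr p (mem_sdiff.1 hp).1).ne_zero)
  · refine (Nat.le_of_dvd ?_ (Finset.prod_dvd_prod_of_subset _ _ _ sdiff_subset)).trans hle
    exact Finset.prod_pos fun p hp => (hpr p hp).pos

theorem gsum (ε : ℝ) (hε : 0 < ε) : ∃ A0 : ℕ, ∀ A N : ℕ, A0 ≤ A → 0 < N → (N : ℝ) ≤ (A : ℝ) ^ 4 →
    ∀ Z : Finset (Finset ℕ), (∀ S ∈ Z, (∀ p ∈ S, p.Prime) ∧ ((∏ p ∈ S, p : ℕ) : ℝ) ≤ A) →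
    ∑ S ∈ Z, (9 : ℝ) ^ S.card * (∏ p ∈ S, (Nat.gcd p N : ℝ)) / ((∏ p ∈ S, p : ℕ) : ℝ) ≤
      (A : ℝ) ^ ε := by
  classical
  obtain ⟨B, hB1, hB⟩ := Pool.Agent.H19.QV.pow_omega 9 (ε / 3) (by norm_num) (by positivity)
  obtain ⟨B', hB1', hB'⟩ := Pool.Agent.H19.QV.pow_omega 2 (ε / 24) (by norm_num) (by positivity)
  set K : ℝ := B * B' * (1 + 4 / ε) with hK
  have hK0 : 0 < K := by positivity
  refine ⟨⌈K ^ (4 / ε)⌉₊ + 1, ?_⟩
  intro A N hA hN hNA Z hZ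
  have hA1 : 1 ≤ A := by omega
  have hA1' : (1 : ℝ) ≤ A := by exact_mod_cast hA1
  have hA0 : (0 : ℝ) < A := by linarith
  have hKA : K ≤ (A : ℝ) ^ (ε / 4) := by
    have h1 : K ^ (4 / ε) ≤ (A : ℝ) := by
      refine (Nat.le_ceil _).trans ?_
      exact_mod_cast (Nat.le_succ _).trans hA
    calc K = (K ^ (4 / ε)) ^ (ε / 4) := by
          rw [← Real.rpow_mul hK0.le]
          have : 4 / ε * (ε / 4) = 1 := by field_simp
          rw [this, Real.rpow_one]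
      _ ≤ (A : ℝ) ^ (ε / 4) := Real.rpow_le_rpow (by positivity) h1 (by positivity)
  -- bound of one term
  have hterm : ∀ S ∈ Z, (9 : ℝ) ^ S.card * (∏ p ∈ S, (Nat.gcd p N : ℝ)) / ((∏ p ∈ S, p : ℕ) : ℝ) ≤
      B * (A : ℝ) ^ (ε / 3) * ((1 : ℝ) / ((∏ p ∈ S \ (S ∩ N.primeFactors), p : ℕ) : ℝ)) := by
    intro S hS
    obtain ⟨hpr, hle⟩ := hZ S hS
    have hd0 : 0 < ∏ p ∈ S, p := Finset.prod_pos fun p hp => (hpr p hp).pos
    have h1 := hB (∏ p ∈ S, p) hd0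
    rw [Nat.primeFactors_prod hpr] at h1
    have h2 : (9 : ℝ) ^ S.card ≤ B * (A : ℝ) ^ (ε / 3) := by
      refine h1.trans ?_
      gcongr
    rw [prod_gcd N hN S hpr]
    have h3 : (((∏ p ∈ S, p : ℕ)) : ℝ) = ((∏ p ∈ S \ (S ∩ N.primeFactors), p : ℕ) : ℝ) *
        ∏ p ∈ S ∩ N.primeFactors, (p : ℝ) := by
      rw [← Finset.prod_sdiff (inter_subset_left : S ∩ N.primeFactors ⊆ S)]
      push_cast
      rfl
    have h4 : (0 : ℝ) < ∏ p ∈ S ∩ N.primeFactors, (p : ℝ) :=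
      Finset.prod_pos fun p hp => by exact_mod_cast (hpr p (mem_inter.1 hp).1).pos
    have h5 : (0 : ℝ) < ((∏ p ∈ S \ (S ∩ N.primeFactors), p : ℕ) : ℝ) := by
      exact_mod_cast Finset.prod_pos fun p hp => (hpr p (mem_sdiff.1 hp).1).pos
    rw [h3]
    calc (9 : ℝ) ^ S.card * (∏ p ∈ S ∩ N.primeFactors, (p : ℝ)) /
          (((∏ p ∈ S \ (S ∩ N.primeFactors), p : ℕ) : ℝ) * ∏ p ∈ S ∩ N.primeFactors, (p : ℝ))
        = (9 : ℝ) ^ S.card * (1 / ((∏ p ∈ S \ (S ∩ N.primeFactors), p : ℕ) : ℝ)) := by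
          field_simp
      _ ≤ B * (A : ℝ) ^ (ε / 3) * (1 / ((∏ p ∈ S \ (S ∩ N.primeFactors), p : ℕ) : ℝ)) := by
          gcongr
  have hsum : ∑ S ∈ Z, (9 : ℝ) ^ S.card * (∏ p ∈ S, (Nat.gcd p N : ℝ)) / ((∏ p ∈ S, p : ℕ) : ℝ) ≤
      B * (A : ℝ) ^ (ε / 3) * ((2 : ℝ) ^ N.primeFactors.card * (1 + Real.log A)) := by
    refine (Finset.sum_le_sum hterm).trans ?_
    rw [← Finset.mul_sum]
    refine mul_le_mul_of_nonneg_left ?_ (by positivity)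
    rw [← Finset.sum_fiberwise_of_maps_to (s := Z) (t := N.primeFactors.powerset)
      (g := fun S => S ∩ N.primeFactors) (fun S _ => mem_powerset.2 inter_subset_right)]
    calc ∑ U ∈ N.primeFactors.powerset, ∑ S ∈ Z with S ∩ N.primeFactors = U,
          (1 : ℝ) / ((∏ p ∈ S \ (S ∩ N.primeFactors), p : ℕ) : ℝ)
        ≤ ∑ U ∈ N.primeFactors.powerset, (1 + Real.log A) := by
          refine Finset.sum_le_sum fun U _ => ?_
          refine le_trans (le_of_eq (Finset.sum_congr rfl fun S hS => ?_)) (fiber_sum A U N.primeFactors Z hZ)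
          rw [(mem_filter.1 hS).2]
      _ = (2 : ℝ) ^ N.primeFactors.card * (1 + Real.log A) := by
          rw [Finset.sum_const, card_powerset, nsmul_eq_mul]
          push_cast
          ring
  refine hsum.trans ?_
  have hlog : 1 + Real.log A ≤ (1 + 4 / ε) * (A : ℝ) ^ (ε / 4) := by
    have h1 := Real.log_le_rpow_div hA0.le (by positivity : 0 < ε / 4)
    have h2 : (1 : ℝ) ≤ (A : ℝ) ^ (ε / 4) := Real.one_le_rpow hA1' (by positivity)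
    have h3 : (A : ℝ) ^ (ε / 4) / (ε / 4) = 4 / ε * (A : ℝ) ^ (ε / 4) := by field_simp
    rw [h3] at h1
    nlinarith
  have homega : (2 : ℝ) ^ N.primeFactors.card ≤ B' * (A : ℝ) ^ (ε / 6) := by
    refine (hB' N hN).trans ?_
    have h1 : (N : ℝ) ^ (ε / 24) ≤ ((A : ℝ) ^ 4) ^ (ε / 24) :=
      Real.rpow_le_rpow (by positivity) hNA (by positivity)
    have h2 : ((A : ℝ) ^ 4) ^ (ε / 24) = (A : ℝ) ^ (ε / 6) := by
      rw [← Real.rpow_natCast, ← Real.rpow_mul hA0.le]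
      congr 1
      push_cast
      ring
    rw [h2] at h1
    gcongr
  have hlog0 : 0 ≤ 1 + Real.log A := by
    have := Real.log_nonneg hA1'
    linarith
  calc B * (A : ℝ) ^ (ε / 3) * ((2 : ℝ) ^ N.primeFactors.card * (1 + Real.log A))
      ≤ B * (A : ℝ) ^ (ε / 3) * ((B' * (A : ℝ) ^ (ε / 6)) * ((1 + 4 / ε) * (A : ℝ) ^ (ε / 4))) := by
        gcongr
    _ = K * ((A : ℝ) ^ (ε / 3) * (A : ℝ) ^ (ε / 6) * (A : ℝ) ^ (ε / 4)) := by rw [hK]; ring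
    _ ≤ (A : ℝ) ^ (ε / 4) * ((A : ℝ) ^ (ε / 3) * (A : ℝ) ^ (ε / 6) * (A : ℝ) ^ (ε / 4)) := by
        gcongr
    _ = (A : ℝ) ^ ε := by
        rw [← Real.rpow_add hA0, ← Real.rpow_add hA0, ← Real.rpow_add hA0]
        congr 1
        ring

end H96.DR
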