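import Pool.Agent.H96.DR.Jbi

/-!
# [DR LSM] the box as a union of lines, 60-110 lines. File Pool/Agent/H96/DR/Lsm.lean

The map `(a, b, c) ↦ ((a + g b, c), b)` is a bijection of `Bx k M A = Ia ×ˢ (Ib ×ˢ Ic)` onto the pairs `(l, b)`, `l = (s, c) ∈ Ln`, `b ∈ Jb k M A g s`, with the inverse `((s, c), b) ↦ (s - g b, b, c)` (`Finset.sum_sigma'`, `Finset.sum_bij'`).
`Ln_card`: with `Ia = Ioc α (α + A)`, `Ib = Ioc β (β + A)`: `s = a + g b ∈ Ioc (α + g β) (α + g β + A + g A)` (`g ≥ 1`), so there are at most `(1 + g) A ≤ 2 g A` values of `s`, and `A` values of `c`.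
-/

set_option autoImplicit false

namespace H96.DR

open Finset H23.LP

/-- the lines in the direction `θ - g` which meet the box: the pairs `(s, c)` -/
noncomputable def Ln (k : ℤ) (M A : ℕ) (g : ℤ) : Finset (ℤ × ℤ) :=
  ((Ia k M A ×ˢ Ib k M A).image fun x => x.1 + g * x.2) ×ˢ Ic M A

theorem lines_sum {R : Type} [AddCommMonoid R] (k : ℤ) (M A : ℕ) (g : ℤ) (F : ℤ × ℤ × ℤ → R) :
    ∑ x ∈ Bx k M A, F x =
      ∑ l ∈ Ln k M A g, ∑ b ∈ Jb k M A g l.1, F (l.1 - g * b, b, l.2) := by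
  rw [Finset.sum_sigma']
  refine Finset.sum_nbij' (fun x : ℤ × ℤ × ℤ => (⟨(x.1 + g * x.2.1, x.2.2), x.2.1⟩ : (_ : ℤ × ℤ) × ℤ))
    (fun y : (_ : ℤ × ℤ) × ℤ => (y.1.1 - g * y.2, y.2, y.1.2)) ?_ ?_ ?_ ?_ ?_
  · intro x hx
    simp only [Bx, mem_product] at hx
    simp only [Ln, Jb, mem_sigma, mem_product, mem_image, mem_filter]
    refine ⟨⟨⟨(x.1, x.2.1), ⟨hx.1, hx.2.1⟩, rfl⟩, hx.2.2⟩, hx.2.1, ?_⟩
    rw [add_sub_cancel_right]
    exact hx.1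
  · intro y hy
    simp only [Ln, Jb, mem_sigma, mem_product, mem_image, mem_filter] at hy
    simp only [Bx, mem_product]
    exact ⟨hy.2.2, hy.2.1, hy.1.2⟩
  · intro x _
    simp
  · intro y _
    simp
  · intro x _
    simp

private theorem card_Ioc' (a : ℤ) (n : ℕ) : (Ioc a (a + n)).card = n := by
  rw [Int.card_Ioc, add_sub_cancel_left, Int.toNat_natCast]

theorem Ln_card (k : ℤ) (M A : ℕ) (g : ℤ) (hg : 1 ≤ g) :
    ((Ln k M A g).card : ℤ) ≤ 2 * g * A * A := by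
  obtain ⟨n, rfl⟩ : ∃ n : ℕ, g = n := ⟨g.toNat, by omega⟩
  unfold Ln Ia Ib Ic
  generalize 2 * LL k ^ 2 * ((M : ℤ) * A) = α
  generalize LL k * ((M : ℤ) * A) = β
  rw [card_product, card_Ioc']
  have h1 : ((Ioc α (α + A) ×ˢ Ioc β (β + A)).image fun x => x.1 + (n : ℤ) * x.2) ⊆
      Ioc (α + n * β) (α + n * β + ((A + n * A : ℕ) : ℤ)) := by
    intro s hs
    rw [mem_image] at hs
    obtain ⟨x, hx, rfl⟩ := hs
    rw [mem_product, mem_Ioc, mem_Ioc] at hx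
    rw [mem_Ioc]
    have hn : (0 : ℤ) ≤ n := Int.natCast_nonneg n
    have h2 : (n : ℤ) * β ≤ n * x.2 := mul_le_mul_of_nonneg_left hx.2.1.le hn
    have h3 : (n : ℤ) * x.2 ≤ n * (β + A) := mul_le_mul_of_nonneg_left hx.2.2 hn
    push_cast
    constructor
    · linarith [hx.1.1]
    · linarith [hx.1.2]
  have h2 := card_le_card h1
  rw [card_Ioc'] at h2
  have h3 : (A + n * A) * A ≤ 2 * n * A * A := by
    have h4 : 1 ≤ n := by exact_mod_cast hg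
    have h5 : A ≤ n * A := Nat.le_mul_of_pos_left A h4
    calc (A + n * A) * A ≤ (n * A + n * A) * A := Nat.mul_le_mul_right _ (by omega)
      _ = 2 * n * A * A := by ring
  have h4 := (Nat.mul_le_mul_right A h2).trans h3
  exact_mod_cast h4

theorem Ln_mem (k : ℤ) (M A : ℕ) (g : ℤ) (l : ℤ × ℤ) (h : l ∈ Ln k M A g) :
    ∃ a ∈ Ia k M A, ∃ b ∈ Ib k M A, l.1 = a + g * b ∧ l.2 ∈ Ic M A ∧ b ∈ Jb k M A g l.1 := by
  simp only [Ln, mem_product, mem_image] at h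
  obtain ⟨⟨x, ⟨hx1, hx2⟩, hx3⟩, h2⟩ := h
  refine ⟨x.1, hx1, x.2, hx2, hx3.symm, h2, ?_⟩
  simp only [Jb, mem_filter]
  refine ⟨hx2, ?_⟩
  rw [← hx3, add_sub_cancel_right]
  exact hx1

end H96.DR
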