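import Pool.Agent.H96.DR.Eqg
import Pool.Agent.H96.DR.Clr
import Pool.Agent.H96.DR.Gsm
import Pool.Agent.H96.DR.Lsm

/-!
# [DR ERL] the error term of one line, 120-200 lines. File Pool/Agent/H96/DR/Erl.lean

`E b = NR k X (n/j).natAbs (s - g b) b c - X j/n`, `n = ng k g s b c` (`= nn k (s - g b) b c`), `Q = QQ k w`. `V b` = the conditions `CP`, `Cl`, `Ex j n`. Exchange the sums: the `S ⊆ primeFactors |n|` with `φ S ≠ 0` are the `S ∈ Z` with `∀ p ∈ S, (p : ℤ) ∣ n`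
(`n ≠ 0`), where `Z` is the (finite) set of all `S` with `φ S ≠ 0`: finite because `S ⊆ (Icc 1 ⌊A⌋₊)` (take `Z = ((range (A + 1)).powerset).filter (φ · ≠ 0)`; `p ≤ A^0.0144 ≤ A`). So the sum is `∑_{S ∈ Z} φ S ∑_{b ∈ Jb, V b, ∀ p ∈ S, p ∣ n} E b`.
Fix `S ∈ Z`, `T = Q j² ∏ S`; `T ≤ Q J² A^0.1296 ≤ A^0.13` for `A` large. The conditions `Cl (s - g b) b c`, `Ex j n`, `∀ p ∈ S, p ∣ n` depend only on `b` modulo `T`: `Cl` modulo `Q`; `Ex j n` depends on `n` modulo `j²` (if `n' = n + j² t` and `j ∣ n` then `n'/j = n/j + j t`);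
`n` is a polynomial in `b` with integer coefficients. So `Jb` with these conditions is the disjoint union over the classes `τ < T` satisfying them of `{b ∈ Jb : b ≡ τ (mod T), CP}`, and each satisfies `|∑ E b| ≤ 15 A^0.9876/T` (`eqg` with `D = T`; `j ∣ T`,
`j ∣ ng τ` by `Ex`). Since `Cl` contains `b ≡ 0 (mod Q)`, the number of the classes is at most `j² ∏_{p ∈ S} 3 gcd(p, N)`, `N = |g³ - k|` (`cls`; the primes of `S` are `> w`, so they do not divide `Q` (`w ≥ |k| + 3`), and they do not divide `j`).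
So the sum is at most `∑_{S ∈ Z} 3^|S| j² ∏ (3 gcd(p, N)) 15 A^0.9876/(Q j² ∏ S) ≤ 15 A^0.9876 ∑_{S ∈ Z} 9^|S| ∏ gcd(p, N)/∏ S ≤ 15 A^(0.9876 + 0.00001)` (`gsum`, `N ≤ A⁴`, `N ≠ 0` because `k` is not a cube) `≤ A^0.98762`.
-/

set_option autoImplicit false

namespace H96.DR

open Finset H23.LP

private theorem ng_modEq (k g s c m a b : ℤ) (h : a ≡ b [ZMOD m]) :
    ng k g s a c ≡ ng k g s b c [ZMOD m] := by
  simp only [ng, nn]
  have h1 : s - g * a ≡ s - g * b [ZMOD m] := (Int.ModEq.refl s).sub ((Int.ModEq.refl g).mul h)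
  exact (((h1.pow 3).add ((Int.ModEq.refl k).mul (h.pow 3))).add (Int.ModEq.refl _)).sub
    ((((Int.ModEq.refl (3 * k)).mul h1).mul h).mul (Int.ModEq.refl c))

private theorem ex_modEq (j n n' : ℤ) (hj : j ≠ 0) (h : n ≡ n' [ZMOD j ^ 2]) (hE : Ex j n) : Ex j n' := by
  obtain ⟨⟨t, rfl⟩, h2⟩ := hE
  obtain ⟨u, hu⟩ := h.dvd
  have h3 : n' = j * (t + j * u) := by linear_combination hu
  refine ⟨⟨_, h3⟩, ?_⟩
  rw [h3, Int.mul_ediv_cancel_left _ hj]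
  rw [Int.mul_ediv_cancel_left _ hj] at h2
  rw [← Int.isCoprime_iff_gcd_eq_one] at h2 ⊢
  exact IsCoprime.add_mul_left_left h2 u

private theorem sum_cls (J : Finset ℤ) (P R : ℤ → Prop) [DecidablePred P] [DecidablePred R]
    (E : ℤ → ℝ) (T : ℕ) (hT : 0 < T)
    (hP : ∀ a b : ℤ, a ≡ b [ZMOD (T : ℤ)] → P a → P b) (C : ℝ)
    (h : ∀ τ : ℕ, τ < T → P τ →
      |∑ b ∈ J.filter (fun b => b ≡ (τ : ℤ) [ZMOD (T : ℤ)] ∧ R b), E b| ≤ C) :
    |∑ b ∈ J.filter (fun b => R b ∧ P b), E b| ≤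
      (((range T).filter fun t : ℕ => P t).card : ℝ) * C := by
  have hT' : (0 : ℤ) < T := by exact_mod_cast hT
  have hmap : ∀ b ∈ J.filter (fun b => R b ∧ P b),
      (b % (T : ℤ)).toNat ∈ (range T).filter fun t : ℕ => P t := by
    intro b hb
    rw [mem_filter] at hb ⊢
    have h1 : ((b % (T : ℤ)).toNat : ℤ) = b % (T : ℤ) := Int.toNat_of_nonneg (Int.emod_nonneg _ hT'.ne')
    refine ⟨?_, ?_⟩
    · rw [mem_range]
      have h2 := Int.emod_lt_of_pos b hT'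
      rw [← h1] at h2
      exact_mod_cast h2
    · rw [h1]
      exact hP _ _ (Int.mod_modEq b T).symm hb.2.2
  rw [← sum_fiberwise_of_maps_to hmap]
  refine (abs_sum_le_sum_abs _ _).trans ?_
  rw [← nsmul_eq_mul]
  refine sum_le_card_nsmul _ _ _ ?_
  intro τ hτ
  rw [mem_filter, mem_range] at hτ
  have e : (J.filter (fun b => R b ∧ P b)).filter (fun b => (b % (T : ℤ)).toNat = τ) =
      J.filter (fun b => b ≡ (τ : ℤ) [ZMOD (T : ℤ)] ∧ R b) := by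
    ext b
    simp only [mem_filter]
    have h1 : ((b % (T : ℤ)).toNat : ℤ) = b % (T : ℤ) := Int.toNat_of_nonneg (Int.emod_nonneg _ hT'.ne')
    constructor
    · rintro ⟨⟨hJ, hR, hPb⟩, he⟩
      refine ⟨hJ, ?_, hR⟩
      rw [← he, h1]
      exact (Int.mod_modEq b T).symm
    · rintro ⟨hJ, hb, hR⟩
      refine ⟨⟨hJ, hR, hP _ _ hb.symm hτ.2⟩, ?_⟩
      have h3 : b % (T : ℤ) = (τ : ℤ) % (T : ℤ) := hb
      rw [Int.emod_eq_of_lt (Int.natCast_nonneg τ) (by exact_mod_cast hτ.1)] at h3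
      rw [h3]
      exact Int.toNat_natCast τ
  rw [e]
  exact h τ hτ.1 hτ.2

open Classical in
private theorem one_S (k : ℤ) (hk0 : k ≠ 0) (w : ℕ) (hw : k.natAbs + 3 ≤ w) (g s c : ℤ) (j : ℕ)
    (hj : 1 ≤ j) (J : Finset ℤ) (E : ℤ → ℝ) (S : Finset ℕ)
    (hS : ∀ p ∈ S, p.Prime ∧ w < p ∧ ¬ p ∣ j) (B : ℝ) (hB : 0 ≤ B) (R : ℤ → Prop)
    (H : ∀ τ : ℤ, (j : ℤ) ∣ ng k g s τ c →
      |∑ b ∈ J.filter (fun b => b ≡ τ [ZMOD ((QQ k w * j ^ 2 * ∏ p ∈ S, p : ℕ) : ℤ)] ∧ R b), E b| ≤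
        B / ((QQ k w * j ^ 2 * ∏ p ∈ S, p : ℕ) : ℝ)) :
    |∑ b ∈ J.filter (fun b => R b ∧ (Cl k w (s - g * b) b c ∧ Ex j (ng k g s b c) ∧
      ∀ p ∈ S, (p : ℤ) ∣ ng k g s b c)), E b| ≤
      B * (3 ^ S.card * (∏ p ∈ S, (Nat.gcd p (g ^ 3 - k).natAbs : ℝ)) / ((∏ p ∈ S, p : ℕ) : ℝ)) := by
  have hQ : 0 < QQ k w := by
    unfold QQ
    have h1 : 0 < k.natAbs := Int.natAbs_pos.2 hk0
    have h2 : 0 < w.factorial := Nat.factorial_pos w
    positivity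
  have hprod : 0 < ∏ p ∈ S, p := Finset.prod_pos fun p hp => (hS p hp).1.pos
  have hj0 : 0 < j := hj
  obtain ⟨T, hT⟩ : ∃ T : ℕ, T = QQ k w * j ^ 2 * ∏ p ∈ S, p := ⟨_, rfl⟩
  rw [← hT] at H
  have hT0 : 0 < T := by rw [hT]; positivity
  have hQT : ((QQ k w : ℕ) : ℤ) ∣ (T : ℤ) := by
    rw [hT]
    exact Int.natCast_dvd_natCast.2 (Dvd.intro (j ^ 2 * ∏ p ∈ S, p) (by ring))
  have hjT : ((j : ℤ)) ^ 2 ∣ (T : ℤ) := by
    have h1 : ((j ^ 2 : ℕ) : ℤ) ∣ (T : ℤ) := by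
      rw [hT]
      exact Int.natCast_dvd_natCast.2 (Dvd.intro (QQ k w * ∏ p ∈ S, p) (by ring))
    exact_mod_cast h1
  have hpT : ∀ p ∈ S, (p : ℤ) ∣ (T : ℤ) := by
    intro p hp
    rw [hT]
    exact Int.natCast_dvd_natCast.2 ((Finset.dvd_prod_of_mem _ hp).mul_left _)
  have h1 := sum_cls J (fun b => Cl k w (s - g * b) b c ∧ Ex j (ng k g s b c) ∧
      ∀ p ∈ S, (p : ℤ) ∣ ng k g s b c) R E T hT0 ?_ (B / T) ?_
  · refine h1.trans ?_
    have h2 : ((range T).filter fun t : ℕ => Cl k w (s - g * (t : ℤ)) t c ∧ Ex j (ng k g s t c) ∧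
        ∀ p ∈ S, (p : ℤ) ∣ ng k g s t c).card ≤ j ^ 2 * ∏ p ∈ S, (3 * Int.gcd (p : ℤ) (g ^ 3 - k)) := by
      refine le_trans ?_ (cls k hk0 w g s c j hj0 S ?_)
      · rw [← hT]
        apply Finset.card_le_card
        intro t ht
        rw [mem_filter] at ht ⊢
        exact ⟨ht.1, ht.2.1.2.1, ht.2.2.2⟩
      · intro p hp
        obtain ⟨hp1, hp2, hp3⟩ := hS p hp
        refine ⟨hp1, fun hd => ?_⟩
        unfold QQ at hd
        rcases (Nat.Prime.dvd_mul hp1).1 hd with hd | hd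
        · rcases (Nat.Prime.dvd_mul hp1).1 hd with hd | hd
          · rcases (Nat.Prime.dvd_mul hp1).1 hd with hd | hd
            · have h6 : (6 : ℕ) = 2 * 3 := by norm_num
              rw [h6] at hd
              rcases (Nat.Prime.dvd_mul hp1).1 hd with hd | hd
              · have := Nat.le_of_dvd (by norm_num) hd
                omega
              · have := Nat.le_of_dvd (by norm_num) hd
                omega
            · have := Nat.le_of_dvd (Int.natAbs_pos.2 hk0) hd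
              omega
          · have := (Nat.Prime.dvd_factorial hp1).1 hd
            omega
        · exact hp3 (hp1.dvd_of_dvd_pow hd)
    have h3 : (((range T).filter fun t : ℕ => Cl k w (s - g * (t : ℤ)) t c ∧ Ex j (ng k g s t c) ∧
        ∀ p ∈ S, (p : ℤ) ∣ ng k g s t c).card : ℝ) ≤
        (j : ℝ) ^ 2 * (3 ^ S.card * ∏ p ∈ S, (Nat.gcd p (g ^ 3 - k).natAbs : ℝ)) := by
      have h4 : ((j ^ 2 * ∏ p ∈ S, (3 * Int.gcd (p : ℤ) (g ^ 3 - k)) : ℕ) : ℝ) =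
          (j : ℝ) ^ 2 * (3 ^ S.card * ∏ p ∈ S, (Nat.gcd p (g ^ 3 - k).natAbs : ℝ)) := by
        rw [Finset.prod_mul_distrib, Finset.prod_const]
        push_cast
        rfl
      rw [← h4]
      exact_mod_cast h2
    have hTr : (T : ℝ) = QQ k w * (j : ℝ) ^ 2 * ((∏ p ∈ S, p : ℕ) : ℝ) := by
      rw [hT]
      push_cast
      ring
    have hB' : 0 ≤ B / (T : ℝ) := by positivity
    refine (mul_le_mul_of_nonneg_right h3 hB').trans ?_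
    rw [hTr]
    have hQr : (1 : ℝ) ≤ (QQ k w : ℝ) := by exact_mod_cast hQ
    have hjr : (0 : ℝ) < (j : ℝ) := by exact_mod_cast hj0
    have hpr : (0 : ℝ) < ((∏ p ∈ S, p : ℕ) : ℝ) := by exact_mod_cast hprod
    obtain ⟨U, hU⟩ : ∃ U : ℝ, U = 3 ^ S.card * ∏ p ∈ S, (Nat.gcd p (g ^ 3 - k).natAbs : ℝ) := ⟨_, rfl⟩
    have hU0 : 0 ≤ U := by rw [hU]; positivity
    rw [← hU]
    have e : (j : ℝ) ^ 2 * U * (B / (QQ k w * (j : ℝ) ^ 2 * ((∏ p ∈ S, p : ℕ) : ℝ))) =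
        (B * (U / ((∏ p ∈ S, p : ℕ) : ℝ))) / (QQ k w : ℝ) := by
      field_simp
    rw [e]
    exact div_le_self (by positivity) hQr
  · rintro a b hab ⟨hC, hE, hD⟩
    have hn := ng_modEq k g s c T a b hab
    refine ⟨⟨?_, ?_, hC.2.2⟩, ?_, ?_⟩
    · have h2 : a ≡ b [ZMOD (QQ k w : ℤ)] := hab.of_dvd hQT
      exact ((Int.ModEq.refl s).sub ((Int.ModEq.refl g).mul h2.symm)).trans hC.1
    · exact (hab.of_dvd hQT).symm.trans hC.2.1
    · exact ex_modEq j _ _ (by exact_mod_cast hj0.ne') (hn.of_dvd hjT) hE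
    · intro p hp
      exact (hn.of_dvd (hpT p hp)).dvd_iff.1 (hD p hp)
  · rintro τ hτ ⟨hC, hE, hD⟩
    exact H τ hE.1

private theorem exch (n : ℤ) (hn : n ≠ 0) (φ : Finset ℕ → ℝ) (Z : Finset (Finset ℕ))
    (hZ : ∀ S, φ S ≠ 0 → S ∈ Z) (hZ' : ∀ S ∈ Z, ∀ p ∈ S, p.Prime)
    [∀ S : Finset ℕ, Decidable (∀ p ∈ S, (p : ℤ) ∣ n)] :
    ∑ S ∈ n.natAbs.primeFactors.powerset, φ S =
      ∑ S ∈ Z, if (∀ p ∈ S, (p : ℤ) ∣ n) then φ S else 0 := by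
  rw [← Finset.sum_filter]
  symm
  apply Finset.sum_subset
  · intro S hS
    rw [mem_filter] at hS
    rw [mem_powerset]
    intro p hp
    rw [Nat.mem_primeFactors]
    exact ⟨hZ' S hS.1 p hp, Int.natCast_dvd.1 (hS.2 p hp), Int.natAbs_ne_zero.2 hn⟩
  · intro S hS hS'
    by_contra hne
    apply hS'
    rw [mem_filter]
    refine ⟨hZ S hne, fun p hp => ?_⟩
    rw [mem_powerset] at hS
    exact Int.natCast_dvd.2 (Nat.dvd_of_mem_primeFactors (hS hp))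

open Classical in
theorem err_line (k : ℤ) (hk : ∀ t : ℤ, t ^ 3 ≠ k) : ∃ M0 : ℕ, 1 ≤ M0 ∧ ∀ w M J : ℕ,
    k.natAbs + 3 ≤ w → M0 ≤ M → ∃ A0 : ℕ, ∀ A X : ℕ, A0 ≤ A → (X : ℝ) ≤ (A : ℝ) ^ 3 →
    ∀ g ∈ GG A, ∀ s c : ℤ, (s, c) ∈ Ln k M A g → 0 < RR k A g s c → Gd k A g s c → ∀ j : ℕ,
    1 ≤ j → j ≤ J → ∀ φ : Finset ℕ → ℝ,
    (∀ S, φ S ≠ 0 → (∀ p ∈ S, p.Prime ∧ w < p ∧ (p : ℝ) ≤ (A : ℝ) ^ (0.0144 : ℝ) ∧ ¬ p ∣ j) ∧
      ((∏ p ∈ S, p : ℕ) : ℝ) ≤ (A : ℝ) ^ (0.1296 : ℝ)) → (∀ S, |φ S| ≤ 3 ^ S.card) →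
    |∑ b ∈ (Jb k M A g s).filter (fun b => CP k g s b c ∧ Cl k w (s - g * b) b c ∧
        Ex j (ng k g s b c)),
      (∑ S ∈ (ng k g s b c).natAbs.primeFactors.powerset, φ S) *
        ((NR k X (ng k g s b c / j).natAbs (s - g * b) b c : ℝ) - (X : ℝ) * j / ng k g s b c)| ≤
      (A : ℝ) ^ (0.98762 : ℝ) := by
  obtain ⟨M1, hM1, H⟩ := eqg k hk
  obtain ⟨K, hK, M2, hM2, hbox⟩ := box k
  refine ⟨max M1 M2, le_trans hM1 (le_max_left _ _), ?_⟩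
  intro w M J hw hM
  obtain ⟨A1, hA1⟩ := H M J ((le_max_left _ _).trans hM)
  obtain ⟨A2, hA2⟩ := gsum 0.00001 (by norm_num)
  have hlim := (tendsto_rpow_atTop (show (0 : ℝ) < 0.00001 by norm_num)).comp
    (tendsto_natCast_atTop_atTop (R := ℝ))
  obtain ⟨A3, hA3⟩ := Filter.eventually_atTop.1 (hlim.eventually_ge_atTop
    (15 + (QQ k w : ℝ) * (J : ℝ) ^ 2 + (64 + |(k : ℝ)|)))
  refine ⟨max (max A1 A2) (max A3 1), ?_⟩
  intro A X hA hX g hg s c hl hR hG j hj hjJ φ hφ hφ3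
  have hAA1 : A1 ≤ A := le_trans (le_trans (le_max_left _ _) (le_max_left _ _)) hA
  have hAA2 : A2 ≤ A := le_trans (le_trans (le_max_right _ _) (le_max_left _ _)) hA
  have hAA3 : A3 ≤ A := le_trans (le_trans (le_max_left _ _) (le_max_right _ _)) hA
  have hAA4 : 1 ≤ A := le_trans (le_trans (le_max_right _ _) (le_max_right _ _)) hA
  have hbig := hA3 A hAA3
  simp only [Function.comp] at hbig
  have hAr : (1 : ℝ) ≤ (A : ℝ) := by exact_mod_cast hAA4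
  have hA0 : (0 : ℝ) < (A : ℝ) := by linarith
  have hQJ : 0 ≤ (QQ k w : ℝ) * (J : ℝ) ^ 2 := by positivity
  have hk_abs : 0 ≤ |(k : ℝ)| := abs_nonneg _
  have hb1 : (15 : ℝ) ≤ (A : ℝ) ^ (0.00001 : ℝ) := by linarith
  have hb2 : (QQ k w : ℝ) * (J : ℝ) ^ 2 ≤ (A : ℝ) ^ (0.00001 : ℝ) := by linarith
  have hb3 : 64 + |(k : ℝ)| ≤ (A : ℝ) ^ (0.00001 : ℝ) := by linarith
  have hk0 : k ≠ 0 := by
    intro h0
    exact hk 0 (by rw [h0]; norm_num)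
  obtain ⟨a', -, b', -, -, hc, -⟩ := Ln_mem k M A g (s, c) hl
  simp only at hc
  -- nonvanishing of the norm
  have hM2' : M2 ≤ M := (le_max_right _ _).trans hM
  have hM1' : 1 ≤ M := hM2.trans hM2'
  have hne : ∀ b ∈ Jb k M A g s, ng k g s b c ≠ 0 := by
    intro b hb
    unfold Jb at hb
    rw [mem_filter] at hb
    have h1 := (hbox M A hM2' hAA4 (s - g * b) hb.2 b hb.1 c hc).2.1
    have h2 : (0 : ℝ) < ((M : ℝ) * A) ^ 3 / 2 := by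
      have : (1 : ℝ) ≤ (M : ℝ) := by exact_mod_cast hM1'
      positivity
    have h3 : (0 : ℝ) < (nn k (s - g * b) b c : ℝ) := lt_of_lt_of_le h2 h1
    have h4 : 0 < nn k (s - g * b) b c := by exact_mod_cast h3
    exact h4.ne'
  -- the set of supports
  obtain ⟨Z, hZdef⟩ : ∃ Z : Finset (Finset ℕ),
      Z = ((range (A + 1)).powerset).filter (fun S => φ S ≠ 0) := ⟨_, rfl⟩
  have hZ : ∀ S, φ S ≠ 0 → S ∈ Z := by
    intro S hS
    rw [hZdef, mem_filter, mem_powerset]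
    refine ⟨fun p hp => ?_, hS⟩
    rw [mem_range]
    have h1 := ((hφ S hS).1 p hp).2.2.1
    have h2 : (A : ℝ) ^ (0.0144 : ℝ) ≤ (A : ℝ) := by
      calc (A : ℝ) ^ (0.0144 : ℝ) ≤ (A : ℝ) ^ (1 : ℝ) :=
            Real.rpow_le_rpow_of_exponent_le hAr (by norm_num)
        _ = A := Real.rpow_one _
    have h3 : (p : ℝ) ≤ (A : ℝ) := h1.trans h2
    have h4 : p ≤ A := by exact_mod_cast h3
    omega
  have hZφ : ∀ S ∈ Z, φ S ≠ 0 := by
    intro S hS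
    rw [hZdef, mem_filter] at hS
    exact hS.2
  -- the direction
  have hg1 : (Gn A : ℤ) < g := by
    unfold GG at hg
    exact (mem_Ioc.1 hg).1
  have hg2 : g ≤ 2 * (Gn A : ℤ) := by
    unfold GG at hg
    exact (mem_Ioc.1 hg).2
  have hg0 : (0 : ℝ) ≤ (g : ℝ) := by
    have : (0 : ℤ) ≤ g := le_trans (Int.natCast_nonneg _) hg1.le
    exact_mod_cast this
  have hgr : (g : ℝ) ≤ 4 * (A : ℝ) ^ (0.0062 : ℝ) := by
    have h1 : (Gn A : ℝ) < (A : ℝ) ^ (0.0062 : ℝ) + 1 := Nat.ceil_lt_add_one (by positivity)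
    have h2 : (1 : ℝ) ≤ (A : ℝ) ^ (0.0062 : ℝ) := Real.one_le_rpow hAr (by norm_num)
    have h3 : (g : ℝ) ≤ 2 * (Gn A : ℝ) := by exact_mod_cast hg2
    linarith
  have hN0 : 0 < (g ^ 3 - k).natAbs := Int.natAbs_pos.2 (sub_ne_zero.2 (hk g))
  have hN : (((g ^ 3 - k).natAbs : ℕ) : ℝ) ≤ (A : ℝ) ^ 4 := by
    rw [Nat.cast_natAbs]
    push_cast
    refine (abs_sub _ _).trans ?_
    rw [abs_pow, abs_of_nonneg hg0]
    have h1 : (g : ℝ) ^ 3 ≤ 64 * (A : ℝ) ^ (0.0186 : ℝ) := by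
      calc (g : ℝ) ^ 3 ≤ (4 * (A : ℝ) ^ (0.0062 : ℝ)) ^ 3 := by gcongr
        _ = 64 * ((A : ℝ) ^ (0.0062 : ℝ)) ^ (3 : ℕ) := by ring
        _ = 64 * (A : ℝ) ^ (0.0186 : ℝ) := by
          rw [← Real.rpow_natCast, ← Real.rpow_mul hA0.le]
          norm_num
    have h2 : (1 : ℝ) ≤ (A : ℝ) ^ (0.0186 : ℝ) := Real.one_le_rpow hAr (by norm_num)
    calc (g : ℝ) ^ 3 + |(k : ℝ)| ≤ 64 * (A : ℝ) ^ (0.0186 : ℝ) + |(k : ℝ)| * (A : ℝ) ^ (0.0186 : ℝ) := by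
          nlinarith
      _ = (64 + |(k : ℝ)|) * (A : ℝ) ^ (0.0186 : ℝ) := by ring
      _ ≤ (A : ℝ) ^ (0.00001 : ℝ) * (A : ℝ) ^ (0.0186 : ℝ) := by gcongr
      _ = (A : ℝ) ^ (0.01861 : ℝ) := by
          rw [← Real.rpow_add hA0]
          norm_num
      _ ≤ (A : ℝ) ^ ((4 : ℕ) : ℝ) := Real.rpow_le_rpow_of_exponent_le hAr (by norm_num)
      _ = (A : ℝ) ^ 4 := Real.rpow_natCast _ _
  -- exchange
  obtain ⟨E, hE⟩ : ∃ E : ℤ → ℝ, E = fun b => ((NR k X (ng k g s b c / j).natAbs (s - g * b) b c : ℝ) -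
      (X : ℝ) * j / ng k g s b c) := ⟨_, rfl⟩
  have hEb : ∀ b, ((NR k X (ng k g s b c / j).natAbs (s - g * b) b c : ℝ) -
      (X : ℝ) * j / ng k g s b c) = E b := fun b => by rw [hE]
  simp only [hEb]
  have hB0 : 0 ≤ 15 * (A : ℝ) ^ (0.9876 : ℝ) := by positivity
  have hone : ∀ S ∈ Z, |∑ b ∈ (Jb k M A g s).filter (fun b => CP k g s b c ∧
      (Cl k w (s - g * b) b c ∧ Ex j (ng k g s b c) ∧ ∀ p ∈ S, (p : ℤ) ∣ ng k g s b c)), E b| ≤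
      15 * (A : ℝ) ^ (0.9876 : ℝ) * (3 ^ S.card * (∏ p ∈ S, (Nat.gcd p (g ^ 3 - k).natAbs : ℝ)) /
        ((∏ p ∈ S, p : ℕ) : ℝ)) := by
    intro S hS
    obtain ⟨hS1, hS2⟩ := hφ S (hZφ S hS)
    refine one_S k hk0 w hw g s c j hj (Jb k M A g s) E S
      (fun p hp => ⟨(hS1 p hp).1, (hS1 p hp).2.1, (hS1 p hp).2.2.2⟩) _ hB0
      (fun b => CP k g s b c) ?_
    intro τ hτ
    have hQ : 0 < QQ k w := by
      unfold QQ
      have h1 : 0 < k.natAbs := Int.natAbs_pos.2 hk0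
      have h2 : 0 < w.factorial := Nat.factorial_pos w
      positivity
    have hprod : 0 < ∏ p ∈ S, p := Finset.prod_pos fun p hp => (hS1 p hp).1.pos
    have hj0 : 0 < j := hj
    have h1 := hA1 A X hAA1 hX g hg s c hc hR hG j (QQ k w * j ^ 2 * ∏ p ∈ S, p) hj hjJ
      (by positivity) ?_ ?_ τ hτ
    · rw [hE]
      exact h1
    · have hJr : (j : ℝ) ≤ (J : ℝ) := by exact_mod_cast hjJ
      push_cast
      push_cast at hS2
      calc (QQ k w : ℝ) * (j : ℝ) ^ 2 * ∏ p ∈ S, (p : ℝ) ≤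
            (QQ k w : ℝ) * (J : ℝ) ^ 2 * (A : ℝ) ^ (0.1296 : ℝ) := by gcongr
        _ ≤ (A : ℝ) ^ (0.00001 : ℝ) * (A : ℝ) ^ (0.1296 : ℝ) := by gcongr
        _ = (A : ℝ) ^ (0.12961 : ℝ) := by
          rw [← Real.rpow_add hA0]
          norm_num
        _ ≤ (A : ℝ) ^ (0.13 : ℝ) := Real.rpow_le_rpow_of_exponent_le hAr (by norm_num)
    · exact Dvd.intro (QQ k w * j * ∏ p ∈ S, p) (by ring)
  have hmain : ∑ b ∈ (Jb k M A g s).filter (fun b => CP k g s b c ∧ Cl k w (s - g * b) b c ∧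
        Ex j (ng k g s b c)), (∑ S ∈ (ng k g s b c).natAbs.primeFactors.powerset, φ S) * E b =
      ∑ S ∈ Z, φ S * ∑ b ∈ (Jb k M A g s).filter (fun b => CP k g s b c ∧
        (Cl k w (s - g * b) b c ∧ Ex j (ng k g s b c) ∧ ∀ p ∈ S, (p : ℤ) ∣ ng k g s b c)), E b := by
    have h1 : ∀ b ∈ (Jb k M A g s).filter (fun b => CP k g s b c ∧ Cl k w (s - g * b) b c ∧
        Ex j (ng k g s b c)), (∑ S ∈ (ng k g s b c).natAbs.primeFactors.powerset, φ S) * E b =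
        ∑ S ∈ Z, if (∀ p ∈ S, (p : ℤ) ∣ ng k g s b c) then φ S * E b else 0 := by
      intro b hb
      rw [mem_filter] at hb
      rw [exch (ng k g s b c) (hne b hb.1) φ Z hZ (fun S hS p hp => ((hφ S (hZφ S hS)).1 p hp).1),
        Finset.sum_mul]
      refine Finset.sum_congr rfl fun S _ => ?_
      split_ifs
      · rfl
      · exact zero_mul _
    rw [Finset.sum_congr rfl h1, Finset.sum_comm]
    refine Finset.sum_congr rfl fun S _ => ?_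
    rw [← Finset.sum_filter, Finset.mul_sum]
    refine Finset.sum_congr ?_ fun _ _ => rfl
    ext b
    simp only [mem_filter]
    tauto
  rw [hmain]
  refine (Finset.abs_sum_le_sum_abs _ _).trans ?_
  have hterm : ∀ S ∈ Z, |φ S * ∑ b ∈ (Jb k M A g s).filter (fun b => CP k g s b c ∧
        (Cl k w (s - g * b) b c ∧ Ex j (ng k g s b c) ∧ ∀ p ∈ S, (p : ℤ) ∣ ng k g s b c)), E b| ≤
      15 * (A : ℝ) ^ (0.9876 : ℝ) * ((9 : ℝ) ^ S.card *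
        (∏ p ∈ S, (Nat.gcd p (g ^ 3 - k).natAbs : ℝ)) / ((∏ p ∈ S, p : ℕ) : ℝ)) := by
    intro S hS
    rw [abs_mul]
    refine (mul_le_mul (hφ3 S) (hone S hS) (abs_nonneg _) (by positivity)).trans (le_of_eq ?_)
    have h9 : (9 : ℝ) ^ S.card = 3 ^ S.card * 3 ^ S.card := by
      rw [← mul_pow]
      norm_num
    rw [h9]
    ring
  refine (Finset.sum_le_sum hterm).trans ?_
  rw [← Finset.mul_sum]
  have hgs := hA2 A (g ^ 3 - k).natAbs hAA2 hN0 hN Z (fun S hS =>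
    ⟨fun p hp => ((hφ S (hZφ S hS)).1 p hp).1, ?_⟩)
  · calc 15 * (A : ℝ) ^ (0.9876 : ℝ) * ∑ S ∈ Z, ((9 : ℝ) ^ S.card *
        (∏ p ∈ S, (Nat.gcd p (g ^ 3 - k).natAbs : ℝ)) / ((∏ p ∈ S, p : ℕ) : ℝ)) ≤
          15 * (A : ℝ) ^ (0.9876 : ℝ) * (A : ℝ) ^ (0.00001 : ℝ) :=
          mul_le_mul_of_nonneg_left hgs hB0
      _ ≤ (A : ℝ) ^ (0.00001 : ℝ) * (A : ℝ) ^ (0.9876 : ℝ) * (A : ℝ) ^ (0.00001 : ℝ) := by gcongr
      _ = (A : ℝ) ^ (0.98762 : ℝ) := by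
          rw [← Real.rpow_add hA0, ← Real.rpow_add hA0]
          norm_num
  · refine (hφ S (hZφ S hS)).2.trans ?_
    calc (A : ℝ) ^ (0.1296 : ℝ) ≤ (A : ℝ) ^ (1 : ℝ) :=
          Real.rpow_le_rpow_of_exponent_le hAr (by norm_num)
      _ = A := Real.rpow_one _

end H96.DR
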