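import Pool.Agent.H96.DR.Agl
import Pool.Agent.H19.QV.CRT
import Pool.Agent.H19.QV.GCD

/-!
# [DR PHG] the phase identity on a line, 120-200 lines. File Pool/Agent/H96/DR/Phg.lean

`I = II > 0`, `I1 = SQ |I|`, `I2 = SF |I|`: coprime, `I1 I2 = I` (`SQ_mul_SF`, `SQ_cop_SF`). Choose integers `e1`, `e2` with `I1 ∣ e1 I2 - 1`, `I2 ∣ e2 I1 - 1`; then `e1 I2 + e2 I1 = 1 + t I` for some integer `t` (divisible by `I1` and by `I2`).
`l = h e1 y²`. `F b = if Int.gcd (ng b) I2 = 1 then ee ((h e2 V(b) Int.gcdA (ng b) I2 : ℤ) / I2) else 0` (`ng b = ng k g s b c`, `V(b) = Vg k g s b c`).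
* `gcd (l, q) = gcd (h y², q)` for `q ∣ I1`: `e1` is prime to `I1` (`H19.QV.GCD.gcd_mul_coprime` or `Int.gcd` lemmas).
* `F (b + I2) = F b`: `ng`, `Vg` are polynomials in `b` with integer coefficients, so their values at `b` and `b + I2` are congruent modulo `I2`; the gcd is the same; the inverses `Int.gcdA` are congruent modulo `I2` (both are inverses of the same class), so the
arguments of `ee` differ by an integer.
* the identity: `C = Cg b` is prime to `n = ng b` (`cop_Cn`). `dvd_V`: `V - I m = n K0`. `(Y - m)/n = Y/n - V/(n I) + K0/I` (field arithmetic). `h K0/I = h K0 (e1 I2 + e2 I1 - t I)/I = h K0 e1/I1 + h K0 e2/I2 - h K0 t`.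
`K0_C`: `C K0 = y² - I u`, so `K0 ≡ y² Int.gcdA C I1 (mod I1)` (`gcd (C, I1) = 1`; `C * gcdA C I1 ≡ 1`), and `n K0 = V - I m` gives `K0 ≡ V Int.gcdA n I2 (mod I2)`. So `ee (h K0 e1/I1) = ee (l gcdA C I1 / I1) = fe I1 l C` and `ee (h K0 e2/I2) = F b`.
* `fe I1 l (Cg b) * F b = 0` if `CP` fails: by the definitions.
Helper: `ee (x + y) = ee x * ee y`, `ee (integer) = 1`, `‖ee x‖ = 1` (see `H23/LP/Phs.lean`).
-/

set_option autoImplicit false

namespace H96.DR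

open Finset H23.LP

/-- the smooth phase -/
noncomputable def phig (k g s c Y b : ℤ) : ℝ :=
  (Y : ℝ) / ng k g s b c - (Vg k g s b c : ℝ) / (ng k g s b c * II k g s c)

private theorem ee_add' (x y : ℝ) : ee (x + y) = ee x * ee y := by
  unfold ee
  rw [← Complex.exp_add]
  congr 1
  push_cast
  ring

private theorem ee_int' (t : ℤ) : ee (t : ℝ) = 1 := by
  unfold ee
  have := Complex.exp_int_mul_two_pi_mul_I t
  rw [← this]
  congr 1
  push_cast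
  ring

private theorem norm_ee' (x : ℝ) : ‖ee x‖ = 1 := by
  unfold ee
  rw [show (2 * (Real.pi : ℂ) * (x : ℂ) * Complex.I) = ((2 * Real.pi * x : ℝ) : ℂ) * Complex.I by
    push_cast; ring]
  exact Complex.norm_exp_ofReal_mul_I _

private theorem ee_congr' (D : ℕ) (hD : 0 < D) (x y : ℤ) (h : (D : ℤ) ∣ x - y) :
    ee ((x : ℝ) / D) = ee ((y : ℝ) / D) := by
  obtain ⟨t, ht⟩ := h
  have hDR : (D : ℝ) ≠ 0 := by exact_mod_cast hD.ne'
  have h1 : (x : ℝ) - y = D * t := by exact_mod_cast ht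
  have h2 : (x : ℝ) / D = (y : ℝ) / D + (t : ℝ) := by
    field_simp
    linarith
  rw [h2, ee_add', ee_int', mul_one]

private theorem inv_dvd (C : ℤ) (D : ℕ) (h : Int.gcd C D = 1) : (D : ℤ) ∣ C * Int.gcdA C D - 1 := by
  have hbz := Int.gcd_eq_gcd_ab C D
  rw [h] at hbz
  push_cast at hbz
  exact ⟨-Int.gcdB C D, by linear_combination -hbz⟩

private theorem gcd_congr' (x y : ℤ) (D : ℕ) (h : (D : ℤ) ∣ x - y) : Int.gcd x D = Int.gcd y D := by
  obtain ⟨t, ht⟩ := h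
  have h1 : x = y + D * t := by linear_combination ht
  rw [h1]
  exact Int.gcd_add_mul_left_left _ _ _

theorem phase_g (k g s c h : ℤ) (hI : 0 < II k g s c) : ∃ (l : ℤ) (F : ℤ → ℂ),
    (∀ q : ℕ, q ∣ SQ (II k g s c).natAbs → Int.gcd l q = Int.gcd (h * yy g s c ^ 2) q) ∧
    (∀ b : ℤ, F (b + (SF (II k g s c).natAbs : ℤ)) = F b) ∧ (∀ b : ℤ, ‖F b‖ ≤ 1) ∧
    (∀ b : ℤ, ¬ CP k g s b c → fe (SQ (II k g s c).natAbs) l (Cg k g s b c) * F b = 0) ∧
    (∀ b m Y : ℤ, 0 < ng k g s b c → CP k g s b c →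
      ng k g s b c ∣ Cg k g s b c * m + Bg k g s b c →
      ee (h * (((Y : ℝ) - m) / ng k g s b c)) =
        ee (h * phig k g s c Y b) * (fe (SQ (II k g s c).natAbs) l (Cg k g s b c) * F b)) := by
  classical
  obtain ⟨I, hId⟩ : ∃ I, I = II k g s c := ⟨_, rfl⟩
  obtain ⟨I1, hI1⟩ : ∃ I1, I1 = SQ (II k g s c).natAbs := ⟨_, rfl⟩
  obtain ⟨I2, hI2⟩ : ∃ I2, I2 = SF (II k g s c).natAbs := ⟨_, rfl⟩
  obtain ⟨y, hy⟩ : ∃ y, y = yy g s c := ⟨_, rfl⟩
  have hne : (II k g s c).natAbs ≠ 0 := by omega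
  have hprod : (I1 : ℤ) * I2 = I := by
    have h1 := SQ_mul_SF _ hne
    rw [← hI1, ← hI2] at h1
    have h2 : ((I1 * I2 : ℕ) : ℤ) = ((II k g s c).natAbs : ℤ) := by rw [h1]
    rw [hId]
    push_cast at h2
    rw [h2]
    exact abs_of_pos hI
  have h1p : 0 < I1 := by rw [hI1]; exact SQ_pos _
  have h2p : 0 < I2 := by rw [hI2]; exact SF_pos _
  have hcop : IsCoprime (I1 : ℤ) (I2 : ℤ) := by
    rw [hI1, hI2]
    exact Nat.isCoprime_iff_coprime.2 (SQ_cop_SF _)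
  obtain ⟨e2, e1, he⟩ := hcop
  obtain ⟨F, hF⟩ : ∃ F : ℤ → ℂ, F = fun b => if Int.gcd (ng k g s b c) I2 = 1 then
      ee (((h * e2 * Vg k g s b c * Int.gcdA (ng k g s b c) I2 : ℤ) : ℝ) / I2) else 0 := ⟨_, rfl⟩
  rw [← hI1, ← hI2, ← hy]
  have hIp : 0 < I := by rw [hId]; exact hI
  refine ⟨h * y ^ 2 * e1, F, ?_, ?_, ?_, ?_, ?_⟩
  · intro q hq
    apply Pool.Agent.H19.QV.gcd_mul_coprime
    obtain ⟨r, hr⟩ := hq
    refine ⟨I2, r * e2, ?_⟩
    have h3 : (I1 : ℤ) = q * r := by rw [hr]; push_cast; ring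
    rw [h3] at he
    linear_combination he
  · intro b
    have hb : b + (I2 : ℤ) ≡ b [ZMOD (I2 : ℤ)] := by
      exact Int.modEq_iff_dvd.2 ⟨-1, by ring⟩
    have hn : (I2 : ℤ) ∣ ng k g s (b + I2) c - ng k g s b c := by
      apply Int.ModEq.dvd
      unfold ng nn
      have := hb.symm
      gcongr
    have hV : (I2 : ℤ) ∣ Vg k g s (b + I2) c - Vg k g s b c := by
      apply Int.ModEq.dvd
      unfold Vg
      have := hb.symm
      gcongr
    have hg := gcd_congr' _ _ _ hn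
    rw [hF]
    dsimp only
    rw [hg]
    split_ifs with h1
    · apply ee_congr' I2 h2p
      have h3 := inv_dvd _ _ h1
      have h4 := inv_dvd _ _ (hg.trans h1)
      have h5 : IsCoprime (I2 : ℤ) (ng k g s b c) := (Int.isCoprime_iff_gcd_eq_one.2 h1).symm
      obtain ⟨n, hnd⟩ : ∃ n, n = ng k g s b c := ⟨_, rfl⟩
      obtain ⟨n', hnd'⟩ : ∃ n', n' = ng k g s (b + I2) c := ⟨_, rfl⟩
      obtain ⟨V, hVd⟩ : ∃ V, V = Vg k g s b c := ⟨_, rfl⟩
      obtain ⟨V', hVd'⟩ : ∃ V', V' = Vg k g s (b + I2) c := ⟨_, rfl⟩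
      rw [← hnd] at hn h3 h5 ⊢
      rw [← hnd'] at hn h4 ⊢
      rw [← hVd] at hV ⊢
      rw [← hVd'] at hV ⊢
      obtain ⟨w, hw⟩ : ∃ w, w = Int.gcdA n I2 := ⟨_, rfl⟩
      obtain ⟨w', hw'⟩ : ∃ w', w' = Int.gcdA n' I2 := ⟨_, rfl⟩
      rw [← hw] at h3 ⊢
      rw [← hw'] at h4 ⊢
      obtain ⟨t1, ht1⟩ := hn
      obtain ⟨t2, ht2⟩ := hV
      obtain ⟨t3, ht3⟩ := h3
      obtain ⟨t4, ht4⟩ := h4
      have h6 : (I2 : ℤ) ∣ V' * w' - V * w := by
        refine h5.dvd_of_dvd_mul_left ⟨V' * t4 - V' * w' * t1 - V * t3 + t2, ?_⟩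
        linear_combination V' * ht4 - V' * w' * ht1 - V * ht3 + ht2
      obtain ⟨t5, ht5⟩ := h6
      exact ⟨h * e2 * t5, by linear_combination h * e2 * ht5⟩
    · rfl
  · intro b
    rw [hF]
    dsimp only
    split_ifs
    · exact (norm_ee' _).le
    · simp
  · intro b hb
    unfold CP at hb
    rw [← hI1, ← hI2] at hb
    by_cases h1 : Int.gcd (Cg k g s b c) I1 = 1
    · have h2 : Int.gcd (ng k g s b c) I2 ≠ 1 := fun h3 => hb ⟨h1, h3⟩
      rw [hF]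
      dsimp only
      rw [if_neg h2, mul_zero]
    · unfold fe
      rw [if_neg h1, zero_mul]
  · intro b m Y hn hcp hm
    have hc1 := cop_Cn k g s b c hI.ne' hcp
    have hdv := dvd_V k g s b c m hc1 hm
    obtain ⟨K0, hK0⟩ := hdv
    have hm' := hm
    obtain ⟨u, hu⟩ := hm'
    have hKC := K0_C k g s b c m K0 u hn.ne' hK0 hu
    have hcp' := hcp
    unfold CP at hcp'
    rw [← hI1, ← hI2] at hcp'
    obtain ⟨g1, g2⟩ := hcp'
    have h3 := inv_dvd _ _ g1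
    have h4 := inv_dvd _ _ g2
    have hF2 : F b = ee (((h * e2 * Vg k g s b c * Int.gcdA (ng k g s b c) I2 : ℤ) : ℝ) / I2) := by
      rw [hF]
      dsimp only
      rw [if_pos g2]
    rw [hF2]
    unfold fe
    rw [if_pos g1]
    unfold phig
    rw [← hId] at hK0 hKC ⊢
    rw [← hy] at hKC
    have h5 : IsCoprime (I1 : ℤ) (Cg k g s b c) := (Int.isCoprime_iff_gcd_eq_one.2 g1).symm
    have h6 : IsCoprime (I2 : ℤ) (ng k g s b c) := (Int.isCoprime_iff_gcd_eq_one.2 g2).symm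
    obtain ⟨n, hnd⟩ : ∃ n, n = ng k g s b c := ⟨_, rfl⟩
    obtain ⟨C, hCd⟩ : ∃ C, C = Cg k g s b c := ⟨_, rfl⟩
    obtain ⟨V, hVd⟩ : ∃ V, V = Vg k g s b c := ⟨_, rfl⟩
    obtain ⟨B, hBd⟩ : ∃ B, B = Bg k g s b c := ⟨_, rfl⟩
    rw [← hnd] at hn hK0 hu h4 h6 ⊢
    rw [← hCd] at hKC hu h3 h5 ⊢
    rw [← hVd] at hK0 ⊢
    rw [← hBd] at hu
    obtain ⟨w1, hw1⟩ : ∃ w1, w1 = Int.gcdA C I1 := ⟨_, rfl⟩
    obtain ⟨w2, hw2⟩ : ∃ w2, w2 = Int.gcdA n I2 := ⟨_, rfl⟩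
    rw [← hw1] at h3 ⊢
    rw [← hw2] at h4 ⊢
    obtain ⟨t3, ht3⟩ := h3
    obtain ⟨t4, ht4⟩ := h4
    have h7 : (I1 : ℤ) ∣ K0 - y ^ 2 * w1 := by
      refine h5.dvd_of_dvd_mul_left ⟨-(y ^ 2 * t3) - I2 * u, ?_⟩
      linear_combination hKC - y ^ 2 * ht3 + u * hprod
    have h8 : (I2 : ℤ) ∣ K0 - V * w2 := by
      refine h6.dvd_of_dvd_mul_left ⟨-(V * t4) - I1 * m, ?_⟩
      linear_combination -hK0 - V * ht4 + m * hprod
    have h9 : ee (((h * y ^ 2 * e1 * w1 : ℤ) : ℝ) / I1) = ee (((h * K0 * e1 : ℤ) : ℝ) / I1) := by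
      apply ee_congr' I1 h1p
      obtain ⟨t, ht⟩ := h7
      exact ⟨-(h * e1 * t), by linear_combination -(h * e1) * ht⟩
    have h10 : ee (((h * e2 * V * w2 : ℤ) : ℝ) / I2) = ee (((h * K0 * e2 : ℤ) : ℝ) / I2) := by
      apply ee_congr' I2 h2p
      obtain ⟨t, ht⟩ := h8
      exact ⟨-(h * e2 * t), by linear_combination -(h * e2) * ht⟩
    rw [h9, h10, ← ee_add', ← ee_add']
    congr 1
    have hnR : (n : ℝ) ≠ 0 := by exact_mod_cast hn.ne'
    have hIR : (I : ℝ) ≠ 0 := by exact_mod_cast hIp.ne'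
    have h1R : (I1 : ℝ) ≠ 0 := by exact_mod_cast h1p.ne'
    have h2R : (I2 : ℝ) ≠ 0 := by exact_mod_cast h2p.ne'
    have hpR : (I1 : ℝ) * I2 = I := by exact_mod_cast hprod
    have heR : (e2 : ℝ) * I1 + e1 * I2 = 1 := by exact_mod_cast he
    have hKR : (V : ℝ) - I * m = n * K0 := by exact_mod_cast hK0
    have e3 : ((h * K0 * e1 : ℤ) : ℝ) / I1 + ((h * K0 * e2 : ℤ) : ℝ) / I2 = h * K0 / I := by
      rw [← hpR]
      push_cast
      field_simp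
      linear_combination (h : ℝ) * K0 * heR
    rw [e3]
    field_simp
    linear_combination (h : ℝ) * hKR

end H96.DR
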