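import Pool.Agent.H96.DR.Bxg
import Pool.Agent.H96.DR.Phg

/-!
# [DR VRG] variation of the smooth phase on a line, 100-160 lines. File Pool/Agent/H96/DR/Vrg.lean

`K`, `M0` from `boxg` (`M0` large also for `H23.LP.box`), `P = M A`, `Δ = b' - b ≥ 0`, `n, V` the values at `b`, `n', V'` at `b'`; `I = II k g s c` is the same. Both points lie in the box (`s = (s - g b) + g b`), so `P³/2 ≤ n, n'`, `I ≥ g³ P³/2`, `|V| ≤ K g⁶ P³`,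
`y ≤ K g² P`, `|x| ≤ K g² P`, `b, b', c ≤ K P`, `0 < a, a' ≤ K P`.
(1) `n' - n = nn k (s - g b') b' c - nn k (s - g b) b c`: with `a = s - g b`, `a' = a - g Δ`: `= (a' - a)(a'² + a a' + a²) + k (b' - b)(b'² + b b' + b²) - 3 k c (a' b' - a b)`, `a' b' - a b = a' Δ - g Δ b`; so `|n' - n| ≤ K1 g P² Δ` with `K1 = K1(k)` (`g ≥ 1`).
`|1/n' - 1/n| ≤ 4 K1 g Δ/P⁴`.
(2) `V' - V = Δ ((g³ - k) y (b + b') + x (c (g³ - k) - 3 g y))`, so `|V' - V| ≤ K2 g⁵ P² Δ`.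
(3) `|V'/(n' I) - V/(n I)| ≤ (|V' - V|/n' + |V| |1/n' - 1/n|)/I ≤ (2 K2 g⁵ Δ/P + 4 K K1 g⁷ Δ/P)/(g³ P³/2) ≤ K3 g⁴ Δ/P⁴`.
Total: `|phig b' - phig b| ≤ 4 K1 |Y| g Δ/P⁴ + K3 g⁴ Δ/P⁴`.
-/

set_option autoImplicit false

namespace H96.DR

open Finset H23.LP

private theorem vr_mul {u v U V : ℝ} (hu : |u| ≤ U) (hv : |v| ≤ V) : |u * v| ≤ U * V := by
  rw [abs_mul]
  exact mul_le_mul hu hv (abs_nonneg _) ((abs_nonneg _).trans hu)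

private theorem vr_add {u v U V : ℝ} (hu : |u| ≤ U) (hv : |v| ≤ V) : |u + v| ≤ U + V :=
  (abs_add_le _ _).trans (add_le_add hu hv)

private theorem vr_sub {u v U V : ℝ} (hu : |u| ≤ U) (hv : |v| ≤ V) : |u - v| ≤ U + V :=
  (abs_sub _ _).trans (add_le_add hu hv)

private theorem vr_core (g Δ P U L n n' V V' I Y : ℝ) (hP : 0 < P) (hU : 1 ≤ U) (hL : 2 ≤ L)
    (hg : 1 ≤ g) (hΔ : 0 ≤ Δ) (dn : |n' - n| ≤ 9 * L * U ^ 2 * (g * P ^ 2 * Δ))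
    (dV : |V' - V| ≤ 6 * L * U ^ 2 * (g ^ 5 * P ^ 2 * Δ)) (hn : P ^ 3 / 2 ≤ n) (hn' : P ^ 3 / 2 ≤ n')
    (hI : g ^ 3 * P ^ 3 / 2 ≤ I) (hV : |V| ≤ U * (g ^ 6 * P ^ 3)) :
    |(Y / n' - V' / (n' * I)) - (Y / n - V / (n * I))| ≤
      96 * L * U ^ 3 * (|Y| + g ^ 3) * g * Δ / P ^ 4 := by
  have hg0 : 0 < g := by linarith
  have hP3 : 0 < P ^ 3 / 2 := by positivity
  have hgP : 0 < g ^ 3 * P ^ 3 / 2 := by positivity
  have n0 : 0 < n := hP3.trans_le hn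
  have n0' : 0 < n' := hP3.trans_le hn'
  have I0 : 0 < I := hgP.trans_le hI
  have e : (Y / n' - V' / (n' * I)) - (Y / n - V / (n * I)) =
      (Y - V / I) * ((n - n') / (n * n')) - (V' - V) / (n' * I) := by
    field_simp
    ring
  have h1 : |(n - n') / (n * n')| ≤ 36 * L * U ^ 2 * (g * Δ / P ^ 4) := by
    rw [abs_div, abs_of_pos (mul_pos n0 n0'), abs_sub_comm]
    calc |n' - n| / (n * n') ≤ 9 * L * U ^ 2 * (g * P ^ 2 * Δ) / (P ^ 3 / 2 * (P ^ 3 / 2)) :=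
          div_le_div₀ (by positivity) dn (by positivity) (mul_le_mul hn hn' hP3.le n0.le)
      _ = _ := by
          field_simp
          ring
  have h2 : |V / I| ≤ 2 * U * g ^ 3 := by
    rw [abs_div, abs_of_pos I0]
    calc |V| / I ≤ U * (g ^ 6 * P ^ 3) / (g ^ 3 * P ^ 3 / 2) :=
          div_le_div₀ (by positivity) hV (by positivity) hI
      _ = _ := by
          field_simp
  have h3 : |(V' - V) / (n' * I)| ≤ 24 * L * U ^ 2 * (g ^ 2 * Δ / P ^ 4) := by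
    rw [abs_div, abs_of_pos (mul_pos n0' I0)]
    calc |V' - V| / (n' * I) ≤ 6 * L * U ^ 2 * (g ^ 5 * P ^ 2 * Δ) / (P ^ 3 / 2 * (g ^ 3 * P ^ 3 / 2)) :=
          div_le_div₀ (by positivity) dV (by positivity) (mul_le_mul hn' hI hgP.le n0'.le)
      _ = _ := by
          field_simp
          ring
  rw [e]
  have h4 : |Y - V / I| ≤ |Y| + 2 * U * g ^ 3 := vr_sub le_rfl h2
  refine (vr_sub (vr_mul h4 h1) h3).trans ?_
  obtain ⟨T, hT⟩ : ∃ T, T = g * Δ / P ^ 4 := ⟨_, rfl⟩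
  have hT0 : 0 ≤ T := by
    rw [hT]
    positivity
  have e2 : 96 * L * U ^ 3 * (|Y| + g ^ 3) * g * Δ / P ^ 4 = 96 * L * U ^ 3 * (|Y| + g ^ 3) * T := by
    rw [hT]
    ring
  have e3 : g ^ 2 * Δ / P ^ 4 = g * T := by
    rw [hT]
    ring
  rw [e2, e3, ← hT]
  have hY := abs_nonneg Y
  have u1 : L * U ^ 2 ≤ L * U ^ 3 := mul_le_mul_of_nonneg_left (pow_le_pow_right₀ hU (by norm_num)) (by linarith)
  have g1 : g ≤ g ^ 3 := by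
    calc g = g ^ 1 := (pow_one _).symm
      _ ≤ g ^ 3 := pow_le_pow_right₀ hg (by norm_num)
  have hLU : 0 ≤ L * U ^ 3 := by positivity
  have a1 : |Y| * (L * U ^ 2) ≤ |Y| * (L * U ^ 3) := mul_le_mul_of_nonneg_left u1 hY
  have a2 : L * U ^ 2 * g ≤ L * U ^ 3 * g ^ 3 := mul_le_mul u1 g1 hg0.le hLU
  have a3 : 0 ≤ |Y| * (L * U ^ 3) := mul_nonneg hY hLU
  have key : (|Y| + 2 * U * g ^ 3) * (36 * L * U ^ 2) + 24 * L * U ^ 2 * g ≤ 96 * L * U ^ 3 * (|Y| + g ^ 3) := by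
    have e4 : (|Y| + 2 * U * g ^ 3) * (36 * L * U ^ 2) + 24 * L * U ^ 2 * g =
        36 * (|Y| * (L * U ^ 2)) + 72 * (L * U ^ 3 * g ^ 3) + 24 * (L * U ^ 2 * g) := by ring
    have e5 : 96 * L * U ^ 3 * (|Y| + g ^ 3) = 96 * (|Y| * (L * U ^ 3)) + 96 * (L * U ^ 3 * g ^ 3) := by ring
    rw [e4, e5]
    linarith
  calc (|Y| + 2 * U * g ^ 3) * (36 * L * U ^ 2 * T) + 24 * L * U ^ 2 * (g * T)
      = ((|Y| + 2 * U * g ^ 3) * (36 * L * U ^ 2) + 24 * L * U ^ 2 * g) * T := by ring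
    _ ≤ _ := mul_le_mul_of_nonneg_right key hT0

private theorem vr_n (k g a a' b b' c Δ P U L : ℝ) (hP : 0 < P) (hU : 1 ≤ U) (hL : L = |k| + 2)
    (hg : 1 ≤ g) (hΔ : 0 ≤ Δ) (ha : |a| ≤ U * P) (ha' : |a'| ≤ U * P) (hb : |b| ≤ U * P)
    (hb' : |b'| ≤ U * P) (hc : |c| ≤ U * P) (e1 : b' = b + Δ) (e2 : a' = a - g * Δ) :
    |(a' ^ 3 + k * b' ^ 3 + k ^ 2 * c ^ 3 - 3 * k * a' * b' * c) -
      (a ^ 3 + k * b ^ 3 + k ^ 2 * c ^ 3 - 3 * k * a * b * c)| ≤ 9 * L * U ^ 2 * (g * P ^ 2 * Δ) := by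
  have hk0 := abs_nonneg k
  have hg0 : 0 < g := by linarith
  have e : (a' ^ 3 + k * b' ^ 3 + k ^ 2 * c ^ 3 - 3 * k * a' * b' * c) -
      (a ^ 3 + k * b ^ 3 + k ^ 2 * c ^ 3 - 3 * k * a * b * c) =
      Δ * (k * (b' * b' + b * b' + b * b) - g * (a' * a' + a * a' + a * a) - 3 * (k * (c * (a - g * b')))) := by
    rw [e1, e2]
    ring
  have h1 : |b' * b' + b * b' + b * b| ≤ 3 * (U * P) ^ 2 :=
    (vr_add (vr_add (vr_mul hb' hb') (vr_mul hb hb')) (vr_mul hb hb)).trans (le_of_eq (by ring))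
  have h2 : |a' * a' + a * a' + a * a| ≤ 3 * (U * P) ^ 2 :=
    (vr_add (vr_add (vr_mul ha' ha') (vr_mul ha ha')) (vr_mul ha ha)).trans (le_of_eq (by ring))
  have hgg : |g| ≤ g := le_of_eq (abs_of_pos hg0)
  have h3 : |a - g * b'| ≤ U * P + g * (U * P) := vr_sub ha (vr_mul hgg hb')
  have h4 : |k * (b' * b' + b * b' + b * b) - g * (a' * a' + a * a' + a * a) - 3 * (k * (c * (a - g * b')))| ≤
      |k| * (3 * (U * P) ^ 2) + g * (3 * (U * P) ^ 2) + 3 * (|k| * (U * P * (U * P + g * (U * P)))) :=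
    vr_sub (vr_sub (vr_mul le_rfl h1) (vr_mul hgg h2))
      (vr_mul (le_of_eq (abs_of_pos (by norm_num))) (vr_mul le_rfl (vr_mul hc h3)))
  rw [e]
  refine (vr_mul (le_of_eq (abs_of_nonneg hΔ)) h4).trans ?_
  have h5 : |k| * (3 * (U * P) ^ 2) + g * (3 * (U * P) ^ 2) + 3 * (|k| * (U * P * (U * P + g * (U * P)))) ≤
      9 * L * U ^ 2 * (g * P ^ 2) := by
    obtain ⟨S, hS⟩ : ∃ S, S = (U * P) ^ 2 := ⟨_, rfl⟩
    have hS0 : 0 ≤ S := by rw [hS]; positivity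
    have e3 : |k| * (3 * (U * P) ^ 2) + g * (3 * (U * P) ^ 2) + 3 * (|k| * (U * P * (U * P + g * (U * P)))) =
        6 * (|k| * S) + 3 * (g * S) + 3 * (|k| * g * S) := by
      rw [hS]
      ring
    have e4 : 9 * L * U ^ 2 * (g * P ^ 2) = 9 * (|k| * g * S) + 18 * (g * S) := by
      rw [hS, hL]
      ring
    rw [e3, e4]
    have h6 : |k| * S * 1 ≤ |k| * S * g := mul_le_mul_of_nonneg_left hg (by positivity)
    have h7 : 0 ≤ g * S := by positivity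
    linarith
  calc Δ * _ ≤ Δ * (9 * L * U ^ 2 * (g * P ^ 2)) := mul_le_mul_of_nonneg_left h5 hΔ
    _ = _ := by ring

private theorem vr_V (k g b b' c y x w Δ P U L : ℝ) (hP : 0 < P) (hU : 1 ≤ U) (hL : L = |k| + 2)
    (hg : 1 ≤ g) (hΔ : 0 ≤ Δ) (hb : |b| ≤ U * P) (hb' : |b'| ≤ U * P) (hc : |c| ≤ U * P)
    (hy : |y| ≤ U * (g ^ 2 * P)) (hx : |x| ≤ U * (g ^ 2 * P)) (e1 : b' = b + Δ) :
    |((g ^ 3 - k) * y * b' ^ 2 + x * (c * (g ^ 3 - k) - 3 * g * y) * b' + w) -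
      ((g ^ 3 - k) * y * b ^ 2 + x * (c * (g ^ 3 - k) - 3 * g * y) * b + w)| ≤
      6 * L * U ^ 2 * (g ^ 5 * P ^ 2 * Δ) := by
  have hk0 := abs_nonneg k
  have hg0 : 0 < g := by linarith
  have hg3 : 1 ≤ g ^ 3 := one_le_pow₀ hg
  have e : ((g ^ 3 - k) * y * b' ^ 2 + x * (c * (g ^ 3 - k) - 3 * g * y) * b' + w) -
      ((g ^ 3 - k) * y * b ^ 2 + x * (c * (g ^ 3 - k) - 3 * g * y) * b + w) =
      Δ * ((g ^ 3 - k) * y * (b + b') + x * (c * (g ^ 3 - k) - 3 * g * y)) := by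
    rw [e1]
    ring
  have h0 : |g ^ 3 - k| ≤ L * g ^ 3 := by
    refine (vr_sub (le_of_eq (abs_of_pos (by positivity))) le_rfl).trans ?_
    rw [hL]
    have : |k| * 1 ≤ |k| * g ^ 3 := mul_le_mul_of_nonneg_left hg3 hk0
    nlinarith
  have hgg : |3 * g| ≤ 3 * g := le_of_eq (abs_of_pos (by positivity))
  have h1 : |(g ^ 3 - k) * y * (b + b')| ≤ L * g ^ 3 * (U * (g ^ 2 * P)) * (U * P + U * P) :=
    vr_mul (vr_mul h0 hy) (vr_add hb hb')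
  have h2 : |x * (c * (g ^ 3 - k) - 3 * g * y)| ≤
      U * (g ^ 2 * P) * (U * P * (L * g ^ 3) + 3 * g * (U * (g ^ 2 * P))) :=
    vr_mul hx (vr_sub (vr_mul hc h0) (vr_mul hgg hy))
  rw [e]
  refine (vr_mul (le_of_eq (abs_of_nonneg hΔ)) (vr_add h1 h2)).trans ?_
  have h5 : L * g ^ 3 * (U * (g ^ 2 * P)) * (U * P + U * P) +
      U * (g ^ 2 * P) * (U * P * (L * g ^ 3) + 3 * g * (U * (g ^ 2 * P))) ≤ 6 * L * U ^ 2 * (g ^ 5 * P ^ 2) := by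
    obtain ⟨S, hS⟩ : ∃ S, S = U ^ 2 * (g ^ 5 * P ^ 2) := ⟨_, rfl⟩
    have hS0 : 0 ≤ S := by rw [hS]; positivity
    have e3 : L * g ^ 3 * (U * (g ^ 2 * P)) * (U * P + U * P) +
      U * (g ^ 2 * P) * (U * P * (L * g ^ 3) + 3 * g * (U * (g ^ 2 * P))) = 3 * (L * S) + 3 * S := by
      rw [hS]
      ring
    have e4 : 6 * L * U ^ 2 * (g ^ 5 * P ^ 2) = 6 * (L * S) := by
      rw [hS]
      ring
    rw [e3, e4]
    have h6 : 1 * S ≤ L * S := mul_le_mul_of_nonneg_right (by linarith) hS0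
    linarith
  calc Δ * _ ≤ Δ * (6 * L * U ^ 2 * (g ^ 5 * P ^ 2)) := mul_le_mul_of_nonneg_left h5 hΔ
    _ = _ := by ring

theorem varg (k : ℤ) : ∃ K : ℝ, 1 ≤ K ∧ ∃ M0 : ℕ, 1 ≤ M0 ∧ ∀ M A : ℕ, M0 ≤ M → 1 ≤ A → ∀ g : ℤ, K ≤ g →
    ∀ s b b' c Y : ℤ, b ≤ b' → b ∈ Ib k M A → b' ∈ Ib k M A → s - g * b ∈ Ia k M A →
    s - g * b' ∈ Ia k M A → c ∈ Ic M A →
      |phig k g s c Y b' - phig k g s c Y b| ≤
        K * (|(Y : ℝ)| + (g : ℝ) ^ 3) * g * (b' - b) / ((M : ℝ) * A) ^ 4 := by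
  obtain ⟨U, hU, M0, hM0, hbox⟩ := boxg k
  obtain ⟨U', hU', M0', hM0', hbox'⟩ := box k
  obtain ⟨L, hL⟩ : ∃ L : ℝ, L = |(k : ℝ)| + 2 := ⟨_, rfl⟩
  have hk0 := abs_nonneg (k : ℝ)
  have hL2 : 2 ≤ L := by linarith
  have hU3 : 1 ≤ U ^ 3 := one_le_pow₀ hU
  have hU13 : U ≤ U ^ 3 := by
    calc U = U ^ 1 := (pow_one _).symm
      _ ≤ U ^ 3 := pow_le_pow_right₀ hU (by norm_num)
  have hKU : U ≤ 96 * L * U ^ 3 := by nlinarith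
  refine ⟨96 * L * U ^ 3, by linarith, max M0 M0', le_max_of_le_left hM0,
    fun M A hM hA g hg s b b' c Y hbb hb hb' ha ha' hc => ?_⟩
  have hM1 : M0 ≤ M := (le_max_left _ _).trans hM
  have hM2 : M0' ≤ M := (le_max_right _ _).trans hM
  have hgU : U ≤ (g : ℝ) := hKU.trans hg
  have hg1 : (1 : ℝ) ≤ g := hU.trans hgU
  obtain ⟨n1, -, I1, -, -, -, -, V1, y1, y2, x2, -, -, b2, c2, a2⟩ := hbox M A hM1 hA g hgU _ ha b hb c hc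
  obtain ⟨n1', -, -, -, -, -, -, -, -, -, -, -, -, b2', -, a2'⟩ := hbox M A hM1 hA g hgU _ ha' b' hb' c hc
  obtain ⟨-, -, -, -, -, -, -, -, a1, -, b1, -, c1, -⟩ := hbox' M A hM2 hA _ ha b hb c hc
  obtain ⟨-, -, -, -, -, -, -, -, a1', -, b1', -, -, -⟩ := hbox' M A hM2 hA _ ha' b' hb' c hc
  have es : s - g * b + g * b = s := by ring
  rw [es] at I1 V1 y1 y2 x2
  obtain ⟨P, hPd⟩ : ∃ P : ℝ, P = (M : ℝ) * A := ⟨_, rfl⟩
  have hP : 0 < P := by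
    rw [hPd]
    have h1 : (0 : ℝ) < M := by exact_mod_cast (by omega : 0 < M)
    have h2 : (0 : ℝ) < A := by exact_mod_cast (by omega : 0 < A)
    positivity
  rw [← hPd] at n1 I1 V1 y2 x2 b2 c2 a2 n1' b2' a2' a1 b1 c1 a1' b1' ⊢
  have hΔ : (0 : ℝ) ≤ (b' : ℝ) - b := by
    have : (b : ℝ) ≤ b' := by exact_mod_cast hbb
    linarith
  have A1 : |((s - g * b : ℤ) : ℝ)| ≤ U * P := by rw [abs_of_pos (hP.trans_le a1)]; exact a2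
  have A1' : |((s - g * b' : ℤ) : ℝ)| ≤ U * P := by rw [abs_of_pos (hP.trans_le a1')]; exact a2'
  have B1 : |(b : ℝ)| ≤ U * P := by rw [abs_of_pos (hP.trans_le b1)]; exact b2
  have B1' : |(b' : ℝ)| ≤ U * P := by rw [abs_of_pos (hP.trans_le b1')]; exact b2'
  have C1 : |(c : ℝ)| ≤ U * P := by rw [abs_of_pos (hP.trans_le c1)]; exact c2
  have Y1 : |(yy g s c : ℝ)| ≤ U * ((g : ℝ) ^ 2 * P) := by
    rw [abs_of_pos (by exact_mod_cast y1)]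
    exact y2
  have dn := vr_n k g _ _ b b' c ((b' : ℝ) - b) P U L hP hU hL hg1 hΔ A1 A1' B1 B1' C1 (by ring)
    (by push_cast; ring)
  have dV := vr_V k g b b' c (yy g s c) (xx k g s c) ((xx k g s c : ℝ) * (2 * (yy g s c : ℝ) ^ 2 -
    3 * (g : ℝ) ^ 2 * c * yy g s c + g * (c : ℝ) ^ 2 * ((g : ℝ) ^ 3 - k))) ((b' : ℝ) - b) P U L hP hU hL hg1
    hΔ B1 B1' C1 Y1 x2 (by ring)
  have en : ∀ t : ℤ, (ng k g s t c : ℝ) = ((s - g * t : ℤ) : ℝ) ^ 3 + k * (t : ℝ) ^ 3 + (k : ℝ) ^ 2 * (c : ℝ) ^ 3 -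
      3 * k * ((s - g * t : ℤ) : ℝ) * t * c := by
    intro t
    simp only [ng, nn]
    push_cast
    ring
  have eV : ∀ t : ℤ, (Vg k g s t c : ℝ) = ((g : ℝ) ^ 3 - k) * (yy g s c : ℝ) * (t : ℝ) ^ 2 +
      (xx k g s c : ℝ) * ((c : ℝ) * ((g : ℝ) ^ 3 - k) - 3 * g * (yy g s c : ℝ)) * t +
      ((xx k g s c : ℝ) * (2 * (yy g s c : ℝ) ^ 2 - 3 * (g : ℝ) ^ 2 * c * yy g s c +
        g * (c : ℝ) ^ 2 * ((g : ℝ) ^ 3 - k))) := by
    intro t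
    simp only [Vg]
    push_cast
    ring
  rw [← en b', ← en b] at dn
  rw [← eV b', ← eV b] at dV
  exact vr_core g ((b' : ℝ) - b) P U L _ _ _ _ _ Y hP hU hL2 hg1 hΔ dn dV n1 n1' I1 V1

end H96.DR
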