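import Pool.Agent.H96.DR.Fbd
import Pool.Agent.H96.DR.Vrg
import Pool.Agent.H23.LP.Psm

/-!
# [DR ESG] the exponential sums on a good line, 120-200 lines. File Pool/Agent/H96/DR/Esg.lean

`K`, `M0` from `varg`, `boxg`, `fbd` (maxima). If `Jb` is empty the sum is `0`. `Jb_int`: `Jb = Ioc s0 e0`, `e0 - s0 ≤ A/g + 1 ≤ A^0.9938 + 1` (`g > G ≥ A^0.0062`). `phase_g` (`II > 0` by `boxg`) gives `l`, `F`. For `b` in the filter
the summand is `ee (h phig b) * (fe I1 l (Cg b) * F b)` (`ng > 0` by `boxg`: `ng k g s b c = nn k (s - g b) b c`), and for `b ∈ Jb` without `CP` the product vanishes; so the sum is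
`∑_{b ∈ Ioc s0 e0, b ≡ τ (D)} ee (h phig b) * (fe I1 l (Cg b) * F b)` (`Finset.sum_filter`), `prog`: `= ∑_{t ∈ Ioc s' e} ee (φ t) * u t`, `φ t = h phig (τ + D t)`, `u t = fe I1 l (Cg (τ + D t)) * F (τ + D t)`, `Cg (τ + D t) = (c x - τ y) + (-(y D)) t`.
Length `e - s' ≤ (e0 - s0)/D + 1 ≤ (A^0.9938 + 1)/D + 1 ≤ 2 A^0.9938/D` for `A` large (`D ≤ A^0.13`), also `≤ 3 A/(g D)`.
`psum` with `K = A^0.9734/D` (`fbd` for all partial sums: `Ioc s' t`, `t ≤ e`) and `V = ∑_{t ∈ Ioo s' e} |φ (t+1) - φ t|`: both points `τ + D t`, `τ + D (t+1)` lie in `Ioc s0 e0 = Jb` for `t ∈ Ioo s' e`, so by `varg` every term is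
`≤ h K (2X + g³) g D/P⁴`, the number of terms is `≤ 3 A/(g D)`: `V ≤ 3 h K (2 X + g³) A/P⁴ ≤ 9 h K` (`X ≤ A³`, `g³ ≤ A³`, `P ≥ A`). Total `≤ (1 + 18 π K) h A^0.9734/D`.
-/

set_option autoImplicit false

namespace H96.DR

open Finset H23.LP

private theorem big (K : ℝ) : ∃ A1 : ℕ, ∀ A : ℕ, A1 ≤ A → K ≤ (A : ℝ) ^ (0.0062 : ℝ) := by
  have h := ((tendsto_rpow_atTop (show (0 : ℝ) < 0.0062 by norm_num)).comp
    tendsto_natCast_atTop_atTop).eventually_ge_atTop K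
  obtain ⟨A1, hA1⟩ := Filter.eventually_atTop.1 h
  exact ⟨A1, fun A hA => hA1 A hA⟩

/-- the numerical facts about `g` and `A` -/
private theorem num (A : ℕ) (hA : 1 ≤ A) (h4 : 4 ≤ (A : ℝ) ^ (0.0062 : ℝ)) (g : ℤ) (hg : g ∈ GG A) :
    (A : ℝ) ^ (0.0062 : ℝ) ≤ g ∧ (g : ℝ) ≤ A ∧ (A : ℝ) / g ≤ (A : ℝ) ^ (0.9938 : ℝ) ∧
      1 + (A : ℝ) ^ (0.13 : ℝ) ≤ 2 * (A / g) ∧ 1 + (A : ℝ) ^ (0.13 : ℝ) ≤ (A : ℝ) ^ (0.9938 : ℝ) := by
  have hA' : (1 : ℝ) ≤ A := by exact_mod_cast hA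
  have hA0 : (0 : ℝ) < A := by linarith
  set B : ℝ := (A : ℝ) ^ (0.0062 : ℝ) with hB
  set E : ℝ := (A : ℝ) ^ (0.9938 : ℝ) with hE
  have hEB : E * B = A := by
    rw [hE, hB, ← Real.rpow_add hA0]
    norm_num
  have hE4 : B ≤ E := Real.rpow_le_rpow_of_exponent_le hA' (by norm_num)
  unfold GG at hg
  rw [mem_Ioc] at hg
  have h1 : B ≤ (Gn A : ℝ) := Nat.le_ceil _
  have h2 : (Gn A : ℝ) < B + 1 := Nat.ceil_lt_add_one (by positivity)
  have g1 : ((Gn A : ℤ) : ℝ) < g := by exact_mod_cast hg.1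
  have g2 : (g : ℝ) ≤ 2 * (Gn A : ℝ) := by
    have : (g : ℝ) ≤ ((2 * Gn A : ℤ) : ℝ) := by exact_mod_cast hg.2
    simpa using this
  have g1' : (Gn A : ℝ) < g := by simpa using g1
  have hg0 : (0 : ℝ) < g := by linarith
  have g3 : (g : ℝ) ≤ 4 * B := by linarith
  have hlow : E / 4 ≤ A / g := by
    rw [div_le_div_iff₀ (by norm_num) hg0, ← hEB]
    nlinarith
  have hD : 1 + (A : ℝ) ^ (0.13 : ℝ) ≤ E / 2 := by
    have e1 : (1 : ℝ) ≤ (A : ℝ) ^ (0.13 : ℝ) := Real.one_le_rpow hA' (by norm_num)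
    have e2 : (A : ℝ) ^ (0.13 : ℝ) * (A : ℝ) ^ (0.8638 : ℝ) = E := by
      rw [hE, ← Real.rpow_add hA0]
      norm_num
    have e3 : B ≤ (A : ℝ) ^ (0.8638 : ℝ) := Real.rpow_le_rpow_of_exponent_le hA' (by norm_num)
    nlinarith
  refine ⟨by linarith, ?_, ?_, by linarith, by linarith⟩
  · rw [← hEB]; nlinarith
  · rw [div_le_iff₀ hg0, ← hEB]
    have : 0 < E := by linarith
    nlinarith

open Classical in
theorem esg (k : ℤ) (hk : ∀ t : ℤ, t ^ 3 ≠ k) : ∃ C : ℝ, 0 < C ∧ ∃ M0 : ℕ, 1 ≤ M0 ∧ ∀ M : ℕ, M0 ≤ M →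
    ∃ A0 : ℕ, ∀ A X : ℕ, A0 ≤ A → (X : ℝ) ≤ (A : ℝ) ^ 3 → ∀ g ∈ GG A, ∀ s c : ℤ, c ∈ Ic M A →
    0 < RR k A g s c → Gd k A g s c → ∀ D h : ℕ, 0 < D → (D : ℝ) ≤ (A : ℝ) ^ (0.13 : ℝ) → 1 ≤ h →
    (h : ℝ) ≤ (A : ℝ) ^ (0.0127 : ℝ) → ∀ τ Y : ℤ, |Y| ≤ 2 * X → ∀ m : ℤ → ℤ,
    (∀ b ∈ (Jb k M A g s).filter (fun b => b ≡ τ [ZMOD (D : ℤ)] ∧ CP k g s b c),
      ng k g s b c ∣ Cg k g s b c * m b + Bg k g s b c) →
    ‖∑ b ∈ (Jb k M A g s).filter (fun b => b ≡ τ [ZMOD (D : ℤ)] ∧ CP k g s b c),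
      ee (h * (((Y : ℝ) - m b) / ng k g s b c))‖ ≤ C * h * ((A : ℝ) ^ (0.9734 : ℝ) / D) := by
  obtain ⟨Kv, hKv, Mv, hMv, hv⟩ := varg k
  obtain ⟨Kb, hKb, Mb, hMb, hb⟩ := boxg k
  obtain ⟨Mf, hMf, hf⟩ := fbd k hk
  have hpi := Real.pi_pos
  refine ⟨1 + 18 * Real.pi * Kv, by positivity, max Mv (max Mb Mf), le_max_of_le_left hMv, ?_⟩
  intro M hM
  have hM1 : Mv ≤ M := (le_max_left _ _).trans hM
  have hM2 : Mb ≤ M := (le_max_left _ _).trans ((le_max_right _ _).trans hM)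
  have hM3 : Mf ≤ M := (le_max_right _ _).trans ((le_max_right _ _).trans hM)
  have hMpos : (1 : ℝ) ≤ M := by exact_mod_cast hMv.trans hM1
  obtain ⟨Af, hAf⟩ := hf M hM3
  obtain ⟨A1, hA1⟩ := big (max 4 (max Kv Kb))
  refine ⟨max 1 (max Af A1), ?_⟩
  intro A X hA hX g hg s c hc hRR hGd D h hD hD2 hh hh2 τ Y hY m hm
  have hA01 : 1 ≤ A := (le_max_left _ _).trans hA
  have hA02 : Af ≤ A := (le_max_left _ _).trans ((le_max_right _ _).trans hA)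
  have hA03 : A1 ≤ A := (le_max_right _ _).trans ((le_max_right _ _).trans hA)
  have hbig := hA1 A hA03
  have hb4 : 4 ≤ (A : ℝ) ^ (0.0062 : ℝ) := (le_max_left _ _).trans hbig
  have hbv : Kv ≤ (A : ℝ) ^ (0.0062 : ℝ) := (le_max_left _ _).trans ((le_max_right _ _).trans hbig)
  have hbb : Kb ≤ (A : ℝ) ^ (0.0062 : ℝ) := (le_max_right _ _).trans ((le_max_right _ _).trans hbig)
  obtain ⟨n1, n2, n3, n4, n5⟩ := num A hA01 hb4 g hg
  have hA' : (1 : ℝ) ≤ A := by exact_mod_cast hA01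
  have hA0 : (0 : ℝ) < A := by linarith
  have hg0 : (0 : ℝ) < g := by linarith
  have hgz : 0 < g := by exact_mod_cast hg0
  have hDr : (0 : ℝ) < D := by exact_mod_cast hD
  have hD1 : (1 : ℝ) ≤ D := by exact_mod_cast hD
  have hh1 : (1 : ℝ) ≤ h := by exact_mod_cast hh
  have hK0 : 0 ≤ (A : ℝ) ^ (0.9734 : ℝ) / D := by positivity
  rcases (Jb k M A g s).eq_empty_or_nonempty with hJe | hJ
  · rw [hJe]
    simp only [filter_empty, sum_empty, norm_zero]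
    positivity
  -- the line
  obtain ⟨b0, hb0⟩ := hJ
  have hmemJ : ∀ b : ℤ, b ∈ Jb k M A g s ↔ b ∈ Ib k M A ∧ s - g * b ∈ Ia k M A := by
    intro b
    unfold Jb
    rw [mem_filter]
  have hb0' := (hmemJ b0).1 hb0
  have hI : 0 < II k g s c := by
    have h1 := (hb M A hM2 hA01 g (hbb.trans n1) _ hb0'.2 b0 hb0'.1 c hc).2.2.1
    rw [sub_add_cancel] at h1
    have h2 : (0 : ℝ) < (g : ℝ) ^ 3 * ((M : ℝ) * A) ^ 3 / 2 := by positivity
    exact_mod_cast h2.trans_le h1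
  obtain ⟨l, F, hl, hFp, hF1, hF0, hFe⟩ := phase_g k g s c h hI
  set I1 : ℕ := SQ (II k g s c).natAbs with hI1
  obtain ⟨s0, e0, hse, hJint, hlen⟩ := Jb_int k M A g s hgz
  set f : ℤ → ℂ := fun b => ee (h * phig k g s c Y b) * (fe I1 l (Cg k g s b c) * F b) with hfdef
  have hng : ∀ b ∈ Jb k M A g s, 0 < ng k g s b c := by
    intro b hbJ
    have hb' := (hmemJ b).1 hbJ
    have h1 := (hb M A hM2 hA01 g (hbb.trans n1) _ hb'.2 b hb'.1 c hc).1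
    have h2 : (0 : ℝ) < ((M : ℝ) * A) ^ 3 / 2 := by positivity
    unfold ng
    exact_mod_cast h2.trans_le h1
  have hsum : ∑ b ∈ (Jb k M A g s).filter (fun b => b ≡ τ [ZMOD (D : ℤ)] ∧ CP k g s b c),
      ee (h * (((Y : ℝ) - m b) / ng k g s b c)) =
        ∑ t ∈ Ioc ((s0 - τ) / D) ((e0 - τ) / D), f (τ + D * t) := by
    rw [← prog s0 e0 τ D hD f, ← hJint]
    have e1 : (Jb k M A g s).filter (fun b => b ≡ τ [ZMOD (D : ℤ)] ∧ CP k g s b c) =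
        ((Jb k M A g s).filter (fun b => b ≡ τ [ZMOD (D : ℤ)])).filter (fun b => CP k g s b c) := by
      rw [filter_filter]
    rw [e1, sum_filter (fun b => CP k g s b c)]
    apply sum_congr rfl
    intro b hbm
    have hbJ := (mem_filter.1 hbm).1
    split_ifs with hcp
    · have h3 := hFe b (m b) Y (hng b hbJ) hcp (hm b (mem_filter.2 ⟨hbJ, (mem_filter.1 hbm).2, hcp⟩))
      have h4 : (((h : ℤ) : ℝ)) = (h : ℝ) := by push_cast; rfl
      rw [h4] at h3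
      rw [h3]
    · rw [hfdef]
      simp only
      rw [hF0 b hcp, mul_zero]
  rw [hsum]
  set s' : ℤ := (s0 - τ) / D with hs'
  set e' : ℤ := (e0 - τ) / D with he'
  have hplen := prog_len s0 e0 τ D hD hse
  rw [← hs', ← he'] at hplen
  have hlen1 : (((e0 - s0 : ℤ) : ℝ)) / D + 1 ≤ (A / g + 1) / D + 1 := by
    have := div_le_div_of_nonneg_right hlen hDr.le
    linarith
  have hlenA : ((e' - s' : ℤ) : ℝ) ≤ 2 * (A : ℝ) ^ (0.9938 : ℝ) / D := by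
    refine (hplen.trans hlen1).trans ?_
    have e1 : (A / g + 1 : ℝ) / D + 1 = (A / g + 1 + D) / D := by field_simp
    rw [e1]
    apply div_le_div_of_nonneg_right _ hDr.le
    linarith
  have hlenB : ((e' - s' : ℤ) : ℝ) ≤ 3 * (A / g) / D := by
    refine (hplen.trans hlen1).trans ?_
    have e1 : (A / g + 1 : ℝ) / D + 1 = (A / g + 1 + D) / D := by field_simp
    rw [e1]
    apply div_le_div_of_nonneg_right _ hDr.le
    linarith
  have hJne : (Jb k M A g s).Nonempty := ⟨b0, hb0⟩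
  -- partial sums
  have hpart : ∀ t : ℤ, t ≤ e' → ‖∑ i ∈ Ioc s' t, fe I1 l (Cg k g s (τ + D * i) c) * F (τ + D * i)‖ ≤
      (A : ℝ) ^ (0.9734 : ℝ) / D := by
    intro t ht
    have h5 := hAf A hA02 g hg s c hc hJne hRR hGd D h hD hD2 hh hh2 l F
      (fun q hq => by rw [hl q hq]) hFp hF1 (c * xx k g s c - τ * yy g s c) τ s' t (by
        have : ((t - s' : ℤ) : ℝ) ≤ ((e' - s' : ℤ) : ℝ) := by exact_mod_cast (by linarith : t - s' ≤ e' - s')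
        exact this.trans hlenA)
    refine le_trans (le_of_eq ?_) h5
    congr 1
    apply sum_congr rfl
    intro i _
    congr 2
    unfold Cg
    ring
  -- the variation
  have hin : ∀ t : ℤ, s' < t → t ≤ e' → τ + D * t ∈ Jb k M A g s := by
    intro t h1 h2
    rw [hJint, mem_Ioc]
    have hDz : (0 : ℤ) < D := by exact_mod_cast hD
    rw [hs'] at h1
    rw [he'] at h2
    have h3 := (Int.ediv_lt_iff_lt_mul hDz).1 h1
    have h4 := (Int.le_ediv_iff_mul_le hDz).1 h2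
    constructor <;> nlinarith
  set W : ℝ := h * (Kv * (|(Y : ℝ)| + (g : ℝ) ^ 3) * g * D / ((M : ℝ) * A) ^ 4) with hW
  have hW0 : 0 ≤ W := by positivity
  have hterm : ∀ t ∈ Ioo s' e', |(fun t : ℤ => (h : ℝ) * phig k g s c Y (τ + D * t)) (t + 1) -
      (fun t : ℤ => (h : ℝ) * phig k g s c Y (τ + D * t)) t| ≤ W := by
    intro t ht
    rw [mem_Ioo] at ht
    have j1 := (hmemJ _).1 (hin t ht.1 ht.2.le)
    have j2 := (hmemJ _).1 (hin (t + 1) (by linarith) (by linarith))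
    have h6 := hv M A hM1 hA01 g (hbv.trans n1) s (τ + D * t) (τ + D * (t + 1)) c Y
      (by nlinarith) j1.1 j2.1 j1.2 j2.2 hc
    simp only
    rw [← mul_sub, abs_mul, abs_of_nonneg (by positivity : (0 : ℝ) ≤ h), hW]
    apply mul_le_mul_of_nonneg_left _ (by positivity)
    refine h6.trans (le_of_eq ?_)
    push_cast
    ring
  have hVsum : ∑ t ∈ Ioo s' e', |(fun t : ℤ => (h : ℝ) * phig k g s c Y (τ + D * t)) (t + 1) -
      (fun t : ℤ => (h : ℝ) * phig k g s c Y (τ + D * t)) t| ≤ 9 * h * Kv := by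
    have h7 := sum_le_card_nsmul _ _ _ hterm
    rw [nsmul_eq_mul] at h7
    refine h7.trans ?_
    have hcard : ((Ioo s' e').card : ℝ) ≤ 3 * (A / g) / D := by
      rw [Int.card_Ioo]
      rcases le_or_gt (e' - s' - 1) 0 with h8 | h8
      · rw [Int.toNat_of_nonpos h8]
        simp only [Nat.cast_zero]
        positivity
      · have h9 : (((e' - s' - 1).toNat : ℕ) : ℝ) = ((e' - s' - 1 : ℤ) : ℝ) := by
          have : (((e' - s' - 1).toNat : ℤ)) = e' - s' - 1 := Int.toNat_of_nonneg h8.le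
          exact_mod_cast congrArg (fun z : ℤ => (z : ℝ)) this
        rw [h9]
        have : ((e' - s' - 1 : ℤ) : ℝ) ≤ ((e' - s' : ℤ) : ℝ) := by exact_mod_cast (by linarith : e' - s' - 1 ≤ e' - s')
        exact this.trans hlenB
    refine (mul_le_mul_of_nonneg_right hcard hW0).trans ?_
    have hYr : |(Y : ℝ)| ≤ 2 * (A : ℝ) ^ 3 := by
      have h10 : |(Y : ℝ)| ≤ 2 * (X : ℝ) := by exact_mod_cast hY
      linarith
    have hg3 : (g : ℝ) ^ 3 ≤ (A : ℝ) ^ 3 := pow_le_pow_left₀ hg0.le n2 3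
    have hP : (A : ℝ) ≤ (M : ℝ) * A := by nlinarith
    have hP4 : (A : ℝ) ^ 4 ≤ ((M : ℝ) * A) ^ 4 := pow_le_pow_left₀ hA0.le hP 4
    have e2 : 3 * ((A : ℝ) / g) / D * W =
        3 * h * Kv * ((|(Y : ℝ)| + (g : ℝ) ^ 3) * A / ((M : ℝ) * A) ^ 4) := by
      rw [hW]
      field_simp
    rw [e2]
    have e3 : (|(Y : ℝ)| + (g : ℝ) ^ 3) * A / ((M : ℝ) * A) ^ 4 ≤ 3 := by
      rw [div_le_iff₀ (by positivity)]
      have : (|(Y : ℝ)| + (g : ℝ) ^ 3) * A ≤ 3 * (A : ℝ) ^ 3 * A :=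
        mul_le_mul_of_nonneg_right (by linarith) hA0.le
      nlinarith
    have e4 : 0 ≤ 3 * (h : ℝ) * Kv := by positivity
    nlinarith [mul_le_mul_of_nonneg_left e3 e4]
  have hps := psum (fun t : ℤ => fe I1 l (Cg k g s (τ + D * t) c) * F (τ + D * t))
    (fun t : ℤ => (h : ℝ) * phig k g s c Y (τ + D * t)) s' e' _ (9 * h * Kv) hK0 hpart hVsum
  refine hps.trans ?_
  have e5 : 1 + 2 * Real.pi * (9 * h * Kv) ≤ (1 + 18 * Real.pi * Kv) * h := by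
    have : 0 ≤ Real.pi * Kv := by positivity
    nlinarith
  calc (A : ℝ) ^ (0.9734 : ℝ) / D * (1 + 2 * Real.pi * (9 * h * Kv)) ≤
        (A : ℝ) ^ (0.9734 : ℝ) / D * ((1 + 18 * Real.pi * Kv) * h) := mul_le_mul_of_nonneg_left e5 hK0
    _ = _ := by ring

end H96.DR
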