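import Pool.Agent.H96.DR.Def

/-!
# [DR JBI] the points of a line in the box, 80-120 lines. File Pool/Agent/H96/DR/Jbi.lean

* `Jb_int`: `g > 0`. `s - g b ∈ Ioc α (α + A)` iff `s - α - A ≤ g b < s - α` iff `b ∈ Ioc u v`, `u = ⌈(s - α - A)/g⌉ - 1`, `v = ⌈(s - α)/g⌉ - 1` (with `Int` division: `u = -((-(s - α - A)) / g) - 1`, ...; or `g b < n ↔ b ≤ (n - 1)/g`, `n ≤ g b ↔ (n - 1)/g < b`
for the floor division, `Int.lt_ediv_iff..`, `Int.ediv_lt_iff_lt_mul`: so `u = (s - α - A - 1)/g`, `v = (s - α - 1)/g`). `Ib = Ioc β (β + A)`, the intersection of two half open intervals is `Ioc (max β u) (min (β + A) v)`; length `≤ v - u ≤ A/g + 1`. If the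
intersection is empty take `s0 = e0`.
* `prog`: the `b ∈ Ioc s0 e0` with `b ≡ τ (mod D)` are the `τ + D t` with `t ∈ Ioc ((s0 - τ)/D) ((e0 - τ)/D)` (floor division; bijection, as in `H23/LP/Ist.lean`), number of `t`: `(e0 - τ)/D - (s0 - τ)/D ≤ (e0 - s0)/D + 1`.
-/

set_option autoImplicit false

namespace H96.DR

open Finset H23.LP

/-- the `b` of the line `(g, s)` in the box -/
noncomputable def Jb (k : ℤ) (M A : ℕ) (g s : ℤ) : Finset ℤ :=
  (Ib k M A).filter fun b => s - g * b ∈ Ia k M A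

private theorem jb_aux (α β s g : ℤ) (A : ℕ) (hg : 0 < g) : ∃ s0 e0 : ℤ, s0 ≤ e0 ∧
    ((Ioc β (β + A)).filter fun b => s - g * b ∈ Ioc α (α + A)) = Ioc s0 e0 ∧
      ((e0 - s0 : ℤ) : ℝ) ≤ A / g + 1 := by
  obtain ⟨u, hu⟩ : ∃ u, u = (s - α - A - 1) / g := ⟨_, rfl⟩
  obtain ⟨v, hv⟩ : ∃ v, v = (s - α - 1) / g := ⟨_, rfl⟩
  have hmem : ∀ b : ℤ, s - g * b ∈ Ioc α (α + A) ↔ u < b ∧ b ≤ v := by
    intro b
    rw [Finset.mem_Ioc, hu, hv, Int.ediv_lt_iff_lt_mul hg, Int.le_ediv_iff_mul_le hg]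
    constructor
    · rintro ⟨h1, h2⟩
      constructor <;> linarith
    · rintro ⟨h1, h2⟩
      constructor <;> linarith
  have hset : ((Ioc β (β + A)).filter fun b => s - g * b ∈ Ioc α (α + A)) =
      Ioc (max β u) (min (β + A) v) := by
    ext b
    rw [Finset.mem_filter, hmem, Finset.mem_Ioc, Finset.mem_Ioc, max_lt_iff, le_min_iff]
    tauto
  have huv : u ≤ v := by
    rw [hu, hv]
    exact Int.ediv_le_ediv hg (by linarith [Int.natCast_nonneg A])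
  have hlen : ((v - u : ℤ) : ℝ) ≤ A / g + 1 := by
    have hg' : (0 : ℝ) < g := by exact_mod_cast hg
    have h1 : g * v ≤ s - α - 1 := by
      rw [hv]
      exact Int.mul_ediv_self_le hg.ne'
    have h2 : s - α - A - 1 < g * (u + 1) := by
      have := Int.lt_mul_ediv_self_add (x := s - α - A - 1) hg
      rw [← hu] at this
      linarith
    have h3 : g * (v - u) < A + g := by linarith
    have h4 : (g : ℝ) * ((v - u : ℤ) : ℝ) < A + g := by exact_mod_cast h3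
    have h5 : ((v - u : ℤ) : ℝ) * g ≤ (A / g + 1) * g := by
      have : ((A : ℝ) / g + 1) * g = A + g := by field_simp
      rw [this]
      linarith
    exact le_of_mul_le_mul_right h5 hg'
  by_cases hle : max β u ≤ min (β + A) v
  · refine ⟨max β u, min (β + A) v, hle, hset, le_trans ?_ hlen⟩
    have h1 : min (β + A) v - max β u ≤ v - u := by
      have := min_le_right (β + A) v
      have := le_max_right β u
      omega
    exact_mod_cast h1
  · refine ⟨β, β, le_rfl, ?_, ?_⟩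
    · rw [hset, Finset.Ioc_self, Finset.Ioc_eq_empty_iff]
      exact fun h => hle h.le
    · rw [sub_self, Int.cast_zero]
      have hg' : (0 : ℝ) < g := by exact_mod_cast hg
      positivity

theorem Jb_int (k : ℤ) (M A : ℕ) (g s : ℤ) (hg : 0 < g) : ∃ s0 e0 : ℤ, s0 ≤ e0 ∧
    Jb k M A g s = Ioc s0 e0 ∧ ((e0 - s0 : ℤ) : ℝ) ≤ A / g + 1 := by
  unfold Jb Ib Ia
  exact jb_aux _ _ _ _ _ hg

theorem prog {R : Type} [AddCommMonoid R] (s0 e0 τ : ℤ) (D : ℕ) (hD : 0 < D) (f : ℤ → R) :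
    ∑ b ∈ (Ioc s0 e0).filter (fun b => b ≡ τ [ZMOD (D : ℤ)]), f b =
      ∑ t ∈ Ioc ((s0 - τ) / D) ((e0 - τ) / D), f (τ + D * t) := by
  have hD' : (0 : ℤ) < D := by exact_mod_cast hD
  symm
  refine Finset.sum_bij (fun t _ => τ + D * t) ?_ ?_ ?_ ?_
  · intro t ht
    rw [Finset.mem_Ioc, Int.ediv_lt_iff_lt_mul hD', Int.le_ediv_iff_mul_le hD'] at ht
    rw [Finset.mem_filter, Finset.mem_Ioc]
    refine ⟨⟨by linarith [ht.1], by linarith [ht.2]⟩, ?_⟩
    exact (Int.modEq_iff_dvd.2 ⟨-t, by ring⟩)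
  · intro a _ b _ hab
    have h1 : (D : ℤ) * a = D * b := by linarith
    exact mul_left_cancel₀ hD'.ne' h1
  · intro b hb
    rw [Finset.mem_filter, Finset.mem_Ioc] at hb
    obtain ⟨⟨h1, h2⟩, h3⟩ := hb
    obtain ⟨t, ht⟩ := (Int.modEq_iff_dvd.1 h3.symm)
    refine ⟨t, ?_, by linarith⟩
    rw [Finset.mem_Ioc, Int.ediv_lt_iff_lt_mul hD', Int.le_ediv_iff_mul_le hD']
    constructor <;> linarith
  · intro t _
    rfl

theorem prog_len (s0 e0 τ : ℤ) (D : ℕ) (hD : 0 < D) (h : s0 ≤ e0) :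
    (((e0 - τ) / D - (s0 - τ) / D : ℤ) : ℝ) ≤ ((e0 - s0 : ℤ) : ℝ) / D + 1 := by
  have hD' : (0 : ℤ) < D := by exact_mod_cast hD
  have hDr : (0 : ℝ) < D := by exact_mod_cast hD
  have h1 : (D : ℤ) * ((e0 - τ) / D) ≤ e0 - τ := Int.mul_ediv_self_le hD'.ne'
  have h2 : s0 - τ < (D : ℤ) * ((s0 - τ) / D) + D := Int.lt_mul_ediv_self_add hD'
  have h3 : (D : ℤ) * ((e0 - τ) / D - (s0 - τ) / D) ≤ e0 - s0 + D := by linarith
  have h4 : (D : ℝ) * (((e0 - τ) / D - (s0 - τ) / D : ℤ) : ℝ) ≤ ((e0 - s0 : ℤ) : ℝ) + D := by exact_mod_cast h3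
  have h5 : ((e0 - s0 : ℤ) : ℝ) / D + 1 = (((e0 - s0 : ℤ) : ℝ) + D) / D := by field_simp
  rw [h5, le_div_iff₀ hDr]
  linarith

end H96.DR
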