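import Pool.Agent.H96.DR.Sfp

/-!
# [DR RRP] the prime factors of a line, 60-100 lines. File Pool/Agent/H96/DR/Rrp.lean

* `lf_dvd`: `s ≡ (g ρ + ρ²) c`, `k ≡ ρ³ (mod q)`: `II ≡ ((g ρ + ρ²) c)³ - 3 ρ³ g c² (g ρ + ρ²) c - ρ³ (g³ + ρ³) c³ = 0` (`ring`). In detail `II k g s c = (s - (g ρ + ρ²) c) * X1 + (ρ³ - k) * X2` with polynomials `X1`, `X2`
(or work with `Int.ModEq` / `ZMod q`).
* `RR_pos`: the filter set is nonempty; unfold `P1`, `P2`, `PP`, `lf`.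
* `q_SQ`: if `q² ∣ |I|` then `q ∣ SF |I|` (`dvd_SF_iff`), so `q ≤ SF |I| ≤ A^0.09 < A^0.72 < q`, contradiction; so `q ∣ SQ |I|` (`dvd_SQ_iff`).
-/

set_option autoImplicit false

namespace H96.DR

open Finset H23.LP

theorem lf_dvd (k g s c : ℤ) (x : ℕ × ℕ) (h : (x.1 : ℤ) ∣ (x.2 : ℤ) ^ 3 - k) (hl : lf g s c x) :
    (x.1 : ℤ) ∣ II k g s c := by
  obtain ⟨q, ρ⟩ := x
  simp only [lf] at h hl ⊢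
  have hs : s ≡ (g * ρ + (ρ : ℤ) ^ 2) * c [ZMOD (q : ℤ)] := (Int.modEq_iff_dvd.2 hl).symm
  have hk : k ≡ (ρ : ℤ) ^ 3 [ZMOD (q : ℤ)] := Int.modEq_iff_dvd.2 h
  have h1 : II k g s c ≡ ((g * ρ + (ρ : ℤ) ^ 2) * c) ^ 3 - 3 * (ρ : ℤ) ^ 3 * g * c ^ 2 *
      ((g * ρ + (ρ : ℤ) ^ 2) * c) - (ρ : ℤ) ^ 3 * (g ^ 3 + (ρ : ℤ) ^ 3) * c ^ 3 [ZMOD (q : ℤ)] := by
    unfold II
    exact ((hs.pow 3).sub ((((hk.mul_left 3).mul_right g).mul_right (c ^ 2)).mul hs)).sub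
      ((hk.mul (hk.add_left (g ^ 3))).mul_right (c ^ 3))
  have h2 : ((g * ρ + (ρ : ℤ) ^ 2) * c) ^ 3 - 3 * (ρ : ℤ) ^ 3 * g * c ^ 2 *
      ((g * ρ + (ρ : ℤ) ^ 2) * c) - (ρ : ℤ) ^ 3 * (g ^ 3 + (ρ : ℤ) ^ 3) * c ^ 3 = 0 := by ring
  rw [h2] at h1
  exact Int.modEq_zero_iff_dvd.1 h1

theorem RR_pos (k : ℤ) (A : ℕ) (g s c : ℤ) (h : 0 < RR k A g s c) : ∃ q1 q2 : ℕ, q1.Prime ∧ q2.Prime ∧
    (A : ℝ) ^ (0.72 : ℝ) < q1 ∧ (q1 : ℝ) ≤ (A : ℝ) ^ (0.7204 : ℝ) ∧ (A : ℝ) ^ (0.761 : ℝ) < q2 ∧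
    (q2 : ℝ) ≤ (A : ℝ) ^ (0.7614 : ℝ) ∧ (q1 : ℤ) ∣ II k g s c ∧ (q2 : ℤ) ∣ II k g s c := by
  classical
  unfold RR at h
  obtain ⟨⟨x, y⟩, hxy⟩ := Finset.card_pos.1 h
  rw [mem_filter, mem_product] at hxy
  obtain ⟨⟨hx, hy⟩, hlx, hly⟩ := hxy
  simp only at hx hy hlx hly
  unfold P1 PP at hx
  unfold P2 PP at hy
  rw [mem_filter] at hx hy
  obtain ⟨-, hx1, hx2, hx3, hx4, hx5⟩ := hx
  obtain ⟨-, hy1, hy2, hy3, hy4, hy5⟩ := hy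
  exact ⟨x.1, y.1, hx1, hy1, hx2, hx3, hy2, hy3, lf_dvd k g s c x hx5 hlx, lf_dvd k g s c y hy5 hly⟩

theorem q_SQ (A n q : ℕ) (hA : 2 ≤ A) (hn : n ≠ 0) (hS : (SF n : ℝ) ≤ (A : ℝ) ^ (0.09 : ℝ)) (hq : q.Prime)
    (h1 : (A : ℝ) ^ (0.72 : ℝ) < q) (h2 : q ∣ n) : q ∣ SQ n := by
  rw [dvd_SQ_iff n q hn hq]
  refine ⟨h2, fun h3 => ?_⟩
  have h4 : q ∣ SF n := (dvd_SF_iff n q hn hq).2 h3
  have h5 : (q : ℝ) ≤ SF n := by exact_mod_cast Nat.le_of_dvd (SF_pos n) h4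
  have hA1 : (1 : ℝ) ≤ A := by
    have : 1 ≤ A := by omega
    exact_mod_cast this
  have h6 : (A : ℝ) ^ (0.09 : ℝ) ≤ (A : ℝ) ^ (0.72 : ℝ) :=
    Real.rpow_le_rpow_of_exponent_le hA1 (by norm_num)
  linarith

end H96.DR
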