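import Pool.Agent.H96.DR.Fes
import Pool.Agent.H96.DR.Rrp
import Pool.Agent.H96.DR.Agl
import Pool.Agent.H96.DR.Bxg
import Pool.Agent.H96.DR.Jbi

/-!
# [DR FBD] the bound for the sums of `fe` on a good line, 150-240 lines. File Pool/Agent/H96/DR/Fbd.lean

`K`, `M0` from `boxg`. `G = Gn A ≥ A^0.0062`, `G < g ≤ 2 G ≤ 4 A^0.0062` (`A` large), so `g ≥ K`. The line meets the box, so `I = II > 0` and `g³ P³/2 ≤ I ≤ K g³ P³ ≤ 64 K M³ A^3.0186`. `y = yy > 0`.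
`I1 = SQ |I|`, `I2 = SF |I| ≤ A^0.09`, `q1`, `q2` from `RR_pos`, both divide `I1` (`q_SQ`; for `q2`: `A^0.72 ≤ A^0.761 < q2`), `q1 ≤ A^0.7204 < A^0.761 < q2`, so `q1 q2 ∣ I1`. `q0 = I1/(q1 q2) = I/(I2 q1 q2)`: `q0 ≥ (A^3/2)/(A^0.09 A^1.4818) ≥ A^1.4`,
`q0 ≤ 64 K M³ A^3.0186/A^1.481 = 64 K M³ A^1.5376`.
`T = 2 A^0.9938/D ≥ 2 A^0.8638`. `q1 I2 ≤ A^0.8104 ≤ T`, `q2 ≤ A^0.7614 ≤ T`. `fes` with `v = -(y D)`: `gcd(v, q0) ≤ gcd(y, q0) gcd(D, q0)`, and `gcd(y, q0) = 1` by `y_cop` (all primes of `q0` divide `I1`), so `gcd(v, q0) ≤ D ≤ A^0.13` and `T gcd(v, q0)/q0 ≤ 2 A^0.9938/A^1.4 ≤ 1`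
(`T D = 2 A^0.9938`). `gcd(l, q0) = gcd(h y², q0) = gcd(h, q0) ≤ h ≤ A^0.0127` (hypothesis on `l`, `q0 ∣ I1`).
`9^ω(I1) ≤ B I1^(10^-6)` (`H19.QV.pow_omega`), `τ(I1)² ≤ (2^ω)² ≤ B I1^(10^-6)` (`tau_le`, squarefree), `1 + 1 + log I1 ≤ B A^(10^-5)`; `I1 ≤ A^4`. So for `A` large the third term of `fes` is `≤ T³ A^(0.0001) A^0.7688 A^0.0127 · const`, and
`|∑|⁴/T⁴ ≤ 32 A^1.6208/T² + 128 A^0.7614/T + A^(0.7817)/T ≤ 8 A^-0.1068 + 64 A^-0.1024 + A^-0.0820 ≤ A^-0.0819`,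
so `|∑| ≤ T A^-0.020475 = 2 A^0.973325/D ≤ A^0.9734/D` for `A ≥ A0`.
-/

set_option autoImplicit false

namespace H96.DR

open Finset H23.LP

private theorem ev_pow (C a b : ℝ) (h : a < b) :
    ∀ᶠ A : ℕ in Filter.atTop, C * (A : ℝ) ^ a ≤ (A : ℝ) ^ b := by
  have h1 : Filter.Tendsto (fun A : ℕ => (A : ℝ) ^ (b - a)) Filter.atTop Filter.atTop :=
    (tendsto_rpow_atTop (by linarith)).comp tendsto_natCast_atTop_atTop
  filter_upwards [h1.eventually_ge_atTop C, Filter.eventually_ge_atTop 1] with A hA hA1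
  have hx : (0 : ℝ) < A := by exact_mod_cast hA1
  have h2 : (A : ℝ) ^ b = (A : ℝ) ^ (b - a) * (A : ℝ) ^ a := by
    rw [← Real.rpow_add hx]
    congr 1
    ring
  rw [h2]
  exact mul_le_mul_of_nonneg_right hA (Real.rpow_nonneg hx.le _)

private theorem ev_log (C : ℝ) (a : ℝ) (ha : 0 < a) :
    ∀ᶠ A : ℕ in Filter.atTop, C + 4 * Real.log (A : ℝ) ≤ (A : ℝ) ^ a := by
  have h1 : Filter.Tendsto (fun A : ℕ => (A : ℝ)) Filter.atTop Filter.atTop := tendsto_natCast_atTop_atTop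
  have h2 := (isLittleO_log_rpow_atTop ha).comp_tendsto h1
  have h3 := h2.bound (show (0 : ℝ) < 1 / 8 by norm_num)
  filter_upwards [h3, ev_pow (2 * C) 0 a ha, Filter.eventually_ge_atTop 1] with A hA hB hA1
  have hx : (1 : ℝ) ≤ A := by exact_mod_cast hA1
  simp only [Function.comp] at hA
  rw [Real.norm_of_nonneg (Real.log_nonneg hx), Real.norm_of_nonneg (Real.rpow_nonneg (by linarith) _)] at hA
  rw [Real.rpow_zero, mul_one] at hB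
  linarith

/-- the final inequality -/
private theorem fin_ineq (x T D R qI q2 W C : ℝ) (hx : 1 ≤ x) (hD : 0 < D) (hDx : D ≤ x ^ (0.13 : ℝ))
    (hT : T = 2 * x ^ (0.9938 : ℝ) / D) (hC : 0 ≤ C)
    (hqI0 : 0 ≤ qI) (hqI : qI ≤ x ^ (0.8104 : ℝ)) (hq2 : q2 ≤ x ^ (0.7614 : ℝ))
    (hW : W ≤ C * x ^ (0.7818 : ℝ))
    (hR : R ≤ 32 * T ^ 2 * qI ^ 2 + 128 * T ^ 3 * q2 + 128 * T ^ 3 * W)
    (e1 : 384 * x ^ (-0.1068 : ℝ) ≤ x ^ (-0.0816 : ℝ)) (e2 : 3072 * x ^ (-0.1024 : ℝ) ≤ x ^ (-0.0816 : ℝ))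
    (e3 : 3072 * C * x ^ (-0.0820 : ℝ) ≤ x ^ (-0.0816 : ℝ)) :
    R ≤ (x ^ (0.9734 : ℝ) / D) ^ 4 := by
  have hx0 : 0 < x := by linarith
  have hp : ∀ a b : ℝ, x ^ a * x ^ b = x ^ (a + b) := fun a b => (Real.rpow_add hx0 a b).symm
  have hpos : ∀ a : ℝ, 0 < x ^ a := fun a => Real.rpow_pos_of_pos hx0 a
  have hTlow : 2 * x ^ (0.8638 : ℝ) ≤ T := by
    rw [hT, le_div_iff₀ hD]
    have h1 : x ^ (0.8638 : ℝ) * D ≤ x ^ (0.8638 : ℝ) * x ^ (0.13 : ℝ) :=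
      mul_le_mul_of_nonneg_left hDx (hpos _).le
    rw [hp] at h1
    norm_num at h1 ⊢
    linarith
  have hT0 : 0 < T := lt_of_lt_of_le (by have := hpos (0.8638 : ℝ); linarith) hTlow
  -- the right side
  have hr : (x ^ (0.9734 : ℝ) / D) ^ 4 = T ^ 4 * x ^ (-0.0816 : ℝ) / 16 := by
    have h1 : x ^ (0.9734 : ℝ) / D = T * x ^ (-0.0204 : ℝ) / 2 := by
      rw [hT]
      have h2 : x ^ (0.9734 : ℝ) = x ^ (0.9938 : ℝ) * x ^ (-0.0204 : ℝ) := by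
        rw [hp]
        norm_num
      rw [h2]
      ring
    have h3 : (x ^ (-0.0204 : ℝ)) ^ 4 = x ^ (-0.0816 : ℝ) := by
      rw [← Real.rpow_natCast, ← Real.rpow_mul hx0.le]
      norm_num
    rw [h1, ← h3]
    ring
  rw [hr]
  -- first term
  have t1 : 32 * T ^ 2 * qI ^ 2 ≤ T ^ 4 * x ^ (-0.0816 : ℝ) / 48 := by
    have h1 : qI ^ 2 ≤ x ^ (1.6208 : ℝ) := by
      calc qI ^ 2 ≤ (x ^ (0.8104 : ℝ)) ^ 2 := pow_le_pow_left₀ hqI0 hqI 2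
        _ = x ^ (1.6208 : ℝ) := by
          rw [← Real.rpow_natCast, ← Real.rpow_mul hx0.le]
          norm_num
    have h2 : 4 * x ^ (1.7276 : ℝ) ≤ T ^ 2 := by
      calc 4 * x ^ (1.7276 : ℝ) = (2 * x ^ (0.8638 : ℝ)) ^ 2 := by
            rw [mul_pow, ← Real.rpow_natCast (x ^ (0.8638 : ℝ)), ← Real.rpow_mul hx0.le]
            norm_num
        _ ≤ T ^ 2 := pow_le_pow_left₀ (by have := hpos (0.8638 : ℝ); linarith) hTlow 2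
    have h3 : x ^ (1.6208 : ℝ) = x ^ (1.7276 : ℝ) * x ^ (-0.1068 : ℝ) := by
      rw [hp]
      norm_num
    have h4 : x ^ (1.6208 : ℝ) ≤ T ^ 2 * x ^ (-0.1068 : ℝ) / 4 := by
      rw [h3]
      have := mul_le_mul_of_nonneg_right h2 (hpos (-0.1068 : ℝ)).le
      linarith
    have hT2 : 0 ≤ T ^ 2 := by positivity
    have h5 : T ^ 2 * qI ^ 2 ≤ T ^ 2 * (T ^ 2 * x ^ (-0.1068 : ℝ) / 4) :=
      mul_le_mul_of_nonneg_left (h1.trans h4) hT2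
    have h6 : T ^ 4 * (384 * x ^ (-0.1068 : ℝ)) ≤ T ^ 4 * x ^ (-0.0816 : ℝ) :=
      mul_le_mul_of_nonneg_left e1 (by positivity)
    nlinarith
  have t2 : 128 * T ^ 3 * q2 ≤ T ^ 4 * x ^ (-0.0816 : ℝ) / 48 := by
    have h3 : x ^ (0.7614 : ℝ) = x ^ (0.8638 : ℝ) * x ^ (-0.1024 : ℝ) := by
      rw [hp]
      norm_num
    have h4 : x ^ (0.7614 : ℝ) ≤ T * x ^ (-0.1024 : ℝ) / 2 := by
      rw [h3]
      have := mul_le_mul_of_nonneg_right hTlow (hpos (-0.1024 : ℝ)).le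
      linarith
    have h5 : T ^ 3 * q2 ≤ T ^ 3 * (T * x ^ (-0.1024 : ℝ) / 2) :=
      mul_le_mul_of_nonneg_left (hq2.trans h4) (by positivity)
    have h6 : T ^ 4 * (3072 * x ^ (-0.1024 : ℝ)) ≤ T ^ 4 * x ^ (-0.0816 : ℝ) :=
      mul_le_mul_of_nonneg_left e2 (by positivity)
    nlinarith
  have t3 : 128 * T ^ 3 * W ≤ T ^ 4 * x ^ (-0.0816 : ℝ) / 48 := by
    have h3 : x ^ (0.7818 : ℝ) = x ^ (0.8638 : ℝ) * x ^ (-0.0820 : ℝ) := by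
      rw [hp]
      norm_num
    have h4 : x ^ (0.7818 : ℝ) ≤ T * x ^ (-0.0820 : ℝ) / 2 := by
      rw [h3]
      have := mul_le_mul_of_nonneg_right hTlow (hpos (-0.0820 : ℝ)).le
      linarith
    have h5 : T ^ 3 * W ≤ T ^ 3 * (C * (T * x ^ (-0.0820 : ℝ) / 2)) :=
      mul_le_mul_of_nonneg_left (hW.trans (mul_le_mul_of_nonneg_left h4 hC)) (by positivity)
    have h6 : T ^ 4 * (3072 * C * x ^ (-0.0820 : ℝ)) ≤ T ^ 4 * x ^ (-0.0816 : ℝ) :=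
      mul_le_mul_of_nonneg_left e3 (by positivity)
    nlinarith
  linarith

theorem fbd (k : ℤ) (hk : ∀ t : ℤ, t ^ 3 ≠ k) : ∃ M0 : ℕ, 1 ≤ M0 ∧ ∀ M : ℕ, M0 ≤ M → ∃ A0 : ℕ,
    ∀ A : ℕ, A0 ≤ A → ∀ g ∈ GG A, ∀ s c : ℤ, c ∈ Ic M A → (Jb k M A g s).Nonempty →
    0 < RR k A g s c → Gd k A g s c → ∀ D h : ℕ, 0 < D → (D : ℝ) ≤ (A : ℝ) ^ (0.13 : ℝ) → 1 ≤ h →
    (h : ℝ) ≤ (A : ℝ) ^ (0.0127 : ℝ) → ∀ (l : ℤ) (F : ℤ → ℂ),
    (∀ q : ℕ, q ∣ SQ (II k g s c).natAbs → Int.gcd l q = Int.gcd (h * yy g s c ^ 2) q) →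
    (∀ b : ℤ, F (b + (SF (II k g s c).natAbs : ℤ)) = F b) → (∀ b : ℤ, ‖F b‖ ≤ 1) →
    ∀ u τ s' e : ℤ, ((e - s' : ℤ) : ℝ) ≤ 2 * (A : ℝ) ^ (0.9938 : ℝ) / D →
    ‖∑ t ∈ Ioc s' e, fe (SQ (II k g s c).natAbs) l (u + (-(yy g s c * D)) * t) * F (τ + D * t)‖ ≤
      (A : ℝ) ^ (0.9734 : ℝ) / D := by
  obtain ⟨K, hK, M0, hM0, hbox⟩ := boxg k
  refine ⟨M0, hM0, fun M hM => ?_⟩
  obtain ⟨B, hB1, hB⟩ := Pool.Agent.H19.QV.pow_omega 9 0.00001 (by norm_num) (by norm_num)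
  obtain ⟨C1, hC1⟩ : ∃ C1 : ℝ, C1 = 64 * K * (M : ℝ) ^ 3 := ⟨_, rfl⟩
  have hMpos : (1 : ℝ) ≤ M := by exact_mod_cast hM0.trans hM
  have hC1p : 0 < C1 := by rw [hC1]; positivity
  obtain ⟨C, hC⟩ : ∃ C : ℝ, C = B ^ 2 * C1 ^ ((1 : ℝ) / 2) := ⟨_, rfl⟩
  have hCp : 0 ≤ C := by
    rw [hC]
    exact mul_nonneg (sq_nonneg _) (Real.rpow_nonneg hC1p.le _)
  have hev := ((((((((Filter.eventually_ge_atTop 2).and (ev_pow K 0 0.0062 (by norm_num))).and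
    (ev_pow 2 1.4 1.4282 (by norm_num))).and (ev_pow 2 0.9938 1.4 (by norm_num))).and
    (ev_pow C1 3.0186 4 (by norm_num))).and (ev_log 2 0.0001 (by norm_num))).and
    (ev_pow 384 (-0.1068) (-0.0816) (by norm_num))).and
    (ev_pow 3072 (-0.1024) (-0.0816) (by norm_num))).and (ev_pow (3072 * C) (-0.0820) (-0.0816) (by norm_num))
  obtain ⟨A0, hA0⟩ := Filter.eventually_atTop.1 hev
  refine ⟨A0, fun A hA g hg s c hc hJ hRR hGd D h hD hDA hh hhA l F hl hF hF1 u τ s' e hlen => ?_⟩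
  obtain ⟨⟨⟨⟨⟨⟨⟨⟨hA2, ev1⟩, ev2⟩, ev3⟩, ev4⟩, ev5⟩, ev6⟩, ev7⟩, ev8⟩ := hA0 A hA
  obtain ⟨x, hx⟩ : ∃ x : ℝ, x = A := ⟨_, rfl⟩
  have hx2 : 2 ≤ x := by rw [hx]; exact_mod_cast hA2
  have hx1 : 1 ≤ x := by linarith
  have hx0 : 0 < x := by linarith
  rw [← hx] at ev1 ev2 ev3 ev4 ev5 ev6 ev7 ev8 hDA hhA hlen ⊢
  have hp : ∀ a b : ℝ, x ^ a * x ^ b = x ^ (a + b) := fun a b => (Real.rpow_add hx0 a b).symm
  have hpos : ∀ a : ℝ, 0 < x ^ a := fun a => Real.rpow_pos_of_pos hx0 a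
  rw [Real.rpow_zero, mul_one] at ev1
  -- the size of `g`
  unfold GG at hg
  rw [mem_Ioc] at hg
  obtain ⟨hg1, hg2⟩ := hg
  have hG1 : x ^ (0.0062 : ℝ) ≤ Gn A := by
    unfold Gn
    rw [← hx]
    exact Nat.le_ceil _
  have hG2 : (Gn A : ℝ) ≤ 2 * x ^ (0.0062 : ℝ) := by
    have h1 : (Gn A : ℝ) < x ^ (0.0062 : ℝ) + 1 := by
      unfold Gn
      rw [← hx]
      exact Nat.ceil_lt_add_one (hpos _).le
    have h2 : (1 : ℝ) ≤ x ^ (0.0062 : ℝ) := Real.one_le_rpow hx1 (by norm_num)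
    linarith
  have hg1' : (Gn A : ℝ) < g := by exact_mod_cast hg1
  have hg2' : (g : ℝ) ≤ 2 * Gn A := by exact_mod_cast hg2
  have hgK : K ≤ g := by linarith
  have hg4 : (g : ℝ) ≤ 4 * x ^ (0.0062 : ℝ) := by linarith
  have hg1R : (1 : ℝ) ≤ g := by linarith
  -- the index form
  obtain ⟨b, hb⟩ := hJ
  unfold Jb at hb
  rw [mem_filter] at hb
  obtain ⟨hb1, hb2⟩ := hb
  have hbx := hbox M A hM (by omega) g hgK (s - g * b) hb2 b hb1 c hc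
  have hsab : s - g * b + g * b = s := by ring
  rw [hsab, ← hx] at hbx
  obtain ⟨-, -, hIlow, hIup, -, -, -, -, hy0, -⟩ := hbx
  obtain ⟨I, hId⟩ : ∃ I, I = II k g s c := ⟨_, rfl⟩
  obtain ⟨y, hyd⟩ : ∃ y, y = yy g s c := ⟨_, rfl⟩
  obtain ⟨I1, hI1⟩ : ∃ I1, I1 = SQ (II k g s c).natAbs := ⟨_, rfl⟩
  obtain ⟨I2, hI2⟩ : ∃ I2, I2 = SF (II k g s c).natAbs := ⟨_, rfl⟩
  have hIlow' : x ^ 3 / 2 ≤ (I : ℝ) := by
    rw [hId]
    refine le_trans ?_ hIlow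
    have h1 : x ^ 3 ≤ (g : ℝ) ^ 3 * (M * x) ^ 3 := by
      rw [← mul_pow]
      apply pow_le_pow_left₀ hx0.le
      have : 1 * x ≤ (g * M : ℝ) * x := mul_le_mul_of_nonneg_right (by nlinarith) hx0.le
      linarith
    linarith
  have hIpos : 0 < I := by
    have : (0 : ℝ) < I := lt_of_lt_of_le (by positivity) hIlow'
    exact_mod_cast this
  have hIup' : (I : ℝ) ≤ C1 * x ^ (3.0186 : ℝ) := by
    rw [hId]
    refine hIup.trans ?_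
    have h1 : (g : ℝ) ^ 3 ≤ 64 * x ^ (0.0186 : ℝ) := by
      calc (g : ℝ) ^ 3 ≤ (4 * x ^ (0.0062 : ℝ)) ^ 3 := pow_le_pow_left₀ (by linarith) hg4 3
        _ = 64 * x ^ (0.0186 : ℝ) := by
          rw [mul_pow, ← Real.rpow_natCast (x ^ (0.0062 : ℝ)), ← Real.rpow_mul hx0.le]
          norm_num
    have h2 : x ^ (3.0186 : ℝ) = x ^ (0.0186 : ℝ) * x ^ 3 := by
      rw [← Real.rpow_natCast x 3, hp]
      norm_num
    rw [h2, hC1]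
    have h3 : (g : ℝ) ^ 3 * (M * x) ^ 3 ≤ 64 * x ^ (0.0186 : ℝ) * (M * x) ^ 3 :=
      mul_le_mul_of_nonneg_right h1 (by positivity)
    calc K * ((g : ℝ) ^ 3 * (M * x) ^ 3) ≤ K * (64 * x ^ (0.0186 : ℝ) * (M * x) ^ 3) :=
          mul_le_mul_of_nonneg_left h3 (by linarith)
      _ = 64 * K * (M : ℝ) ^ 3 * (x ^ (0.0186 : ℝ) * x ^ 3) := by ring
  have hne : (II k g s c).natAbs ≠ 0 := by
    rw [← hId]
    omega
  have hprod : (I1 : ℝ) * I2 = I := by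
    have h1 := SQ_mul_SF _ hne
    rw [← hI1, ← hI2] at h1
    have h2 : ((I1 * I2 : ℕ) : ℤ) = ((II k g s c).natAbs : ℤ) := by rw [h1]
    rw [← hId, Int.natAbs_of_nonneg hIpos.le] at h2
    exact_mod_cast h2
  have h1p : 0 < I1 := by rw [hI1]; exact SQ_pos _
  have h2p : 0 < I2 := by rw [hI2]; exact SF_pos _
  obtain ⟨hGd1, hGd2⟩ := hGd
  rw [← hI2, ← hx] at hGd1
  obtain ⟨q1, q2, hq1, hq2, hq1a, hq1b, hq2a, hq2b, hq1I, hq2I⟩ := RR_pos k A g s c hRR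
  have hq1d : q1 ∣ I1 := by
    rw [hI1]
    refine q_SQ A _ q1 hA2 hne ?_ hq1 hq1a (Int.natCast_dvd.1 hq1I)
    rw [← hI2, ← hx]
    exact hGd1
  have hq2d : q2 ∣ I1 := by
    rw [hI1]
    refine q_SQ A _ q2 hA2 hne ?_ hq2 ?_ (Int.natCast_dvd.1 hq2I)
    · rw [← hI2, ← hx]
      exact hGd1
    · refine lt_of_le_of_lt ?_ hq2a
      rw [← hx]
      exact Real.rpow_le_rpow_of_exponent_le hx1 (by norm_num)
  rw [← hx] at hq1a hq1b hq2a hq2b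
  have hqne : q1 ≠ q2 := by
    intro h0
    have h1 : x ^ (0.7204 : ℝ) ≤ x ^ (0.761 : ℝ) := Real.rpow_le_rpow_of_exponent_le hx1 (by norm_num)
    rw [h0] at hq1b
    linarith
  have hqd : q1 * q2 ∣ I1 := ((Nat.coprime_primes hq1 hq2).2 hqne).mul_dvd_of_dvd_of_dvd hq1d hq2d
  obtain ⟨q0, hq0⟩ : ∃ q0, q0 = I1 / (q1 * q2) := ⟨_, rfl⟩
  have hq12 : 0 < q1 * q2 := Nat.mul_pos hq1.pos hq2.pos
  have hI1q : I1 = q0 * (q1 * q2) := by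
    rw [hq0, Nat.div_mul_cancel hqd]
  have hq0p : 0 < q0 := by
    rcases Nat.eq_zero_or_pos q0 with h0 | h0
    · rw [h0, zero_mul] at hI1q
      omega
    · exact h0
  have hq0d : q0 ∣ I1 := ⟨q1 * q2, hI1q⟩
  have hI1R : (I1 : ℝ) = q0 * (q1 * q2) := by
    rw [hI1q]
    push_cast
    ring
  have hq1R : (0 : ℝ) < q1 := by exact_mod_cast hq1.pos
  have hq2R : (0 : ℝ) < q2 := by exact_mod_cast hq2.pos
  have hq0R : (0 : ℝ) < q0 := by exact_mod_cast hq0p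
  have hI1R0 : (0 : ℝ) < I1 := by exact_mod_cast h1p
  have hI2R : (1 : ℝ) ≤ I2 := by exact_mod_cast h2p
  -- bounds for `q0`
  have hq0low : x ^ (1.4 : ℝ) ≤ q0 := by
    have h1 : (I : ℝ) ≤ q0 * x ^ (1.5718 : ℝ) := by
      rw [← hprod, hI1R]
      have h2 : (q1 : ℝ) * q2 ≤ x ^ (0.7204 : ℝ) * x ^ (0.7614 : ℝ) :=
        mul_le_mul hq1b hq2b hq2R.le (hpos _).le
      have h3 : (q1 : ℝ) * q2 * I2 ≤ x ^ (0.7204 : ℝ) * x ^ (0.7614 : ℝ) * x ^ (0.09 : ℝ) :=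
        mul_le_mul h2 hGd1 (by linarith) (by have := hpos (0.7204 : ℝ); have := hpos (0.7614 : ℝ); positivity)
      have h4 : x ^ (0.7204 : ℝ) * x ^ (0.7614 : ℝ) * x ^ (0.09 : ℝ) = x ^ (1.5718 : ℝ) := by
        rw [hp, hp]
        norm_num
      rw [h4] at h3
      calc (q0 : ℝ) * (q1 * q2) * I2 = q0 * (q1 * q2 * I2) := by ring
        _ ≤ _ := mul_le_mul_of_nonneg_left h3 hq0R.le
    have h5 : x ^ 3 = x ^ (1.4282 : ℝ) * x ^ (1.5718 : ℝ) := by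
      rw [hp, ← Real.rpow_natCast x 3]
      norm_num
    have h6 : x ^ (1.4282 : ℝ) * x ^ (1.5718 : ℝ) ≤ 2 * q0 * x ^ (1.5718 : ℝ) := by
      rw [← h5]
      linarith
    have h7 := le_of_mul_le_mul_right h6 (hpos _)
    linarith
  have hq0up : (q0 : ℝ) ≤ C1 * x ^ (1.5376 : ℝ) := by
    have h1 : (q0 : ℝ) * (x ^ (0.72 : ℝ) * x ^ (0.761 : ℝ)) ≤ I := by
      rw [← hprod, hI1R]
      have h2 : x ^ (0.72 : ℝ) * x ^ (0.761 : ℝ) ≤ q1 * q2 :=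
        mul_le_mul hq1a.le hq2a.le (hpos _).le hq1R.le
      calc (q0 : ℝ) * (x ^ (0.72 : ℝ) * x ^ (0.761 : ℝ)) ≤ q0 * (q1 * q2) :=
            mul_le_mul_of_nonneg_left h2 hq0R.le
        _ = q0 * (q1 * q2) * 1 := by ring
        _ ≤ q0 * (q1 * q2) * I2 := mul_le_mul_of_nonneg_left hI2R (by positivity)
    have h3 : x ^ (3.0186 : ℝ) = x ^ (1.5376 : ℝ) * (x ^ (0.72 : ℝ) * x ^ (0.761 : ℝ)) := by
      rw [hp, hp]
      norm_num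
    have h4 : (q0 : ℝ) * (x ^ (0.72 : ℝ) * x ^ (0.761 : ℝ)) ≤
        C1 * x ^ (1.5376 : ℝ) * (x ^ (0.72 : ℝ) * x ^ (0.761 : ℝ)) := by
      have h5 := h1.trans hIup'
      rw [h3] at h5
      linarith
    exact le_of_mul_le_mul_right h4 (mul_pos (hpos _) (hpos _))
  -- gcd's
  have hycop : Int.gcd y q0 = 1 := by
    by_contra hg0
    obtain ⟨p, hp1, hp2⟩ := Nat.exists_prime_and_dvd hg0
    have h1 : (p : ℤ) ∣ y := (Int.natCast_dvd_natCast.2 hp2).trans (Int.gcd_dvd_left _ _)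
    have h2 : (p : ℤ) ∣ (q0 : ℤ) := (Int.natCast_dvd_natCast.2 hp2).trans (Int.gcd_dvd_right _ _)
    have h3 : p ∣ SQ (II k g s c).natAbs := by
      rw [← hI1]
      exact (Int.natCast_dvd_natCast.1 h2).trans hq0d
    exact y_cop k g s c (by rw [← hId]; exact hIpos.ne') p hp1 h3 (by rw [← hyd]; exact h1)
  have hyc : IsCoprime y (q0 : ℤ) := Int.isCoprime_iff_gcd_eq_one.2 hycop
  have hgl : Int.gcd l q0 ≤ h := by
    rw [hl q0 (by rw [← hI1]; exact hq0d), ← hyd, Pool.Agent.H19.QV.gcd_mul_coprime _ _ _ (hyc.pow_left)]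
    have h1 : Int.gcd (h : ℤ) q0 ∣ h := by
      have := Int.gcd_dvd_left (h : ℤ) (q0 : ℤ)
      exact_mod_cast this
    exact Nat.le_of_dvd hh h1
  have hgv : Int.gcd (-(y * D)) q0 ≤ D := by
    have h0 : -(y * (D : ℤ)) = D * (-y) := by ring
    rw [h0, Pool.Agent.H19.QV.gcd_mul_coprime _ _ _ hyc.neg_left]
    have h1 : Int.gcd (D : ℤ) q0 ∣ D := by
      have := Int.gcd_dvd_left (D : ℤ) (q0 : ℤ)
      exact_mod_cast this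
    exact Nat.le_of_dvd hD h1
  -- `T`
  have hDR : (0 : ℝ) < D := by exact_mod_cast hD
  obtain ⟨T, hT⟩ : ∃ T : ℝ, T = 2 * x ^ (0.9938 : ℝ) / D := ⟨_, rfl⟩
  have hTlow : 2 * x ^ (0.8638 : ℝ) ≤ T := by
    rw [hT, le_div_iff₀ hDR]
    have h1 : x ^ (0.8638 : ℝ) * D ≤ x ^ (0.8638 : ℝ) * x ^ (0.13 : ℝ) :=
      mul_le_mul_of_nonneg_left hDA (hpos _).le
    rw [hp] at h1
    norm_num at h1 ⊢
    linarith
  have hqI : (q1 : ℝ) * I2 ≤ x ^ (0.8104 : ℝ) := by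
    calc (q1 : ℝ) * I2 ≤ x ^ (0.7204 : ℝ) * x ^ (0.09 : ℝ) :=
          mul_le_mul hq1b hGd1 (by linarith) (hpos _).le
      _ = x ^ (0.8104 : ℝ) := by
        rw [hp]
        norm_num
  have hT1 : ((q1 * I2 : ℕ) : ℝ) ≤ T := by
    push_cast
    have h1 : x ^ (0.8104 : ℝ) ≤ x ^ (0.8638 : ℝ) := Real.rpow_le_rpow_of_exponent_le hx1 (by norm_num)
    have h2 := hpos (0.8638 : ℝ)
    linarith
  have hT2 : (q2 : ℝ) ≤ T := by
    have h1 : x ^ (0.7614 : ℝ) ≤ x ^ (0.8638 : ℝ) := Real.rpow_le_rpow_of_exponent_le hx1 (by norm_num)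
    have h2 := hpos (0.8638 : ℝ)
    linarith
  have hI1sq : Squarefree I1 := by rw [hI1]; exact SQ_sqf _
  have hI12 : Nat.Coprime I1 I2 := by rw [hI1, hI2]; exact SQ_cop_SF _
  have hfes := fes I1 I2 q1 q2 h1p hI1sq h2p hI12 hq1 hq2 hqne hqd F (by rw [hI2]; exact hF) hF1 l u
    (-(y * D)) τ D T hT1 hT2 s' e (by rw [hT]; exact hlen)
  rw [← hq0] at hfes
  rw [← hI1, ← hyd]
  have hTp : 0 < T := by have := hpos (0.8638 : ℝ); linarith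
  -- the third factor
  have hlogI : Real.log I1 ≤ 4 * Real.log x := by
    have h1 : (I1 : ℝ) ≤ x ^ (4 : ℝ) := by
      calc (I1 : ℝ) = I1 * 1 := by ring
        _ ≤ I1 * I2 := mul_le_mul_of_nonneg_left hI2R hI1R0.le
        _ = I := hprod
        _ ≤ _ := hIup'
        _ ≤ _ := ev4
    calc Real.log I1 ≤ Real.log (x ^ (4 : ℝ)) := Real.log_le_log hI1R0 h1
      _ = 4 * Real.log x := Real.log_rpow hx0 4
  have hI1up : (I1 : ℝ) ≤ x ^ (4 : ℝ) := by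
    calc (I1 : ℝ) = I1 * 1 := by ring
      _ ≤ I1 * I2 := mul_le_mul_of_nonneg_left hI2R hI1R0.le
      _ = I := hprod
      _ ≤ _ := hIup'
      _ ≤ _ := ev4
  have w1 : T * Int.gcd (-(y * D)) q0 / q0 + 1 + Real.log I1 ≤ x ^ (0.0001 : ℝ) := by
    have h1 : T * Int.gcd (-(y * D)) q0 / q0 ≤ 1 := by
      rw [div_le_one hq0R]
      have h2 : (Int.gcd (-(y * D)) q0 : ℝ) ≤ D := by exact_mod_cast hgv
      calc T * Int.gcd (-(y * D)) q0 ≤ T * D := mul_le_mul_of_nonneg_left h2 hTp.le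
        _ = 2 * x ^ (0.9938 : ℝ) := by
          rw [hT]
          field_simp
        _ ≤ _ := ev3
        _ ≤ _ := hq0low
    linarith
  have w1' : 0 ≤ T * Int.gcd (-(y * D)) q0 / q0 + 1 + Real.log I1 := by
    have h1 : 0 ≤ Real.log I1 := Real.log_nonneg (by exact_mod_cast h1p)
    positivity
  have w2 : (9 : ℝ) ^ I1.primeFactors.card ≤ B * x ^ (0.00004 : ℝ) := by
    refine (hB I1 h1p).trans (mul_le_mul_of_nonneg_left ?_ (by linarith))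
    calc (I1 : ℝ) ^ (0.00001 : ℝ) ≤ (x ^ (4 : ℝ)) ^ (0.00001 : ℝ) :=
          Real.rpow_le_rpow hI1R0.le hI1up (by norm_num)
      _ = x ^ (0.00004 : ℝ) := by
        rw [← Real.rpow_mul hx0.le]
        norm_num
  have w3 : (I1.divisors.card : ℝ) ^ 2 ≤ B * x ^ (0.00004 : ℝ) := by
    refine le_trans ?_ w2
    have h1 := Pool.Agent.H19.QV.tau_le I1 hI1sq
    calc (I1.divisors.card : ℝ) ^ 2 ≤ (2 ^ I1.primeFactors.card) ^ 2 :=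
          pow_le_pow_left₀ (Nat.cast_nonneg _) h1 2
      _ = (4 : ℝ) ^ I1.primeFactors.card := by
        rw [← pow_mul, mul_comm, pow_mul]
        norm_num
      _ ≤ _ := pow_le_pow_left₀ (by norm_num) (by norm_num) _
  have w4 : (q0 : ℝ) ^ ((1 : ℝ) / 2) ≤ C1 ^ ((1 : ℝ) / 2) * x ^ (0.7688 : ℝ) := by
    calc (q0 : ℝ) ^ ((1 : ℝ) / 2) ≤ (C1 * x ^ (1.5376 : ℝ)) ^ ((1 : ℝ) / 2) :=
          Real.rpow_le_rpow hq0R.le hq0up (by norm_num)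
      _ = C1 ^ ((1 : ℝ) / 2) * x ^ (0.7688 : ℝ) := by
        rw [Real.mul_rpow hC1p.le (hpos _).le, ← Real.rpow_mul hx0.le]
        norm_num
  have w5 : (Int.gcd l q0 : ℝ) ≤ x ^ (0.0127 : ℝ) := by
    have h1 : (Int.gcd l q0 : ℝ) ≤ h := by exact_mod_cast hgl
    linarith
  obtain ⟨W, hW⟩ : ∃ W : ℝ, W = (T * Int.gcd (-(y * D)) q0 / q0 + 1 + Real.log I1) *
      9 ^ I1.primeFactors.card * (q0 : ℝ) ^ ((1 : ℝ) / 2) * Int.gcd l q0 * (I1.divisors.card : ℝ) ^ 2 := ⟨_, rfl⟩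
  have hWup : W ≤ C * x ^ (0.7818 : ℝ) := by
    have hx04 := hpos (0.00004 : ℝ)
    have hBp : 0 ≤ B * x ^ (0.00004 : ℝ) := mul_nonneg (by linarith) hx04.le
    have hC12 : 0 ≤ C1 ^ ((1 : ℝ) / 2) := Real.rpow_nonneg hC1p.le _
    have h1 : (T * Int.gcd (-(y * D)) q0 / q0 + 1 + Real.log I1) * 9 ^ I1.primeFactors.card ≤
        x ^ (0.0001 : ℝ) * (B * x ^ (0.00004 : ℝ)) := mul_le_mul w1 w2 (by positivity) (hpos _).le
    have h2 : (T * Int.gcd (-(y * D)) q0 / q0 + 1 + Real.log I1) * 9 ^ I1.primeFactors.card *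
        (q0 : ℝ) ^ ((1 : ℝ) / 2) ≤
        x ^ (0.0001 : ℝ) * (B * x ^ (0.00004 : ℝ)) * (C1 ^ ((1 : ℝ) / 2) * x ^ (0.7688 : ℝ)) :=
      mul_le_mul h1 w4 (Real.rpow_nonneg hq0R.le _) (mul_nonneg (hpos _).le hBp)
    have h3 : (T * Int.gcd (-(y * D)) q0 / q0 + 1 + Real.log I1) * 9 ^ I1.primeFactors.card *
        (q0 : ℝ) ^ ((1 : ℝ) / 2) * Int.gcd l q0 ≤
        x ^ (0.0001 : ℝ) * (B * x ^ (0.00004 : ℝ)) * (C1 ^ ((1 : ℝ) / 2) * x ^ (0.7688 : ℝ)) *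
          x ^ (0.0127 : ℝ) :=
      mul_le_mul h2 w5 (by positivity)
        (mul_nonneg (mul_nonneg (hpos _).le hBp) (mul_nonneg hC12 (hpos _).le))
    have h4 : W ≤ x ^ (0.0001 : ℝ) * (B * x ^ (0.00004 : ℝ)) * (C1 ^ ((1 : ℝ) / 2) * x ^ (0.7688 : ℝ)) *
          x ^ (0.0127 : ℝ) * (B * x ^ (0.00004 : ℝ)) := by
      rw [hW]
      exact mul_le_mul h3 w3 (pow_nonneg (Nat.cast_nonneg _) 2)
        (mul_nonneg (mul_nonneg (mul_nonneg (hpos _).le hBp) (mul_nonneg hC12 (hpos _).le)) (hpos _).le)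
    refine h4.trans ?_
    have h5 : x ^ (0.0001 : ℝ) * (B * x ^ (0.00004 : ℝ)) * (C1 ^ ((1 : ℝ) / 2) * x ^ (0.7688 : ℝ)) *
          x ^ (0.0127 : ℝ) * (B * x ^ (0.00004 : ℝ)) = C * x ^ (0.78168 : ℝ) := by
      have h6 : x ^ (0.78168 : ℝ) = x ^ (0.0001 : ℝ) * x ^ (0.00004 : ℝ) * x ^ (0.7688 : ℝ) *
          x ^ (0.0127 : ℝ) * x ^ (0.00004 : ℝ) := by
        rw [hp, hp, hp, hp]
        norm_num
      rw [h6, hC]
      ring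
    rw [h5]
    exact mul_le_mul_of_nonneg_left (Real.rpow_le_rpow_of_exponent_le hx1 (by norm_num)) hCp
  have hfin := fin_ineq x T D
    (‖∑ t ∈ Ioc s' e, fe I1 l (u + (-(y * D)) * t) * F (τ + D * t)‖ ^ 4) (q1 * I2) q2 W C hx1 hDR hDA hT hCp
    (by positivity) hqI hq2b hWup (by
      refine hfes.trans (le_of_eq ?_)
      rw [hW]
      ring) ev6 ev7 ev8
  have hnn : 0 ≤ x ^ (0.9734 : ℝ) / D := div_nonneg (hpos _).le hDR.le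
  exact (pow_le_pow_iff_left₀ (norm_nonneg _) hnn (by norm_num)).1 hfin

end H96.DR
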