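import Pool.Agent.H96.DR.Tq
import Pool.Agent.H19.QV.FIN
import Pool.Agent.H19.QV.CLS

/-!
# [DR FES] sums of `fe` over a progression with a periodic factor, 120-200 lines. File Pool/Agent/H96/DR/Fes.lean

`I1` squarefree, `q1`, `q2` different primes, `q1 q2 ∣ I1`; `q0 = I1/(q1 q2)`, `d = gcd(v, q0)`, `q' = q0/d`: `q1, q2, d, q'` are pairwise coprime with product `I1`, `v` is prime to `q'` (`q0` squarefree). `fe = K` (`fe_eq_K`, `H19/QV/FIN.lean`), `x = u + v t`.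
`K_mul` three times: `K I1 l x = K q1 l1 x * K q2 l2 x * K d l3 x * K q' l4 x`, where `l4 = l * (inverses modulo q')`, so `gcd(l4, q') = gcd(l, q')` (`gcd_mul_coprime`).
`K d l3 (u + v t) = K d l3 u` (`K_congr`, `d ∣ v`), a constant of norm `≤ 1`. `v` has an inverse `v'` modulo `q'`; with `t0 = v' u`: `u + v t ≡ v (t + t0) (mod q')`, so `K q' l4 (u + v t) = K q' (l4 v') (t + t0)` (`K_congr`, `K_scale`), `gcd(l4 v', q') = gcd(l, q')`.
Substitute `y = t + t0`: the sum over `Ioc s e` is the sum over `y ∈ Ico (s + 1 + t0) (e + 1 + t0)` of `g1 y * (g2 y * K q' l5 y)` with `g1 y = K d l3 u * K q1 l1 (u + v (y - t0)) * F (τ + D (y - t0))`, of period `q1 I2` (`K_congr`; `F` has period `I2`, so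
`F (b + j I2) = F b` for all integers `j`), `g2 y = K q2 l2 (u + v (y - t0))` of period `q2`. `q'` is prime to `q1 I2` and to `q2`. Apply `tq`:
`T/q' = T d/q0`, `log q' ≤ log I1`, `9^ω(q') ≤ 9^ω(I1)`, `q'^(1/2) ≤ q0^(1/2)`, `gcd(l, q') ≤ gcd(l, q0)` (`Nat.gcd_le_of_dvd` type: `gcd(l, q') ∣ gcd(l, q0)`), `τ(q') ≤ τ(I1)` (`Nat.divisors_subset_of_dvd`).
-/

set_option autoImplicit false

namespace H96.DR

open Finset H23.LP Pool.Agent.H19.QV

private theorem per_int (F : ℤ → ℂ) (m : ℤ) (hF : ∀ b : ℤ, F (b + m) = F b) (b j : ℤ) : F (b + j * m) = F b := by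
  induction j using Int.induction_on with
  | zero => simp
  | succ i ih =>
    have h : b + ((i : ℤ) + 1) * m = (b + (i : ℤ) * m) + m := by ring
    rw [h, hF, ih]
  | pred i ih =>
    have h : b + (-(i : ℤ)) * m = (b + (-(i : ℤ) - 1) * m) + m := by ring
    rw [← ih, h, hF]

private theorem inv_cop (q : ℕ) (a b : ℤ) (h : (q : ℤ) ∣ a * b - 1) : IsCoprime b (q : ℤ) := by
  obtain ⟨k, hk⟩ := h
  exact ⟨a, -k, by linear_combination hk⟩

/-- the factorisation of `K` over four coprime factors -/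
private theorem four (a b c d : ℕ) (ha : 0 < a) (hb : 0 < b) (hc : 0 < c) (hd : 0 < d)
    (hsq : Squarefree (a * (b * (c * d)))) (l : ℤ) : ∃ l1 l2 l3 w : ℤ, IsCoprime w (d : ℤ) ∧
    ∀ x : ℤ, K (a * (b * (c * d))) l x = K c l3 x * (K a l1 x * (K b l2 x * K d (l * w) x)) := by
  have h1 : Nat.Coprime a (b * (c * d)) := Nat.coprime_of_squarefree_mul hsq
  have hsq2 : Squarefree (b * (c * d)) := hsq.of_mul_right
  have h2 : Nat.Coprime b (c * d) := Nat.coprime_of_squarefree_mul hsq2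
  have h3 : Nat.Coprime c d := Nat.coprime_of_squarefree_mul hsq2.of_mul_right
  have p1 : 0 < c * d := Nat.mul_pos hc hd
  have p2 : 0 < b * (c * d) := Nat.mul_pos hb p1
  obtain ⟨x1, hx1⟩ := exists_inv a ((b * (c * d) : ℕ) : ℤ) (Nat.isCoprime_iff_coprime.2 h1.symm)
  obtain ⟨y1, hy1⟩ := exists_inv (b * (c * d)) (a : ℤ) (Nat.isCoprime_iff_coprime.2 h1)
  obtain ⟨x2, hx2⟩ := exists_inv b ((c * d : ℕ) : ℤ) (Nat.isCoprime_iff_coprime.2 h2.symm)
  obtain ⟨y2, hy2⟩ := exists_inv (c * d) (b : ℤ) (Nat.isCoprime_iff_coprime.2 h2)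
  obtain ⟨x3, hx3⟩ := exists_inv c (d : ℤ) (Nat.isCoprime_iff_coprime.2 h3.symm)
  obtain ⟨y3, hy3⟩ := exists_inv d (c : ℤ) (Nat.isCoprime_iff_coprime.2 h3)
  have e1 : (d : ℤ) ∣ ((b * (c * d) : ℕ) : ℤ) := by exact_mod_cast (Dvd.intro_left (b * c) (by ring) : d ∣ b * (c * d))
  have e2 : (d : ℤ) ∣ ((c * d : ℕ) : ℤ) := by exact_mod_cast Dvd.intro_left c rfl
  have c1 : IsCoprime y1 (d : ℤ) := inv_cop d _ _ (e1.trans hy1)
  have c2 : IsCoprime y2 (d : ℤ) := inv_cop d _ _ (e2.trans hy2)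
  have c3 : IsCoprime y3 (d : ℤ) := inv_cop d _ _ hy3
  refine ⟨l * x1, l * y1 * x2, l * y1 * y2 * x3, y1 * y2 * y3, (c1.mul_left c2).mul_left c3, fun x => ?_⟩
  rw [K_mul a (b * (c * d)) ha p2 x1 y1 hx1 hy1, K_mul b (c * d) hb p1 x2 y2 hx2 hy2,
    K_mul c d hc hd x3 y3 hx3 hy3]
  have e3 : l * (y1 * y2 * y3) = l * y1 * y2 * y3 := by ring
  rw [e3]
  ring

theorem fes (I1 I2 q1 q2 : ℕ) (hI1 : 0 < I1) (hsq : Squarefree I1) (hI2 : 0 < I2) (h12 : Nat.Coprime I1 I2)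
    (hq1 : q1.Prime) (hq2 : q2.Prime) (hne : q1 ≠ q2) (hdvd : q1 * q2 ∣ I1) (F : ℤ → ℂ)
    (hF : ∀ b : ℤ, F (b + (I2 : ℤ)) = F b) (hF1 : ∀ b : ℤ, ‖F b‖ ≤ 1) (l u v τ D : ℤ) (T : ℝ)
    (hT1 : ((q1 * I2 : ℕ) : ℝ) ≤ T) (hT2 : (q2 : ℝ) ≤ T) (s e : ℤ) (hT : ((e - s : ℤ) : ℝ) ≤ T) :
    ‖∑ t ∈ Ioc s e, fe I1 l (u + v * t) * F (τ + D * t)‖ ^ 4 ≤
      32 * T ^ 2 * ((q1 : ℝ) * I2) ^ 2 + 128 * T ^ 3 * q2 +
        128 * T ^ 3 * (T * Int.gcd v (I1 / (q1 * q2) : ℕ) / (I1 / (q1 * q2) : ℕ) + 1 + Real.log I1) *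
          9 ^ I1.primeFactors.card * ((I1 / (q1 * q2) : ℕ) : ℝ) ^ ((1 : ℝ) / 2) *
          Int.gcd l (I1 / (q1 * q2) : ℕ) * (I1.divisors.card : ℝ) ^ 2 := by
  have hq0ex : ∃ q0 : ℕ, q0 = I1 / (q1 * q2) := ⟨_, rfl⟩
  obtain ⟨q0, hq0⟩ := hq0ex
  rw [← hq0]
  have h12pos : 0 < q1 * q2 := Nat.mul_pos hq1.pos hq2.pos
  have hI : I1 = q1 * q2 * q0 := by rw [hq0, Nat.mul_div_cancel' hdvd]
  have hq0pos : 0 < q0 := by
    rcases Nat.eq_zero_or_pos q0 with h | h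
    · rw [h, mul_zero] at hI; omega
    · exact h
  obtain ⟨d, hd⟩ : ∃ d : ℕ, d = Int.gcd v q0 := ⟨_, rfl⟩
  have hdpos : 0 < d := by rw [hd]; exact Int.gcd_pos_of_ne_zero_right v (by exact_mod_cast hq0pos.ne')
  have hddvd : d ∣ q0 := by
    have h := Int.gcd_dvd_right v (q0 : ℤ)
    rw [hd]
    exact_mod_cast h
  obtain ⟨q, hq⟩ := hddvd
  have hqpos : 0 < q := by
    rcases Nat.eq_zero_or_pos q with h | h
    · rw [h, mul_zero] at hq; omega
    · exact h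
  have hI' : I1 = q1 * (q2 * (d * q)) := by rw [hI, hq]; ring
  have hsq' : Squarefree (q1 * (q2 * (d * q))) := by rw [← hI']; exact hsq
  have hc1 : Nat.Coprime q1 (q2 * (d * q)) := Nat.coprime_of_squarefree_mul hsq'
  have hc2 : Nat.Coprime q2 (d * q) := Nat.coprime_of_squarefree_mul hsq'.of_mul_right
  have hsqdq : Squarefree (d * q) := hsq'.of_mul_right.of_mul_right
  have hc3 : Nat.Coprime d q := Nat.coprime_of_squarefree_mul hsqdq
  have hqsq : Squarefree q := hsqdq.of_mul_right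
  have hqI1 : q ∣ I1 := ⟨q1 * q2 * d, by rw [hI']; ring⟩
  have hqq0 : q ∣ q0 := ⟨d, by rw [hq, mul_comm]⟩
  have hdv : (d : ℤ) ∣ v := by rw [hd]; exact Int.gcd_dvd_left v (q0 : ℤ)
  have hvq : IsCoprime v (q : ℤ) := by
    rw [Int.isCoprime_iff_gcd_eq_one]
    by_contra hne1
    obtain ⟨p, hp, hpd⟩ := Nat.exists_prime_and_dvd hne1
    have hpq : p ∣ q := by
      have : ((Int.gcd v q : ℕ) : ℤ) ∣ (q : ℤ) := Int.gcd_dvd_right v (q : ℤ)
      exact hpd.trans (by exact_mod_cast this)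
    have hpv : (p : ℤ) ∣ v := dvd_trans (by exact_mod_cast hpd) (Int.gcd_dvd_left v (q : ℤ))
    have hpg : p ∣ d := by
      rw [hd]
      apply Int.dvd_gcd hpv
      exact_mod_cast hpq.trans hqq0
    have := Nat.dvd_gcd hpg hpq
    rw [hc3] at this
    exact hp.one_lt.ne' (Nat.dvd_one.mp this)
  obtain ⟨l1, l2, l3, w, hw, hK⟩ := four q1 q2 d q hq1.pos hq2.pos hdpos hqpos hsq' l
  obtain ⟨vb, hvb⟩ := exists_inv q v hvq
  obtain ⟨t0, ht0⟩ : ∃ t0 : ℤ, t0 = vb * u := ⟨_, rfl⟩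
  obtain ⟨g1, hg1⟩ : ∃ g1 : ℤ → ℂ, g1 = fun y => K d l3 u * (K q1 l1 (u + v * (y - t0)) * F (τ + D * (y - t0))) :=
    ⟨_, rfl⟩
  obtain ⟨g2, hg2⟩ : ∃ g2 : ℤ → ℂ, g2 = fun y => K q2 l2 (u + v * (y - t0)) := ⟨_, rfl⟩
  have hsum : ∑ t ∈ Ioc s e, fe I1 l (u + v * t) * F (τ + D * t) =
      ∑ y ∈ Finset.Ico (s + 1 + t0) (e + 1 + t0), g1 y * (g2 y * K q (l * w * vb) y) := by
    have h1 := Finset.sum_Ico_add' (fun y => g1 y * (g2 y * K q (l * w * vb) y)) (s + 1) (e + 1) t0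
    rw [← h1]
    apply Finset.sum_congr
    · ext t
      rw [Finset.mem_Ioc, Finset.mem_Ico]
      omega
    · intro t _
      rw [fe_eq_K I1 hI1, hI', hK, hg1, hg2]
      have e1 : K d l3 (u + v * t) = K d l3 u := by
        apply K_congr d hdpos
        rw [show u + v * t - u = v * t by ring]
        exact hdv.mul_right t
      have e2 : K q (l * w) (u + v * t) = K q (l * w * vb) (t + t0) := by
        rw [← K_scale q hqpos (l * w) v vb (t + t0) hvb]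
        apply K_congr q hqpos
        rw [ht0, show u + v * t - v * (t + vb * u) = -((v * vb - 1) * u) by ring]
        exact dvd_neg.mpr (hvb.mul_right u)
      have e3 : t + t0 - t0 = t := by ring
      simp only [e3]
      rw [e1, e2]
      ring
  rw [hsum]
  have key := tq q (q1 * I2) q2 hqpos hqsq (Nat.mul_pos hq1.pos hI2) hq2.pos
    (Nat.Coprime.mul_right ((Nat.Coprime.coprime_dvd_right ⟨q2 * d, by ring⟩ hc1).symm)
      (Nat.Coprime.coprime_dvd_left hqI1 h12))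
    ((Nat.Coprime.coprime_dvd_right ⟨d, by ring⟩ hc2).symm) T hT1 hT2 (s + 1 + t0) (e + 1 + t0)
    (by rw [show (e + 1 + t0) - (s + 1 + t0) = e - s by ring]; exact hT) (l * w * vb) g1 g2
    (by
      intro y
      rw [hg1]
      have e1 : K q1 l1 (u + v * (y + ((q1 * I2 : ℕ) : ℤ) - t0)) = K q1 l1 (u + v * (y - t0)) := by
        apply K_congr q1 hq1.pos
        refine ⟨v * I2, ?_⟩
        push_cast
        ring
      have e2 : F (τ + D * (y + ((q1 * I2 : ℕ) : ℤ) - t0)) = F (τ + D * (y - t0)) := by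
        have e3 : τ + D * (y + ((q1 * I2 : ℕ) : ℤ) - t0) = (τ + D * (y - t0)) + (D * q1) * (I2 : ℤ) := by
          push_cast
          ring
        rw [e3, per_int F (I2 : ℤ) hF]
      simp only [e1, e2])
    (by
      intro y
      rw [hg1]
      simp only [norm_mul]
      exact mul_le_one₀ (norm_K_le _ _ _) (mul_nonneg (norm_nonneg _) (norm_nonneg _))
        (mul_le_one₀ (norm_K_le _ _ _) (norm_nonneg _) (hF1 _)))
    (by
      intro y
      rw [hg2]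
      apply K_congr q2 hq2.pos
      refine ⟨v, ?_⟩
      ring)
    (by
      intro y
      rw [hg2]
      exact norm_K_le _ _ _)
  refine key.trans ?_
  -- comparison of the bounds
  have hT0 : (0 : ℝ) ≤ T := (Nat.cast_nonneg _).trans hT2
  have hqr : (0 : ℝ) < q := by exact_mod_cast hqpos
  have hdr : (0 : ℝ) < d := by exact_mod_cast hdpos
  have hq1r : (1 : ℝ) ≤ q := by exact_mod_cast hqpos
  have hqI : (q : ℝ) ≤ I1 := by exact_mod_cast Nat.le_of_dvd hI1 hqI1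
  have hqq : (q : ℝ) ≤ q0 := by exact_mod_cast Nat.le_of_dvd hq0pos hqq0
  have a1 : T / q = T * (Int.gcd v q0 : ℕ) / (q0 : ℝ) := by
    have hqe : (q0 : ℝ) = d * q := by rw [hq]; push_cast; ring
    rw [← hd, hqe]
    field_simp
  have a2 : Real.log q ≤ Real.log I1 := Real.log_le_log hqr hqI
  have a3 : (9 : ℝ) ^ q.primeFactors.card ≤ 9 ^ I1.primeFactors.card :=
    pow_le_pow_right₀ (by norm_num) (Finset.card_le_card (Nat.primeFactors_mono hqI1 hI1.ne'))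
  have a4 : (q : ℝ) ^ ((1 : ℝ) / 2) ≤ (q0 : ℝ) ^ ((1 : ℝ) / 2) :=
    Real.rpow_le_rpow hqr.le hqq (by norm_num)
  have a5 : ((Int.gcd (l * w * vb) q : ℕ) : ℝ) ≤ (Int.gcd l q0 : ℕ) := by
    rw [gcd_mul_coprime _ _ _ (inv_cop q v vb hvb), gcd_mul_coprime _ _ _ hw]
    have h1 : Int.gcd l q ∣ Int.gcd l q0 := by
      apply Int.dvd_gcd (Int.gcd_dvd_left l (q : ℤ))
      exact dvd_trans (Int.gcd_dvd_right l (q : ℤ)) (by exact_mod_cast hqq0)
    have h2 : 0 < Int.gcd l q0 := Int.gcd_pos_of_ne_zero_right _ (by exact_mod_cast hq0pos.ne')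
    exact_mod_cast Nat.le_of_dvd h2 h1
  have a6 : ((q.divisors.card : ℕ) : ℝ) ^ 2 ≤ (I1.divisors.card : ℝ) ^ 2 := by
    apply pow_le_pow_left₀ (Nat.cast_nonneg _)
    exact_mod_cast Finset.card_le_card (Nat.divisors_subset_of_dvd hI1.ne' hqI1)
  have a7 : T / q + 1 + Real.log q ≤ T * (Int.gcd v q0 : ℕ) / (q0 : ℝ) + 1 + Real.log I1 := by
    rw [← a1]
    linarith
  have a8 : 0 ≤ T / q + 1 + Real.log q := by
    have := Real.log_nonneg hq1r
    positivity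
  have b1 := mul_le_mul_of_nonneg_left a7 (by positivity : 0 ≤ 128 * T ^ 3)
  have b2 := mul_le_mul b1 a3 (by positivity) (by have := a8.trans a7; positivity)
  have b3 := mul_le_mul b2 a4 (by positivity) (by have := a8.trans a7; positivity)
  have b4 := mul_le_mul b3 a5 (Nat.cast_nonneg _) (by have := a8.trans a7; positivity)
  have b5 := mul_le_mul b4 a6 (sq_nonneg _) (mul_nonneg (by have := a8.trans a7; positivity) (Nat.cast_nonneg _))
  push_cast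
  linarith

end H96.DR
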