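import Pool.Agent.H96.DR.Win
import Pool.Agent.H71.DF.Chb
import Pool.Agent.H97.DR.Pfi

/-!
# [DR FIN] the theorem

For every integer `k` which is not a cube and every `0 < δ ≤ 1/500`, for all large `x` at least `(2/3 - 80 δ) x` of the `1 ≤ m ≤ x` have a prime factor `p > x^(1+δ)` of `m³ + k`.
Proof: `window` (H96/DR), `sq_div` (H97/DR), `chb` (H71/DF).
-/

set_option autoImplicit false

namespace H96.DR

open Finset H23.LP

open Classical in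
theorem more_than_half (k : ℤ) (hk : ∀ t : ℤ, t ^ 3 ≠ k) (δ : ℝ) (hδ : 0 < δ) (hδ1 : δ ≤ 1 / 500) :
    ∃ x0 : ℕ, ∀ x : ℕ, x0 ≤ x → (2 / 3 - 80 * δ) * x ≤
      (((Icc 1 x).filter fun m : ℕ => ∃ p : ℕ, p.Prime ∧ (x : ℝ) ^ (1 + δ) < p ∧
        (p : ℤ) ∣ (m : ℤ) ^ 3 + k).card : ℝ) :=
  H71.DF.chb k hk (fun ε hε => window k hk ε hε) (fun κ ε hκ hε => H97.DR.sq_div k hk κ ε hκ hε) δ hδ hδ1

end H96.DR
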