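import Mathlib

/-!
# DR, lattice points of `ℤ³` in boxes: definitions
-/

set_option autoImplicit false

namespace H96.DR

open Finset

/-- sup norm at most `D` -/
def Nm (D : ℝ) (v : ℤ × ℤ × ℤ) : Prop := |(v.1 : ℝ)| ≤ D ∧ |(v.2.1 : ℝ)| ≤ D ∧ |(v.2.2 : ℝ)| ≤ D

/-- determinant -/
def det3 (u v w : ℤ × ℤ × ℤ) : ℤ :=
  u.1 * (v.2.1 * w.2.2 - v.2.2 * w.2.1) - u.2.1 * (v.1 * w.2.2 - v.2.2 * w.1) +
    u.2.2 * (v.1 * w.2.1 - v.2.1 * w.1)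

/-- the box `(α, α + A] × (β, β + A] × (γ, γ + A]` -/
noncomputable def box3 (α β γ : ℤ) (A : ℕ) : Finset (ℤ × ℤ × ℤ) :=
  Ioc α (α + A) ×ˢ (Ioc β (β + A) ×ˢ Ioc γ (γ + A))

open Classical in
/-- the number of points of the coset `x0 + Λ` in the box -/
noncomputable def cnt (Λ : AddSubgroup (ℤ × ℤ × ℤ)) (x0 : ℤ × ℤ × ℤ) (α β γ : ℤ) (A : ℕ) : ℕ :=
  ((box3 α β γ A).filter fun x => x - x0 ∈ Λ).card

end H96.DR
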