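import Pool.Agent.H96.DR.Def
import Pool.Agent.H96.DR.LatDef

/-!
# DR, chapter L: the subgroups of `ℤ³`
-/

set_option autoImplicit false

namespace H96.DR

open Finset H23.LP

/-- closed under the multiplication by `θ` -/
def Thc (k : ℤ) (Λ : AddSubgroup (ℤ × ℤ × ℤ)) : Prop := ∀ a b c : ℤ, (a, b, c) ∈ Λ → (k * c, a, b) ∈ Λ

/-- `Q ℤ³` -/
def LQ (Q : ℤ) : AddSubgroup (ℤ × ℤ × ℤ) where
  carrier := {x | Q ∣ x.1 ∧ Q ∣ x.2.1 ∧ Q ∣ x.2.2}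
  zero_mem' := ⟨dvd_zero _, dvd_zero _, dvd_zero _⟩
  add_mem' := fun ha hb => ⟨dvd_add ha.1 hb.1, dvd_add ha.2.1 hb.2.1, dvd_add ha.2.2 hb.2.2⟩
  neg_mem' := fun ha => ⟨(dvd_neg).2 ha.1, (dvd_neg).2 ha.2.1, (dvd_neg).2 ha.2.2⟩

/-- the elements of the ideal `(r, θ + m)` -/
def Lr (r m : ℤ) : AddSubgroup (ℤ × ℤ × ℤ) where
  carrier := {x | r ∣ x.1 - x.2.1 * m + x.2.2 * m ^ 2}
  zero_mem' := by simp
  add_mem' := by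
    intro x y hx hy
    simp only [Set.mem_ofPred_eq] at hx hy ⊢
    have h : (x + y).1 - (x + y).2.1 * m + (x + y).2.2 * m ^ 2 =
        (x.1 - x.2.1 * m + x.2.2 * m ^ 2) + (y.1 - y.2.1 * m + y.2.2 * m ^ 2) := by
      simp only [Prod.fst_add, Prod.snd_add]; ring
    rw [h]; exact dvd_add hx hy
  neg_mem' := by
    intro x hx
    simp only [Set.mem_ofPred_eq] at hx ⊢
    have h : (-x).1 - (-x).2.1 * m + (-x).2.2 * m ^ 2 = -(x.1 - x.2.1 * m + x.2.2 * m ^ 2) := by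
      simp only [Prod.fst_neg, Prod.snd_neg]; ring
    rw [h]; exact (dvd_neg).2 hx

/-- the multiples of `ρ² + ρ θ + θ²` modulo `p` -/
def Lb (p ρ : ℤ) : AddSubgroup (ℤ × ℤ × ℤ) where
  carrier := {x | p ∣ x.1 - ρ ^ 2 * x.2.2 ∧ p ∣ x.2.1 - ρ * x.2.2}
  zero_mem' := by simp
  add_mem' := by
    intro x y hx hy
    simp only [Set.mem_ofPred_eq] at hx hy ⊢
    have h1 : (x + y).1 - ρ ^ 2 * (x + y).2.2 = (x.1 - ρ ^ 2 * x.2.2) + (y.1 - ρ ^ 2 * y.2.2) := by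
      simp only [Prod.fst_add, Prod.snd_add]; ring
    have h2 : (x + y).2.1 - ρ * (x + y).2.2 = (x.2.1 - ρ * x.2.2) + (y.2.1 - ρ * y.2.2) := by
      simp only [Prod.fst_add, Prod.snd_add]; ring
    rw [h1, h2]; exact ⟨dvd_add hx.1 hy.1, dvd_add hx.2 hy.2⟩
  neg_mem' := by
    intro x hx
    simp only [Set.mem_ofPred_eq] at hx ⊢
    have h1 : (-x).1 - ρ ^ 2 * (-x).2.2 = -(x.1 - ρ ^ 2 * x.2.2) := by
      simp only [Prod.fst_neg, Prod.snd_neg]; ring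
    have h2 : (-x).2.1 - ρ * (-x).2.2 = -(x.2.1 - ρ * x.2.2) := by
      simp only [Prod.fst_neg, Prod.snd_neg]; ring
    rw [h1, h2]; exact ⟨(dvd_neg).2 hx.1, (dvd_neg).2 hx.2⟩

theorem mem_LQ (Q : ℤ) (x : ℤ × ℤ × ℤ) : x ∈ LQ Q ↔ Q ∣ x.1 ∧ Q ∣ x.2.1 ∧ Q ∣ x.2.2 := Iff.rfl

theorem mem_Lr (r m : ℤ) (x : ℤ × ℤ × ℤ) : x ∈ Lr r m ↔ Lt r m x.1 x.2.1 x.2.2 := Iff.rfl

theorem mem_Lb (p ρ : ℤ) (x : ℤ × ℤ × ℤ) :
    x ∈ Lb p ρ ↔ p ∣ x.1 - ρ ^ 2 * x.2.2 ∧ p ∣ x.2.1 - ρ * x.2.2 := Iff.rfl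

end H96.DR
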