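import Pool.Agent.H96.DR.LatDef

/-!
# [DR LATR] small representatives, 60-110 lines. File Pool/Agent/H96/DR/LatR.lean

Let `Δ = det3 v1 v2 v3 ≠ 0`. Given `z ∈ ℤ³`. By Cramer's rule there are integers `t1, t2, t3` with `Δ z = t1 v1 + t2 v2 + t3 v3`
(`t1 = det3 z v2 v3`, `t2 = det3 v1 z v3`, `t3 = det3 v1 v2 z`; each coordinate is a `ring` identity). Put `n_i = t_i / Δ` (`Int.ediv`), so
`t_i = Δ n_i + r_i`, `0 ≤ r_i < |Δ|` (`Int.emod_nonneg`, `Int.emod_lt_abs`), and `u = n1 v1 + n2 v2 + n3 v3 ∈ Λ`. Then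
`Δ (z - u) = r1 v1 + r2 v2 + r3 v3`, so every coordinate of `Δ (z - u)` has absolute value `≤ 3 |Δ| D`; divide by `|Δ| > 0`.
-/

set_option autoImplicit false

namespace H96.DR

open Finset

theorem small_rep (Λ : AddSubgroup (ℤ × ℤ × ℤ)) (v1 v2 v3 : ℤ × ℤ × ℤ) (h1 : v1 ∈ Λ) (h2 : v2 ∈ Λ)
    (h3 : v3 ∈ Λ) (hd : det3 v1 v2 v3 ≠ 0) (D : ℝ) (hD1 : Nm D v1) (hD2 : Nm D v2) (hD3 : Nm D v3)
    (z : ℤ × ℤ × ℤ) : ∃ u ∈ Λ, Nm (3 * D) (z - u) := by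
  set Δ : ℤ := det3 v1 v2 v3 with hΔ
  set t1 : ℤ := det3 z v2 v3 with ht1
  set t2 : ℤ := det3 v1 z v3 with ht2
  set t3 : ℤ := det3 v1 v2 z with ht3
  have e1 : Δ * z.1 = t1 * v1.1 + t2 * v2.1 + t3 * v3.1 := by
    rw [hΔ, ht1, ht2, ht3]
    unfold det3
    ring
  have e2 : Δ * z.2.1 = t1 * v1.2.1 + t2 * v2.2.1 + t3 * v3.2.1 := by
    rw [hΔ, ht1, ht2, ht3]
    unfold det3
    ring
  have e3 : Δ * z.2.2 = t1 * v1.2.2 + t2 * v2.2.2 + t3 * v3.2.2 := by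
    rw [hΔ, ht1, ht2, ht3]
    unfold det3
    ring
  refine ⟨(t1 / Δ) • v1 + (t2 / Δ) • v2 + (t3 / Δ) • v3, ?_, ?_⟩
  · exact Λ.add_mem (Λ.add_mem (Λ.zsmul_mem h1 _) (Λ.zsmul_mem h2 _)) (Λ.zsmul_mem h3 _)
  · have key : ∀ a b c w : ℤ, |(a : ℝ)| ≤ D → |(b : ℝ)| ≤ D → |(c : ℝ)| ≤ D → Δ * w = t1 * a + t2 * b + t3 * c →
        |((w - (t1 / Δ * a + t2 / Δ * b + t3 / Δ * c) : ℤ) : ℝ)| ≤ 3 * D := by
      intro a b c w ha hb hc he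
      have q1 : Δ * (w - (t1 / Δ * a + t2 / Δ * b + t3 / Δ * c)) = t1 % Δ * a + t2 % Δ * b + t3 % Δ * c := by
        have r1 := Int.emod_add_mul_ediv t1 Δ
        have r2 := Int.emod_add_mul_ediv t2 Δ
        have r3 := Int.emod_add_mul_ediv t3 Δ
        linear_combination he - a * r1 - b * r2 - c * r3
      have hr : ∀ t : ℤ, |((t % Δ : ℤ) : ℝ)| ≤ |(Δ : ℝ)| := by
        intro t
        have s1 := Int.emod_nonneg t hd
        have s2 := Int.emod_lt_abs t hd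
        rw [abs_of_nonneg (by exact_mod_cast s1)]
        exact_mod_cast s2.le
      have hpos : 0 < |(Δ : ℝ)| := by
        rw [abs_pos]
        exact_mod_cast hd
      have hb1 : |(Δ : ℝ)| * |((w - (t1 / Δ * a + t2 / Δ * b + t3 / Δ * c) : ℤ) : ℝ)| ≤ |(Δ : ℝ)| * (3 * D) := by
        rw [← abs_mul]
        have q2 : (Δ : ℝ) * ((w - (t1 / Δ * a + t2 / Δ * b + t3 / Δ * c) : ℤ) : ℝ) =
            ((t1 % Δ : ℤ) : ℝ) * a + ((t2 % Δ : ℤ) : ℝ) * b + ((t3 % Δ : ℤ) : ℝ) * c := by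
          exact_mod_cast q1
        rw [q2]
        have m : ∀ (t : ℤ) (x : ℤ), |(x : ℝ)| ≤ D → |((t % Δ : ℤ) : ℝ) * x| ≤ |(Δ : ℝ)| * D := by
          intro t x hx
          rw [abs_mul]
          exact mul_le_mul (hr t) hx (abs_nonneg _) (abs_nonneg _)
        have m1 := m t1 a ha
        have m2 := m t2 b hb
        have m3 := m t3 c hc
        have n1 := abs_add_le (((t1 % Δ : ℤ) : ℝ) * a + ((t2 % Δ : ℤ) : ℝ) * b) (((t3 % Δ : ℤ) : ℝ) * c)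
        have n2 := abs_add_le (((t1 % Δ : ℤ) : ℝ) * a) (((t2 % Δ : ℤ) : ℝ) * b)
        linarith
      exact le_of_mul_le_mul_left hb1 hpos
    obtain ⟨a1, a2, a3⟩ := hD1
    obtain ⟨b1, b2, b3⟩ := hD2
    obtain ⟨c1, c2, c3⟩ := hD3
    exact ⟨key _ _ _ _ a1 b1 c1 e1, key _ _ _ _ a2 b2 c2 e2, key _ _ _ _ a3 b3 c3 e3⟩

end H96.DR
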