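import Pool.Agent.H96.DR.Bdc
import Pool.Agent.H23.LP.Box

/-!
# [DR LNICE] almost all points of the ideal are nice, 140-220 lines. File Pool/Agent/H96/DR/Lnice.lean

`C = 864 (|k| + 1)³`, `Kb`, `M0` from `H23.LP.box`. `w0` so large that `w0 ≥ |k| + 3`, `4 C/w0 ≤ ε/8` and `7 C/(ε' w0) ≤ ε/8`. Let `w ≥ w0`, `M ≥ M0`, `Q = QQ k w`, `N = A³/(Q³ p)`, so `N ≥ R³/Q³`,
`J = 8 Kb M³ R³`. `R0` so large that for `R ≥ R0`: `4 C √J ≤ (ε/8) R³/Q³` (`√J` is a constant times `R^(3/2)`), `7 C (1 + log J)/ε' ≤ (ε/8) R³/Q³`, and `R0 ≥` the `R` of `lone` for `ε = 1`. `p0 > J`, `p0 > |k| + 3`, `p0 > Q`, `2/(ε' p0) ≤ ε/8`.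
Let `S = {x ∈ Bx : Cl, Lt p m x}`; `#S ≤ 2 N` (`lone`). For `x ∈ S`, `n = nn x`: `0 < n ≤ Kb (M A)³ ≤ Kb M³ 8 R³ p = J p < p²` (`box`; `A ≤ 2 R p^(1/3)`), `p ∣ n` (`lt_nn`), `n = p j'`, `1 ≤ j' ≤ J`; every prime factor
`q` of `n` is `> w`, prime to `Q` (`nn_cl`, `big_prime`). If `x` is not nice:
(i) there is a prime `q ∣ n` with `q ∣ CC`, `q ∣ BB`: `q² ∣ n` (`bzp`); `q ≠ p` as `n < p²`; so `q² ∣ j'` (`q` prime to `p`), `q ≤ √J`, `q > w`. The number of such `x` is `≤ ∑_{w < q ≤ √J} 4 C (N/q² + 1) ≤ 4 C (N/w + √J) ≤ (ε/4) N`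
(`bdc2`; `∑_{q > w} 1/q² ≤ 1/w`: telescoping `1/q² ≤ 1/(q-1) - 1/q`).
(ii) `∑_{q ∣ n} 1/q > ε'`: Markov: the number of such `x` is `≤ (1/ε') ∑_{x ∈ S} ∑_{q ∣ n} 1/q ≤ (1/ε') (#S/p + ∑_{w < q ≤ J, q ≠ p} (1/q) #{x ∈ S : q ∣ n})` (a prime factor `q ≠ p` of `n = p j'` divides `j' ≤ J`)
`≤ (1/ε') (2 N/p + ∑_{w < q ≤ J} 7 C (N/q² + 1/q)) ≤ (1/ε') (2N/p + 7 C N/w + 7 C (1 + log J)) ≤ (3 ε/8) N` (`bdc1`, `∑_{q ≤ J} 1/q ≤ 1 + log J`, `harmonic_le_one_add_log`).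
Together `≤ ε N`, which is the claim (`N p Q³ = A³`). W.l.o.g. nothing else. (`R p^(1/3) ≤ A`: the hypothesis of `lone` for `r = p`.)
-/

set_option autoImplicit false

namespace H96.DR

open Finset H23.LP

private theorem ln_cube (R : ℝ) (p : ℕ) : (R * (p : ℝ) ^ ((1 : ℝ) / 3)) ^ 3 = R ^ 3 * p := by
  have h : ((p : ℝ) ^ ((1 : ℝ) / 3)) ^ 3 = p := by
    rw [← Real.rpow_natCast, ← Real.rpow_mul (Nat.cast_nonneg p)]
    norm_num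
  rw [mul_pow, h]

/-- facts on one point -/
private theorem ln_pt (k : ℤ) (w p : ℕ) (m : ℤ) (hp : p.Prime) (hm : (p : ℤ) ∣ m ^ 3 + k) (J : ℝ) (hpJ : J < p)
    (a b c : ℤ) (hcl : Cl k w a b c) (hlt : Lt p m a b c) (hn0 : 0 < nn k a b c)
    (hnJ : (nn k a b c : ℝ) ≤ J * p) (q : ℕ) (hq : q.Prime) (hqn : (q : ℤ) ∣ nn k a b c) :
    w < q ∧ Nat.Coprime q (QQ k w) ∧ (q ≠ p → (q : ℝ) ≤ J) ∧
      ((q : ℤ) ^ 2 ∣ nn k a b c → q ≠ p ∧ (q : ℝ) ^ 2 ≤ J) := by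
  have hp0 : (0 : ℝ) < p := by exact_mod_cast hp.pos
  have hpn : (p : ℤ) ∣ nn k a b c := lt_nn k p m a b c hm hlt
  obtain ⟨h1, h2, -⟩ := big_prime k w _ (nn_cl k w a b c hcl) q hq hqn
  have hle : ∀ d : ℕ, (d : ℤ) ∣ nn k a b c → (d : ℝ) ≤ J * p := by
    intro d hd
    have h3 : (d : ℤ) ≤ nn k a b c := Int.le_of_dvd hn0 hd
    have h4 : (d : ℝ) ≤ (nn k a b c : ℝ) := by exact_mod_cast h3
    exact h4.trans hnJ
  have hpq : (q : ℤ) ^ 2 ∣ nn k a b c → q ≠ p := by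
    rintro h3 rfl
    have h4 := hle (q ^ 2) (by push_cast; exact h3)
    push_cast at h4
    nlinarith
  refine ⟨h1, h2, fun hne => ?_, fun h3 => ⟨hpq h3, ?_⟩⟩
  · have hc : IsCoprime (q : ℤ) (p : ℤ) := Nat.isCoprime_iff_coprime.2 ((Nat.coprime_primes hq hp).2 hne)
    have h3 := hc.mul_dvd hqn hpn
    have h4 := hle (q * p) (by push_cast; exact h3)
    push_cast at h4
    exact le_of_mul_le_mul_right h4 hp0
  · have hc : IsCoprime ((q : ℤ) ^ 2) (p : ℤ) :=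
      (Nat.isCoprime_iff_coprime.2 ((Nat.coprime_primes hq hp).2 (hpq h3))).pow_left
    have h5 := hc.mul_dvd h3 hpn
    have h4 := hle (q ^ 2 * p) (by push_cast; exact h5)
    push_cast at h4
    exact le_of_mul_le_mul_right h4 hp0

/-- sum of the inverse squares -/
private theorem ln_sq (w n : ℕ) (P : Finset ℕ) (hP : P ⊆ Ioo w n) :
    ∑ q ∈ P, 1 / (q : ℝ) ^ 2 ≤ 2 / ((w : ℝ) + 1) := by
  refine le_trans (sum_le_sum_of_subset_of_nonneg hP fun _ _ _ => by positivity) ?_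
  have h := sum_Ioo_inv_sq_le (α := ℝ) w n
  simp only [one_div]
  exact h

/-- sum of the inverses -/
private theorem ln_harm (w : ℕ) (J : ℝ) (hJ : 1 ≤ J) (P : Finset ℕ) (hP : P ⊆ Ioo w (⌊J⌋₊ + 1)) :
    ∑ q ∈ P, 1 / (q : ℝ) ≤ 2 * √J := by
  have h1 : P ⊆ Icc 1 ⌊J⌋₊ := by
    intro q hq
    have h2 := mem_Ioo.1 (hP hq)
    rw [mem_Icc]
    omega
  have h2 : ∑ q ∈ P, 1 / (q : ℝ) ≤ ∑ q ∈ Icc 1 ⌊J⌋₊, 1 / (q : ℝ) :=
    sum_le_sum_of_subset_of_nonneg h1 fun _ _ _ => by positivity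
  have h3 : ∑ q ∈ Icc 1 ⌊J⌋₊, 1 / (q : ℝ) = ((harmonic ⌊J⌋₊ : ℚ) : ℝ) := by
    rw [harmonic_eq_sum_Icc]
    push_cast
    simp only [one_div]
  have h4 := harmonic_floor_le_one_add_log J hJ
  have hs0 : 0 < √J := Real.sqrt_pos.2 (by linarith)
  have h5 : Real.log J ≤ 2 * (√J - 1) := by
    have h6 : Real.log (√J) ≤ √J - 1 := Real.log_le_sub_one_of_pos hs0
    have h7 : Real.log J = 2 * Real.log (√J) := by
      rw [Real.log_sqrt (by linarith)]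
      ring
    linarith
  linarith

/-- the final computation -/
private theorem ln_fin (ε ε' C N s x2 y1 u v wr pr : ℝ) (hε : 0 < ε) (hε' : 0 < ε') (hC : 0 < C) (hN : 0 ≤ N)
    (hw : 64 * C / ε + 112 * C / (ε * ε') ≤ wr) (hwr : 0 < wr)
    (hp : 16 / (ε * ε') ≤ pr) (hpr : 0 < pr)
    (hx2 : x2 ≤ 2 / wr) (hy1 : y1 ≤ 2 * s)
    (h1 : 4 * C * s ≤ ε / 8 * N) (h2 : 14 * C * s / ε' ≤ ε / 8 * N)
    (hu : u ≤ 4 * C * (N * x2 + s)) (hv : ε' * v ≤ 2 * N / pr + 7 * C * (N * x2 + y1)) :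
    u + v ≤ ε * N := by
  have e1 : N * x2 ≤ N * (2 / wr) := mul_le_mul_of_nonneg_left hx2 hN
  have a1 : 64 * C / ε ≤ wr := by
    have : 0 ≤ 112 * C / (ε * ε') := by positivity
    linarith
  have a2 : 112 * C / (ε * ε') ≤ wr := by
    have : 0 ≤ 64 * C / ε := by positivity
    linarith
  rw [div_le_iff₀ (by positivity)] at a1 a2 hp
  have e2 : 4 * C * (N * (2 / wr)) ≤ ε / 8 * N := by
    have : 4 * C * (N * (2 / wr)) = (8 * C / wr) * N := by ring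
    rw [this]
    refine mul_le_mul_of_nonneg_right ?_ hN
    rw [div_le_iff₀ hwr]
    linarith
  have e3 : 7 * C * (N * (2 / wr)) ≤ ε' * (ε / 8 * N) := by
    have : 7 * C * (N * (2 / wr)) = (14 * C / wr) * N := by ring
    rw [this, ← mul_assoc]
    refine mul_le_mul_of_nonneg_right ?_ hN
    rw [div_le_iff₀ hwr]
    linarith
  have e4 : 2 * N / pr ≤ ε' * (ε / 8 * N) := by
    have : 2 * N / pr = (2 / pr) * N := by ring
    rw [this, ← mul_assoc]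
    refine mul_le_mul_of_nonneg_right ?_ hN
    rw [div_le_iff₀ hpr]
    linarith
  have e5 : 7 * C * y1 ≤ ε' * (ε / 8 * N) := by
    rw [div_le_iff₀ hε'] at h2
    have : 7 * C * y1 ≤ 7 * C * (2 * s) := mul_le_mul_of_nonneg_left hy1 (by positivity)
    linarith
  have e6 : ε' * v ≤ ε' * (3 * (ε / 8 * N)) := by
    have : 7 * C * (N * x2) ≤ 7 * C * (N * (2 / wr)) := mul_le_mul_of_nonneg_left e1 (by positivity)
    linarith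
  have e7 : v ≤ 3 * (ε / 8 * N) := le_of_mul_le_mul_left e6 hε'
  have e8 : 4 * C * (N * x2) ≤ 4 * C * (N * (2 / wr)) := mul_le_mul_of_nonneg_left e1 (by positivity)
  have e9 : 0 ≤ ε / 8 * N := by positivity
  linarith

open Classical in
theorem lnice (k : ℤ) (hk : ∀ t : ℤ, t ^ 3 ≠ k) (ε ε' : ℝ) (hε : 0 < ε) (hε' : 0 < ε') :
    ∃ w0 M0 : ℕ, 1 ≤ M0 ∧ ∀ w M : ℕ, w0 ≤ w → M0 ≤ M → ∃ R0 : ℝ, 1 ≤ R0 ∧ ∀ R : ℝ, R0 ≤ R →
    ∃ p0 : ℕ, ∀ p A : ℕ, p.Prime → p0 ≤ p → R * (p : ℝ) ^ ((1 : ℝ) / 3) ≤ A →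
    (A : ℝ) ≤ 2 * R * (p : ℝ) ^ ((1 : ℝ) / 3) → ∀ m : ℤ, (p : ℤ) ∣ m ^ 3 + k →
    (((Bx k M A).filter fun x => (Cl k w x.1 x.2.1 x.2.2 ∧ Lt p m x.1 x.2.1 x.2.2) ∧
      ¬ Nice k ε' x.1 x.2.1 x.2.2).card : ℝ) * (p * (QQ k w : ℝ) ^ 3) ≤ ε * (A : ℝ) ^ 3 := by
  obtain ⟨Kb, hKb, M0, hM0, hbox⟩ := H23.LP.box k
  obtain ⟨C, hC⟩ : ∃ C : ℝ, C = 864 * (|(k : ℝ)| + 1) ^ 3 := ⟨_, rfl⟩
  have hC0 : 0 < C := by rw [hC]; positivity
  have hk0 : k ≠ 0 := by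
    rintro rfl
    exact hk 0 (by norm_num)
  refine ⟨⌈64 * C / ε + 112 * C / (ε * ε')⌉₊, M0, hM0, fun w M hw hM => ?_⟩
  have hQ : 0 < QQ k w := by
    unfold QQ
    have := Int.natAbs_pos.2 hk0
    have := Nat.factorial_pos w
    positivity
  have hQr : (0 : ℝ) < (QQ k w : ℝ) := by exact_mod_cast hQ
  have hM1 : (1 : ℝ) ≤ M := by exact_mod_cast hM0.trans hM
  obtain ⟨Rl, hRl, hlone⟩ := lone k hk w M 1 one_pos
  obtain ⟨D, hD⟩ : ∃ D : ℝ, D = 8 * Kb * (M : ℝ) ^ 3 := ⟨_, rfl⟩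
  obtain ⟨E, hE⟩ : ∃ E : ℝ, E = (32 * C / ε + 112 * C / (ε * ε')) * (QQ k w : ℝ) ^ 3 := ⟨_, rfl⟩
  have hD1 : 1 ≤ D := by
    rw [hD]
    have h1 : 1 ≤ (M : ℝ) ^ 3 := one_le_pow₀ hM1
    nlinarith
  have hE0 : 0 < E := by rw [hE]; positivity
  refine ⟨max Rl (E ^ 2 * D), hRl.trans (le_max_left _ _), fun R hR => ?_⟩
  have hRl' : Rl ≤ R := (le_max_left _ _).trans hR
  have hR1 : 1 ≤ R := hRl.trans hRl'
  have hRE : E ^ 2 * D ≤ R := (le_max_right _ _).trans hR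
  obtain ⟨J, hJ⟩ : ∃ J : ℝ, J = D * R ^ 3 := ⟨_, rfl⟩
  have hR3 : 1 ≤ R ^ 3 := one_le_pow₀ hR1
  have hJ1 : 1 ≤ J := by rw [hJ]; nlinarith
  have hsJ : √J * E ≤ R ^ 3 := by
    have h1 : (√J * E) ^ 2 ≤ (R ^ 3) ^ 2 := by
      rw [mul_pow, Real.sq_sqrt (by linarith), hJ]
      have h2 : D * R ^ 3 * E ^ 2 = (E ^ 2 * D) * R ^ 3 := by ring
      rw [h2]
      have h3 : E ^ 2 * D * R ^ 3 ≤ R * R ^ 3 := mul_le_mul_of_nonneg_right hRE (by linarith)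
      have h4 : R * R ^ 3 ≤ (R ^ 3) ^ 2 := by
        have : (R ^ 3) ^ 2 = R ^ 3 * R ^ 3 := by ring
        rw [this]
        refine mul_le_mul_of_nonneg_right ?_ (by linarith)
        exact le_self_pow₀ hR1 (by norm_num)
      exact h3.trans h4
    exact (pow_le_pow_iff_left₀ (by positivity) (by positivity) two_ne_zero).1 h1
  refine ⟨⌈J⌉₊ + QQ k w + ⌈16 / (ε * ε')⌉₊ + 1, fun p A hp hp0 hA1 hA2 m hm => ?_⟩
  have hpr : (0 : ℝ) < p := by exact_mod_cast hp.pos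
  have hpJ : J < p := by
    have h1 := Nat.le_ceil J
    have h2 : ((⌈J⌉₊ : ℕ) : ℝ) < p := by
      have : ⌈J⌉₊ < p := by omega
      exact_mod_cast this
    linarith
  have hpQ : Nat.Coprime p (QQ k w) := by
    rw [hp.coprime_iff_not_dvd]
    intro h
    have := Nat.le_of_dvd hQ h
    omega
  have hpe : 16 / (ε * ε') ≤ (p : ℝ) := by
    have h1 := Nat.le_ceil (16 / (ε * ε'))
    have h2 : ((⌈16 / (ε * ε')⌉₊ : ℕ) : ℝ) ≤ p := by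
      have : ⌈16 / (ε * ε')⌉₊ ≤ p := by omega
      exact_mod_cast this
    linarith
  have hp13 : 0 < (p : ℝ) ^ ((1 : ℝ) / 3) := Real.rpow_pos_of_pos hpr _
  have hAr : (0 : ℝ) < A := lt_of_lt_of_le (by positivity) hA1
  have hA : 1 ≤ A := by exact_mod_cast hAr
  have hA3 : R ^ 3 * p ≤ (A : ℝ) ^ 3 := by
    rw [← ln_cube]
    exact pow_le_pow_left₀ (by positivity) hA1 3
  have hA3' : (A : ℝ) ^ 3 ≤ 8 * R ^ 3 * p := by
    have h1 : (A : ℝ) ^ 3 ≤ (2 * R * (p : ℝ) ^ ((1 : ℝ) / 3)) ^ 3 := pow_le_pow_left₀ hAr.le hA2 3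
    rw [ln_cube] at h1
    linarith
  have hwr : 64 * C / ε + 112 * C / (ε * ε') ≤ (w : ℝ) + 1 := by
    have h1 := Nat.le_ceil (64 * C / ε + 112 * C / (ε * ε'))
    have h2 : ((⌈64 * C / ε + 112 * C / (ε * ε')⌉₊ : ℕ) : ℝ) ≤ w := by exact_mod_cast hw
    linarith
  obtain ⟨N, hN⟩ : ∃ N : ℝ, N = (A : ℝ) ^ 3 / ((QQ k w : ℝ) ^ 3 * p) := ⟨_, rfl⟩
  have hNA : N * (p * (QQ k w : ℝ) ^ 3) = (A : ℝ) ^ 3 := by
    rw [hN]
    field_simp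
  have hN0 : 0 < N := by rw [hN]; positivity
  have hNR : R ^ 3 / (QQ k w : ℝ) ^ 3 ≤ N := by
    rw [hN, div_le_div_iff₀ (by positivity) (by positivity)]
    have h1 := mul_le_mul_of_nonneg_right hA3 (by positivity : (0 : ℝ) ≤ (QQ k w : ℝ) ^ 3)
    linarith
  -- the two small terms
  have t0 : √J * (32 * C / ε + 112 * C / (ε * ε')) ≤ N := by
    refine le_trans ?_ hNR
    rw [le_div_iff₀ (by positivity), mul_assoc, ← hE]
    exact hsJ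
  have hs0 : 0 ≤ √J := Real.sqrt_nonneg J
  have t1 : 4 * C * √J ≤ ε / 8 * N := by
    have h1 : √J * (32 * C / ε) ≤ N := by
      have h2 : 0 ≤ √J * (112 * C / (ε * ε')) := by positivity
      linarith
    have h3 : 4 * C * √J = ε / 8 * (√J * (32 * C / ε)) := by
      field_simp
      ring
    rw [h3]
    exact mul_le_mul_of_nonneg_left h1 (by positivity)
  have t2 : 14 * C * √J / ε' ≤ ε / 8 * N := by
    have h1 : √J * (112 * C / (ε * ε')) ≤ N := by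
      have h2 : 0 ≤ √J * (32 * C / ε) := by positivity
      linarith
    have h3 : 14 * C * √J / ε' = ε / 8 * (√J * (112 * C / (ε * ε'))) := by
      field_simp
      ring
    rw [h3]
    exact mul_le_mul_of_nonneg_left h1 (by positivity)
  -- the sets
  obtain ⟨S, hS⟩ : ∃ S, S = (Bx k M A).filter fun x => Cl k w x.1 x.2.1 x.2.2 ∧ Lt p m x.1 x.2.1 x.2.2 := ⟨_, rfl⟩
  have hSc : (S.card : ℝ) ≤ 2 * N := by
    have h1 := hlone p A hp.pos hpQ (le_trans (mul_le_mul_of_nonneg_right hRl' hp13.le) hA1) m hm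
    rw [← hS] at h1
    have h2 := (abs_le.1 h1).2
    have h3 : (S.card : ℝ) * (p * (QQ k w : ℝ) ^ 3) ≤ 2 * N * (p * (QQ k w : ℝ) ^ 3) := by
      rw [mul_assoc 2 N, hNA]
      linarith
    exact le_of_mul_le_mul_right h3 (by positivity)
  have hpt : ∀ x ∈ S, 0 < nn k x.1 x.2.1 x.2.2 ∧ (nn k x.1 x.2.1 x.2.2 : ℝ) ≤ J * p ∧
      Cl k w x.1 x.2.1 x.2.2 ∧ Lt p m x.1 x.2.1 x.2.2 := by
    intro x hx
    rw [hS, mem_filter] at hx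
    obtain ⟨hx1, hx2, hx3⟩ := hx
    unfold Bx at hx1
    rw [mem_product, mem_product] at hx1
    obtain ⟨-, h2, h3, -⟩ := hbox M A hM hA _ hx1.1 _ hx1.2.1 _ hx1.2.2
    refine ⟨?_, ?_, hx2, hx3⟩
    · have h4 : (0 : ℝ) < (nn k x.1 x.2.1 x.2.2 : ℝ) := lt_of_lt_of_le (by positivity) h2
      exact_mod_cast h4
    · refine h3.trans ?_
      have h5 : Kb * ((M : ℝ) * A) ^ 3 = Kb * (M : ℝ) ^ 3 * (A : ℝ) ^ 3 := by ring
      rw [h5, hJ, hD]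
      have h6 : Kb * (M : ℝ) ^ 3 * (A : ℝ) ^ 3 ≤ Kb * (M : ℝ) ^ 3 * (8 * R ^ 3 * p) :=
        mul_le_mul_of_nonneg_left hA3' (by positivity)
      linarith
  obtain ⟨P, hP⟩ : ∃ P : Finset ℕ, P = (Ioo w (⌊J⌋₊ + 1)).filter fun q => q.Prime ∧ Nat.Coprime q (QQ k w) ∧ q ≠ p :=
    ⟨_, rfl⟩
  have hPI : P ⊆ Ioo w (⌊J⌋₊ + 1) := by rw [hP]; exact filter_subset _ _
  have hfac : ∀ x ∈ S, ∀ q : ℕ, q.Prime → (q : ℤ) ∣ nn k x.1 x.2.1 x.2.2 → q ≠ p → q ∈ P := by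
    intro x hx q hq hqn hne
    obtain ⟨h1, h2, h3, h4⟩ := hpt x hx
    obtain ⟨g1, g2, g3, -⟩ := ln_pt k w p m hp hm J hpJ _ _ _ h3 h4 h1 h2 q hq hqn
    rw [hP, mem_filter, mem_Ioo]
    refine ⟨⟨g1, ?_⟩, hq, g2, hne⟩
    have := Nat.le_floor (g3 hne)
    omega
  obtain ⟨P2, hP2⟩ : ∃ P2 : Finset ℕ, P2 = P.filter fun q : ℕ => (q : ℝ) ^ 2 ≤ J := ⟨_, rfl⟩
  obtain ⟨B2, hB2⟩ : ∃ B2, B2 = S.filter fun x =>
      ε' < ∑ q ∈ (nn k x.1 x.2.1 x.2.2).natAbs.primeFactors, (1 : ℝ) / q := ⟨_, rfl⟩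
  obtain ⟨S2, hS2⟩ : ∃ S2 : ℕ → Finset (ℤ × ℤ × ℤ), ∀ q, S2 q = (Bx k M A).filter fun x =>
      (Cl k w x.1 x.2.1 x.2.2 ∧ Lt p m x.1 x.2.1 x.2.2) ∧
      (q : ℤ) ∣ nn k x.1 x.2.1 x.2.2 ∧ (q : ℤ) ∣ CC x.1 x.2.1 x.2.2 ∧ (q : ℤ) ∣ BB k x.1 x.2.1 x.2.2 :=
    ⟨_, fun _ => rfl⟩
  have hsub : ((Bx k M A).filter fun x => (Cl k w x.1 x.2.1 x.2.2 ∧ Lt p m x.1 x.2.1 x.2.2) ∧
      ¬ Nice k ε' x.1 x.2.1 x.2.2) ⊆ P2.biUnion S2 ∪ B2 := by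
    intro x hx
    rw [mem_filter] at hx
    obtain ⟨hx1, hx2, hx3⟩ := hx
    have hxS : x ∈ S := by rw [hS, mem_filter]; exact ⟨hx1, hx2⟩
    rw [mem_union, mem_biUnion]
    by_cases h5 : ε' < ∑ q ∈ (nn k x.1 x.2.1 x.2.2).natAbs.primeFactors, (1 : ℝ) / q
    · right
      rw [hB2, mem_filter]
      exact ⟨hxS, h5⟩
    · left
      have h6 : ¬ ∀ q : ℕ, q.Prime → (q : ℤ) ∣ nn k x.1 x.2.1 x.2.2 →
          ¬ ((q : ℤ) ∣ CC x.1 x.2.1 x.2.2 ∧ (q : ℤ) ∣ BB k x.1 x.2.1 x.2.2) :=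
        fun h7 => hx3 ⟨h7, not_lt.1 h5⟩
      push Not at h6
      obtain ⟨q, hq, hqn, hqC, hqB⟩ := h6
      obtain ⟨h1, h2, h3, h4⟩ := hpt x hxS
      obtain ⟨-, -, -, g4⟩ := ln_pt k w p m hp hm J hpJ _ _ _ h3 h4 h1 h2 q hq hqn
      obtain ⟨g5, g6⟩ := g4 (bzp k _ _ _ q hq hqn hqC hqB).1
      refine ⟨q, ?_, ?_⟩
      · rw [hP2, mem_filter]
        exact ⟨hfac x hxS q hq hqn g5, g6⟩
      · rw [hS2, mem_filter]
        exact ⟨hx1, hx2, hqn, hqC, hqB⟩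
  have hPm : ∀ q ∈ P, q.Prime ∧ Nat.Coprime q (QQ k w) ∧ q ≠ p := by
    intro q hq
    rw [hP, mem_filter] at hq
    exact hq.2
  have hx2 : ∑ q ∈ P, 1 / (q : ℝ) ^ 2 ≤ 2 / ((w : ℝ) + 1) := ln_sq w _ P hPI
  have hy1 : ∑ q ∈ P, 1 / (q : ℝ) ≤ 2 * √J := ln_harm w J hJ1 P hPI
  -- first set
  have hP2c : (P2.card : ℝ) ≤ √J := by
    have h1 : P2 ⊆ Ioc 0 ⌊√J⌋₊ := by
      intro q hq
      rw [hP2, mem_filter] at hq
      have h2 := mem_Ioo.1 (hPI hq.1)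
      rw [mem_Ioc]
      refine ⟨by omega, Nat.le_floor ?_⟩
      exact Real.le_sqrt_of_sq_le hq.2
    have h2 := card_le_card h1
    rw [Nat.card_Ioc, Nat.sub_zero] at h2
    have h3 : (P2.card : ℝ) ≤ (⌊√J⌋₊ : ℝ) := by exact_mod_cast h2
    exact h3.trans (Nat.floor_le hs0)
  have hu : ((P2.biUnion S2).card : ℝ) ≤ 4 * C * (N * (∑ q ∈ P, 1 / (q : ℝ) ^ 2) + √J) := by
    have h1 : ((P2.biUnion S2).card : ℝ) ≤ ∑ q ∈ P2, ((S2 q).card : ℝ) := by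
      exact_mod_cast card_biUnion_le
    have h2 : ∀ q ∈ P2, ((S2 q).card : ℝ) ≤ 4 * C * (N * (1 / (q : ℝ) ^ 2) + 1) := by
      intro q hq
      rw [hP2, mem_filter] at hq
      obtain ⟨g1, g2, g3⟩ := hPm q hq.1
      have h3 := bdc2 k hk w M A p q hp hpQ g1 g2 g3 m hm
      rw [← hS2, ← hC] at h3
      refine h3.trans (le_of_eq ?_)
      rw [hN, div_mul_div_comm, mul_one]
    have h3 : ∑ q ∈ P2, 1 / (q : ℝ) ^ 2 ≤ ∑ q ∈ P, 1 / (q : ℝ) ^ 2 := by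
      rw [hP2]
      exact sum_le_sum_of_subset_of_nonneg (filter_subset _ _) fun _ _ _ => by positivity
    calc ((P2.biUnion S2).card : ℝ) ≤ ∑ q ∈ P2, 4 * C * (N * (1 / (q : ℝ) ^ 2) + 1) := h1.trans (sum_le_sum h2)
      _ = 4 * C * (N * (∑ q ∈ P2, 1 / (q : ℝ) ^ 2) + P2.card) := by
          rw [← mul_sum, sum_add_distrib, ← mul_sum, sum_const, nsmul_eq_mul, mul_one]
      _ ≤ 4 * C * (N * (∑ q ∈ P, 1 / (q : ℝ) ^ 2) + √J) := by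
          refine mul_le_mul_of_nonneg_left ?_ (by positivity)
          exact add_le_add (mul_le_mul_of_nonneg_left h3 hN0.le) hP2c
  -- second set
  have hv : ε' * (B2.card : ℝ) ≤ 2 * N / p + 7 * C * (N * (∑ q ∈ P, 1 / (q : ℝ) ^ 2) + ∑ q ∈ P, 1 / (q : ℝ)) := by
    have h1 : ε' * (B2.card : ℝ) ≤ ∑ x ∈ S, ∑ q ∈ (nn k x.1 x.2.1 x.2.2).natAbs.primeFactors, (1 : ℝ) / q := by
      calc ε' * (B2.card : ℝ) = ∑ x ∈ B2, ε' := by rw [sum_const, nsmul_eq_mul, mul_comm]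
        _ ≤ ∑ x ∈ B2, ∑ q ∈ (nn k x.1 x.2.1 x.2.2).natAbs.primeFactors, (1 : ℝ) / q := by
            refine sum_le_sum fun x hx => ?_
            rw [hB2, mem_filter] at hx
            exact hx.2.le
        _ ≤ _ := by
            rw [hB2]
            exact sum_le_sum_of_subset_of_nonneg (filter_subset _ _) fun _ _ _ => sum_nonneg fun _ _ => by positivity
    have h2 : ∀ x ∈ S, ∑ q ∈ (nn k x.1 x.2.1 x.2.2).natAbs.primeFactors, (1 : ℝ) / q ≤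
        1 / p + ∑ q ∈ P, (if (q : ℤ) ∣ nn k x.1 x.2.1 x.2.2 then 1 / (q : ℝ) else 0) := by
      intro x hx
      rw [← sum_filter]
      have hpP : p ∉ P.filter fun q : ℕ => (q : ℤ) ∣ nn k x.1 x.2.1 x.2.2 := by
        intro h3
        rw [mem_filter] at h3
        exact (hPm p h3.1).2.2 rfl
      refine le_trans ?_ (le_of_eq (sum_insert (f := fun q : ℕ => 1 / (q : ℝ)) hpP))
      refine sum_le_sum_of_subset_of_nonneg ?_ fun _ _ _ => by positivity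
      intro q hq
      rw [Nat.mem_primeFactors] at hq
      have hqn : (q : ℤ) ∣ nn k x.1 x.2.1 x.2.2 := Int.natCast_dvd.2 hq.2.1
      rw [mem_insert, mem_filter]
      by_cases hqp : q = p
      · left; exact hqp
      · right
        exact ⟨hfac x hx q hq.1 hqn hqp, hqn⟩
    have h3 : ∑ x ∈ S, ∑ q ∈ P, (if (q : ℤ) ∣ nn k x.1 x.2.1 x.2.2 then 1 / (q : ℝ) else 0) ≤
        7 * C * (N * (∑ q ∈ P, 1 / (q : ℝ) ^ 2) + ∑ q ∈ P, 1 / (q : ℝ)) := by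
      rw [sum_comm]
      have h4 : ∀ q ∈ P, ∑ x ∈ S, (if (q : ℤ) ∣ nn k x.1 x.2.1 x.2.2 then 1 / (q : ℝ) else 0) ≤
          7 * C * (N * (1 / (q : ℝ) ^ 2) + 1 / (q : ℝ)) := by
        intro q hq
        obtain ⟨g1, g2, g3⟩ := hPm q hq
        have hq0 : (0 : ℝ) < q := by exact_mod_cast g1.pos
        rw [← sum_filter, sum_const, nsmul_eq_mul, hS, filter_filter]
        have h5 := bdc1 k hk w M A p q hp hpQ g1 g2 g3 m hm
        rw [← hC] at h5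
        have h6 : (A : ℝ) ^ 3 / ((QQ k w : ℝ) ^ 3 * p * q) = N * (1 / (q : ℝ)) := by
          rw [hN, div_mul_div_comm, mul_one]
        rw [h6] at h5
        have h7 := mul_le_mul_of_nonneg_right h5 (by positivity : (0 : ℝ) ≤ 1 / (q : ℝ))
        refine h7.trans (le_of_eq ?_)
        field_simp
      refine (sum_le_sum h4).trans (le_of_eq ?_)
      rw [← mul_sum, sum_add_distrib, ← mul_sum]
    calc ε' * (B2.card : ℝ) ≤ ∑ x ∈ S, (1 / (p : ℝ) +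
          ∑ q ∈ P, (if (q : ℤ) ∣ nn k x.1 x.2.1 x.2.2 then 1 / (q : ℝ) else 0)) := h1.trans (sum_le_sum h2)
      _ = (S.card : ℝ) / p + ∑ x ∈ S, ∑ q ∈ P, (if (q : ℤ) ∣ nn k x.1 x.2.1 x.2.2 then 1 / (q : ℝ) else 0) := by
          rw [sum_add_distrib, sum_const, nsmul_eq_mul, mul_one_div]
      _ ≤ _ := add_le_add (div_le_div_of_nonneg_right hSc hpr.le) h3
  have hfin := ln_fin ε ε' C N (√J) _ _ _ _ ((w : ℝ) + 1) p hε hε' hC0 hN0.le hwr (by positivity) hpe hpr hx2 hy1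
    t1 t2 hu hv
  have hcard : (((Bx k M A).filter fun x => (Cl k w x.1 x.2.1 x.2.2 ∧ Lt p m x.1 x.2.1 x.2.2) ∧
      ¬ Nice k ε' x.1 x.2.1 x.2.2).card : ℝ) ≤ ε * N := by
    refine le_trans ?_ hfin
    have h1 := (card_le_card hsub).trans (card_union_le _ _)
    exact_mod_cast h1
  calc _ ≤ ε * N * (p * (QQ k w : ℝ) ^ 3) := mul_le_mul_of_nonneg_right hcard (by positivity)
    _ = ε * (A : ℝ) ^ 3 := by rw [mul_assoc, hNA]

end H96.DR
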