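import Pool.Agent.H96.DR.Nzp

/-!
# [DR PWL] the pairs `(m, p)` of one point, 100-160 lines. File Pool/Agent/H96/DR/Pwl.lean

`Ss k X Y` is the set in the definition of `Sw` (`Sw_eq`, `rfl`). Let `n = nn x` (so `0 < n`, as `N0 > 0`, `ε < 1`). Let `(m, p)` be in the filter set. `p` divides `n` (`lt_nn`), `j = n/p` is a natural number with `(1 - ε) N0/(2Y) ≤ j ≤ (1 + ε) N0/Y < Y < p` (`p ∈ (Y, 2Y]`), so
`j ∈ J` and `n/j = p`, `Ex j n` (`gcd(p, j) = 1` as `0 < j < p`, `p` prime), and `p ∣ CC m + BB` (`id_root`). Different `p` give different `j = n/p`. Sort the pairs by `j`: for fixed `j` all pairs have `p = (n/j).natAbs`, the number of the `m` is at most `NR k X p`,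
and `p = n/j ≤ (1 + ε) N0/j`. So the sum over the pairs with this `j` is `≤ ((1 + ε) N0/j) NR k X p x`. (`Finset.sum_fiberwise_of_maps_to` with the map `(m, p) ↦ (n/p).natAbs` into `J`, then `Finset.sum_le_sum`; in each fibre `sum = card * p`.)
-/

set_option autoImplicit false

namespace H96.DR

open Finset H23.LP

/-- the pairs `(m, p)` counted by `Sw` -/
noncomputable def Ss (k : ℤ) (X : ℕ) (Y : ℝ) : Finset (ℤ × ℕ) :=
  ((Ioc (X : ℤ) (2 * X)) ×ˢ range (⌊2 * Y⌋₊ + 1)).filter fun x =>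
    x.2.Prime ∧ Y < x.2 ∧ (x.2 : ℝ) ≤ 2 * Y ∧ (x.2 : ℤ) ∣ x.1 ^ 3 + k

theorem Sw_eq (k : ℤ) (X : ℕ) (Y : ℝ) : Sw k X Y = (Ss k X Y).card := rfl

open Classical in
theorem pwl (k : ℤ) (X : ℕ) (Y N0 ε : ℝ) (x : ℤ × ℤ × ℤ) (hY : 1 ≤ Y) (hε : 0 < ε) (hε1 : ε < 1)
    (hN0 : 0 < N0) (hn1 : (1 - ε) * N0 ≤ nn k x.1 x.2.1 x.2.2)
    (hn2 : (nn k x.1 x.2.1 x.2.2 : ℝ) ≤ (1 + ε) * N0) (hJY : (1 + ε) * N0 / Y < Y) (J : Finset ℕ)
    (hJ : ∀ j : ℕ, (1 - ε) * N0 / (2 * Y) ≤ j → (j : ℝ) ≤ (1 + ε) * N0 / Y → j ∈ J) :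
    ∑ y ∈ (Ss k X Y).filter (fun y => Lt y.2 y.1 x.1 x.2.1 x.2.2), (y.2 : ℝ) ≤
      ∑ j ∈ J, if Ex j (nn k x.1 x.2.1 x.2.2) ∧ (nn k x.1 x.2.1 x.2.2 / j).natAbs.Prime ∧
          Y < (nn k x.1 x.2.1 x.2.2 / j).natAbs then
        ((1 + ε) * N0 / j) * NR k X (nn k x.1 x.2.1 x.2.2 / j).natAbs x.1 x.2.1 x.2.2 else 0 := by
  set n : ℤ := nn k x.1 x.2.1 x.2.2 with hn
  have hY0 : (0 : ℝ) < Y := by linarith
  have hnpos : (0 : ℝ) < n := lt_of_lt_of_le (mul_pos (by linarith) hN0) hn1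
  have hnz : 0 < n := by exact_mod_cast hnpos
  set F := (Ss k X Y).filter (fun y => Lt y.2 y.1 x.1 x.2.1 x.2.2) with hF
  -- the facts for one pair
  have key : ∀ y ∈ F, y.2.Prime ∧ Y < (y.2 : ℝ) ∧ (y.2 : ℝ) ≤ 2 * Y ∧ (y.2 : ℤ) ∣ y.1 ^ 3 + k ∧
      y.1 ∈ Ioc (X : ℤ) (2 * X) ∧ Lt y.2 y.1 x.1 x.2.1 x.2.2 ∧
      ∃ j : ℕ, 0 < j ∧ n = (y.2 : ℤ) * j ∧ (n / (y.2 : ℤ)).natAbs = j := by
    intro y hy
    rw [hF, mem_filter, Ss, mem_filter, mem_product] at hy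
    obtain ⟨⟨⟨h1, _⟩, h2, h3, h4, h5⟩, h6⟩ := hy
    have hdv : (y.2 : ℤ) ∣ n := lt_nn k y.2 y.1 _ _ _ h5 h6
    have hp0 : (0 : ℤ) < y.2 := by exact_mod_cast h2.pos
    obtain ⟨q, hq⟩ := hdv
    have hqpos : 0 < q := by
      rw [hq] at hnz
      exact (mul_pos_iff_of_pos_left hp0).1 hnz
    refine ⟨h2, h3, h4, h5, h1, h6, q.toNat, ?_, ?_, ?_⟩
    · omega
    · rw [Int.toNat_of_nonneg hqpos.le]; exact hq
    · rw [hq, Int.mul_ediv_cancel_left _ hp0.ne']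
      omega
  have hjb : ∀ y ∈ F, ∀ j : ℕ, n = (y.2 : ℤ) * j → (1 - ε) * N0 / (2 * Y) ≤ j ∧
      (j : ℝ) ≤ (1 + ε) * N0 / Y := by
    intro y hy j hj
    obtain ⟨h2, h3, h4, -⟩ := key y hy
    have hnr : (n : ℝ) = (y.2 : ℝ) * j := by exact_mod_cast congrArg (Int.cast (R := ℝ)) hj
    have hj0 : (0 : ℝ) ≤ j := Nat.cast_nonneg j
    constructor
    · rw [div_le_iff₀ (by linarith)]
      calc (1 - ε) * N0 ≤ n := hn1
        _ = (y.2 : ℝ) * j := hnr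
        _ ≤ (2 * Y) * j := mul_le_mul_of_nonneg_right h4 hj0
        _ = j * (2 * Y) := by ring
    · rw [le_div_iff₀ hY0]
      calc (j : ℝ) * Y ≤ j * y.2 := mul_le_mul_of_nonneg_left h3.le hj0
        _ = n := by rw [hnr]; ring
        _ ≤ _ := hn2
  have hmaps : ∀ y ∈ F, (n / (y.2 : ℤ)).natAbs ∈ J := by
    intro y hy
    obtain ⟨h2, h3, h4, h5, h1, h6, j, hj0, hj, hj2⟩ := key y hy
    rw [hj2]
    obtain ⟨b1, b2⟩ := hjb y hy j hj
    exact hJ j b1 b2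
  rw [← sum_fiberwise_of_maps_to hmaps]
  refine sum_le_sum fun j _ => ?_
  have hNR0 : (0 : ℝ) ≤ ((1 + ε) * N0 / j) * NR k X (n / j).natAbs x.1 x.2.1 x.2.2 := by positivity
  rcases (F.filter (fun y => (n / (y.2 : ℤ)).natAbs = j)).eq_empty_or_nonempty with he | ⟨y0, hy0⟩
  · rw [he, sum_empty]
    split_ifs
    · exact hNR0
    · exact le_rfl
  rw [mem_filter] at hy0
  obtain ⟨hy0F, hy0j⟩ := hy0
  obtain ⟨h2, h3, h4, h5, h1, h6, j', hj0, hj, hj2⟩ := key y0 hy0F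
  have hjj : j' = j := by rw [← hj2, hy0j]
  subst hjj
  have hjz : (j' : ℤ) ≠ 0 := by exact_mod_cast hj0.ne'
  have hndiv : n / (j' : ℤ) = y0.2 := by
    rw [hj]
    exact Int.mul_ediv_cancel _ hjz
  have hnabs : (n / (j' : ℤ)).natAbs = y0.2 := by rw [hndiv]; rfl
  have hjp : j' < y0.2 := by
    have h := (hjb y0 hy0F j' hj).2
    have : (j' : ℝ) < y0.2 := lt_trans (lt_of_le_of_lt h hJY) h3
    exact_mod_cast this
  have hEx : Ex j' n := by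
    refine ⟨⟨y0.2, by rw [hj]; ring⟩, ?_⟩
    rw [hndiv]
    have hcop : Nat.Coprime y0.2 j' :=
      (Nat.Prime.coprime_iff_not_dvd h2).2 fun hd => absurd (Nat.le_of_dvd hj0 hd) (by omega)
    rw [Int.gcd_natCast_natCast]
    exact hcop
  rw [if_pos ⟨hEx, by rw [hnabs]; exact h2, by rw [hnabs]; exact h3⟩, hnabs]
  have hsame : ∀ y ∈ F.filter (fun y => (n / (y.2 : ℤ)).natAbs = j'), y.2 = y0.2 := by
    intro y hy
    rw [mem_filter] at hy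
    obtain ⟨hyF, hyj⟩ := hy
    obtain ⟨-, -, -, -, -, -, i, hi0, hi, hi2⟩ := key y hyF
    have hij : i = j' := by rw [← hi2, hyj]
    subst hij
    have h7 : (y.2 : ℤ) * i = y0.2 * i := by rw [← hi, ← hj]
    have h8 := mul_right_cancel₀ hjz h7
    exact_mod_cast h8
  rw [sum_congr rfl fun y hy => by rw [hsame y hy], sum_const, nsmul_eq_mul]
  have hcard : ((F.filter (fun y => (n / (y.2 : ℤ)).natAbs = j')).card : ℝ) ≤
      NR k X y0.2 x.1 x.2.1 x.2.2 := by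
    rw [NR]
    have : (F.filter (fun y => (n / (y.2 : ℤ)).natAbs = j')).card ≤
        ((Ioc (X : ℤ) (2 * X)).filter fun m => ((y0.2 : ℕ) : ℤ) ∣ CC x.1 x.2.1 x.2.2 * m +
          BB k x.1 x.2.1 x.2.2).card := by
      refine card_le_card_of_injOn (fun y => y.1) ?_ ?_
      · intro y hy
        have hy' := hy
        rw [mem_coe, mem_filter] at hy
        obtain ⟨-, -, -, q5, q1, q6, -⟩ := key y hy.1
        have hs := hsame y hy'
        rw [mem_coe, mem_filter]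
        refine ⟨q1, ?_⟩
        rw [← hs, id_root]
        exact dvd_add (Dvd.dvd.mul_left q6 _) (Dvd.dvd.mul_left q5 _)
      · intro y hy z hz hyz
        have hs := hsame y hy
        have ht := hsame z hz
        exact Prod.ext hyz (by rw [hs, ht])
    exact_mod_cast this
  have hp : (y0.2 : ℝ) ≤ (1 + ε) * N0 / j' := by
    have hjr : (0 : ℝ) < j' := by exact_mod_cast hj0
    rw [le_div_iff₀ hjr]
    have hnr : (n : ℝ) = (y0.2 : ℝ) * j' := by exact_mod_cast congrArg (Int.cast (R := ℝ)) hj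
    rw [← hnr]
    exact hn2
  calc ((F.filter (fun y => (n / (y.2 : ℤ)).natAbs = j')).card : ℝ) * (y0.2 : ℝ)
      ≤ NR k X y0.2 x.1 x.2.1 x.2.2 * ((1 + ε) * N0 / j') :=
        mul_le_mul hcard hp (Nat.cast_nonneg _) (Nat.cast_nonneg _)
    _ = _ := by ring

end H96.DR
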