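import Pool.Agent.H96.DR.Def

/-!
# [DR SFP] the squarefull part and the other part, 60-110 lines. File Pool/Agent/H96/DR/Sfp.lean

`n ≠ 0`: `n = ∏_{p ∈ n.primeFactors} p ^ n.factorization p` (`Nat.factorization_prod_pow_eq_self`, `Finsupp.prod`), split by `p ^ 2 ∣ n` (`Finset.prod_filter_mul_prod_filter_not`); for `p ∣ n`, `¬ p ^ 2 ∣ n` the exponent is `1`
(`Nat.Prime.pow_dvd_iff_le_factorization`). Coprime: products of powers of different primes (`Nat.Coprime.prod_left`, `Nat.Coprime.prod_right`, `Nat.coprime_primes`, `Nat.Coprime.pow`). `SQ n` is a product of different primes: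
squarefree (`Finset.squarefree_prod_of_pairwise_isCoprime` or `Nat.squarefree_iff...`, or: `SQ n ∣ ∏ primeFactors`).
A prime dividing a product of primes (of prime powers) is one of them (`Prime.exists_mem_finset_dvd`, `Nat.prime_dvd_prime_iff_eq`).
-/

set_option autoImplicit false

namespace H96.DR

open Finset

theorem SQ_mul_SF (n : ℕ) (hn : n ≠ 0) : SQ n * SF n = n := by
  have h1 : ∏ p ∈ n.primeFactors, p ^ n.factorization p = n := by
    have := Nat.prod_factorization_pow_eq_self hn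
    rwa [Finsupp.prod, Nat.support_factorization] at this
  have h2 : SQ n = ∏ p ∈ n.primeFactors.filter (fun p => ¬ p ^ 2 ∣ n), p ^ n.factorization p := by
    unfold SQ
    refine Finset.prod_congr rfl fun p hp => ?_
    rw [mem_filter, Nat.mem_primeFactors] at hp
    obtain ⟨⟨hpp, hpn, _⟩, hp2⟩ := hp
    have h3 : 1 ≤ n.factorization p := (hpp.dvd_iff_one_le_factorization hn).1 hpn
    have h4 : ¬ 2 ≤ n.factorization p := fun h => hp2 ((hpp.pow_dvd_iff_le_factorization hn).2 h)
    have h5 : n.factorization p = 1 := by omega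
    rw [h5, pow_one]
  rw [h2, SF, mul_comm]
  conv_rhs => rw [← h1]
  exact Finset.prod_filter_mul_prod_filter_not _ _ _

theorem SQ_cop_SF (n : ℕ) : Nat.Coprime (SQ n) (SF n) := by
  unfold SQ SF
  refine Nat.Coprime.prod_left fun p hp => Nat.Coprime.prod_right fun q hq => ?_
  rw [mem_filter, Nat.mem_primeFactors] at hp hq
  refine Nat.Coprime.pow_right _ ?_
  rw [Nat.coprime_primes hp.1.1 hq.1.1]
  rintro rfl
  exact hp.2 hq.2

theorem SQ_sqf (n : ℕ) : Squarefree (SQ n) := by
  unfold SQ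
  refine Finset.squarefree_prod_of_pairwise_isCoprime (fun p hp q hq hpq => ?_) fun p hp => ?_
  · rw [mem_coe, mem_filter, Nat.mem_primeFactors] at hp hq
    exact Nat.coprime_iff_isRelPrime.1 ((Nat.coprime_primes hp.1.1 hq.1.1).2 hpq)
  · rw [mem_filter, Nat.mem_primeFactors] at hp
    exact hp.1.1.prime.squarefree

theorem SQ_pos (n : ℕ) : 0 < SQ n := by
  unfold SQ
  refine Finset.prod_pos fun p hp => ?_
  rw [mem_filter, Nat.mem_primeFactors] at hp
  exact hp.1.1.pos

theorem SF_pos (n : ℕ) : 0 < SF n := by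
  unfold SF
  refine Finset.prod_pos fun p hp => ?_
  rw [mem_filter, Nat.mem_primeFactors] at hp
  exact pow_pos hp.1.1.pos _

theorem dvd_SQ_iff (n p : ℕ) (hn : n ≠ 0) (hp : p.Prime) : p ∣ SQ n ↔ p ∣ n ∧ ¬ p ^ 2 ∣ n := by
  unfold SQ
  constructor
  · intro h
    obtain ⟨q, hq, hpq⟩ := hp.prime.exists_mem_finset_dvd h
    rw [mem_filter, Nat.mem_primeFactors] at hq
    have := (Nat.prime_dvd_prime_iff_eq hp hq.1.1).1 hpq
    subst this
    exact ⟨hq.1.2.1, hq.2⟩
  · rintro ⟨h1, h2⟩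
    exact Finset.dvd_prod_of_mem _ (mem_filter.2 ⟨Nat.mem_primeFactors.2 ⟨hp, h1, hn⟩, h2⟩)

theorem dvd_SF_iff (n p : ℕ) (hn : n ≠ 0) (hp : p.Prime) : p ∣ SF n ↔ p ^ 2 ∣ n := by
  unfold SF
  constructor
  · intro h
    obtain ⟨q, hq, hpq⟩ := hp.prime.exists_mem_finset_dvd h
    rw [mem_filter, Nat.mem_primeFactors] at hq
    have := (Nat.prime_dvd_prime_iff_eq hp hq.1.1).1 (hp.dvd_of_dvd_pow hpq)
    subst this
    exact hq.2
  · intro h1
    have h2 : p ∣ n := (dvd_pow_self p two_ne_zero).trans h1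
    have h3 : 2 ≤ n.factorization p := (hp.pow_dvd_iff_le_factorization hn).1 h1
    have h4 : p ^ n.factorization p ∣ ∏ p ∈ n.primeFactors.filter (fun p => p ^ 2 ∣ n), p ^ n.factorization p :=
      Finset.dvd_prod_of_mem (fun p => p ^ n.factorization p)
        (mem_filter.2 ⟨Nat.mem_primeFactors.2 ⟨hp, h2, hn⟩, h1⟩)
    exact (dvd_pow_self p (by omega)).trans h4

end H96.DR
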