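import Pool.Agent.H96.DR.Lnice
import Pool.Agent.H96.DR.Pwl

/-!
# [DR STA] every pair `(m, p)` is seen by many good points, 140-220 lines. File Pool/Agent/H96/DR/Sta.lean

`w0`, `M0` from `lnice` with `ε/2` and `ε'` (`M0` also from `H23.LP.box`); `Rl` the `R` of `lone` with `ε/2`, `R0'` that of `lnice`. `R0 = max (2 Rl) (2 R0') ≥ 2`. For `R ≥ R0` let `Y0` be so large that: `Y0 ≥ QQ k w + |k| + 10`, `Y0 ≥ p0` (of `lnice` for the parameter `R1 = 0.79 R ≥ R0'`), `Kb M³ (R + 1)³ < Y0`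
(`Kb` from `box`), `0.58 R Y0^(1/3) ≥ 1`.
Let `R Y^(1/3) ≤ A ≤ R Y^(1/3) + 1`, `Q = QQ k w`. For a prime `p ∈ (Y, 2Y]`: `0.79 R p^(1/3) ≤ 0.79 R 2^(1/3) Y^(1/3) ≤ R Y^(1/3) ≤ A` (`0.79³ · 2 < 1`), `A ≤ R p^(1/3) + 1 ≤ 1.58 R p^(1/3)`; also `Rl p^(1/3) ≤ A`; `p > Q`, so `p` is prime to `Q`.
(1) For `(m, p) ∈ Ss`: `S = {x ∈ Bx : Cl, Lt p m x}`; `lone`: `#S p Q³ ≥ (1 - ε/2) A³`; `lnice`: `#{x ∈ S : ¬ Nice} p Q³ ≤ (ε/2) A³`. So `(1 - ε) A³ ≤ p Q³ (#{x ∈ S \ E : Nice} + #{x ∈ E : Lt p m x})`.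
(2) Sum over `(m, p) ∈ Ss` and exchange the sums (`Finset.sum_comm`): `(1 - ε) A³ Sw ≤ Q³ (∑_{x ∈ Bx \ E, Cl, Nice} ∑_{(m,p) : Lt} p + ∑_{x ∈ E} ∑_{(m, p) : Lt} p)`.
(3) For `x ∈ Bx`: `0 < nn x ≤ Kb (M A)³ ≤ Kb M³ (R + 1)³ Y < Y²`; every `p` of a pair with `Lt p m x` divides `nn x` (`lt_nn`), and two different primes `> Y` would give `nn x ≥ p p' > Y²`; so all pairs have the same `p`. The `m ∈ (X, 2X]` with `p ∣ m³ + k` are incongruent modulo `p`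
(`p > Y ≥ X`) and at most three classes are possible (`m ↦ -m`: cube roots of `k`, `H23.LP.nu_le`, `Nup.lean`), so there are at most `3` pairs: `∑ p ≤ 3 · 2Y ≤ 12 Y`.
-/

set_option autoImplicit false

namespace H96.DR

open Finset H23.LP

/-- at most three `m` for one prime -/
private theorem st_three (k : ℤ) (p X : ℕ) (hp : p.Prime) (hX : X < p) :
    ((Ioc (X : ℤ) (2 * X)).filter fun m => (p : ℤ) ∣ m ^ 3 + k).card ≤ 3 := by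
  refine le_trans ?_ (H23.LP.nu_le k p hp)
  unfold nu
  have hp0 : (0 : ℤ) < (p : ℤ) := by exact_mod_cast hp.pos
  have hto : ∀ m : ℤ, (((-m) % (p : ℤ)).toNat : ℤ) = (-m) % (p : ℤ) := fun m =>
    Int.toNat_of_nonneg (Int.emod_nonneg _ hp0.ne')
  refine card_le_card_of_injOn (fun m => ((-m) % (p : ℤ)).toNat) ?_ ?_
  · intro m hm
    rw [mem_coe, mem_filter] at hm
    rw [mem_coe, mem_filter, mem_range]
    constructor
    · have h1 := Int.emod_lt_of_pos (-m) hp0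
      have h2 := hto m
      show ((-m) % (p : ℤ)).toNat < p
      omega
    · show (p : ℤ) ∣ ((((-m) % (p : ℤ)).toNat : ℕ) : ℤ) ^ 3 - k
      rw [hto]
      have h1 := Int.emod_add_mul_ediv (-m) (p : ℤ)
      obtain ⟨q, hq⟩ : ∃ q : ℤ, q = (-m) / (p : ℤ) := ⟨_, rfl⟩
      obtain ⟨t, ht⟩ : ∃ t : ℤ, t = (-m) % (p : ℤ) := ⟨_, rfl⟩
      rw [← hq, ← ht] at h1
      rw [← ht]
      have h2 : t = -m - p * q := by linear_combination h1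
      obtain ⟨u, hu⟩ := hm.2
      refine ⟨-u - 3 * m ^ 2 * q - 3 * m * p * q ^ 2 - p ^ 2 * q ^ 3, ?_⟩
      rw [h2]
      linear_combination -hu
  · intro m hm m' hm' he
    rw [mem_coe, mem_filter, mem_Ioc] at hm hm'
    have h1 := congrArg (fun t : ℕ => (t : ℤ)) he
    simp only [hto] at h1
    have h2 : (-m) ≡ (-m') [ZMOD (p : ℤ)] := h1
    have h3 := h2.dvd
    have h4 : -m' - -m = 0 := by
      refine Int.eq_zero_of_abs_lt_dvd h3 ?_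
      have hXp : (X : ℤ) < p := by exact_mod_cast hX
      rw [abs_lt]
      constructor <;> omega
    omega

open Classical in
/-- the pairs of one point -/
private theorem st_pairs (k : ℤ) (X : ℕ) (Y : ℝ) (hY : 1 ≤ Y) (hXY : (X : ℝ) ≤ Y) (x : ℤ × ℤ × ℤ)
    (hn0 : 0 < nn k x.1 x.2.1 x.2.2) (hn : (nn k x.1 x.2.1 x.2.2 : ℝ) ≤ Y ^ 2) :
    ∑ y ∈ (Ss k X Y).filter (fun y => Lt y.2 y.1 x.1 x.2.1 x.2.2), (y.2 : ℝ) ≤ 12 * Y := by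
  obtain ⟨P, hP⟩ : ∃ P, P = (Ss k X Y).filter (fun y => Lt y.2 y.1 x.1 x.2.1 x.2.2) := ⟨_, rfl⟩
  rw [← hP]
  have hmem : ∀ y ∈ P, (y.1 ∈ Ioc (X : ℤ) (2 * X)) ∧ y.2.Prime ∧ Y < y.2 ∧ (y.2 : ℝ) ≤ 2 * Y ∧
      (y.2 : ℤ) ∣ y.1 ^ 3 + k ∧ Lt y.2 y.1 x.1 x.2.1 x.2.2 := by
    intro y hy
    rw [hP, mem_filter] at hy
    have h1 := hy.1
    unfold Ss at h1
    rw [mem_filter, mem_product] at h1
    exact ⟨h1.1.1, h1.2.1, h1.2.2.1, h1.2.2.2.1, h1.2.2.2.2, hy.2⟩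
  rcases P.eq_empty_or_nonempty with h0 | ⟨y0, hy0⟩
  · rw [h0, sum_empty]
    linarith
  have hsame : ∀ y ∈ P, y.2 = y0.2 := by
    intro y hy
    by_contra hne
    obtain ⟨-, a2, a3, -, a5, a6⟩ := hmem y hy
    obtain ⟨-, b2, b3, -, b5, b6⟩ := hmem y0 hy0
    have h1 : (y.2 : ℤ) ∣ nn k x.1 x.2.1 x.2.2 := lt_nn k _ _ _ _ _ a5 a6
    have h2 : (y0.2 : ℤ) ∣ nn k x.1 x.2.1 x.2.2 := lt_nn k _ _ _ _ _ b5 b6
    have hcop : IsCoprime (y.2 : ℤ) (y0.2 : ℤ) := by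
      rw [Nat.isCoprime_iff_coprime]
      exact (Nat.coprime_primes a2 b2).2 hne
    have h3 := hcop.mul_dvd h1 h2
    have h4 := Int.le_of_dvd hn0 h3
    have h5 : ((y.2 : ℝ) * (y0.2 : ℝ)) ≤ (nn k x.1 x.2.1 x.2.2 : ℝ) := by exact_mod_cast h4
    have h6 : Y * Y < (y.2 : ℝ) * (y0.2 : ℝ) := mul_lt_mul'' a3 b3 (by linarith) (by linarith)
    nlinarith
  obtain ⟨-, b2, b3, b4, -, -⟩ := hmem y0 hy0
  have hXp : X < y0.2 := by
    have : (X : ℝ) < y0.2 := by linarith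
    exact_mod_cast this
  have hc : P.card ≤ 3 := by
    refine le_trans ?_ (st_three k y0.2 X b2 hXp)
    refine card_le_card_of_injOn (fun y => y.1) ?_ ?_
    · intro y hy
      obtain ⟨a1, -, -, -, a5, -⟩ := hmem y hy
      rw [mem_coe, mem_filter]
      rw [hsame y hy] at a5
      exact ⟨a1, a5⟩
    · intro y hy y' hy' he
      exact Prod.ext he (by rw [hsame y hy, hsame y' hy'])
  have hs : ∑ y ∈ P, (y.2 : ℝ) ≤ ∑ y ∈ P, 2 * Y := sum_le_sum fun y hy => (hmem y hy).2.2.2.1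
  rw [sum_const, nsmul_eq_mul] at hs
  have hc' : (P.card : ℝ) ≤ 3 := by exact_mod_cast hc
  nlinarith

open Classical in
theorem sta (k : ℤ) (hk : ∀ t : ℤ, t ^ 3 ≠ k) (ε ε' : ℝ) (hε : 0 < ε) (hε' : 0 < ε') :
    ∃ w0 M0 : ℕ, 1 ≤ M0 ∧ ∀ w M : ℕ, w0 ≤ w → M0 ≤ M → ∃ R0 : ℝ, 1 ≤ R0 ∧ ∀ R : ℝ, R0 ≤ R →
    ∃ Y0 : ℝ, ∀ Y : ℝ, Y0 ≤ Y → ∀ A X : ℕ, R * Y ^ ((1 : ℝ) / 3) ≤ A →
    (A : ℝ) ≤ R * Y ^ ((1 : ℝ) / 3) + 1 → (X : ℝ) ≤ Y → ∀ E : Finset (ℤ × ℤ × ℤ), E ⊆ Bx k M A →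
    (1 - ε) * (A : ℝ) ^ 3 * Sw k X Y ≤ (QQ k w : ℝ) ^ 3 *
      (∑ x ∈ (Bx k M A \ E).filter (fun x => Cl k w x.1 x.2.1 x.2.2 ∧ Nice k ε' x.1 x.2.1 x.2.2),
        ∑ y ∈ (Ss k X Y).filter (fun y => Lt y.2 y.1 x.1 x.2.1 x.2.2), (y.2 : ℝ) +
      12 * Y * E.card) := by
  have hk0 : k ≠ 0 := fun h => hk 0 (by rw [h]; norm_num)
  obtain ⟨Kb, hKb, Mb, hMb, hbox⟩ := H23.LP.box k
  obtain ⟨w0, M1, hM1, hln⟩ := lnice k hk (ε / 2) ε' (by linarith) hε'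
  refine ⟨w0, max M1 Mb, hM1.trans (le_max_left _ _), fun w M hw hM => ?_⟩
  have hMM1 : M1 ≤ M := (le_max_left _ _).trans hM
  have hMMb : Mb ≤ M := (le_max_right _ _).trans hM
  obtain ⟨Rl, hRl, hlone⟩ := lone k hk w M (ε / 2) (by linarith)
  obtain ⟨R0', hR0', hln2⟩ := hln w M hw hMM1
  refine ⟨max (2 * Rl) (2 * R0'), by
    have : (1 : ℝ) ≤ 2 * Rl := by linarith
    exact this.trans (le_max_left _ _), fun R hR => ?_⟩
  have hRa : 2 * Rl ≤ R := (le_max_left _ _).trans hR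
  have hRb : 2 * R0' ≤ R := (le_max_right _ _).trans hR
  have hR2 : 2 ≤ R := by linarith
  obtain ⟨p0, hp0⟩ := hln2 (0.79 * R) (by linarith)
  obtain ⟨Kc, hKc⟩ : ∃ Kc : ℝ, Kc = Kb * (M : ℝ) ^ 3 * (R + 1) ^ 3 := ⟨_, rfl⟩
  refine ⟨QQ k w + p0 + |Kc| + 8, fun Y hY A X hA1 hA2 hXY E hE => ?_⟩
  have hQ : 0 < QQ k w := by
    unfold QQ
    have := Int.natAbs_pos.2 hk0
    have := Nat.factorial_pos w
    positivity
  have hQr : (0 : ℝ) < (QQ k w : ℝ) := by exact_mod_cast hQ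
  have hp0r : (0 : ℝ) ≤ p0 := Nat.cast_nonneg _
  have hKa : (0 : ℝ) ≤ |Kc| := abs_nonneg _
  have hY8 : 8 ≤ Y := by linarith
  have hYQ : (QQ k w : ℝ) ≤ Y := by linarith
  have hYp : (p0 : ℝ) ≤ Y := by linarith
  have hYK : Kc ≤ Y := by linarith [le_abs_self Kc]
  have hY0 : 0 < Y := by linarith
  obtain ⟨y3, hy3⟩ : ∃ y3 : ℝ, y3 = Y ^ ((1 : ℝ) / 3) := ⟨_, rfl⟩
  rw [← hy3] at hA1 hA2
  have hy3c : y3 ^ 3 = Y := by
    rw [hy3, ← Real.rpow_natCast, ← Real.rpow_mul hY0.le]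
    norm_num
  have hy32 : 2 ≤ y3 := by
    have h1 : (8 : ℝ) ^ ((1 : ℝ) / 3) ≤ Y ^ ((1 : ℝ) / 3) := Real.rpow_le_rpow (by norm_num) hY8 (by norm_num)
    have h2 : (8 : ℝ) ^ ((1 : ℝ) / 3) = 2 := by
      rw [show (8 : ℝ) = 2 ^ (3 : ℕ) by norm_num, ← Real.rpow_natCast, ← Real.rpow_mul (by norm_num)]
      norm_num
    rw [h2, ← hy3] at h1
    exact h1
  have hApos : (0 : ℝ) < A := lt_of_lt_of_le (by positivity) hA1
  have hA1n : 1 ≤ A := by exact_mod_cast hApos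
  -- primes
  have hprime : ∀ p : ℕ, Y < p → (p : ℝ) ≤ 2 * Y → y3 ≤ (p : ℝ) ^ ((1 : ℝ) / 3) ∧
      (p : ℝ) ^ ((1 : ℝ) / 3) ≤ 1.26 * y3 := by
    intro p h1 h2
    constructor
    · rw [hy3]
      exact Real.rpow_le_rpow hY0.le h1.le (by norm_num)
    · have h3 : (p : ℝ) ^ ((1 : ℝ) / 3) ≤ (1.26 ^ 3 * Y) ^ ((1 : ℝ) / 3) := by
        refine Real.rpow_le_rpow (by linarith) (h2.trans ?_) (by norm_num)
        nlinarith
      rw [Real.mul_rpow (by norm_num) hY0.le, ← hy3, ← Real.rpow_natCast, ← Real.rpow_mul (by norm_num)] at h3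
      norm_num at h3
      norm_num
      exact h3
  -- the norm
  have hnorm : ∀ x ∈ Bx k M A, 0 < nn k x.1 x.2.1 x.2.2 ∧ (nn k x.1 x.2.1 x.2.2 : ℝ) ≤ Y ^ 2 := by
    intro x hx
    unfold Bx at hx
    rw [mem_product, mem_product] at hx
    obtain ⟨-, h2, h3, -⟩ := hbox M A hMMb hA1n _ hx.1 _ hx.2.1 _ hx.2.2
    have hM0 : (0 : ℝ) < M := by
      have : 0 < M := by omega
      exact_mod_cast this
    constructor
    · have : (0 : ℝ) < (nn k x.1 x.2.1 x.2.2 : ℝ) := lt_of_lt_of_le (by positivity) h2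
      exact_mod_cast this
    · refine h3.trans ?_
      have h4 : (A : ℝ) ≤ (R + 1) * y3 := by linarith
      have h5 : (A : ℝ) ^ 3 ≤ (R + 1) ^ 3 * Y := by
        have := pow_le_pow_left₀ hApos.le h4 3
        rwa [mul_pow, hy3c] at this
      have h6 : Kb * ((M : ℝ) * A) ^ 3 ≤ Kc * Y := by
        have e : Kb * ((M : ℝ) * A) ^ 3 = Kb * (M : ℝ) ^ 3 * (A : ℝ) ^ 3 := by ring
        rw [e, hKc]
        have := mul_le_mul_of_nonneg_left h5 (by positivity : (0 : ℝ) ≤ Kb * (M : ℝ) ^ 3)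
        linarith
      have h7 : Kc * Y ≤ Y * Y := mul_le_mul_of_nonneg_right hYK hY0.le
      nlinarith
  obtain ⟨G, hG⟩ : ∃ G, G = (Bx k M A \ E).filter (fun x => Cl k w x.1 x.2.1 x.2.2 ∧
      Nice k ε' x.1 x.2.1 x.2.2) := ⟨_, rfl⟩
  rw [← hG]
  have hSs : ∀ y ∈ Ss k X Y, y.2.Prime ∧ Y < y.2 ∧ (y.2 : ℝ) ≤ 2 * Y ∧ (y.2 : ℤ) ∣ y.1 ^ 3 + k := by
    intro y hy
    unfold Ss at hy
    rw [mem_filter] at hy
    exact hy.2
  -- one pair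
  have hone : ∀ y ∈ Ss k X Y, (1 - ε) * (A : ℝ) ^ 3 ≤ (QQ k w : ℝ) ^ 3 *
      (∑ x ∈ G, (if Lt y.2 y.1 x.1 x.2.1 x.2.2 then (y.2 : ℝ) else 0) +
        ∑ x ∈ E, (if Lt y.2 y.1 x.1 x.2.1 x.2.2 then (y.2 : ℝ) else 0)) := by
    intro y hy
    obtain ⟨a1, a2, a3, a4⟩ := hSs y hy
    obtain ⟨q1, q2⟩ := hprime y.2 a2 a3
    have hpQ : Nat.Coprime y.2 (QQ k w) := by
      rw [a1.coprime_iff_not_dvd]
      intro h
      have h1 := Nat.le_of_dvd hQ h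
      have h2 : (y.2 : ℝ) ≤ QQ k w := by exact_mod_cast h1
      linarith
    have hpp : p0 ≤ y.2 := by
      have : (p0 : ℝ) ≤ y.2 := by linarith
      exact_mod_cast this
    have hR1 : 0.79 * R * (y.2 : ℝ) ^ ((1 : ℝ) / 3) ≤ A := by
      have h1 : 0.79 * R * (y.2 : ℝ) ^ ((1 : ℝ) / 3) ≤ 0.79 * R * (1.26 * y3) :=
        mul_le_mul_of_nonneg_left q2 (by linarith)
      have h2 : 0 < R * y3 := by positivity
      nlinarith
    have hR2' : (A : ℝ) ≤ 2 * (0.79 * R) * (y.2 : ℝ) ^ ((1 : ℝ) / 3) := by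
      have h1 : 2 * (0.79 * R) * y3 ≤ 2 * (0.79 * R) * (y.2 : ℝ) ^ ((1 : ℝ) / 3) :=
        mul_le_mul_of_nonneg_left q1 (by linarith)
      nlinarith
    have hR3 : Rl * (y.2 : ℝ) ^ ((1 : ℝ) / 3) ≤ A := by
      have h1 : Rl * (y.2 : ℝ) ^ ((1 : ℝ) / 3) ≤ Rl * (1.26 * y3) :=
        mul_le_mul_of_nonneg_left q2 (by linarith)
      have h2 : 0 < y3 := by linarith
      nlinarith
    have hb := hp0 y.2 A a1 hpp hR1 hR2' y.1 a4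
    have hl := hlone y.2 A a1.pos hpQ hR3 y.1 a4
    have hl' := (abs_le.1 hl).1
    obtain ⟨S, hS⟩ : ∃ S, S = (Bx k M A).filter fun x => Cl k w x.1 x.2.1 x.2.2 ∧
        Lt y.2 y.1 x.1 x.2.1 x.2.2 := ⟨_, rfl⟩
    obtain ⟨Sb, hSb⟩ : ∃ Sb, Sb = (Bx k M A).filter fun x => (Cl k w x.1 x.2.1 x.2.2 ∧
        Lt y.2 y.1 x.1 x.2.1 x.2.2) ∧ ¬ Nice k ε' x.1 x.2.1 x.2.2 := ⟨_, rfl⟩
    rw [← hS] at hl'
    rw [← hSb] at hb
    have hcov : S ⊆ Sb ∪ (G.filter (fun x => Lt y.2 y.1 x.1 x.2.1 x.2.2) ∪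
        E.filter (fun x => Lt y.2 y.1 x.1 x.2.1 x.2.2)) := by
      intro x hx
      rw [hS, mem_filter] at hx
      obtain ⟨c1, c2, c3⟩ := hx
      rw [mem_union, mem_union]
      by_cases hN : Nice k ε' x.1 x.2.1 x.2.2
      · right
        by_cases hxE : x ∈ E
        · right
          exact mem_filter.2 ⟨hxE, c3⟩
        · left
          rw [mem_filter, hG, mem_filter, mem_sdiff]
          exact ⟨⟨⟨c1, hxE⟩, c2, hN⟩, c3⟩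
      · left
        rw [hSb, mem_filter]
        exact ⟨c1, ⟨c2, c3⟩, hN⟩
    have hcard : (S.card : ℝ) ≤ Sb.card + ((G.filter (fun x => Lt y.2 y.1 x.1 x.2.1 x.2.2)).card +
        (E.filter (fun x => Lt y.2 y.1 x.1 x.2.1 x.2.2)).card) := by
      have h1 := (card_le_card hcov).trans ((card_union_le _ _).trans
        (Nat.add_le_add_left (card_union_le _ _) _))
      exact_mod_cast h1
    have hsum : ∀ T : Finset (ℤ × ℤ × ℤ), ∑ x ∈ T, (if Lt y.2 y.1 x.1 x.2.1 x.2.2 then (y.2 : ℝ) else 0) =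
        ((T.filter (fun x => Lt y.2 y.1 x.1 x.2.1 x.2.2)).card : ℝ) * y.2 := by
      intro T
      rw [← sum_filter, sum_const, nsmul_eq_mul]
    rw [hsum, hsum, ← add_mul]
    have hpos : (0 : ℝ) < (y.2 : ℝ) * (QQ k w : ℝ) ^ 3 := by
      have : (0 : ℝ) < y.2 := by linarith
      positivity
    have h3 := mul_le_mul_of_nonneg_right hcard hpos.le
    have e : (QQ k w : ℝ) ^ 3 * ((((G.filter (fun x => Lt y.2 y.1 x.1 x.2.1 x.2.2)).card : ℝ) +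
        (E.filter (fun x => Lt y.2 y.1 x.1 x.2.1 x.2.2)).card) * y.2) =
        ((G.filter (fun x => Lt y.2 y.1 x.1 x.2.1 x.2.2)).card +
        (E.filter (fun x => Lt y.2 y.1 x.1 x.2.1 x.2.2)).card) * ((y.2 : ℝ) * (QQ k w : ℝ) ^ 3) := by ring
    rw [e]
    rw [add_mul] at h3
    linarith
  -- the sum over the pairs
  have htot : (1 - ε) * (A : ℝ) ^ 3 * Sw k X Y ≤ ∑ y ∈ Ss k X Y, (QQ k w : ℝ) ^ 3 *
      (∑ x ∈ G, (if Lt y.2 y.1 x.1 x.2.1 x.2.2 then (y.2 : ℝ) else 0) +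
        ∑ x ∈ E, (if Lt y.2 y.1 x.1 x.2.1 x.2.2 then (y.2 : ℝ) else 0)) := by
    have h1 := sum_le_sum hone
    rw [sum_const, nsmul_eq_mul, ← Sw_eq] at h1
    linarith
  have hex : ∀ T : Finset (ℤ × ℤ × ℤ), ∑ y ∈ Ss k X Y, ∑ x ∈ T,
      (if Lt y.2 y.1 x.1 x.2.1 x.2.2 then (y.2 : ℝ) else 0) =
      ∑ x ∈ T, ∑ y ∈ (Ss k X Y).filter (fun y => Lt y.2 y.1 x.1 x.2.1 x.2.2), (y.2 : ℝ) := by
    intro T
    rw [sum_comm]
    refine sum_congr rfl fun x _ => ?_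
    rw [sum_filter]
  rw [← mul_sum, sum_add_distrib, hex, hex] at htot
  refine htot.trans (mul_le_mul_of_nonneg_left ?_ (by positivity))
  refine add_le_add le_rfl ?_
  have h1 : ∑ x ∈ E, ∑ y ∈ (Ss k X Y).filter (fun y => Lt y.2 y.1 x.1 x.2.1 x.2.2), (y.2 : ℝ) ≤
      ∑ x ∈ E, 12 * Y := by
    refine sum_le_sum fun x hx => ?_
    obtain ⟨n1, n2⟩ := hnorm x (hE hx)
    exact st_pairs k X Y (by linarith) hXY x n1 n2
  rw [sum_const, nsmul_eq_mul] at h1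
  linarith

end H96.DR
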