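import Pool.Agent.H96.DR.LatDef

/-!
# [DR SVC] a small vector in a subgroup of index `m`, 60-100 lines. File Pool/Agent/H96/DR/Svc.lean

Let `T` be the natural number with `T ^ 3 ≤ m < (T + 1) ^ 3` (e.g. `Nat.findGreatest (fun t => t ^ 3 ≤ m) m`, or `⌊(m : ℝ) ^ (1/3)⌋₊`). The `(T + 1) ^ 3 > m` points
`(a, b, c)` with `0 ≤ a, b, c ≤ T` have at most `m` classes modulo `Λ` (the quotient has `m` elements: `AddSubgroup.index`, `Nat.card`), so two different ones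
are in the same class (`Finset.exists_ne_map_eq_of_card_lt_of_maps_to`, or `Fintype`), the difference `v` is not zero, in `Λ`, with coordinates `≤ T` in absolute value,
and `T ≤ m ^ (1/3)` (`T ^ 3 ≤ m`, `Real.rpow`).
-/

set_option autoImplicit false

namespace H96.DR

open Finset

private theorem svc_T (m : ℕ) : ∃ T : ℕ, T ^ 3 ≤ m ∧ m < (T + 1) ^ 3 := by
  refine ⟨Nat.findGreatest (fun t => t ^ 3 ≤ m) m, ?_, ?_⟩
  · exact Nat.findGreatest_spec (P := fun t => t ^ 3 ≤ m) (m := 0) (Nat.zero_le _) (by simp)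
  · by_contra h
    push Not at h
    have h1 : Nat.findGreatest (fun t => t ^ 3 ≤ m) m + 1 ≤ m :=
      (Nat.le_self_pow (by norm_num) _).trans h
    have h2 := Nat.le_findGreatest (P := fun t => t ^ 3 ≤ m) h1 h
    omega

private theorem svc_le {T m : ℕ} (h : T ^ 3 ≤ m) : (T : ℝ) ≤ (m : ℝ) ^ ((1 : ℝ) / 3) := by
  have h1 : ((T : ℝ) ^ (3 : ℕ)) ^ ((1 : ℝ) / 3) = T := by
    rw [← Real.rpow_natCast, ← Real.rpow_mul (Nat.cast_nonneg T)]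
    norm_num
  rw [← h1]
  apply Real.rpow_le_rpow (by positivity) _ (by norm_num)
  exact_mod_cast h

private theorem svc_abs {T : ℕ} {a b : ℕ} (ha : a < T + 1) (hb : b < T + 1) : |(((a : ℤ) - (b : ℤ) : ℤ) : ℝ)| ≤ T := by
  have h1 : |((a : ℤ) - (b : ℤ))| ≤ (T : ℤ) := by
    rw [abs_le]
    constructor <;> omega
  exact_mod_cast h1

theorem small_vec (Λ : AddSubgroup (ℤ × ℤ × ℤ)) (m : ℕ) (hm : Λ.index = m) (hm0 : 0 < m) :
    ∃ v ∈ Λ, v ≠ 0 ∧ Nm ((m : ℝ) ^ ((1 : ℝ) / 3)) v := by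
  classical
  obtain ⟨T, hT1, hT2⟩ := svc_T m
  have hcard : Nat.card ((ℤ × ℤ × ℤ) ⧸ Λ) = m := by
    rw [← AddSubgroup.index_eq_card, hm]
  have hfin : Finite ((ℤ × ℤ × ℤ) ⧸ Λ) := Nat.finite_of_card_ne_zero (by rw [hcard]; exact hm0.ne')
  have hft : Fintype ((ℤ × ℤ × ℤ) ⧸ Λ) := Fintype.ofFinite _
  have h1 : Fintype.card ((ℤ × ℤ × ℤ) ⧸ Λ) < Fintype.card (Fin (T + 1) × Fin (T + 1) × Fin (T + 1)) := by
    rw [Fintype.card_prod, Fintype.card_prod, Fintype.card_fin, ← Nat.card_eq_fintype_card, hcard]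
    calc m < (T + 1) ^ 3 := hT2
      _ = (T + 1) * ((T + 1) * (T + 1)) := by ring
  obtain ⟨x, y, hxy, he⟩ := Fintype.exists_ne_map_eq_of_card_lt
    (fun p : Fin (T + 1) × Fin (T + 1) × Fin (T + 1) =>
      (QuotientAddGroup.mk (((p.1 : ℕ) : ℤ), ((p.2.1 : ℕ) : ℤ), ((p.2.2 : ℕ) : ℤ)) : (ℤ × ℤ × ℤ) ⧸ Λ)) h1
  have h2 := (QuotientAddGroup.eq (s := Λ)).1 he.symm
  refine ⟨_, h2, ?_, ?_⟩
  · intro h0
    apply hxy
    have h3 : ((((x.1 : ℕ) : ℤ)), ((x.2.1 : ℕ) : ℤ), ((x.2.2 : ℕ) : ℤ)) =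
        (((y.1 : ℕ) : ℤ), ((y.2.1 : ℕ) : ℤ), ((y.2.2 : ℕ) : ℤ)) := by
      rw [neg_add_eq_sub, sub_eq_zero] at h0
      exact h0
    obtain ⟨h4, h5⟩ := Prod.mk.inj h3
    obtain ⟨h5, h6⟩ := Prod.mk.inj h5
    refine Prod.ext (Fin.ext ?_) (Prod.ext (Fin.ext ?_) (Fin.ext ?_))
    · exact_mod_cast h4
    · exact_mod_cast h5
    · exact_mod_cast h6
  · have h7 := svc_le hT1
    rw [neg_add_eq_sub]
    exact ⟨(svc_abs x.1.2 y.1.2).trans h7, (svc_abs x.2.1.2 y.2.1.2).trans h7, (svc_abs x.2.2.2 y.2.2.2).trans h7⟩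

end H96.DR
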