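import Pool.Agent.H96.DR.LDef
import Pool.Agent.H6.LP.Cub

/-!
# [DR THD] the norm does not vanish; multiplication by `θ`, 60-100 lines. File Pool/Agent/H96/DR/Thd.lean

`nn_ne`: let `nn = 0`. By `H23.LP.id_kCB`: `BB³ = k CC³`. If `CC ≠ 0` or `BB ≠ 0` this contradicts `H6.LP.DD_ne` (`DD k BB CC = BB³ - k CC³`; check the
namespace of `DD_ne` in `H6/LP/Cub.lean`; or repeat its proof). So `b² = a c`, `a b = k c²`, hence `b³ = a b c = k c³`, so by `DD_ne` again `b = c = 0`, and then `nn = a³ = 0`, `a = 0`.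
`det_th`: `ring` (unfold `det3`, `nn`).
`thc_LQ`, `thc_Lr` (`k c - a m + b m² = -m (a - b m + c m²) + c (m³ + k)`), `thc_Lb` (`k c - ρ² b = -ρ² (b - ρ c) - (ρ³ - k) c`,
`a - ρ b = (a - ρ² c) - ρ (b - ρ c)`), `thc_inf`.
-/

set_option autoImplicit false

namespace H96.DR

open Finset H23.LP

private theorem cub0 (k : ℤ) (hk : ∀ t : ℤ, t ^ 3 ≠ k) (u v : ℤ) (h : u ^ 3 = k * v ^ 3) :
    u = 0 ∧ v = 0 := by
  by_cases hv : v = 0
  · subst hv
    have h2 : u ^ 3 = 0 := by rw [h]; ring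
    exact ⟨(pow_eq_zero_iff (by norm_num)).1 h2, rfl⟩
  · exfalso
    have h2 : v ^ 3 ∣ u ^ 3 := ⟨k, by rw [h]; ring⟩
    have h3 : v ∣ u := (Int.pow_dvd_pow_iff (by norm_num)).1 h2
    obtain ⟨w, rfl⟩ := h3
    apply hk w
    have h4 : v ^ 3 * w ^ 3 = v ^ 3 * k := by rw [← mul_pow, h]; ring
    exact mul_left_cancel₀ (pow_ne_zero 3 hv) h4

theorem nn_ne (k : ℤ) (hk : ∀ t : ℤ, t ^ 3 ≠ k) (a b c : ℤ) (h : (a, b, c) ≠ (0, 0, 0)) :
    nn k a b c ≠ 0 := by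
  intro h0
  have h1 := H23.LP.id_kCB k a b c
  rw [h0, zero_mul] at h1
  obtain ⟨hB, hC⟩ := cub0 k hk (BB k a b c) (CC a b c) (by linarith)
  simp only [BB, CC] at hB hC
  have h3 : b ^ 3 = k * c ^ 3 := by
    linear_combination b * hC - c * hB
  obtain ⟨hb, hc⟩ := cub0 k hk b c h3
  subst hb; subst hc
  have h4 : a ^ 3 = 0 := by
    have := h0
    simp only [nn] at this
    linear_combination this
  have h5 : a = 0 := (pow_eq_zero_iff (by norm_num)).1 h4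
  subst h5
  exact h rfl

theorem det_th (k a b c : ℤ) : det3 (a, b, c) (k * c, a, b) (k * b, k * c, a) = nn k a b c := by
  simp only [det3, nn]
  ring

theorem thc_LQ (k Q : ℤ) : Thc k (LQ Q) := by
  intro a b c h
  rw [mem_LQ] at h ⊢
  exact ⟨h.2.2.mul_left k, h.1, h.2.1⟩

theorem thc_Lr (k r m : ℤ) (h : r ∣ m ^ 3 + k) : Thc k (Lr r m) := by
  intro a b c h1
  rw [mem_Lr] at h1 ⊢
  simp only [Lt] at h1 ⊢
  have h2 : k * c - a * m + b * m ^ 2 = (a - b * m + c * m ^ 2) * (-m) + (m ^ 3 + k) * c := by ring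
  rw [h2]
  exact dvd_add (h1.mul_right _) (h.mul_right _)

theorem thc_Lb (k p ρ : ℤ) (h : p ∣ ρ ^ 3 - k) : Thc k (Lb p ρ) := by
  intro a b c h1
  rw [mem_Lb] at h1 ⊢
  obtain ⟨h2, h3⟩ := h1
  dsimp only at h2 h3 ⊢
  constructor
  · have h4 : k * c - ρ ^ 2 * b = (b - ρ * c) * (-ρ ^ 2) + (ρ ^ 3 - k) * (-c) := by ring
    rw [h4]
    exact dvd_add (h3.mul_right _) (h.mul_right _)
  · have h4 : a - ρ * b = (a - ρ ^ 2 * c) + (b - ρ * c) * (-ρ) := by ring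
    rw [h4]
    exact dvd_add h2 (h3.mul_right _)

theorem thc_inf (k : ℤ) (Λ Λ' : AddSubgroup (ℤ × ℤ × ℤ)) (h : Thc k Λ) (h' : Thc k Λ') :
    Thc k (Λ ⊓ Λ') := by
  intro a b c h1
  rw [AddSubgroup.mem_inf] at h1 ⊢
  exact ⟨h a b c h1.1, h' a b c h1.2⟩

end H96.DR
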