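import Pool.Agent.H96.DR.Lat
import Pool.Agent.H96.DR.Thd
import Pool.Agent.H96.DR.Svc

/-!
# [DR THC] points of a coset of a `θ`-closed subgroup in a box, 60-100 lines. File Pool/Agent/H96/DR/Thc.lean

`v = (a, b, c)` from `small_vec`, `v1 = v`, `v2 = (k c, a, b)`, `v3 = (k b, k c, a)`: all in `Λ` (`Thc` twice), `det3 v1 v2 v3 = nn k a b c ≠ 0` (`det_th`, `nn_ne`), and
`Nm D v_i` with `D = (|k| + 1) m^(1/3)`. So `lat3` with this `D`.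
`thc_le`: `cnt ≤ (A + 6D)³/m ≤ 4 (A³ + 216 D³)/m` (`(x + y)³ ≤ 4 (x³ + y³)` for `x, y ≥ 0`), `D³ = (|k| + 1)³ m`; so `cnt ≤ 4 A³/m + 864 (|k| + 1)³ ≤ 864 (|k|+1)³ (A³/m + 1)`.
-/

set_option autoImplicit false

namespace H96.DR

open Finset H23.LP

private theorem thc_aux (k : ℤ) (m : ℕ) (t : ℤ) (h : |(t : ℝ)| ≤ (m : ℝ) ^ ((1 : ℝ) / 3)) :
    |(t : ℝ)| ≤ (|(k : ℝ)| + 1) * (m : ℝ) ^ ((1 : ℝ) / 3) ∧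
      |((k * t : ℤ) : ℝ)| ≤ (|(k : ℝ)| + 1) * (m : ℝ) ^ ((1 : ℝ) / 3) := by
  have h0 : (0 : ℝ) ≤ (m : ℝ) ^ ((1 : ℝ) / 3) := by positivity
  have h1 : (0 : ℝ) ≤ |(k : ℝ)| := abs_nonneg _
  have h2 := mul_nonneg h1 h0
  have h3 := mul_le_mul_of_nonneg_left h h1
  constructor
  · linarith
  · push_cast
    rw [abs_mul]
    linarith

theorem thc_cnt (k : ℤ) (hk : ∀ t : ℤ, t ^ 3 ≠ k) (Λ : AddSubgroup (ℤ × ℤ × ℤ)) (hΛ : Thc k Λ) (m : ℕ)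
    (hm : Λ.index = m) (hm0 : 0 < m) (x0 : ℤ × ℤ × ℤ) (α β γ : ℤ) (A : ℕ) :
    (m : ℝ) * cnt Λ x0 α β γ A ≤ ((A : ℝ) + 6 * ((|(k : ℝ)| + 1) * (m : ℝ) ^ ((1 : ℝ) / 3))) ^ 3 ∧
      (6 * ((|(k : ℝ)| + 1) * (m : ℝ) ^ ((1 : ℝ) / 3)) ≤ A →
        ((A : ℝ) - 6 * ((|(k : ℝ)| + 1) * (m : ℝ) ^ ((1 : ℝ) / 3))) ^ 3 ≤ (m : ℝ) * cnt Λ x0 α β γ A) := by
  obtain ⟨⟨a, b, c⟩, hv, hv0, n1, n2, n3⟩ := small_vec Λ m hm hm0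
  have h2 : (k * c, a, b) ∈ Λ := hΛ a b c hv
  have h3 : (k * b, k * c, a) ∈ Λ := hΛ (k * c) a b h2
  have hd : det3 (a, b, c) (k * c, a, b) (k * b, k * c, a) ≠ 0 := by
    rw [det_th]
    exact nn_ne k hk a b c hv0
  obtain ⟨ka, -⟩ := thc_aux k m a n1
  obtain ⟨kb, kb'⟩ := thc_aux k m b n2
  obtain ⟨kc, kc'⟩ := thc_aux k m c n3
  exact lat3 Λ m hm hm0 (a, b, c) (k * c, a, b) (k * b, k * c, a) hv h2 h3 hd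
    ((|(k : ℝ)| + 1) * (m : ℝ) ^ ((1 : ℝ) / 3)) (by positivity) ⟨ka, kb, kc⟩ ⟨kc', ka, kb⟩
    ⟨kb', kc', ka⟩ x0 α β γ A

theorem thc_le (k : ℤ) (hk : ∀ t : ℤ, t ^ 3 ≠ k) (Λ : AddSubgroup (ℤ × ℤ × ℤ)) (hΛ : Thc k Λ) (m : ℕ)
    (hm : Λ.index = m) (hm0 : 0 < m) (x0 : ℤ × ℤ × ℤ) (α β γ : ℤ) (A : ℕ) :
    (cnt Λ x0 α β γ A : ℝ) ≤ 864 * (|(k : ℝ)| + 1) ^ 3 * ((A : ℝ) ^ 3 / m + 1) := by
  have hm1 : (0 : ℝ) < m := by exact_mod_cast hm0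
  have h := (thc_cnt k hk Λ hΛ m hm hm0 x0 α β γ A).1
  obtain ⟨D, hD⟩ : ∃ D : ℝ, D = (|(k : ℝ)| + 1) * (m : ℝ) ^ ((1 : ℝ) / 3) := ⟨_, rfl⟩
  rw [← hD] at h
  have hD0 : 0 ≤ D := by rw [hD]; positivity
  have hD3 : D ^ 3 = (|(k : ℝ)| + 1) ^ 3 * m := by
    rw [hD, mul_pow, ← Real.rpow_natCast ((m : ℝ) ^ ((1 : ℝ) / 3)) 3, ← Real.rpow_mul hm1.le]
    norm_num
  have hA0 : (0 : ℝ) ≤ (A : ℝ) := Nat.cast_nonneg A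
  have h4 : ((A : ℝ) + 6 * D) ^ 3 ≤ 4 * ((A : ℝ) ^ 3 + 216 * D ^ 3) := by
    nlinarith [mul_nonneg (add_nonneg hA0 (mul_nonneg (by norm_num : (0 : ℝ) ≤ 6) hD0))
      (sq_nonneg ((A : ℝ) - 6 * D))]
  have hK : (1 : ℝ) ≤ (|(k : ℝ)| + 1) ^ 3 := by
    have : (1 : ℝ) ≤ |(k : ℝ)| + 1 := by linarith [abs_nonneg (k : ℝ)]
    exact one_le_pow₀ this
  rw [hD3] at h4
  have h5 : (m : ℝ) * cnt Λ x0 α β γ A ≤ 4 * ((A : ℝ) ^ 3 + 216 * ((|(k : ℝ)| + 1) ^ 3 * m)) := h.trans h4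
  have h6 : (cnt Λ x0 α β γ A : ℝ) ≤ 4 * ((A : ℝ) ^ 3 + 216 * ((|(k : ℝ)| + 1) ^ 3 * m)) / m := by
    rw [le_div_iff₀ hm1]
    linarith
  refine h6.trans ?_
  have e : 4 * ((A : ℝ) ^ 3 + 216 * ((|(k : ℝ)| + 1) ^ 3 * m)) / m =
      4 * ((A : ℝ) ^ 3 / m) + 864 * (|(k : ℝ)| + 1) ^ 3 := by
    field_simp
    ring
  rw [e]
  have h7 : (0 : ℝ) ≤ (A : ℝ) ^ 3 / m := by positivity
  nlinarith [mul_le_mul_of_nonneg_right hK h7]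

end H96.DR
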