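import Pool.Agent.H19.QV.QTH
import Pool.Agent.H24.W.D2

/-!
# [DR TQ] theorem Q with general periodic factors, 60-110 lines. File Pool/Agent/H96/DR/Tq.lean

The same proof as `Pool/Agent/H19/QV/QTH.lean` (`theoremQ`), which has `g1 = K q1 l1`, `g2 = K q2 l2`: put `H1 = ⌊T/p1⌋₊ ≥ 1`, `H2 = ⌊T/p2⌋₊ ≥ 1`, so `H_j p_j ≤ T`, `H_j ≥ T/(2 p_j)`; `two_step` with `g1`, `g2`, `k = K q0 l`:
`8 T⁴/H1² ≤ 32 T² p1²`, `64 T⁴/H2 ≤ 128 T³ p2`. The inner sums are `∑_{u ≤ y < v'} K4 q0 l (r p1) (i p2) y` (unfold `K4`; `v' - u ≤ T`): `completion` with the Fourier coefficients `G q0 l (r p1) (i p2) t` and `G_sqf` (with `C = 9`, `κ = 1/2`: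
`Pool.Agent.H24.W.weil_main`) give `(T/q0 + 1 + log q0) 9^ω(q0) q0^(1/2) gcd(l, q0) gcd(r p1, q0) gcd(i p2, q0)`, `gcd(r p1, q0) = gcd(r, q0)` (`gcd_mul_coprime`), sum over `r < H1`, `i < H2` with `sum_gcd`. Copy the proof of `theoremQ` and change
the two periodic factors (`p1`, `p2` need not be coprime).
-/

set_option autoImplicit false

namespace H96.DR

open Finset Pool.Agent.H19.QV

private theorem floor_facts (T : ℝ) (q : ℕ) (hq : 1 ≤ q) (hT : (q : ℝ) ≤ T) :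
    1 ≤ ⌊T / q⌋₊ ∧ ((⌊T / q⌋₊ : ℕ) : ℝ) * q ≤ T ∧ T / (2 * q) ≤ ((⌊T / q⌋₊ : ℕ) : ℝ) := by
  have hq' : (0 : ℝ) < q := by exact_mod_cast hq
  have h1 : (1 : ℝ) ≤ T / q := by rwa [le_div_iff₀ hq', one_mul]
  have h2 : 1 ≤ ⌊T / q⌋₊ := by
    rw [Nat.one_le_floor_iff]
    exact h1
  have h3 : ((⌊T / q⌋₊ : ℕ) : ℝ) ≤ T / q := Nat.floor_le (by linarith)
  have h4 : T / q < (⌊T / q⌋₊ : ℕ) + 1 := Nat.lt_floor_add_one _
  have h5 : (1 : ℝ) ≤ ((⌊T / q⌋₊ : ℕ) : ℝ) := by exact_mod_cast h2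
  refine ⟨h2, ?_, ?_⟩
  · rwa [le_div_iff₀ hq'] at h3
  · have : T / (2 * q) = (T / q) / 2 := by field_simp
    rw [this]
    linarith

theorem tq (q0 p1 p2 : ℕ) (hq0 : 0 < q0) (h0 : Squarefree q0) (hp1 : 1 ≤ p1) (hp2 : 1 ≤ p2)
    (h01 : Nat.Coprime q0 p1) (h02 : Nat.Coprime q0 p2) (T : ℝ) (hT1 : (p1 : ℝ) ≤ T)
    (hT2 : (p2 : ℝ) ≤ T) (u v : ℤ) (huv : ((v - u : ℤ) : ℝ) ≤ T) (l : ℤ) (g1 g2 : ℤ → ℂ)
    (hg1 : ∀ y, g1 (y + p1) = g1 y) (hg1' : ∀ y, ‖g1 y‖ ≤ 1)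
    (hg2 : ∀ y, g2 (y + p2) = g2 y) (hg2' : ∀ y, ‖g2 y‖ ≤ 1) :
    ‖∑ y ∈ Finset.Ico u v, g1 y * (g2 y * K q0 l y)‖ ^ 4 ≤
      32 * T ^ 2 * (p1 : ℝ) ^ 2 + 128 * T ^ 3 * p2 +
        128 * T ^ 3 * (T / q0 + 1 + Real.log q0) * 9 ^ q0.primeFactors.card *
          (q0 : ℝ) ^ ((1 : ℝ) / 2) * Int.gcd l q0 * (q0.divisors.card : ℝ) ^ 2 := by
  have hW := Pool.Agent.H24.W.weil_main
  obtain ⟨C, hCd⟩ : ∃ C : ℝ, C = 9 := ⟨_, rfl⟩
  obtain ⟨κ, hκd⟩ : ∃ κ : ℝ, κ = 1 / 2 := ⟨_, rfl⟩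
  rw [← hCd, ← hκd] at hW
  have hC : 2 ≤ C := by rw [hCd]; norm_num
  have hκ : 0 ≤ κ := by rw [hκd]; norm_num
  rw [← hCd, ← hκd]
  have hq1' : (0 : ℝ) < p1 := by exact_mod_cast hp1
  have hq2' : (0 : ℝ) < p2 := by exact_mod_cast hp2
  have hq0' : (0 : ℝ) < q0 := by exact_mod_cast hq0
  have hq1'' : (1 : ℝ) ≤ p1 := by exact_mod_cast hp1
  have hT0 : (0 : ℝ) < T := by linarith
  obtain ⟨hH1, hH1T, hH1'⟩ := floor_facts T p1 hp1 hT1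
  obtain ⟨hH2, hH2T, hH2'⟩ := floor_facts T p2 hp2 hT2
  set H1 := ⌊T / p1⌋₊ with hH1def
  set H2 := ⌊T / p2⌋₊ with hH2def
  have hH1r : (0 : ℝ) < H1 := by exact_mod_cast hH1
  have hH2r : (0 : ℝ) < H2 := by exact_mod_cast hH2
  have key := two_step (fun y => g1 y) (fun y => g2 y)
    (fun y => K q0 l y) p1 p2 H1 H2 T u v hp1 hp2 hH1 hH2 hH1T hH2T huv
    hg1 hg1'
    hg2 hg2' (fun y => norm_K_le _ _ _)
  refine key.trans ?_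
  -- the three terms
  have t1 : 8 * T ^ 4 / (H1 : ℝ) ^ 2 ≤ 32 * T ^ 2 * (p1 : ℝ) ^ 2 := by
    rw [div_le_iff₀ (by positivity)]
    have h1 : T ≤ 2 * p1 * H1 := by
      rw [div_le_iff₀ (by positivity)] at hH1'
      linarith
    have h2 : T ^ 2 ≤ (2 * p1 * H1) ^ 2 := pow_le_pow_left₀ hT0.le h1 2
    nlinarith [mul_le_mul_of_nonneg_left h2 (by positivity : (0 : ℝ) ≤ 8 * T ^ 2)]
  have t2 : 64 * T ^ 4 / (H2 : ℝ) ≤ 128 * T ^ 3 * p2 := by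
    rw [div_le_iff₀ hH2r]
    have h1 : T ≤ 2 * p2 * H2 := by
      rw [div_le_iff₀ (by positivity)] at hH2'
      linarith
    nlinarith [mul_le_mul_of_nonneg_left h1 (by positivity : (0 : ℝ) ≤ 64 * T ^ 3)]
  set E : ℝ := (T / q0 + 1 + Real.log q0) * C ^ q0.primeFactors.card * (q0 : ℝ) ^ κ *
    Int.gcd l q0 with hE
  have hlog : 0 ≤ Real.log q0 := Real.log_nonneg (by exact_mod_cast hq0)
  have hE0 : 0 ≤ E := by positivity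
  have hU : ∀ r i : ℕ, ‖∑ y ∈ Finset.Ico u (v - (r : ℤ) * p1 - (i : ℤ) * p2),
      K q0 l (y + (r : ℤ) * p1 + (i : ℤ) * p2) *
        (starRingEnd ℂ) (K q0 l (y + (i : ℤ) * p2)) *
        (starRingEnd ℂ) (K q0 l (y + (r : ℤ) * p1)) * K q0 l y‖ ≤
      E * ((Nat.gcd r q0 : ℝ) * Nat.gcd i q0) := by
    intro r i
    have hper : ∀ y : ℤ, K4 q0 l ((r : ℤ) * p1) ((i : ℤ) * p2) (y + q0) =
        K4 q0 l ((r : ℤ) * p1) ((i : ℤ) * p2) y := by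
      intro y
      unfold K4
      congr 1
      · congr 1
        · congr 1
          · exact K_congr q0 hq0 _ _ _ (by ring_nf; simp)
          · congr 1
            exact K_congr q0 hq0 _ _ _ (by ring_nf; simp)
        · congr 1
          exact K_congr q0 hq0 _ _ _ (by ring_nf; simp)
      · exact K_congr q0 hq0 _ _ _ (by simp)
    have hB := fun t : ℤ => G_sqf C κ hW hC hκ q0 h0 l ((r : ℤ) * p1) ((i : ℤ) * p2) t
    have hlen : ((v - (r : ℤ) * p1 - (i : ℤ) * p2 - u : ℤ) : ℝ) ≤ T := by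
      refine le_trans ?_ huv
      push_cast
      have a1 : (0 : ℝ) ≤ (r : ℝ) * p1 := by positivity
      have a2 : (0 : ℝ) ≤ (i : ℝ) * p2 := by positivity
      linarith
    have hcomp := completion q0 hq0 (K4 q0 l ((r : ℤ) * p1) ((i : ℤ) * p2)) hper _ hB u
      (v - (r : ℤ) * p1 - (i : ℤ) * p2) T hT0.le hlen
    refine hcomp.trans (le_of_eq ?_)
    rw [gcd_mul_coprime (r : ℤ) (p1 : ℤ) q0 (Nat.isCoprime_iff_coprime.mpr h01.symm),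
      gcd_mul_coprime (i : ℤ) (p2 : ℤ) q0 (Nat.isCoprime_iff_coprime.mpr h02.symm),
      Int.gcd_natCast_natCast, Int.gcd_natCast_natCast, hE]
    ring
  have hsum : ∑ r ∈ Finset.Ico 1 H1, ∑ i ∈ Finset.Ico 1 H2,
      ‖∑ y ∈ Finset.Ico u (v - (r : ℤ) * p1 - (i : ℤ) * p2),
      K q0 l (y + (r : ℤ) * p1 + (i : ℤ) * p2) *
        (starRingEnd ℂ) (K q0 l (y + (i : ℤ) * p2)) *
        (starRingEnd ℂ) (K q0 l (y + (r : ℤ) * p1)) * K q0 l y‖ ≤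
      E * ((H1 * q0.divisors.card) * (H2 * q0.divisors.card)) := by
    refine (Finset.sum_le_sum fun r _ => Finset.sum_le_sum fun i _ => hU r i).trans ?_
    rw [show ∑ r ∈ Finset.Ico 1 H1, ∑ i ∈ Finset.Ico 1 H2, E * ((Nat.gcd r q0 : ℝ) * Nat.gcd i q0) =
      E * ((∑ r ∈ Finset.Ico 1 H1, (Nat.gcd r q0 : ℝ)) * ∑ i ∈ Finset.Ico 1 H2, (Nat.gcd i q0 : ℝ)) by
        rw [Finset.sum_mul_sum, Finset.mul_sum]
        exact Finset.sum_congr rfl fun r _ => by rw [Finset.mul_sum]]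
    apply mul_le_mul_of_nonneg_left _ hE0
    apply mul_le_mul (sum_gcd q0 hq0 H1) (sum_gcd q0 hq0 H2)
    · exact Finset.sum_nonneg fun i _ => Nat.cast_nonneg _
    · positivity
  have t3 : 128 * T ^ 3 / ((H1 : ℝ) * H2) * ∑ r ∈ Finset.Ico 1 H1, ∑ i ∈ Finset.Ico 1 H2,
      ‖∑ y ∈ Finset.Ico u (v - (r : ℤ) * p1 - (i : ℤ) * p2),
      K q0 l (y + (r : ℤ) * p1 + (i : ℤ) * p2) *
        (starRingEnd ℂ) (K q0 l (y + (i : ℤ) * p2)) *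
        (starRingEnd ℂ) (K q0 l (y + (r : ℤ) * p1)) * K q0 l y‖ ≤
      128 * T ^ 3 * (T / q0 + 1 + Real.log q0) * C ^ q0.primeFactors.card * (q0 : ℝ) ^ κ *
          Int.gcd l q0 * (q0.divisors.card : ℝ) ^ 2 := by
    refine (mul_le_mul_of_nonneg_left hsum (by positivity)).trans (le_of_eq ?_)
    rw [hE]
    field_simp
  exact add_le_add (add_le_add t1 t2) t3

end H96.DR
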